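import Pool.Agent.H51.TT.Defs

/-!
# Module Apx: approximation at places of different residue characteristics

PROOF.  All indices `≤ n`.  For each `j ≤ n` we choose an algebraic integer `u_j ∈ k` with
prescribed residue at `V j` (`Plc.lift`) and an integer `e_j` with `e_j ≡ 1 mod p_j`,
`e_j ≡ 0 mod p_i` for `i ≤ n`, `i ≠ j` (Chinese remainder theorem: different primes are coprime).
`z = ∑_{j ≤ n} e_j u_j` is an algebraic integer, so in every `(V i).O` (`Plc.int`), and
`ρ_i z = ρ_i u_i`, since `ρ_i` of the integer `e_j` is its class in characteristic `p_i`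
(`map_intCast`, `CharP.intCast_eq_zero_iff`).
`apx_M`: `u_j` with residue `c j`; `x e = z + e * ∏_{j ≤ n} p_j` for `e = 0, 1, 2`: different
because `k` has characteristic `0`, and the second summand has residue `0` at all `V j`, `j ≤ n`.
`apx_S`: `u_m = 1` and for `j ≠ m`, `u_j` with residue `(p_m : κ_j) * c j`.  Then `x = z / p_m`.
At `m`: `ρ_m z = 1`, so `z` is a unit of `(V m).O`, `z ≠ 0`, `w = p_m z⁻¹ ∈ (V m).O`,
`ρ_m w = 0`, `x w = 1`.  At `j ≠ m`: `(p_m : κ_j) ≠ 0`, so `p_m` is a unit in `(V j).O`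
(`Plc.unit`), `x = z p_m⁻¹ ∈ (V j).O` and `ρ_j x = c j`.
-/

set_option autoImplicit false

open Polynomial

namespace Pool.Agent.H51.TT

universe u

/-- idempotent integers modulo the residue characteristics -/
private theorem apx_e {k : Type u} [Field k] (V : ℕ → Plc k)
    (hV : ∀ i j, i ≠ j → (V i).p ≠ (V j).p) (n j : ℕ) :
    ∃ e : ℤ, (e : (V j).κ) = 1 ∧ ∀ i ≤ n, i ≠ j → (e : (V i).κ) = 0 := by
  classical
  let N : ℕ := ∏ i ∈ (Finset.range (n + 1)).erase j, (V i).p
  have hco : Nat.Coprime N (V j).p := by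
    refine Nat.Coprime.prod_left fun i hi => ?_
    exact (Nat.coprime_primes (V i).prime.out (V j).prime.out).2 (hV i j (Finset.ne_of_mem_erase hi))
  have h1 : IsCoprime (N : ℤ) ((V j).p : ℤ) := Nat.isCoprime_iff_coprime.2 hco
  obtain ⟨a, b, hab⟩ := h1
  refine ⟨a * N, ?_, fun i hi hij => ?_⟩
  · have h2 : ((V j).p : (V j).κ) = 0 := CharP.cast_eq_zero _ _
    have h3 := congrArg (fun z : ℤ => (z : (V j).κ)) hab
    push_cast at h3
    rw [h2, mul_zero, add_zero] at h3
    push_cast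
    exact h3
  · have h2 : ((V i).p : (V i).κ) = 0 := CharP.cast_eq_zero _ _
    have h3 : (V i).p ∣ N :=
      Finset.dvd_prod_of_mem _ (Finset.mem_erase.2 ⟨hij, Finset.mem_range.2 (by omega)⟩)
    obtain ⟨c, hc⟩ := h3
    rw [hc]
    push_cast
    rw [h2]
    ring

/-- simultaneous lifting of residues by algebraic integers -/
private theorem apx_z {k : Type u} [Field k] (V : ℕ → Plc k)
    (hV : ∀ i j, i ≠ j → (V i).p ≠ (V j).p) (n : ℕ) (c : (j : ℕ) → (V j).κ) :
    ∃ z : k, IsIntegral ℤ z ∧ ∀ j ≤ n, ∃ y : (V j).O, (y : k) = z ∧ (V j).ρ y = c j := by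
  classical
  have h1 : ∀ j, ∃ x : (V j).O, IsIntegral ℤ (x : k) ∧ (V j).ρ x = c j := fun j => (V j).lift (c j)
  choose u hu huc using h1
  have h2 := fun j => apx_e V hV n j
  choose e he1 he0 using h2
  have hint : ∀ m, IsIntegral ℤ ((e m : k) * (u m : k)) := by
    intro m
    exact (isIntegral_algebraMap (R := ℤ) (x := e m)).mul (hu m)
  refine ⟨∑ m ∈ Finset.range (n + 1), (e m : k) * (u m : k), IsIntegral.sum _ fun m _ => hint m,
    fun j hj => ?_⟩
  refine ⟨∑ m ∈ Finset.range (n + 1), (e m : (V j).O) * ⟨u m, (V j).int _ (hu m)⟩, ?_, ?_⟩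
  · push_cast
    rfl
  · rw [map_sum, Finset.sum_eq_single j]
    · rw [map_mul, map_intCast, he1, one_mul]
      exact huc j
    · intro m _ hmj
      rw [map_mul, map_intCast, he0 m j hj hmj.symm, zero_mul]
    · intro h
      exact absurd (Finset.mem_range.2 (by omega)) h

theorem apx_S {k : Type u} [Field k] [CharZero k] (V : ℕ → Plc k)
    (hV : ∀ i j, i ≠ j → (V i).p ≠ (V j).p) (n m : ℕ) (hm : m ≤ n) (c : (j : ℕ) → (V j).κ) :
    ∃ x : k, (∃ w : (V m).O, (V m).ρ w = 0 ∧ x * w = 1) ∧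
      ∀ j ≤ n, j ≠ m → ∃ y : (V j).O, (y : k) = x ∧ (V j).ρ y = c j := by
  classical
  obtain ⟨z, -, hz⟩ := apx_z V hV n (fun j => if j = m then 1 else ((V m).p : (V j).κ) * c j)
  have hp0 : ((V m).p : k) ≠ 0 := by
    exact_mod_cast (V m).prime.out.ne_zero
  refine ⟨z / (V m).p, ?_, fun j hj hjm => ?_⟩
  · obtain ⟨y, hy, hyc⟩ := hz m hm
    rw [if_pos rfl] at hyc
    have hyu : IsUnit y := (V m).unit y (by rw [hyc]; exact one_ne_zero)
    obtain ⟨t, ht⟩ := hyu
    refine ⟨((V m).p : (V m).O) * (t⁻¹ : (V m).Oˣ), ?_, ?_⟩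
    · rw [map_mul, map_natCast, CharP.cast_eq_zero, zero_mul]
    · have h1 : ((t : (V m).O) : k) * (((t⁻¹ : (V m).Oˣ) : (V m).O) : k) = 1 := by
        have h2 : (t : (V m).O) * ((t⁻¹ : (V m).Oˣ) : (V m).O) = 1 := t.mul_inv
        exact congrArg (fun q : (V m).O => (q : k)) h2
      rw [ht, hy] at h1
      push_cast
      rw [div_mul_eq_mul_div, mul_left_comm, h1, mul_one, div_self hp0]
  · obtain ⟨y, hy, hyc⟩ := hz j hj
    simp only [if_neg hjm] at hyc
    have hpj : ((V m).p : (V j).κ) ≠ 0 := by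
      intro h0
      have h1 := (CharP.cast_eq_zero_iff (V j).κ (V j).p (V m).p).1 h0
      have h2 := (Nat.prime_dvd_prime_iff_eq (V j).prime.out (V m).prime.out).1 h1
      exact hV j m hjm h2
    have hpu : IsUnit ((V m).p : (V j).O) := (V j).unit _ (by rw [map_natCast]; exact hpj)
    obtain ⟨t, ht⟩ := hpu
    have h1 : (((t⁻¹ : (V j).Oˣ) : (V j).O) : k) * ((V m).p : k) = 1 := by
      have h2 : ((t⁻¹ : (V j).Oˣ) : (V j).O) * (t : (V j).O) = 1 := t.inv_mul
      rw [ht] at h2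
      have h3 := congrArg (fun q : (V j).O => (q : k)) h2
      push_cast at h3
      exact h3
    refine ⟨y * (t⁻¹ : (V j).Oˣ), ?_, ?_⟩
    · push_cast
      rw [hy, eq_div_iff hp0, mul_assoc, h1, mul_one]
    · have h2 : (V j).ρ ((t⁻¹ : (V j).Oˣ) : (V j).O) * ((V m).p : (V j).κ) = 1 := by
        have h2 : ((t⁻¹ : (V j).Oˣ) : (V j).O) * (t : (V j).O) = 1 := t.inv_mul
        rw [ht] at h2
        have h3 := congrArg (V j).ρ h2
        rw [map_mul, map_natCast, map_one] at h3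
        exact h3
      rw [map_mul, hyc, mul_right_comm, mul_comm ((V m).p : (V j).κ), h2, one_mul]

theorem apx_M {k : Type u} [Field k] [CharZero k] (V : ℕ → Plc k)
    (hV : ∀ i j, i ≠ j → (V i).p ≠ (V j).p) (n : ℕ) (c : (j : ℕ) → (V j).κ) :
    ∃ x : Fin 3 → k, (∀ e e', e ≠ e' → x e ≠ x e') ∧
      ∀ e, ∀ j ≤ n, ∃ y : (V j).O, (y : k) = x e ∧ (V j).ρ y = c j := by
  classical
  obtain ⟨z, -, hz⟩ := apx_z V hV n c
  let N : ℕ := ∏ i ∈ Finset.range (n + 1), (V i).p
  have hN : (N : k) ≠ 0 := by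
    have h1 : N ≠ 0 := Finset.prod_ne_zero_iff.2 fun i _ => (V i).prime.out.ne_zero
    exact_mod_cast h1
  refine ⟨fun e => z + ((e : ℕ) : k) * N, fun e e' he h => ?_, fun e j hj => ?_⟩
  · have h1 : ((e : ℕ) : k) * N = ((e' : ℕ) : k) * N := add_left_cancel h
    have h2 := mul_right_cancel₀ hN h1
    exact he (Fin.ext (Nat.cast_injective h2))
  · obtain ⟨y, hy, hyc⟩ := hz j hj
    refine ⟨y + ((e : ℕ) : (V j).O) * N, ?_, ?_⟩
    · push_cast
      rw [hy]
    · have h1 : (N : (V j).κ) = 0 := by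
        rw [CharP.cast_eq_zero_iff (V j).κ (V j).p]
        exact Finset.dvd_prod_of_mem _ (Finset.mem_range.2 (by omega))
      rw [map_add, map_mul, map_natCast, map_natCast, h1, mul_zero, add_zero, hyc]

end Pool.Agent.H51.TT
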