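import Pool.Agent.H51.TT.Root

/-!
# Module CycA: points with `f(c) = Frob(c)` outside a given closed set

PROOF.  Induction on `m`.  `m = 0`: `g` is a nonzero constant; any `c` works, `M = 0`.
`m → m + 1`: let `G = spl m κ g ≠ 0` in `κ[z_0..z_{m-1}][T]`, and let
`g' = G.leadingCoeff * (T.W m).leadingCoeff * (T.R m).leadingCoeff`, nonzero (`T.R m ≠ 0` because
`T.W m ≠ 0`).  Take `M'` from the induction hypothesis for `g'` and
`M = max M' (natDegree (T.P m) + natDegree (T.R m) + natDegree (G * T.R m * T.W m) + 1)`.
For `p ^ s ≥ M` take `c` from the induction hypothesis; with `P₀ = (T.P m).map (mv c)` etc.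
(`mv c : MvPolynomial (Fin m) κ →+* κ`) the images of `G`, `T.W m`, `T.R m` are nonzero (their
leading coefficients do not vanish at `c`), degrees do not grow (`natDegree_map_le`), and
`(T.W m).map = P₀' R₀ - P₀ R₀'`.  Apply `exists_root_frob` with `G₀ R₀ W₀` in place of `G`: it
gives `x`; put `c' = Function.update c m x`.  By `mv_congr`, `tv_congr` the conditions for `i < m`
survive; `tv_eq_eval` gives the conditions for `i = m`, `tv_spl` gives `mv c' g ≠ 0`.
-/

set_option autoImplicit false

open Polynomial

namespace Pool.Agent.H51.TT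

universe u

theorem exists_frob_point {κ : Type u} [Field κ] [IsAlgClosed κ] {p : ℕ} [Fact p.Prime]
    [CharP κ p] (T : Tow κ) (m : ℕ) (hW : ∀ i < m, T.W i ≠ 0) (g : MvPolynomial (Fin m) κ)
    (hg : g ≠ 0) : ∃ M : ℕ, ∀ s : ℕ, M ≤ p ^ s → ∃ c : ℕ → κ, mv c g ≠ 0 ∧
      ∀ i < m, tv c (T.R i) ≠ 0 ∧ tv c (T.W i) ≠ 0 ∧
        c i ^ p ^ s * tv c (T.R i) = tv c (T.P i) := by
  induction m with
  | zero =>
    refine ⟨0, fun s _ => ⟨fun _ => 0, ?_, fun i hi => absurd hi (by omega)⟩⟩
    have h1 := MvPolynomial.eq_C_of_isEmpty g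
    have h2 : MvPolynomial.coeff 0 g ≠ 0 := by
      intro h
      rw [h, MvPolynomial.C_0] at h1
      exact hg h1
    rw [h1]
    simpa [mv] using h2
  | succ m ih =>
    have hWm : T.W m ≠ 0 := hW m (by omega)
    have hR : T.R m ≠ 0 := by
      intro h
      apply hWm
      simp [Tow.W, h]
    have hG : spl m κ g ≠ 0 := by
      intro h
      exact hg ((map_eq_zero_iff (spl m κ) (spl m κ).injective).1 h)
    obtain ⟨M', hM'⟩ := ih (fun i hi => hW i (by omega))
      ((spl m κ g).leadingCoeff * (T.W m).leadingCoeff * (T.R m).leadingCoeff)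
      (mul_ne_zero (mul_ne_zero (leadingCoeff_ne_zero.2 hG) (leadingCoeff_ne_zero.2 hWm))
        (leadingCoeff_ne_zero.2 hR))
    refine ⟨max M' ((T.P m).natDegree + (T.R m).natDegree +
      (spl m κ g * T.R m * T.W m).natDegree + 1), fun s hs => ?_⟩
    obtain ⟨c, hc1, hc2⟩ := hM' s ((le_max_left _ _).trans hs)
    rw [map_mul, map_mul] at hc1
    have hG0 : (spl m κ g).map (mv c) ≠ 0 := by
      intro h
      have h1 : mv c (spl m κ g).leadingCoeff = 0 := by
        have := congrArg (fun q : κ[X] => q.coeff (spl m κ g).natDegree) h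
        simpa [Polynomial.coeff_map] using this
      rw [h1] at hc1
      simp at hc1
    have hW0 : (T.W m).map (mv c) ≠ 0 := by
      intro h
      have h1 : mv c (T.W m).leadingCoeff = 0 := by
        have := congrArg (fun q : κ[X] => q.coeff (T.W m).natDegree) h
        simpa [Polynomial.coeff_map] using this
      rw [h1] at hc1
      simp at hc1
    have hR0 : (T.R m).map (mv c) ≠ 0 := by
      intro h
      have h1 : mv c (T.R m).leadingCoeff = 0 := by
        have := congrArg (fun q : κ[X] => q.coeff (T.R m).natDegree) h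
        simpa [Polynomial.coeff_map] using this
      rw [h1] at hc1
      simp at hc1
    have hWeq : derivative ((T.P m).map (mv c)) * (T.R m).map (mv c) -
        (T.P m).map (mv c) * derivative ((T.R m).map (mv c)) = (T.W m).map (mv c) := by
      rw [Tow.W, Polynomial.map_sub, Polynomial.map_mul, Polynomial.map_mul,
        Polynomial.derivative_map, Polynomial.derivative_map]
    have hprod : (spl m κ g).map (mv c) * (T.R m).map (mv c) * (T.W m).map (mv c) =
        (spl m κ g * T.R m * T.W m).map (mv c) := by
      rw [Polynomial.map_mul, Polynomial.map_mul]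
    have hdeg : ((T.P m).map (mv c)).natDegree + ((T.R m).map (mv c)).natDegree +
        ((spl m κ g).map (mv c) * (T.R m).map (mv c) * (T.W m).map (mv c)).natDegree
          < p ^ s := by
      have h1 : ((T.P m).map (mv c)).natDegree ≤ (T.P m).natDegree := natDegree_map_le
      have h2 : ((T.R m).map (mv c)).natDegree ≤ (T.R m).natDegree := natDegree_map_le
      have h3 : ((spl m κ g).map (mv c) * (T.R m).map (mv c) * (T.W m).map (mv c)).natDegree ≤
          (spl m κ g * T.R m * T.W m).natDegree := by
        rw [hprod]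
        exact natDegree_map_le
      have h4 := (le_max_right M' ((T.P m).natDegree + (T.R m).natDegree +
        (spl m κ g * T.R m * T.W m).natDegree + 1)).trans hs
      omega
    obtain ⟨x, hx1, hx2⟩ := exists_root_frob ((T.P m).map (mv c)) ((T.R m).map (mv c))
      ((spl m κ g).map (mv c) * (T.R m).map (mv c) * (T.W m).map (mv c))
      (by rw [hWeq]; exact hW0) (mul_ne_zero (mul_ne_zero hG0 hR0) hW0) hdeg
    rw [eval_mul, eval_mul] at hx2
    have hup : ∀ i < m, Function.update c m x i = c i := fun i hi =>
      Function.update_of_ne (by omega) _ _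
    have hmv : (mv (Function.update c m x) : MvPolynomial (Fin m) κ →+* κ) = mv c :=
      RingHom.ext fun q => mv_congr hup q
    have htv : ∀ q : (MvPolynomial (Fin m) κ)[X],
        tv (Function.update c m x) q = (q.map (mv c)).eval x := by
      intro q
      rw [tv_eq_eval, hmv, Function.update_self]
    refine ⟨Function.update c m x, ?_, ?_⟩
    · rw [← tv_spl, htv]
      exact left_ne_zero_of_mul (left_ne_zero_of_mul hx2)
    · intro i hi
      rcases Nat.lt_succ_iff_lt_or_eq.1 hi with h | h
      · have hcg : ∀ q : (MvPolynomial (Fin i) κ)[X],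
            tv (Function.update c m x) q = tv c q := fun q =>
          tv_congr (fun j hj => hup j (by omega)) q
        rw [hcg, hcg, hcg, hup i h]
        exact hc2 i h
      · subst h
        rw [htv, htv, htv, Function.update_self]
        exact ⟨right_ne_zero_of_mul (left_ne_zero_of_mul hx2), right_ne_zero_of_mul hx2, hx1⟩

end Pool.Agent.H51.TT
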