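import Pool.Agent.H51.TT.CycA

/-!
# Module CycB: good periodic cycles over an algebraic closure of a finite field

PROOF.  The set of all coefficients of `T.P i`, `T.R i` (`i < m`; finite by `cf_finite`) and of `g`
is finite, so by `hfin` there is `s₀ > 0` with `a ^ p ^ s₀ = a` for all these coefficients `a`
(take the product of the single exponents: `a ^ p ^ s = a` implies `a ^ p ^ (s * j) = a`).  Let
`M` be from `exists_frob_point`, and `s = s₀ * j` with `p ^ s ≥ M` (`j = M`, as `p ^ M ≥ M`; take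
`j = M + 1` to have `s > 0`).
Take `c₀` for this `s` and put `c t i = c₀ i ^ (p ^ s) ^ t`.  The ring endomorphism
`F = iterateFrobenius κ p s` (`F a = a ^ p ^ s`) fixes the coefficients, so
`tv (fun i => F (x i)) (T.P i) = F (tv x (T.P i))` for every `x` (use `tv_map` with
`pm F (T.P i) = T.P i`), the same for `T.R i`, `T.W i`, `g`.  Induction on `t` gives
`tv (c t) (T.R i) ≠ 0`, `tv (c t) (T.W i) ≠ 0`, `mv (c t) g ≠ 0` and
`c (t + 1) i * tv (c t) (T.R i) = tv (c t) (T.P i)`.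
Period: for each `i < m` there is `s_i > 0` with `c₀ i ^ p ^ s_i = c₀ i`; put `r = ∏ s_i > 0`;
then `c₀ i ^ p ^ (s * r) = c₀ i`, so `c (t + r) i = c t i`.
-/

set_option autoImplicit false

open Polynomial

namespace Pool.Agent.H51.TT

universe u

private theorem pow_fix {κ : Type u} [Field κ] {p s : ℕ} {a : κ} (h : a ^ p ^ s = a) (j : ℕ) :
    a ^ p ^ (s * j) = a := by
  induction j with
  | zero => simp
  | succ j ih =>
    rw [Nat.mul_succ, pow_add, pow_mul, ih, h]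

private theorem fix_dvd {κ : Type u} [Field κ] {p s r : ℕ} {a : κ} (h : a ^ p ^ s = a)
    (hd : s ∣ r) : a ^ p ^ r = a := by
  obtain ⟨j, rfl⟩ := hd
  exact pow_fix h j

private theorem fin_fix {κ : Type u} [Field κ] {p : ℕ}
    (hfin : ∀ c : κ, ∃ s : ℕ, 0 < s ∧ c ^ p ^ s = c) (S : Set κ) (hS : S.Finite) :
    ∃ s : ℕ, 0 < s ∧ ∀ a ∈ S, a ^ p ^ s = a := by
  choose f hf1 hf2 using hfin
  refine ⟨∏ a ∈ hS.toFinset, f a, Finset.prod_pos fun a _ => hf1 a, fun a ha => ?_⟩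
  exact fix_dvd (hf2 a) (Finset.dvd_prod_of_mem f (hS.mem_toFinset.mpr ha))

private theorem pm_fix {κ : Type u} [Field κ] {m : ℕ} (F : κ →+* κ)
    (q : (MvPolynomial (Fin m) κ)[X]) (h : ∀ a ∈ cf q, F a = a) : pm F q = q := by
  unfold pm
  rw [coe_mapRingHom]
  ext i α
  rw [Polynomial.coeff_map]
  change ((MvPolynomial.map F) (q.coeff i)).coeff α = (q.coeff i).coeff α
  rw [MvPolynomial.coeff_map]
  exact h _ ⟨i, α, rfl⟩

theorem exists_cycle {κ : Type u} [Field κ] [IsAlgClosed κ] {p : ℕ} [Fact p.Prime]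
    [CharP κ p] (hfin : ∀ c : κ, ∃ s : ℕ, 0 < s ∧ c ^ p ^ s = c) (T : Tow κ) (m : ℕ)
    (hW : ∀ i < m, T.W i ≠ 0) (g : MvPolynomial (Fin m) κ) (hg : g ≠ 0) :
    ∃ (c : ℕ → ℕ → κ) (r : ℕ), 0 < r ∧ T.Orb m c ∧
      (∀ t, ∀ i < m, tv (c t) (T.W i) ≠ 0) ∧ (∀ t, mv (c t) g ≠ 0) ∧
      ∀ t, ∀ i < m, c (t + r) i = c t i := by
  classical
  have hp : 1 < p := (Fact.out : p.Prime).one_lt
  set S : Set κ := (⋃ i ∈ Finset.range m, (cf (T.P i) ∪ cf (T.R i))) ∪
    cf (C g : (MvPolynomial (Fin m) κ)[X]) with hSdef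
  have hS : S.Finite := by
    refine Set.Finite.union ?_ (cf_finite _)
    exact Set.Finite.biUnion (Finset.finite_toSet _) fun i _ => (cf_finite _).union (cf_finite _)
  obtain ⟨s₀, hs₀, hs₁⟩ := fin_fix hfin S hS
  obtain ⟨M, hM⟩ := exists_frob_point T m hW g hg
  set s : ℕ := s₀ * (M + 1) with hs
  have hsM : M ≤ p ^ s := by
    have h1 : s < p ^ s := Nat.lt_pow_self hp
    have h2 : M + 1 ≤ s := Nat.le_mul_of_pos_left _ hs₀
    omega
  obtain ⟨c₀, hg0, hc0⟩ := hM s hsM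
  set F : κ →+* κ := iterateFrobenius κ p s with hF
  have hFd : ∀ x : κ, F x = x ^ p ^ s := fun x => iterateFrobenius_def p s x
  have hFS : ∀ a ∈ S, F a = a := fun a ha => by
    rw [hFd]
    exact pow_fix (hs₁ a ha) (M + 1)
  have hFP : ∀ i < m, pm F (T.P i) = T.P i := fun i hi => pm_fix F _ fun a ha =>
    hFS a (Or.inl (Set.mem_biUnion (Finset.mem_range.mpr hi) (Or.inl ha)))
  have hFR : ∀ i < m, pm F (T.R i) = T.R i := fun i hi => pm_fix F _ fun a ha =>
    hFS a (Or.inl (Set.mem_biUnion (Finset.mem_range.mpr hi) (Or.inr ha)))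
  have hFg : pm F (C g : (MvPolynomial (Fin m) κ)[X]) = C g := pm_fix F _ fun a ha =>
    hFS a (Or.inr ha)
  have hFW : ∀ i < m, pm F (T.W i) = T.W i := by
    intro i hi
    rw [← pm_W]
    unfold Tow.W Tow.map
    simp only
    rw [hFP i hi, hFR i hi]
  set c : ℕ → ℕ → κ := fun t i => F^[t] (c₀ i) with hc
  have hcs : ∀ t, c (t + 1) = fun i => F (c t i) := by
    intro t
    funext i
    exact Function.iterate_succ_apply' F t (c₀ i)
  have htv : ∀ {i : ℕ} (t : ℕ) (q : (MvPolynomial (Fin i) κ)[X]), pm F q = q →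
      tv (c (t + 1)) q = F (tv (c t) q) := by
    intro i t q hq
    have h1 := tv_map F (c t) q
    rw [hq] at h1
    rw [hcs, h1]
  have hmv : ∀ t, mv (c (t + 1)) g = F (mv (c t) g) := by
    intro t
    rw [← tv_C, ← tv_C]
    exact htv t _ hFg
  have hc00 : c 0 = c₀ := by
    funext i
    rfl
  have main : ∀ t, mv (c t) g ≠ 0 ∧ ∀ i < m, tv (c t) (T.R i) ≠ 0 ∧ tv (c t) (T.W i) ≠ 0 ∧
      c (t + 1) i * tv (c t) (T.R i) = tv (c t) (T.P i) := by
    intro t
    induction t with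
    | zero =>
      refine ⟨by rw [hc00]; exact hg0, fun i hi => ?_⟩
      obtain ⟨h1, h2, h3⟩ := hc0 i hi
      refine ⟨by rw [hc00]; exact h1, by rw [hc00]; exact h2, ?_⟩
      rw [hcs 0, hc00]
      simp only
      rw [hFd]
      exact h3
    | succ t ih =>
      obtain ⟨ih1, ih2⟩ := ih
      refine ⟨by rw [hmv]; exact (map_ne_zero F).mpr ih1, fun i hi => ?_⟩
      obtain ⟨h1, h2, h3⟩ := ih2 i hi
      refine ⟨by rw [htv t _ (hFR i hi)]; exact (map_ne_zero F).mpr h1,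
        by rw [htv t _ (hFW i hi)]; exact (map_ne_zero F).mpr h2, ?_⟩
      rw [htv t _ (hFR i hi), htv t _ (hFP i hi), ← h3, map_mul, hcs (t + 1)]
  have hit : ∀ (r : ℕ) (x : κ), F^[r] x = x ^ p ^ (s * r) := by
    intro r x
    induction r with
    | zero => simp
    | succ r ih =>
      rw [Function.iterate_succ_apply', ih, hFd, ← pow_mul, ← pow_add, Nat.mul_succ]
  choose f hf1 hf2 using hfin
  refine ⟨c, ∏ i ∈ Finset.range m, f (c₀ i), Finset.prod_pos fun i _ => hf1 _, ?_, ?_, ?_, ?_⟩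
  · exact ⟨fun t i hi => isUnit_iff_ne_zero.mpr ((main t).2 i hi).1,
      fun t i hi => ((main t).2 i hi).2.2⟩
  · exact fun t i hi => ((main t).2 i hi).2.1
  · exact fun t => (main t).1
  · intro t i hi
    simp only [hc]
    rw [Function.iterate_add_apply, hit (∏ i ∈ Finset.range m, f (c₀ i)) (c₀ i)]
    congr 1
    refine fix_dvd (hf2 (c₀ i)) (Dvd.dvd.mul_left ?_ s)
    exact Finset.dvd_prod_of_mem (fun i => f (c₀ i)) (Finset.mem_range.mpr hi)

end Pool.Agent.H51.TT
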