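import Mathlib

/-!
# Triangular rational maps: towers, evaluation, places

* `mv x g = g(x_0, …, x_{m-1})` for `g ∈ A[z_0, …, z_{m-1}]`;
* `tv x p = p(x_0, …, x_{m-1})(x_m)` for `p ∈ A[z_0, …, z_{m-1}][T]`;
* a tower `T : Tow A` is a triangular rational map `f = (P_0/R_0, P_1/R_1, …)`,
  `P_i, R_i ∈ A[z_0, …, z_{i-1}][T]`;
* `T.W i = P_i' R_i - P_i R_i'` (derivatives with respect to `T`);
* `T.Orb m x`: `x` is a well-defined orbit of the first `m` coordinates of `f`.
-/

set_option autoImplicit false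

open Polynomial

namespace Pool.Agent.H51.TT

universe u v

section ring

variable {A : Type u} [CommRing A] {B : Type v} [CommRing B]

/-- `g(x_0, …, x_{m-1})`. -/
noncomputable def mv {m : ℕ} (x : ℕ → A) : MvPolynomial (Fin m) A →+* A :=
  MvPolynomial.eval fun j : Fin m => x j

/-- `p(x_0, …, x_{m-1})(x_m)`. -/
noncomputable def tv {m : ℕ} (x : ℕ → A) : (MvPolynomial (Fin m) A)[X] →+* A :=
  Polynomial.eval₂RingHom (mv x) (x m)

/-- A triangular rational map `f = (P_i / R_i)_i`. -/
structure Tow (A : Type u) [CommRing A] where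
  P : (i : ℕ) → (MvPolynomial (Fin i) A)[X]
  R : (i : ℕ) → (MvPolynomial (Fin i) A)[X]

/-- The numerator `P_i' R_i - P_i R_i'` of the derivative. -/
noncomputable def Tow.W (T : Tow A) (i : ℕ) : (MvPolynomial (Fin i) A)[X] :=
  derivative (T.P i) * T.R i - T.P i * derivative (T.R i)

/-- Coefficientwise image of `p ∈ A[z_0, …, z_{m-1}][T]` under a ring homomorphism `A → B`. -/
noncomputable def pm {m : ℕ} (f : A →+* B) : (MvPolynomial (Fin m) A)[X] →+*
    (MvPolynomial (Fin m) B)[X] :=
  Polynomial.mapRingHom (MvPolynomial.map f)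

/-- Base change of a tower. -/
noncomputable def Tow.map (f : A →+* B) (T : Tow A) : Tow B where
  P i := pm f (T.P i)
  R i := pm f (T.R i)

/-- `x 0, x 1, x 2, …` is a well-defined orbit of the first `m` coordinates. -/
structure Tow.Orb (T : Tow A) (m : ℕ) (x : ℕ → ℕ → A) : Prop where
  unit : ∀ t, ∀ i < m, IsUnit (tv (x t) (T.R i))
  step : ∀ t, ∀ i < m, x (t + 1) i * tv (x t) (T.R i) = tv (x t) (T.P i)

theorem mv_congr {m : ℕ} {x y : ℕ → A} (h : ∀ i < m, x i = y i) (g : MvPolynomial (Fin m) A) :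
    mv x g = mv y g := by
  unfold mv
  congr 2
  funext j
  exact h j j.2

theorem tv_congr {m : ℕ} {x y : ℕ → A} (h : ∀ i < m + 1, x i = y i)
    (p : (MvPolynomial (Fin m) A)[X]) : tv x p = tv y p := by
  have h1 : (mv x : MvPolynomial (Fin m) A →+* A) = mv y :=
    RingHom.ext fun g => mv_congr (fun i hi => h i (by omega)) g
  unfold tv
  rw [h1, h m (by omega)]

theorem mv_map {m : ℕ} (f : A →+* B) (x : ℕ → A) (g : MvPolynomial (Fin m) A) :
    mv (fun i => f (x i)) (MvPolynomial.map f g) = f (mv x g) := by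
  unfold mv
  rw [MvPolynomial.eval_map]
  have h := MvPolynomial.eval₂_comp_left f (RingHom.id A) (fun j : Fin m => x j) g
  exact h.symm

theorem tv_map {m : ℕ} (f : A →+* B) (x : ℕ → A) (p : (MvPolynomial (Fin m) A)[X]) :
    tv (fun i => f (x i)) (pm f p) = f (tv x p) := by
  unfold tv pm
  simp only [coe_eval₂RingHom, coe_mapRingHom]
  rw [Polynomial.eval₂_map, Polynomial.hom_eval₂]
  congr 1
  exact RingHom.ext fun g => mv_map f x g

theorem pm_W (f : A →+* B) (T : Tow A) (i : ℕ) : (T.map f).W i = pm f (T.W i) := by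
  unfold Tow.W Tow.map pm
  simp only [coe_mapRingHom, Polynomial.map_sub, Polynomial.map_mul, Polynomial.derivative_map]

theorem tv_C {m : ℕ} (x : ℕ → A) (g : MvPolynomial (Fin m) A) : tv x (C g) = mv x g := by
  unfold tv
  simp

/-- The value as the value of a polynomial in one variable. -/
theorem tv_eq_eval {m : ℕ} (x : ℕ → A) (p : (MvPolynomial (Fin m) A)[X]) :
    tv x p = (p.map (mv x)).eval (x m) := by
  unfold tv
  rw [coe_eval₂RingHom, Polynomial.eval_map]

/-- The image of an orbit. -/
theorem Tow.Orb.map {T : Tow A} {m : ℕ} {x : ℕ → ℕ → A} (h : T.Orb m x) (f : A →+* B) :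
    (T.map f).Orb m (fun t i => f (x t i)) where
  unit t i hi := by
    have := (h.unit t i hi).map f
    rwa [← tv_map] at this
  step t i hi := by
    have := congrArg f (h.step t i hi)
    rw [map_mul, ← tv_map, ← tv_map] at this
    exact this

theorem Tow.Orb.mono {T : Tow A} {m m' : ℕ} {x : ℕ → ℕ → A} (h : T.Orb m x) (hm : m' ≤ m) :
    T.Orb m' x where
  unit t i hi := h.unit t i (by omega)
  step t i hi := h.step t i (by omega)

/-- `A[z_0, …, z_m] ≃ A[z_0, …, z_{m-1}][T]`. -/
noncomputable def spl (m : ℕ) (A : Type u) [CommRing A] :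
    MvPolynomial (Fin (m + 1)) A ≃+* (MvPolynomial (Fin m) A)[X] :=
  ((MvPolynomial.renameEquiv A finSuccEquivLast).trans
    (MvPolynomial.optionEquivLeft A (Fin m))).toRingEquiv

theorem tv_spl {m : ℕ} (x : ℕ → A) (g : MvPolynomial (Fin (m + 1)) A) :
    tv x (spl m A g) = mv x g := by
  have h : (tv x).comp (spl m A).toRingHom = mv x := by
    apply MvPolynomial.ringHom_ext
    · intro r
      simp [spl, tv, mv]
    · intro i
      induction i using Fin.lastCases with
      | last => simp [spl, tv, mv]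
      | cast i => simp [spl, tv, mv]
  exact congrArg (fun q : MvPolynomial (Fin (m + 1)) A →+* A => q g) h

/-- `A[z_0, …, z_{i-1}][T] → A[z_0, …, z_{m-1}]`, `T ↦ z_i`, for `i < m`. -/
noncomputable def emb {i m : ℕ} (hi : i < m) :
    (MvPolynomial (Fin i) A)[X] →+* MvPolynomial (Fin m) A :=
  Polynomial.eval₂RingHom (MvPolynomial.rename (Fin.castLE hi.le)).toRingHom
    (MvPolynomial.X ⟨i, hi⟩)

theorem mv_map_emb {i m : ℕ} (hi : i < m) (f : A →+* B) (x : ℕ → B)
    (p : (MvPolynomial (Fin i) A)[X]) :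
    mv x (MvPolynomial.map f (emb hi p)) = tv x (pm f p) := by
  have h : ((mv x).comp (MvPolynomial.map f)).comp (emb hi) = (tv x).comp (pm f) := by
    apply Polynomial.ringHom_ext
    · intro a
      have h1 : (((mv x).comp (MvPolynomial.map f)).comp (emb hi)).comp Polynomial.C =
          ((tv x).comp (pm f)).comp (Polynomial.C : MvPolynomial (Fin i) A →+* _) := by
        apply MvPolynomial.ringHom_ext
        · intro r
          simp [emb, mv, tv, pm]
        · intro j
          simp [emb, mv, tv, pm]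
      exact congrArg (fun q : MvPolynomial (Fin i) A →+* B => q a) h1
    · simp [emb, mv, tv, pm]
  exact congrArg (fun q : (MvPolynomial (Fin i) A)[X] →+* B => q p) h

theorem mv_emb {i m : ℕ} (hi : i < m) (x : ℕ → A) (p : (MvPolynomial (Fin i) A)[X]) :
    mv x (emb hi p) = tv x p := by
  have h := mv_map_emb hi (RingHom.id A) x p
  rw [MvPolynomial.map_id] at h
  rw [h]
  congr 1
  unfold pm
  have h1 : (MvPolynomial.map (RingHom.id A) : MvPolynomial (Fin i) A →+* _) = RingHom.id _ :=
    RingHom.ext MvPolynomial.map_id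
  rw [h1, coe_mapRingHom, Polynomial.map_id]

end ring

section lift

variable {k : Type u} [CommRing k]

/-- The set of coefficients. -/
def cf {m : ℕ} (p : (MvPolynomial (Fin m) k)[X]) : Set k :=
  {a | ∃ i α, a = (p.coeff i).coeff α}

theorem cf_finite {m : ℕ} (p : (MvPolynomial (Fin m) k)[X]) : (cf p).Finite := by
  classical
  apply Set.Finite.subset (s := insert 0 (⋃ i ∈ p.support,
    (fun α => (p.coeff i).coeff α) '' ((p.coeff i).support : Set (Fin m →₀ ℕ))))
  · apply Set.Finite.insert
    exact Set.Finite.biUnion (Finset.finite_toSet _) fun i _ => (Finset.finite_toSet _).image _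
  · rintro a ⟨i, α, rfl⟩
    by_cases h : (p.coeff i).coeff α = 0
    · exact Or.inl h
    · right
      have h1 : p.coeff i ≠ 0 := by
        intro h0; rw [h0] at h; simp at h
      simp only [Set.mem_iUnion]
      exact ⟨i, by simpa using h1, α, by simpa using h, rfl⟩

/-- A polynomial with coefficients in a subring is the image of a polynomial over the subring. -/
theorem exists_lift (O : Subring k) {m : ℕ} (p : (MvPolynomial (Fin m) k)[X])
    (h : cf p ⊆ O) : ∃ q : (MvPolynomial (Fin m) O)[X], pm O.subtype q = p := by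
  classical
  have h1 : ∀ i, ∃ g : MvPolynomial (Fin m) O, MvPolynomial.map O.subtype g = p.coeff i := by
    intro i
    refine ⟨∑ α ∈ (p.coeff i).support, MvPolynomial.monomial α ⟨(p.coeff i).coeff α,
      h ⟨i, α, rfl⟩⟩, ?_⟩
    rw [map_sum]
    conv_rhs => rw [(p.coeff i).as_sum]
    refine Finset.sum_congr rfl fun α _ => ?_
    rw [MvPolynomial.map_monomial]
    rfl
  choose g hg using h1
  refine ⟨∑ i ∈ p.support, Polynomial.monomial i (g i), ?_⟩
  rw [map_sum]
  conv_rhs => rw [p.as_sum_support]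
  refine Finset.sum_congr rfl fun i _ => ?_
  unfold pm
  rw [coe_mapRingHom, Polynomial.map_monomial, hg]

end lift

/-- A place of the field `k` with values in an algebraic closure `κ` of a finite field: a local
subring `O` with residue map `ρ`. -/
structure Plc (k : Type u) [Field k] where
  O : Subring k
  κ : Type u
  [fieldκ : Field κ]
  [closed : IsAlgClosed κ]
  p : ℕ
  [prime : Fact p.Prime]
  [char : CharP κ p]
  ρ : O →+* κ
  /-- `O` is local with residue field inside `κ` -/
  unit : ∀ x : O, ρ x ≠ 0 → IsUnit x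
  /-- every element of `κ` is the residue of an algebraic integer -/
  lift : ∀ c : κ, ∃ x : O, IsIntegral ℤ (x : k) ∧ ρ x = c
  /-- algebraic integers belong to `O` -/
  int : ∀ x : k, IsIntegral ℤ x → x ∈ O
  /-- `κ` is algebraic over the prime field -/
  fin : ∀ c : κ, ∃ s : ℕ, 0 < s ∧ c ^ p ^ s = c
  /-- finite subsets lie in Noetherian local subrings with finite residue field -/
  loc : ∀ S : Set k, S.Finite → S ⊆ O → ∃ (A : Subring k) (hA : A ≤ O) (_ : IsLocalRing A),
    S ⊆ A ∧ IsNoetherianRing A ∧ Finite (IsLocalRing.ResidueField A) ∧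
    ∀ x : A, x ∈ IsLocalRing.maximalIdeal A ↔ ρ ⟨x, hA x.2⟩ = 0
  /-- finite subsets of `k` can be moved into `O` by an `O`-linear map -/
  lin : ∀ S : Set k, S.Finite → (∃ s ∈ S, s ≠ 0) → ∃ l : k →+ k,
    (∀ (o : O) (a : k), l ((o : k) * a) = o * l a) ∧ (∀ s ∈ S, l s ∈ O) ∧ ∃ s ∈ S, l s ≠ 0

attribute [instance] Plc.fieldκ Plc.closed Plc.prime Plc.char

end Pool.Agent.H51.TT
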