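import Pool.Agent.H51.TT.Gau

/-!
# Module Dom: a dominant triangular map is not constant in the top variable

PROOF.  `z` is algebraically independent over `k` up to level `n` (`hz`).  Suppose `T.W i = 0`,
`i < n`.  Let `F` be the subfield `IntermediateField.adjoin k {z 0, …, z (i-1)}` of `𝕂`, and
`P, R ∈ 𝕂[X]` the images of `T.P i`, `T.R i` under `mv z` of the coefficients (coefficients in
`F`).  `R ≠ 0`.  `P' R = P R'`.
(1) `P = C λ * R` with `λ ∈ F`: if `P = 0` take `0`.  Comparing leading coefficients in
`P' R = P R'` (char 0; if both degrees are positive or one is zero) gives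
`natDegree P = natDegree R`; `λ = lc P / lc R`; `D = P - C λ R` also satisfies `D' R = D R'` and has
smaller degree than `R` or is `0`, so `D = 0`.
(2) So `φ (z i) = λ ∈ F` (`tv z (R i) ≠ 0` as `z` is independent).  For `j < i`,
`φ (z j) = P_j(z)/R_j(z) ∈ F`.
(3) `φ (z 0), …, φ (z i)` are algebraically independent over `k` (`φ` is injective and `hz`), all
in `F`, a field of transcendence degree at most `i` (generated by `i` elements):
contradiction.  (Mathlib: `Algebra.trdeg`, `AlgebraicIndependent.cardinalMk_le_trdeg`, and a bound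
for `trdeg` of `adjoin` of `i` elements: a transcendence basis inside the generating set,
`exists_isTranscendenceBasis_subset` or so.)
-/

set_option autoImplicit false

open Polynomial

namespace Pool.Agent.H51.TT

universe u

private theorem dom_deg {S : Type u} [CommRing S] [IsDomain S] [CharZero S] (A B : S[X])
    (hA : A ≠ 0) (hB : B ≠ 0) (h : derivative A * B = A * derivative B) :
    A.natDegree = B.natDegree := by
  by_cases hA0 : derivative A = 0
  · rw [hA0, zero_mul] at h
    have hB0 : derivative B = 0 := by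
      rcases mul_eq_zero.mp h.symm with h1 | h1
      · exact absurd h1 hA
      · exact h1
    rw [derivative_eq_zero.mp hA0, derivative_eq_zero.mp hB0]
  by_cases hB0 : derivative B = 0
  · rw [hB0, mul_zero] at h
    rcases mul_eq_zero.mp h with h1 | h1
    · exact absurd h1 hA0
    · exact absurd h1 hB
  have key : ∀ C : S[X], derivative C ≠ 0 →
      (derivative C).leadingCoeff = C.natDegree * C.leadingCoeff ∧ 0 < C.natDegree := by
    intro C hC
    have hpos : 0 < C.natDegree := by
      rcases Nat.eq_zero_or_pos C.natDegree with h0 | h0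
      · exfalso
        apply hC
        rw [Polynomial.eq_C_of_natDegree_eq_zero h0, derivative_C]
      · exact h0
    refine ⟨?_, hpos⟩
    have h1 : (derivative C).natDegree = C.natDegree - 1 :=
      Polynomial.natDegree_eq_of_degree_eq_some (by
        rw [Polynomial.degree_derivative_eq C hpos])
    unfold Polynomial.leadingCoeff
    rw [h1, Polynomial.coeff_derivative]
    have h2 : C.natDegree - 1 + 1 = C.natDegree := by omega
    have h3 : ((C.natDegree - 1 : ℕ) : S) + 1 = (C.natDegree : S) := by
      rw [← h2]; push_cast; ring_nf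
    rw [h2, h3, mul_comm]
  obtain ⟨hA1, hA2⟩ := key A hA0
  obtain ⟨hB1, hB2⟩ := key B hB0
  have h1 := congrArg Polynomial.leadingCoeff h
  rw [leadingCoeff_mul, leadingCoeff_mul, hA1, hB1] at h1
  have hlA : A.leadingCoeff ≠ 0 := leadingCoeff_ne_zero.mpr hA
  have hlB : B.leadingCoeff ≠ 0 := leadingCoeff_ne_zero.mpr hB
  have h2 : (A.natDegree : S) = B.natDegree := by
    apply mul_right_cancel₀ (mul_ne_zero hlA hlB)
    linear_combination h1
  exact_mod_cast h2

private theorem dom_const {S : Type u} [CommRing S] [IsDomain S] [CharZero S] (P R : S[X])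
    (hR : R ≠ 0) (h : derivative P * R = P * derivative R) :
    ∃ a b : S, b ≠ 0 ∧ C b * P = C a * R := by
  by_cases hP : P = 0
  · exact ⟨0, 1, one_ne_zero, by rw [hP]; simp⟩
  refine ⟨P.leadingCoeff, R.leadingCoeff, leadingCoeff_ne_zero.mpr hR, ?_⟩
  have hd := dom_deg P R hP hR h
  by_contra hne
  have hD : C R.leadingCoeff * P - C P.leadingCoeff * R ≠ 0 := sub_ne_zero.mpr hne
  have h1 := dom_deg _ R hD hR (by
    simp only [derivative_sub, derivative_mul, derivative_C, zero_mul, zero_add]
    linear_combination C R.leadingCoeff * h)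
  have h2 : (C R.leadingCoeff * P - C P.leadingCoeff * R).degree < R.degree := by
    have e1 : (C R.leadingCoeff * P).degree = R.degree := by
      rw [degree_C_mul (leadingCoeff_ne_zero.mpr hR)]
      rw [degree_eq_natDegree hP, degree_eq_natDegree hR, hd]
    have e2 : (C P.leadingCoeff * R).degree = R.degree := by
      rw [degree_C_mul (leadingCoeff_ne_zero.mpr hP)]
    rw [← e1]
    apply degree_sub_lt (e1.trans e2.symm)
    · exact mul_ne_zero (by simpa using hR) hP
    · rw [leadingCoeff_mul, leadingCoeff_mul, leadingCoeff_C, leadingCoeff_C, mul_comm]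
  have h3 := natDegree_lt_natDegree hD h2
  omega

/-- `i + 1` elements of a field generated by `i` elements are algebraically dependent. -/
private theorem dom_dep {k : Type u} [Field k] {𝕂 : Type u} [Field 𝕂] [Algebra k 𝕂] (i : ℕ)
    (z : Fin i → 𝕂) (y : Fin (i + 1) → 𝕂)
    (hy : ∀ l, y l ∈ IntermediateField.adjoin k (Set.range z)) : ¬ AlgebraicIndependent k y := by
  intro hAI
  let E := IntermediateField.adjoin k (Set.range z)
  let A := Algebra.adjoin k (Set.range z)
  let y' : Fin (i + 1) → E := fun l => ⟨y l, hy l⟩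
  have h1 : AlgebraicIndependent k y' := by
    rw [← E.val.algebraicIndependent_iff E.val.injective]
    exact hAI
  have h2 : ((i + 1 : ℕ) : Cardinal.{u}) ≤ Algebra.trdeg k E := by
    have := h1.lift_cardinalMk_le_trdeg
    simpa using this
  have h3 : Algebra.trdeg k A ≤ i := by
    let f : MvPolynomial (Fin i) k →ₐ[k] A := MvPolynomial.aeval fun j =>
      ⟨z j, Algebra.subset_adjoin ⟨j, rfl⟩⟩
    have hf : Function.Surjective f := by
      intro a
      have ha : (a : 𝕂) ∈ Algebra.adjoin k (Set.range z) := a.2
      rw [Algebra.adjoin_range_eq_range_aeval] at ha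
      obtain ⟨g, hg⟩ := ha
      refine ⟨g, Subtype.ext ?_⟩
      rw [← hg]
      have : (A.val.comp f) = MvPolynomial.aeval z := by
        apply MvPolynomial.algHom_ext
        intro j
        simp [f]
      exact congrArg (fun q : MvPolynomial (Fin i) k →ₐ[k] 𝕂 => q g) this
    have := trdeg_le_of_surjective f hf
    simpa using this
  have h4 : Algebra.trdeg k A = Algebra.trdeg k E := by
    open scoped IntermediateField.algebraAdjoinAdjoin in
    have h5 : Algebra.trdeg k A + Algebra.trdeg A E = Algebra.trdeg k E := _root_.trdeg_add_eq k A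
    open scoped IntermediateField.algebraAdjoinAdjoin in
    have h6 : Algebra.trdeg A E = 0 := _root_.trdeg_eq_zero
    rw [h6, add_zero] at h5
    exact h5
  rw [← h4] at h2
  have h5 := h2.trans h3
  have h6 : i + 1 ≤ i := by exact_mod_cast h5
  omega

theorem W_ne_zero {k : Type u} [Field k] [CharZero k] (T : Tow k) (n : ℕ)
    {𝕂 : Type u} [Field 𝕂] [Algebra k 𝕂] (z : ℕ → 𝕂)
    (hz : ∀ g : MvPolynomial (Fin n) k, mv z (MvPolynomial.map (algebraMap k 𝕂) g) = 0 → g = 0)
    (φ : 𝕂 →ₐ[k] 𝕂) (hR : ∀ i < n, T.R i ≠ 0)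
    (hφ : ∀ i < n, φ (z i) * tv z ((T.map (algebraMap k 𝕂)).R i) =
      tv z ((T.map (algebraMap k 𝕂)).P i)) : ∀ i < n, T.W i ≠ 0 := by
  intro i hi h0
  -- independence at lower levels
  have hz' : ∀ m ≤ n, ∀ g : MvPolynomial (Fin m) k,
      mv z (MvPolynomial.map (algebraMap k 𝕂) g) = 0 → g = 0 := by
    intro m hm g hg
    have h1 : MvPolynomial.rename (Fin.castLE hm) g = 0 := by
      apply hz
      rw [MvPolynomial.map_rename]
      unfold mv at hg ⊢
      rw [MvPolynomial.eval_rename]
      exact hg
    exact (MvPolynomial.rename_injective _ (Fin.castLE_injective hm)) (by rw [h1, map_zero])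
  have hav : ∀ (m : ℕ) (g : MvPolynomial (Fin m) k),
      mv z (MvPolynomial.map (algebraMap k 𝕂) g) = MvPolynomial.aeval (fun j : Fin m => z j) g := by
    intro m g
    unfold mv
    rw [MvPolynomial.eval_map, MvPolynomial.aeval_def]
  -- values of the denominators
  have hRz : ∀ j < n, tv z ((T.map (algebraMap k 𝕂)).R j) ≠ 0 := by
    intro j hj h1
    have h2 : tv z (pm (algebraMap k 𝕂) (T.R j)) = 0 := h1
    rw [← mv_map_emb hj] at h2
    have h4 := hz _ h2
    exact hR j hj (emb_injective hj (by rw [h4, map_zero]))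
  let E := IntermediateField.adjoin k (Set.range fun j : Fin i => z j)
  have hzE : ∀ j < i, z j ∈ E := fun j hj =>
    IntermediateField.subset_adjoin _ _ ⟨⟨j, hj⟩, rfl⟩
  have hmvE : ∀ m ≤ i, ∀ g : MvPolynomial (Fin m) k,
      mv z (MvPolynomial.map (algebraMap k 𝕂) g) ∈ E := by
    intro m hm g
    rw [hav]
    have h1 : (MvPolynomial.aeval (fun j : Fin m => z j) g) ∈
        Algebra.adjoin k (Set.range fun j : Fin m => z j) := by
      rw [Algebra.adjoin_range_eq_range_aeval]
      exact ⟨g, rfl⟩
    have h2 : Algebra.adjoin k (Set.range fun j : Fin m => z j) ≤ E.toSubalgebra := by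
      apply Algebra.adjoin_le
      rintro _ ⟨j, rfl⟩
      exact hzE j (by omega)
    exact h2 h1
  have htvE : ∀ j < i, ∀ p : (MvPolynomial (Fin j) k)[X],
      tv z (pm (algebraMap k 𝕂) p) ∈ E := by
    intro j hj p
    rw [← mv_map_emb hj]
    exact hmvE i le_rfl _
  have hyE : ∀ l : Fin (i + 1), φ (z l) ∈ E := by
    intro l
    rcases Nat.lt_succ_iff_lt_or_eq.mp l.2 with hl | hl
    · have h1 := hφ l (by omega)
      have h2 : φ (z l) = tv z ((T.map (algebraMap k 𝕂)).P l) /
          tv z ((T.map (algebraMap k 𝕂)).R l) := by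
        rw [eq_div_iff (hRz l (by omega))]; exact h1
      rw [h2]
      exact E.div_mem (htvE l hl _) (htvE l hl _)
    · rw [hl]
      obtain ⟨a, b, hb, hab⟩ := dom_const (T.P i) (T.R i) (hR i hi) (by
        have := h0
        unfold Tow.W at this
        exact sub_eq_zero.mp this)
      have h1 := congrArg (fun p => tv z (pm (algebraMap k 𝕂) p)) hab
      simp only [map_mul] at h1
      have h2 : ∀ c : MvPolynomial (Fin i) k, tv z (pm (algebraMap k 𝕂) (C c)) =
          mv z (MvPolynomial.map (algebraMap k 𝕂) c) := by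
        intro c
        unfold pm
        rw [coe_mapRingHom, Polynomial.map_C, tv_C]
      rw [h2, h2] at h1
      have hbz : mv z (MvPolynomial.map (algebraMap k 𝕂) b) ≠ 0 := fun h3 =>
        hb (hz' i (by omega) b h3)
      have h3 : φ (z i) = mv z (MvPolynomial.map (algebraMap k 𝕂) a) /
          mv z (MvPolynomial.map (algebraMap k 𝕂) b) := by
        rw [eq_div_iff hbz]
        apply mul_right_cancel₀ (hRz i hi)
        have h4 := hφ i hi
        change φ (z i) * tv z (pm (algebraMap k 𝕂) (T.R i)) =
          tv z (pm (algebraMap k 𝕂) (T.P i)) at h4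
        change φ (z i) * _ * tv z (pm (algebraMap k 𝕂) (T.R i)) =
          _ * tv z (pm (algebraMap k 𝕂) (T.R i))
        rw [← h1, ← h4]; ring
      rw [h3]
      exact E.div_mem (hmvE i le_rfl _) (hmvE i le_rfl _)
  apply dom_dep i (fun j : Fin i => z j) (fun l : Fin (i + 1) => φ (z l)) hyE
  rw [algebraicIndependent_iff]
  intro g hg
  apply hz' (i + 1) (by omega)
  rw [hav]
  apply φ.injective
  rw [map_zero, ← hg]
  exact (MvPolynomial.comp_aeval_apply (fun j : Fin (i + 1) => z j) φ g)

end Pool.Agent.H51.TT
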