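import Pool.Agent.H51.TT.Defs

/-!
# Module Dsc: polynomials in `z_0, …, z_i` as polynomials in `T = z_i`

PROOF.  `q = ∑_{α ∈ supp p} monomial (α i) (monomial (α restricted to Fin i) (coeff α p))`.
`emb` of the term of `α` is `monomial α (coeff α p)` because `α j = 0` for `j > i`.  So
`emb q = p`.  The exponents `α ∈ supp p` are determined by `(α i, α restricted)`, so nothing
cancels: `q.coeff a ≠ 0` iff some `α ∈ supp p` has `α i = a`; hence
`natDegree q = max α i = degreeOf i p` (`MvPolynomial.degreeOf_eq_sup`).
-/

set_option autoImplicit false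

open Polynomial

namespace Pool.Agent.H51.TT

universe u

private theorem rebuild {n : ℕ} (i : Fin n) (α : Fin n →₀ ℕ) (h : ∀ j, i < j → α j = 0) :
    Finsupp.mapDomain (Fin.castLE i.2.le)
      (α.comapDomain (Fin.castLE i.2.le) ((Fin.castLE_injective i.2.le).injOn)) +
      Finsupp.single i (α i) = α := by
  ext j
  rw [Finsupp.add_apply]
  by_cases hj : (j : ℕ) < i
  · have h1 : j = Fin.castLE i.2.le ⟨j, hj⟩ := by
      ext
      simp
    have h2 : i ≠ j := by
      intro h3
      rw [h3] at hj
      exact lt_irrefl _ hj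
    rw [Finsupp.single_eq_of_ne' h2, add_zero]
    conv_lhs => rw [h1]
    rw [Finsupp.mapDomain_apply (Fin.castLE_injective i.2.le), Finsupp.comapDomain_apply, ← h1]
  · have h4 : j ∉ Set.range (Fin.castLE i.2.le : Fin (i : ℕ) → Fin n) := by
      rintro ⟨l, hl⟩
      apply hj
      rw [← hl]
      exact l.2
    rw [Finsupp.mapDomain_of_notMem_range _ _ h4, zero_add]
    by_cases h5 : i = j
    · rw [← h5, Finsupp.single_eq_same]
    · rw [Finsupp.single_eq_of_ne' h5]
      refine (h j ?_).symm
      rw [Fin.lt_def]
      have h6 : (i : ℕ) ≠ j := fun h7 => h5 (Fin.ext h7)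
      omega

theorem exists_desc {k : Type u} [Field k] {n : ℕ} (i : Fin n) (p : MvPolynomial (Fin n) k)
    (hp : ∀ α ∈ p.support, ∀ j, i < j → α j = 0) :
    ∃ q : (MvPolynomial (Fin (i : ℕ)) k)[X], emb i.2 q = p ∧
      q.natDegree = MvPolynomial.degreeOf i p := by
  classical
  set ρ : (Fin n →₀ ℕ) → (Fin (i : ℕ) →₀ ℕ) := fun α =>
    α.comapDomain (Fin.castLE i.2.le) ((Fin.castLE_injective i.2.le).injOn) with hρ
  refine ⟨∑ α ∈ p.support, Polynomial.monomial (α i)
    (MvPolynomial.monomial (ρ α) (p.coeff α)), ?_, ?_⟩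
  · rw [map_sum]
    conv_rhs => rw [← MvPolynomial.support_sum_monomial_coeff p]
    refine Finset.sum_congr rfl fun α hα => ?_
    have h1 : emb i.2 (Polynomial.monomial (α i) (MvPolynomial.monomial (ρ α) (p.coeff α))) =
        MvPolynomial.rename (Fin.castLE i.2.le) (MvPolynomial.monomial (ρ α) (p.coeff α)) *
          (MvPolynomial.X i) ^ (α i) := by
      unfold emb
      rw [Polynomial.coe_eval₂RingHom, Polynomial.eval₂_monomial]
      rfl
    rw [h1, MvPolynomial.rename_monomial, MvPolynomial.X_pow_eq_monomial,
      MvPolynomial.monomial_mul, mul_one, hρ, rebuild i α (hp α hα)]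
  · apply le_antisymm
    · refine Polynomial.natDegree_sum_le_of_forall_le _ _ fun α hα => ?_
      refine (Polynomial.natDegree_monomial_le _).trans ?_
      rw [MvPolynomial.degreeOf_eq_sup]
      exact Finset.le_sup (f := fun m : Fin n →₀ ℕ => m i) hα
    · by_cases h0 : p = 0
      · rw [h0, MvPolynomial.degreeOf_zero]
        exact Nat.zero_le _
      · have hne : p.support.Nonempty := MvPolynomial.support_nonempty.mpr h0
        obtain ⟨α₀, hα₀, h2⟩ := Finset.exists_mem_eq_sup _ hne (fun m : Fin n →₀ ℕ => m i)
        rw [MvPolynomial.degreeOf_eq_sup, h2]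
        apply Polynomial.le_natDegree_of_ne_zero
        intro h3
        have h4 := congrArg (MvPolynomial.coeff (ρ α₀)) h3
        rw [Polynomial.finsetSum_coeff, MvPolynomial.coeff_sum, MvPolynomial.coeff_zero,
          Finset.sum_eq_single α₀] at h4
        · rw [Polynomial.coeff_monomial, if_pos rfl, MvPolynomial.coeff_monomial,
            if_pos rfl] at h4
          exact (MvPolynomial.mem_support_iff.mp hα₀) h4
        · intro β hβ hne'
          rw [Polynomial.coeff_monomial]
          by_cases h5 : β i = α₀ i
          · rw [if_pos h5, MvPolynomial.coeff_monomial, if_neg]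
            intro h6
            apply hne'
            rw [← rebuild i β (hp β hβ), ← rebuild i α₀ (hp α₀ hα₀)]
            have h7 : β.comapDomain (Fin.castLE i.2.le) ((Fin.castLE_injective i.2.le).injOn) =
              α₀.comapDomain (Fin.castLE i.2.le) ((Fin.castLE_injective i.2.le).injOn) := h6
            rw [h7, h5]
          · rw [if_neg h5, MvPolynomial.coeff_zero]
        · intro h8
          exact absurd hα₀ h8

end Pool.Agent.H51.TT
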