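import Pool.Agent.H51.TT.Main
import Pool.Agent.H51.TT.Dom
import Pool.Agent.H51.TT.Dsc
import Pool.Agent.H71.ZD.Trop3

/-!
# Module Fin: the theorem in the frame of projective varieties

PROOF.  `exists_desc` applied to `P i`, `Q i` gives the tower `T` (`T.P i`, `T.R i` for `i < n`,
and `0` for `i ≥ n`), with `emb (T.P i) = P i`, same degrees.  `𝕂 = (affPV k (Fin n)).K`, which is
`FractionRing (MvPolynomial (Fin n) k)`, `z i = zf k (Fin n) (X i)` for `i < n` and `0` for
`i ≥ n`.  `mv z (map g) = zf g` (both ring homomorphisms), so `hz` is `zf_injective`.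
`tv z (T_𝕂.P i) = zf (P i)` by `mv_map_emb`.  `W_ne_zero` (`Q i ≠ 0`) gives `hW`.
Given a form `g` with `ev g ≠ 0`: `h = deh g ≠ 0` (`affPV_ev`).  `main_orbit` gives `X`.
The required orbit is `t ↦ pt (fun i : Fin n => X t i)`: `pt_isPoint`, `aff_sends` (values of `Q i`
at the point are `tv (X t) (T.R i) ≠ 0`, `mv_emb`), density from `affPV_ev`, `eval_deh`, as in
`strong_of_orbit` of `Trop3.lean`.
-/

set_option autoImplicit false

open MvPolynomial

namespace Pool.Agent.H51.TT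

open Pool.Agent.H71.ZD

universe u

theorem strong_triangular {k : Type u} [Field k] [CharZero k] [IsAlgClosed k] (n : ℕ)
    (P Q : Fin n → MvPolynomial (Fin n) k) (hQ : ∀ i, Q i ≠ 0)
    (hPi : ∀ i, ∀ α ∈ (P i).support, ∀ j, i < j → α j = 0)
    (hQi : ∀ i, ∀ α ∈ (Q i).support, ∀ j, i < j → α j = 0)
    (hlev : ∀ i, degreeOf i (Q i) + 2 ≤ degreeOf i (P i) ∨
      degreeOf i (P i) ≤ 1 ∧ degreeOf i (Q i) ≤ 1)
    (φ : (affPV k (Fin n)).K →ₐ[k] (affPV k (Fin n)).K)
    (hφ : ∀ i, φ (zf k (Fin n) (X i)) * zf k (Fin n) (Q i) = zf k (Fin n) (P i))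
    (hno : NoInvariants (affPV k (Fin n)) φ) : StrongZDO (affPV k (Fin n)) φ := by
  classical
  have hP' : ∀ i : Fin n, ∃ q : Polynomial (MvPolynomial (Fin (i : ℕ)) k), emb i.2 q = P i ∧
      q.natDegree = degreeOf i (P i) := fun i => exists_desc i (P i) (hPi i)
  have hR' : ∀ i : Fin n, ∃ q : Polynomial (MvPolynomial (Fin (i : ℕ)) k), emb i.2 q = Q i ∧
      q.natDegree = degreeOf i (Q i) := fun i => exists_desc i (Q i) (hQi i)
  choose P' hP1 hP2 using hP'
  choose R' hR1 hR2 using hR'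
  let T : Tow k :=
    { P := fun i => if hi : i < n then P' ⟨i, hi⟩ else 0
      R := fun i => if hi : i < n then R' ⟨i, hi⟩ else 0 }
  have hTP : ∀ i (hi : i < n), T.P i = P' ⟨i, hi⟩ := fun i hi => dif_pos hi
  have hTR : ∀ i (hi : i < n), T.R i = R' ⟨i, hi⟩ := fun i hi => dif_pos hi
  have htr : ∀ i, n ≤ i → T.P i = 0 ∧ T.R i = 0 := fun i hi =>
    ⟨dif_neg (by omega), dif_neg (by omega)⟩
  have heP : ∀ i (hi : i < n), emb hi (T.P i) = P ⟨i, hi⟩ := fun i hi => by
    rw [hTP i hi]; exact hP1 ⟨i, hi⟩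
  have heR : ∀ i (hi : i < n), emb hi (T.R i) = Q ⟨i, hi⟩ := fun i hi => by
    rw [hTR i hi]; exact hR1 ⟨i, hi⟩
  let z : ℕ → (affPV k (Fin n)).K := fun i =>
    if hi : i < n then zf k (Fin n) (X ⟨i, hi⟩) else 0
  have hzi : ∀ i (hi : i < n), z i = zf k (Fin n) (X ⟨i, hi⟩) := fun i hi => dif_pos hi
  have hmz : ∀ g : MvPolynomial (Fin n) k,
      mv z (MvPolynomial.map (algebraMap k (affPV k (Fin n)).K) g) = zf k (Fin n) g := by
    intro g
    induction g using MvPolynomial.induction_on with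
    | C a =>
      rw [zf_C, MvPolynomial.map_C]
      exact MvPolynomial.eval_C _
    | add p q hp hq =>
      rw [map_add, map_add, hp, hq]
      exact (map_add (algebraMap (MvPolynomial (Fin n) k) (FractionRing (MvPolynomial (Fin n) k)))
        p q).symm
    | mul_X p i hp =>
      rw [zf_mul, map_mul, map_mul, hp, MvPolynomial.map_X]
      have h1 : mv z (X i : MvPolynomial (Fin n) (affPV k (Fin n)).K) = z i :=
        MvPolynomial.eval_X _
      rw [h1, hzi i i.2]
  have hz : ∀ g : MvPolynomial (Fin n) k,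
      mv z (MvPolynomial.map (algebraMap k (affPV k (Fin n)).K) g) = 0 → g = 0 := by
    intro g hg
    rw [hmz] at hg
    exact zf_injective (hg.trans zf_zero.symm)
  have htP : ∀ i (hi : i < n), tv z ((T.map (algebraMap k (affPV k (Fin n)).K)).P i) =
      zf k (Fin n) (P ⟨i, hi⟩) := by
    intro i hi
    rw [← heP i hi, ← hmz, mv_map_emb]
    rfl
  have htR : ∀ i (hi : i < n), tv z ((T.map (algebraMap k (affPV k (Fin n)).K)).R i) =
      zf k (Fin n) (Q ⟨i, hi⟩) := by
    intro i hi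
    rw [← heR i hi, ← hmz, mv_map_emb]
    rfl
  have hφ' : ∀ i < n, φ (z i) * tv z ((T.map (algebraMap k (affPV k (Fin n)).K)).R i) =
      tv z ((T.map (algebraMap k (affPV k (Fin n)).K)).P i) := by
    intro i hi
    rw [htP i hi, htR i hi, hzi i hi]
    exact hφ ⟨i, hi⟩
  have hR0 : ∀ i < n, T.R i ≠ 0 := by
    intro i hi h0
    apply hQ ⟨i, hi⟩
    rw [← heR i hi, h0, map_zero]
  have hW : ∀ i < n, T.W i ≠ 0 := W_ne_zero T n z hz φ hR0 hφ'
  have hlev' : ∀ i < n, (T.R i).natDegree + 2 ≤ (T.P i).natDegree ∨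
      (T.P i).natDegree ≤ 1 ∧ (T.R i).natDegree ≤ 1 := by
    intro i hi
    rw [hTP i hi, hTR i hi, hP2, hR2]
    exact hlev ⟨i, hi⟩
  intro e g hg hg0
  have hg1 : deh (σ := Fin n) g ≠ 0 := by
    intro h0
    apply hg0
    exact (affPV_ev (σ := Fin n) g).trans (by rw [h0, zf_zero])
  obtain ⟨x, hx, hxg, hxd⟩ := main_orbit T n htr hW hlev' z hz φ hφ' hno
    (deh (σ := Fin n) g) hg1
  have hev : ∀ t (q : MvPolynomial (Fin n) k), eval (fun i : Fin n => x t i) q = mv (x t) q :=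
    fun t q => rfl
  have hRx : ∀ t (i : Fin n), eval (fun j : Fin n => x t j) (Q i) = tv (x t) (T.R i) := by
    intro t i
    rw [hev, ← heR i i.2, mv_emb]
  have hPx : ∀ t (i : Fin n), eval (fun j : Fin n => x t j) (P i) = tv (x t) (T.P i) := by
    intro t i
    rw [hev, ← heP i i.2, mv_emb]
  refine ⟨fun t => pt (fun i : Fin n => x t i), ⟨fun t => pt_isPoint _, fun t => ?_⟩, ?_, ?_⟩
  · refine aff_sends P Q hQ φ hφ (fun i => ?_) (fun i => ?_)
    · rw [hRx]
      exact (hx.unit t i i.2).ne_zero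
    · rw [hRx, hPx]
      exact hx.step t i i.2
  · intro d q hq hv
    by_contra hne
    have h1 : deh (σ := Fin n) q ≠ 0 := by
      intro h0
      apply hne
      exact (affPV_ev (σ := Fin n) q).trans (by rw [h0, zf_zero])
    obtain ⟨t, ht⟩ := hxd _ h1
    exact ht ((eval_deh _ _).symm.trans (hv t))
  · intro t h0
    exact hxg t ((eval_deh _ _).symm.trans h0)

end Pool.Agent.H51.TT
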