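import Pool.Agent.H51.TT.RzB

/-!
# Module RzC: points of infinite orbit of a rational function in an arithmetic progression

PROOF.  Let `d = max (natDegree P) (natDegree R) = e + 1 ≥ 2`, `u P + v R = 1`, and let `a` be the
leading coefficient of the polynomial of degree `d`.  Let `A = Algebra.adjoin ℚ S ⊆ k`, `S` the
finite set of all coefficients of `P, R, u, v`, of `z` and `a⁻¹`: a finitely generated
`ℚ`-algebra.  Let `𝔪` be a maximal ideal of `A`, `L = A ⧸ 𝔪`: a field, finite over `ℚ`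
(`finite_of_finite_type_of_isJacobsonRing ℚ _`), so a number field, `π : A → L`.
`P, R, u, v` lift to `A[X]`; let `P₁, R₁ ∈ L[X]` be the images: coprime (`IsCoprime.map` or the
image of the identity), of degrees `≤ d`, one of them of degree `d` (`π a ≠ 0` as `a` is a unit).
`B` from `height_growth`, `t` from `exists_high` (with `s = π z`, `N`).
Let `x` be an orbit with `x 0 = z + t N`.  Define `b, a : ℕ → A` by `b 0 = 1`, `a 0 = z + t N`,
`b (n+1) = ∑_{j ≤ d} R_j a^j b^(d-j)`, `a (n+1) = ∑_{j ≤ d} P_j a^j b^(d-j)`.  In `k`: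
`b n ≠ 0` and `x n * b n = a n` (induction: `b (n+1) = b^d R(x n)`, `a (n+1) = b^d P(x n)`).
In `L`: `w n = ![π (b n), π (a n)]` satisfies `w (n+1) = ![hv d R₁ (w n), hv d P₁ (w n)]`
(`hv` is defined in `Pool/Agent/H71/ZD/HtFib.lean`), so by induction `w n ≠ 0`,
`B < logHeight (w n) < logHeight (w (n+1))`; the heights are strictly increasing.
If `x i = x j` then `a i * b j = a j * b i` in `k`, so in `A`, so in `L`: `w i` and `w j` are
proportional, their heights are equal (`logHeight_smul_eq_logHeight`), so `i = j`.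
-/

set_option autoImplicit false

open Polynomial

namespace Pool.Agent.H51.TT

universe u

open Pool.Agent.H71.ZD Height

private theorem rzc_nf (A : Type u) [CommRing A] [Nontrivial A] [Algebra ℚ A]
    [Algebra.FiniteType ℚ A] :
    ∃ (L : Type u) (_ : Field L) (_ : NumberField L), Nonempty (A →+* L) := by
  obtain ⟨m, hm⟩ := Ideal.exists_maximal A
  let fL : Field (A ⧸ m) := Ideal.Quotient.field m
  let iA : Algebra ℚ (A ⧸ m) := Ideal.Quotient.algebra ℚ
  have hft2 : Algebra.FiniteType ℚ (A ⧸ m) :=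
    Algebra.FiniteType.of_surjective (Ideal.Quotient.mkₐ ℚ m) Ideal.Quotient.mk_surjective
  have hfin : Module.Finite ℚ (A ⧸ m) := finite_of_finite_type_of_isJacobsonRing ℚ _
  have hcz : CharZero (A ⧸ m) := algebraRat.charZero _
  have hfd : @FiniteDimensional ℚ (A ⧸ m) _ _ (DivisionRing.toRatAlgebra).toModule := by
    have e1 : iA = DivisionRing.toRatAlgebra := Subsingleton.elim _ _
    rw [← e1]
    exact hfin
  exact ⟨A ⧸ m, fL, { to_charZero := hcz, to_finiteDimensional := hfd }, ⟨Ideal.Quotient.mk m⟩⟩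

private theorem rzc_spec {k : Type u} [Field k] [CharZero k] (S : Set k) (hS : S.Finite) :
    ∃ (A : Subring k) (L : Type u) (_ : Field L) (_ : NumberField L) (_ : A →+* L),
      S ⊆ (A : Set k) := by
  have hft : Algebra.FiniteType ℚ (Algebra.adjoin ℚ S) := by
    rw [← Subalgebra.fg_iff_finiteType]
    exact Subalgebra.fg_adjoin_finset hS.toFinset |> fun h => by simpa using h
  obtain ⟨L, fL, nL, ⟨π⟩⟩ := rzc_nf (Algebra.adjoin ℚ S)
  exact ⟨(Algebra.adjoin ℚ S).toSubring, L, fL, nL, π, fun x hx => Algebra.subset_adjoin hx⟩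

private theorem rzc_smul {L : Type u} [Field L] {w w' : Fin 2 → L} (hw : w ≠ 0) (hw' : w' ≠ 0)
    (h : w 1 * w' 0 = w' 1 * w 0) : ∃ c : L, c ≠ 0 ∧ w = c • w' := by
  have hne : ∀ w : Fin 2 → L, w ≠ 0 → w 0 ≠ 0 ∨ w 1 ≠ 0 := by
    intro w hw
    by_contra hcon
    push Not at hcon
    exact hw (funext fun i => by fin_cases i <;> simp [hcon.1, hcon.2])
  by_cases h0 : w' 0 = 0
  · have h1 : w' 1 ≠ 0 := (hne w' hw').resolve_left (fun h => h h0)
    have h2 : w 0 = 0 := by
      rw [h0, mul_zero] at h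
      exact (mul_eq_zero.mp h.symm).resolve_left h1
    have h3 : w 1 ≠ 0 := (hne w hw).resolve_left (fun h => h h2)
    refine ⟨w 1 / w' 1, div_ne_zero h3 h1, funext fun i => ?_⟩
    fin_cases i
    · show w 0 = w 1 / w' 1 * w' 0
      rw [h2, h0, mul_zero]
    · show w 1 = w 1 / w' 1 * w' 1
      rw [div_mul_cancel₀ _ h1]
  · have h2 : w 0 ≠ 0 := by
      intro h2
      rw [h2, mul_zero] at h
      have h3 := (mul_eq_zero.mp h).resolve_right h0
      rcases hne w hw with h4 | h4
      · exact h4 h2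
      · exact h4 h3
    refine ⟨w 0 / w' 0, div_ne_zero h2 h0, funext fun i => ?_⟩
    fin_cases i
    · show w 0 = w 0 / w' 0 * w' 0
      rw [div_mul_cancel₀ _ h0]
    · show w 1 = w 0 / w' 0 * w' 1
      rw [div_mul_eq_mul_div, eq_div_iff h0, h, mul_comm]

/-- the homogenised pair sequence -/
private def rzcS {A : Type u} [CommRing A] (d : ℕ) (P R : A[X]) (a₀ : A) : ℕ → A × A
  | 0 => (1, a₀)
  | n + 1 => (∑ j ∈ Finset.range (d + 1), R.coeff j *
      ((rzcS d P R a₀ n).1 ^ (d - j) * (rzcS d P R a₀ n).2 ^ j),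
    ∑ j ∈ Finset.range (d + 1), P.coeff j *
      ((rzcS d P R a₀ n).1 ^ (d - j) * (rzcS d P R a₀ n).2 ^ j))

private theorem rzc_eval {k : Type u} [Field k] (Q : k[X]) {d : ℕ} (hd : Q.natDegree ≤ d) (b x : k) :
    ∑ j ∈ Finset.range (d + 1), Q.coeff j * (b ^ (d - j) * (x * b) ^ j) = b ^ d * Q.eval x := by
  rw [Polynomial.eval_eq_sum_range' (Nat.lt_succ_of_le hd), Finset.mul_sum]
  refine Finset.sum_congr rfl fun j hj => ?_
  have h1 : d = (d - j) + j := by
    have := Finset.mem_range.mp hj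
    omega
  have h2 : b ^ d = b ^ (d - j) * b ^ j := by rw [← pow_add, ← h1]
  rw [h2, mul_pow]
  ring

theorem exists_wandering {k : Type u} [Field k] [CharZero k] (P R : k[X]) (hco : IsCoprime P R)
    (hd : 2 ≤ P.natDegree ∨ 2 ≤ R.natDegree) (z : k) (N : ℕ) (hN : 0 < N) :
    ∃ t : ℕ, ∀ x : ℕ → k, x 0 = z + t * N →
      (∀ n, R.eval (x n) ≠ 0 ∧ x (n + 1) * R.eval (x n) = P.eval (x n)) →
      ∀ i j, x i = x j → i = j := by
  classical
  obtain ⟨u, v, huv⟩ := hco
  obtain ⟨e, he, hPd, hRd, hdd⟩ : ∃ e, 1 ≤ e ∧ P.natDegree ≤ e + 1 ∧ R.natDegree ≤ e + 1 ∧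
      (P.natDegree = e + 1 ∨ R.natDegree = e + 1) :=
    ⟨max P.natDegree R.natDegree - 1, by omega, by omega, by omega, by omega⟩
  obtain ⟨A, L, fL, nL, π, hSA⟩ := rzc_spec ((P.coeffs : Set k) ∪ (R.coeffs : Set k) ∪
    (u.coeffs : Set k) ∪ (v.coeffs : Set k) ∪ {z, P.leadingCoeff⁻¹, R.leadingCoeff⁻¹})
    (by
      refine Set.Finite.union ?_ (Set.toFinite _)
      exact ((((Finset.finite_toSet _).union (Finset.finite_toSet _)).union
        (Finset.finite_toSet _)).union (Finset.finite_toSet _)))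
  have hPA : (P.coeffs : Set k) ⊆ A := fun y hy => hSA (Or.inl (Or.inl (Or.inl (Or.inl hy))))
  have hRA : (R.coeffs : Set k) ⊆ A := fun y hy => hSA (Or.inl (Or.inl (Or.inl (Or.inr hy))))
  have huA : (u.coeffs : Set k) ⊆ A := fun y hy => hSA (Or.inl (Or.inl (Or.inr hy)))
  have hvA : (v.coeffs : Set k) ⊆ A := fun y hy => hSA (Or.inl (Or.inr hy))
  have hzA : z ∈ A := hSA (Or.inr (by simp))
  have hlP : P.leadingCoeff⁻¹ ∈ A := hSA (Or.inr (by simp))
  have hlR : R.leadingCoeff⁻¹ ∈ A := hSA (Or.inr (by simp))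
  have hident : u.toSubring A huA * P.toSubring A hPA + v.toSubring A hvA * R.toSubring A hRA =
      1 := by
    apply Polynomial.map_injective A.subtype Subtype.val_injective
    rw [Polynomial.map_add, Polynomial.map_mul, Polynomial.map_mul, map_toSubring, map_toSubring,
      map_toSubring, map_toSubring, Polynomial.map_one, huv]
  have hco₁ : IsCoprime ((P.toSubring A hPA).map π) ((R.toSubring A hRA).map π) := by
    refine ⟨(u.toSubring A huA).map π, (v.toSubring A hvA).map π, ?_⟩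
    rw [← Polynomial.map_mul, ← Polynomial.map_mul, ← Polynomial.map_add, hident,
      Polynomial.map_one]
  have hlead : ∀ (Q : k[X]) (hQ : (Q.coeffs : Set k) ⊆ A), Q.leadingCoeff⁻¹ ∈ A →
      Q.natDegree = e + 1 → ((Q.toSubring A hQ).map π).natDegree = e + 1 := by
    intro Q hQ hl hQd
    have hQ0 : Q.leadingCoeff ≠ 0 := by
      rw [Polynomial.leadingCoeff_ne_zero]
      intro h0
      rw [h0, Polynomial.natDegree_zero] at hQd
      omega
    have h1 : (Q.toSubring A hQ).leadingCoeff * ⟨Q.leadingCoeff⁻¹, hl⟩ = 1 := by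
      apply Subtype.ext
      have h2 : (((Q.toSubring A hQ).leadingCoeff : A) : k) = Q.leadingCoeff := by
        unfold Polynomial.leadingCoeff
        rw [natDegree_toSubring, coeff_toSubring]
      show (((Q.toSubring A hQ).leadingCoeff : A) : k) * Q.leadingCoeff⁻¹ = 1
      rw [h2, mul_inv_cancel₀ hQ0]
    have h3 : π (Q.toSubring A hQ).leadingCoeff ≠ 0 := by
      intro h0
      have h4 := congrArg π h1
      rw [map_mul, h0, zero_mul, map_one] at h4
      exact zero_ne_one h4
    rw [Polynomial.natDegree_map_of_leadingCoeff_ne_zero π h3, natDegree_toSubring, hQd]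
  obtain ⟨B, hB⟩ := height_growth ((P.toSubring A hPA).map π) ((R.toSubring A hRA).map π) hco₁ he
    (Polynomial.natDegree_map_le.trans (by rw [natDegree_toSubring]; exact hPd))
    (Polynomial.natDegree_map_le.trans (by rw [natDegree_toSubring]; exact hRd))
    (hdd.imp (hlead P hPA hlP) (hlead R hRA hlR))
  obtain ⟨t, ht⟩ := exists_high (π ⟨z, hzA⟩) N hN B
  refine ⟨t, fun x hx0 hx => ?_⟩
  set s : ℕ → A × A := rzcS (e + 1) (P.toSubring A hPA) (R.toSubring A hRA)
    (⟨z, hzA⟩ + (t : A) * (N : A)) with hs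
  have hs0 : s 0 = (1, ⟨z, hzA⟩ + (t : A) * (N : A)) := rfl
  have hs1 : ∀ n, s (n + 1) = (∑ j ∈ Finset.range (e + 1 + 1), (R.toSubring A hRA).coeff j *
      ((s n).1 ^ (e + 1 - j) * (s n).2 ^ j), ∑ j ∈ Finset.range (e + 1 + 1),
      (P.toSubring A hPA).coeff j * ((s n).1 ^ (e + 1 - j) * (s n).2 ^ j)) := fun n => rfl
  clear_value s
  -- in `k`
  have hk : ∀ n, ((s n).1 : k) ≠ 0 ∧ ((s n).2 : k) = x n * ((s n).1 : k) := by
    intro n
    induction n with
    | zero =>
      rw [hs0]
      refine ⟨one_ne_zero, ?_⟩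
      rw [hx0]
      push_cast
      ring
    | succ n ih =>
      obtain ⟨ih1, ih2⟩ := ih
      have h1 : (((s (n + 1)).1 : A) : k) = ((s n).1 : k) ^ (e + 1) * R.eval (x n) := by
        rw [hs1, ← rzc_eval R hRd, ← ih2]
        push_cast
        refine Finset.sum_congr rfl fun j _ => ?_
        rw [coeff_toSubring]
      have h2 : (((s (n + 1)).2 : A) : k) = ((s n).1 : k) ^ (e + 1) * P.eval (x n) := by
        rw [hs1, ← rzc_eval P hPd, ← ih2]
        push_cast
        refine Finset.sum_congr rfl fun j _ => ?_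
        rw [coeff_toSubring]
      refine ⟨?_, ?_⟩
      · rw [h1]
        exact mul_ne_zero (pow_ne_zero _ ih1) (hx n).1
      · rw [h1, h2, ← (hx n).2]
        ring
  -- in `L`
  have hw1 : ∀ n, (![π (s (n + 1)).1, π (s (n + 1)).2] : Fin 2 → L) =
      ![hv (e + 1) ((R.toSubring A hRA).map π) ![π (s n).1, π (s n).2],
        hv (e + 1) ((P.toSubring A hPA).map π) ![π (s n).1, π (s n).2]] := by
    intro n
    have key : ∀ Q : A[X], π (∑ j ∈ Finset.range (e + 1 + 1), Q.coeff j *
        ((s n).1 ^ (e + 1 - j) * (s n).2 ^ j)) =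
        hv (e + 1) (Q.map π) ![π (s n).1, π (s n).2] := by
      intro Q
      unfold hv mono
      rw [map_sum, Finset.sum_range]
      refine Finset.sum_congr rfl fun j _ => ?_
      rw [map_mul, map_mul, map_pow, map_pow, Polynomial.coeff_map]
      rfl
    rw [hs1, key, key]
  have hLind : ∀ n, (![π (s n).1, π (s n).2] : Fin 2 → L) ≠ 0 ∧
      B < logHeight (![π (s n).1, π (s n).2] : Fin 2 → L) := by
    intro n
    induction n with
    | zero =>
      rw [hs0]
      refine ⟨?_, ?_⟩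
      · intro h0
        have h1 := congrFun h0 0
        simp at h1
      · show B < logHeight (![π 1, π (⟨z, hzA⟩ + (t : A) * (N : A))] : Fin 2 → L)
        rw [map_one, map_add, map_mul, map_natCast, map_natCast]
        exact ht
    | succ n ih =>
      have h1 := hB _ ih.1 ih.2
      rw [hw1]
      exact ⟨h1.1, ih.2.trans h1.2⟩
  have hmono : StrictMono fun n => logHeight (![π (s n).1, π (s n).2] : Fin 2 → L) := by
    refine strictMono_nat_of_lt_succ fun n => ?_
    show logHeight (![π (s n).1, π (s n).2] : Fin 2 → L) <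
      logHeight (![π (s (n + 1)).1, π (s (n + 1)).2] : Fin 2 → L)
    rw [hw1]
    exact (hB _ (hLind n).1 (hLind n).2).2
  intro i j hij
  have hA2 : (s i).2 * (s j).1 = (s j).2 * (s i).1 := by
    apply Subtype.ext
    show ((s i).2 : k) * ((s j).1 : k) = ((s j).2 : k) * ((s i).1 : k)
    rw [(hk i).2, (hk j).2, hij]
    ring
  have hL2 : π (s i).2 * π (s j).1 = π (s j).2 * π (s i).1 := by
    rw [← map_mul, ← map_mul, hA2]
  obtain ⟨c, hc0, hc⟩ := rzc_smul (w := ![π (s i).1, π (s i).2]) (w' := ![π (s j).1, π (s j).2])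
    (hLind i).1 (hLind j).1 hL2
  apply hmono.injective
  show logHeight (![π (s i).1, π (s i).2] : Fin 2 → L) =
    logHeight (![π (s j).1, π (s j).2] : Fin 2 → L)
  rw [hc]
  exact logHeight_smul_eq_logHeight _ hc0

end Pool.Agent.H51.TT
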