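import Pool.Agent.H51.TT.Main2
import Pool.Agent.H51.TT.RzC

/-!
# Module Lv0: an arbitrary rational function of degree at least 2 as first coordinate

PROOF.  `S = MvPolynomial (Fin 0) k ≃ k` (`MvPolynomial.isEmptyRingEquiv`; the map
`mv x : S →+* k` does not depend on `x` (`mv_congr`) and is bijective).  Let `P, R ∈ k[X]` be the
images of `T.P 0`, `T.R 0`: same degrees, relatively prime (transport along the ring isomorphism
`S[X] ≃ k[X]`), so coprime (`k[X]` is a PID).  Given `z, N`, take `s` from `exists_wandering`.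
For `X` as in the definition of `Lvl`: `T.Orb 1 X` says that `t ↦ X t 0` is an orbit of `P / R`
(`tv_eq_eval`), so `t ↦ X t 0` is injective.  For `g ≠ 0` in `MvPolynomial (Fin 1) k` the
polynomial `G = (spl 0 k g).map (mv 0) ∈ k[X]` is nonzero and `mv (X t) g = G.eval (X t 0)`
(`tv_spl`, `tv_eq_eval`); it has finitely many roots, so some `t` works.
-/

set_option autoImplicit false

open Polynomial

namespace Pool.Agent.H51.TT

universe u

private theorem lv0_mv {k : Type u} [Field k] (x : ℕ → k) :
    (mv x : MvPolynomial (Fin 0) k →+* k) =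
      ((MvPolynomial.isEmptyRingEquiv k (Fin 0)).toRingHom) := by
  apply MvPolynomial.ringHom_ext
  · intro r
    unfold mv
    rw [MvPolynomial.eval_C]
    show r = MvPolynomial.isEmptyRingEquiv k (Fin 0) (MvPolynomial.C r)
    rw [MvPolynomial.isEmptyRingEquiv_eq_coeff_zero, MvPolynomial.coeff_zero_C]
  · intro i
    exact i.elim0

theorem lvl_zero {k : Type u} [Field k] [CharZero k] (T : Tow k)
    (hco : IsRelPrime (T.P 0) (T.R 0)) (hd : 2 ≤ (T.P 0).natDegree ∨ 2 ≤ (T.R 0).natDegree) :
    Lvl T 0 1 := by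
  classical
  set e := MvPolynomial.isEmptyRingEquiv k (Fin 0) with he
  set E : (MvPolynomial (Fin 0) k)[X] ≃+* k[X] := Polynomial.mapEquiv e with hE
  have hEm : ∀ p : (MvPolynomial (Fin 0) k)[X], E p = p.map e.toRingHom := fun p => rfl
  have hinj : Function.Injective (e.toRingHom : MvPolynomial (Fin 0) k →+* k) := e.injective
  have hdeg : ∀ p : (MvPolynomial (Fin 0) k)[X], (E p).natDegree = p.natDegree := by
    intro p
    rw [hEm, Polynomial.natDegree_map_eq_of_injective hinj]
  have htv : ∀ (x : ℕ → k) (p : (MvPolynomial (Fin 0) k)[X]), tv x p = (E p).eval (x 0) := by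
    intro x p
    rw [tv_eq_eval, lv0_mv, hEm]
  have hrel : IsRelPrime (E (T.P 0)) (E (T.R 0)) := by
    intro d h1 h2
    have h3 : E.symm d ∣ T.P 0 := by
      have := map_dvd E.symm h1
      rwa [RingEquiv.symm_apply_apply] at this
    have h4 : E.symm d ∣ T.R 0 := by
      have := map_dvd E.symm h2
      rwa [RingEquiv.symm_apply_apply] at this
    have h5 := (hco h3 h4).map E
    rwa [RingEquiv.apply_symm_apply] at h5
  have hcop : IsCoprime (E (T.P 0)) (E (T.R 0)) := hrel.isCoprime
  intro x _ _ _ z N hN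
  obtain ⟨s, hs⟩ := exists_wandering (E (T.P 0)) (E (T.R 0)) hcop
    (by rw [hdeg, hdeg]; exact hd) z N hN
  refine ⟨s, fun X hX _ hX0 g hg => ?_⟩
  have hinjX : Function.Injective fun t => X t 0 := by
    intro i j hij
    refine hs (fun t => X t 0) hX0 (fun t => ?_) i j hij
    have h1 := hX.unit t 0 (by omega)
    have h2 := hX.step t 0 (by omega)
    rw [htv] at h1 h2
    rw [htv] at h2
    exact ⟨h1.ne_zero, h2⟩
  by_contra hcon
  push Not at hcon
  have hG : E (spl 0 k g) = 0 := by
    apply Polynomial.eq_zero_of_infinite_isRoot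
    apply (Set.infinite_range_of_injective hinjX).mono
    rintro _ ⟨t, rfl⟩
    show (E (spl 0 k g)).eval (X t 0) = 0
    rw [← htv, tv_spl]
    exact hcon t
  apply hg
  have h1 : spl 0 k g = 0 := by
    apply E.injective
    rw [hG, map_zero]
  apply (spl 0 k).injective
  rw [h1, map_zero]

end Pool.Agent.H51.TT
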