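import Pool.Agent.H51.TT.Defs

/-!
# Module Gau: lowest terms and Gauss lemma

PROOF of `emb_injective`: `emb hi p = rename (Fin.castLE _) ((spl i A).symm p)` (both are ring
homomorphisms in `p`; compare on `C (MvPolynomial.C a)`, `C (X j)`, `X`), and both maps on the
right are injective.

PROOF of `relPrime_of_emb`: if `d ∣ p` and `d ∣ q` then `emb d` divides `emb p`, `emb q`, so it is
a unit of `MvPolynomial (Fin n) k`, hence a nonzero constant `C a` (`MvPolynomial.isUnit_iff_eq_C_of_isReduced` or total degree), and `emb d = emb (C (C a))`, so `d = C (C a)` is a unit.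

PROOF of `coprime_of_relPrime` (`S = MvPolynomial (Fin m) k`, a UFD, `K` its fraction field).  If
the images are not coprime in the PID `K[X]`, there is a nonunit `r ∈ K[X]` dividing both
(`¬ IsCoprime → ¬ IsRelPrime`).  `r ≠ 0` (otherwise `p = q = 0` and then `X ∣ p, q`, `X` is not a
unit).  Choose `r' ∈ S[X]` primitive with image an associate of `r`
(`Polynomial.exists_integer_multiple`/`IsLocalization.integerNormalization` and `primPart`); by
Gauss (`Polynomial.IsPrimitive.dvd_of_fraction_map_dvd_fraction_map`, needs
`NormalizedGCDMonoid S`, `UniqueFactorizationMonoid.toNormalizedGCDMonoid` noncomputably)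
`r' ∣ p`, `r' ∣ q`, and `natDegree r' = natDegree r ≥ 1`, so `r'` is not a unit: contradiction.
-/

set_option autoImplicit false

open Polynomial

namespace Pool.Agent.H51.TT

universe u

theorem emb_injective {k : Type u} [Field k] {i n : ℕ} (hi : i < n) :
    Function.Injective (emb hi : (MvPolynomial (Fin i) k)[X] →+* MvPolynomial (Fin n) k) := by
  have hle : i + 1 ≤ n := hi
  have h : (emb hi).comp (spl i k).toRingHom =
      (MvPolynomial.rename (Fin.castLE hle) : MvPolynomial (Fin (i + 1)) k →ₐ[k] _).toRingHom := by
    apply MvPolynomial.ringHom_ext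
    · intro r
      simp [spl, emb]
    · intro j
      induction j using Fin.lastCases with
      | last =>
        simp [spl, emb]
        rfl
      | cast j =>
        simp [spl, emb]
  have hinj : Function.Injective (MvPolynomial.rename (Fin.castLE hle) :
      MvPolynomial (Fin (i + 1)) k →ₐ[k] MvPolynomial (Fin n) k) :=
    MvPolynomial.rename_injective _ (Fin.castLE_injective hle)
  intro p q hpq
  have hp : emb hi p = MvPolynomial.rename (Fin.castLE hle) ((spl i k).symm p) := by
    have := congrArg (fun f : MvPolynomial (Fin (i + 1)) k →+* MvPolynomial (Fin n) k =>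
      f ((spl i k).symm p)) h
    simpa using this
  have hq : emb hi q = MvPolynomial.rename (Fin.castLE hle) ((spl i k).symm q) := by
    have := congrArg (fun f : MvPolynomial (Fin (i + 1)) k →+* MvPolynomial (Fin n) k =>
      f ((spl i k).symm q)) h
    simpa using this
  rw [hp, hq] at hpq
  exact (spl i k).symm.injective (hinj hpq)

theorem relPrime_of_emb {k : Type u} [Field k] {i n : ℕ} (hi : i < n)
    (p q : (MvPolynomial (Fin i) k)[X]) (h : IsRelPrime (emb hi p) (emb hi q)) :
    IsRelPrime p q := by
  intro d hp hq
  have hu : IsUnit (emb hi d) := h (map_dvd (emb hi) hp) (map_dvd (emb hi) hq)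
  obtain ⟨a, ha, hd⟩ := MvPolynomial.isUnit_iff_eq_C_of_isReduced.1 hu
  have h1 : emb hi (C (MvPolynomial.C a)) = MvPolynomial.C a := by
    simp [emb]
  have h2 : d = C (MvPolynomial.C a) := emb_injective hi (hd.trans h1.symm)
  rw [h2]
  exact (ha.map MvPolynomial.C).map C

theorem coprime_of_relPrime {k : Type u} [Field k] {m : ℕ} (p q : (MvPolynomial (Fin m) k)[X])
    (h : IsRelPrime p q) :
    IsCoprime (p.map (algebraMap (MvPolynomial (Fin m) k)
        (FractionRing (MvPolynomial (Fin m) k))))
      (q.map (algebraMap (MvPolynomial (Fin m) k) (FractionRing (MvPolynomial (Fin m) k)))) := by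
  have hinj : Function.Injective (Polynomial.map (algebraMap (MvPolynomial (Fin m) k)
      (FractionRing (MvPolynomial (Fin m) k)))) :=
    Polynomial.map_injective _ (IsFractionRing.injective _ _)
  rw [← isRelPrime_iff_isCoprime]
  intro r hp hq
  by_cases hr : r = 0
  · exfalso
    subst hr
    have hp0 : p = 0 := hinj (by rw [zero_dvd_iff.1 hp, Polynomial.map_zero])
    have hq0 : q = 0 := hinj (by rw [zero_dvd_iff.1 hq, Polynomial.map_zero])
    rw [hp0, hq0] at h
    exact Polynomial.not_isUnit_X (h (dvd_zero _) (dvd_zero _))
  · let _ : NormalizedGCDMonoid (MvPolynomial (Fin m) k) := Nonempty.some inferInstance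
    obtain ⟨c, c0, hc⟩ := IsLocalization.integerNormalization_spec
      (nonZeroDivisors (MvPolynomial (Fin m) k)) r
    set g := IsLocalization.integerNormalization (nonZeroDivisors (MvPolynomial (Fin m) k)) r
    have hprim : g.primPart.IsPrimitive := g.isPrimitive_primPart
    have hcu : IsUnit (C (algebraMap (MvPolynomial (Fin m) k)
        (FractionRing (MvPolynomial (Fin m) k)) c)) := by
      rw [Polynomial.isUnit_C, isUnit_iff_ne_zero]
      exact (map_ne_zero_iff _ (IsFractionRing.injective _ _)).2 (nonZeroDivisors.ne_zero c0)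
    have hd : g.primPart.map (algebraMap (MvPolynomial (Fin m) k)
        (FractionRing (MvPolynomial (Fin m) k))) ∣ r := by
      have h1 : g.primPart.map (algebraMap (MvPolynomial (Fin m) k)
          (FractionRing (MvPolynomial (Fin m) k))) ∣ g.map (algebraMap (MvPolynomial (Fin m) k)
          (FractionRing (MvPolynomial (Fin m) k))) := by
        refine Polynomial.map_dvd _ ?_
        exact Dvd.intro_left _ g.eq_C_content_mul_primPart.symm
      rw [hc, Algebra.smul_def, Polynomial.algebraMap_apply] at h1
      exact (hcu.dvd_mul_left).1 h1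
    have h1 : g.primPart ∣ p := hprim.dvd_of_fraction_map_dvd_fraction_map (hd.trans hp)
    have h2 : g.primPart ∣ q := hprim.dvd_of_fraction_map_dvd_fraction_map (hd.trans hq)
    exact isUnit_or_eq_zero_of_isUnit_integerNormalization_primPart hr (h h1 h2)

end Pool.Agent.H51.TT
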