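import Mathlib

/-!
# Module RzA: Bezout certificates of degree at most `e`

PROOF.  Let `u P + v R = 1`.  One of `P, R` has degree exactly `e + 1`; by symmetry say
`natDegree R = e + 1` (`R ≠ 0`).  Put `u₁ = u % R` (degree `≤ e`), `v₁ = v + (u / R) * P`, so
`u₁ P + v₁ R = 1`; as `natDegree (u₁ P) ≤ e + (e + 1)`, `natDegree (v₁ R) ≤ 2 e + 1` and so
`natDegree v₁ ≤ e`.  The same with `u X^(2e+1)`, `v X^(2e+1)` in place of `u, v` (right side
`X^(2e+1)`, also of degree `≤ 2 e + 1`).
-/

set_option autoImplicit false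

open Polynomial

namespace Pool.Agent.H51.TT

universe u

private theorem cert_aux {L : Type u} [Field L] (P R : L[X]) (hco : IsCoprime P R) {e : ℕ}
    (hP : P.natDegree ≤ e + 1) (hR : R.natDegree = e + 1) (T : L[X]) (hT : T.natDegree ≤ 2 * e + 1) :
    ∃ u v : L[X], u.natDegree ≤ e ∧ v.natDegree ≤ e ∧ u * P + v * R = T := by
  obtain ⟨a, b, hab⟩ := hco
  have hR0 : R ≠ 0 := by
    rintro rfl
    simp at hR
  have h1 : ((a * T) % R).natDegree < R.natDegree :=
    Polynomial.natDegree_mod_lt _ (by rw [hR]; omega)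
  have h2 : (a * T) % R + R * ((a * T) / R) = a * T := EuclideanDomain.mod_add_div _ _
  have h3 : ((a * T) % R) * P + (b * T + ((a * T) / R) * P) * R = T := by
    linear_combination P * h2 + T * hab
  refine ⟨(a * T) % R, b * T + ((a * T) / R) * P, by omega, ?_, h3⟩
  rcases eq_or_ne (b * T + ((a * T) / R) * P) 0 with h0 | h0
  · rw [h0]; simp
  · have h4 : ((b * T + ((a * T) / R) * P) * R).natDegree ≤ 2 * e + 1 := by
      have h5 : (b * T + ((a * T) / R) * P) * R = T - ((a * T) % R) * P := by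
        linear_combination h3
      rw [h5]
      refine (Polynomial.natDegree_sub_le _ _).trans (max_le hT ?_)
      refine Polynomial.natDegree_mul_le.trans ?_
      omega
    rw [Polynomial.natDegree_mul h0 hR0, hR] at h4
    omega

theorem exists_cert {L : Type u} [Field L] (P R : L[X]) (hco : IsCoprime P R) {e : ℕ}
    (hP : P.natDegree ≤ e + 1) (hR : R.natDegree ≤ e + 1)
    (hd : P.natDegree = e + 1 ∨ R.natDegree = e + 1) :
    ∃ u v u' v' : L[X], u.natDegree ≤ e ∧ v.natDegree ≤ e ∧ u'.natDegree ≤ e ∧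
      v'.natDegree ≤ e ∧ u * P + v * R = 1 ∧ u' * P + v' * R = X ^ (2 * e + 1) := by
  have key : ∀ T : L[X], T.natDegree ≤ 2 * e + 1 →
      ∃ u v : L[X], u.natDegree ≤ e ∧ v.natDegree ≤ e ∧ u * P + v * R = T := by
    intro T hT
    rcases hd with hd | hd
    · obtain ⟨u, v, h1, h2, h3⟩ := cert_aux R P hco.symm hR hd T hT
      exact ⟨v, u, h2, h1, by rw [add_comm]; exact h3⟩
    · exact cert_aux P R hco hP hd T hT
  obtain ⟨u, v, h1, h2, h3⟩ := key 1 (by simp)
  obtain ⟨u', v', h1', h2', h3'⟩ := key (X ^ (2 * e + 1)) (by simp)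
  exact ⟨u, v, u', v', h1, h2, h1', h2', h3, h3'⟩

end Pool.Agent.H51.TT
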