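import Pool.Agent.H51.TT.Defs
import Pool.Agent.H51.TT.RzA

/-!
# Module LC: Bezout certificates over a polynomial ring

PROOF.  Let `K = FractionRing S`, `S = MvPolynomial (Fin m) k`.  The images of `P, R` in `K[X]` are
coprime (`hco`), with the same degrees (injective coefficient map).  `exists_cert` (RzA) gives
`u, v, u', v' ∈ K[X]` of degrees `≤ e`; clear denominators: there is `res ∈ S`, `res ≠ 0`, such
that `res * u`, … come from `U, V, U', V' ∈ S[X]` (`IsLocalization.integerNormalization` or a
common denominator of the coefficients, `IsLocalization.exist_integer_multiples_of_finset`), of the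
same degrees.  The identities hold in `S[X]` because `S[X] → K[X]` is injective.
-/

set_option autoImplicit false

open Polynomial

namespace Pool.Agent.H51.TT

universe u

private lemma clear_aux {S : Type u} [CommRing S] [IsDomain S] (w : (FractionRing S)[X]) :
    ∃ (b : S), b ≠ 0 ∧ ∀ c : S, ∃ U : S[X],
      U.map (algebraMap S (FractionRing S)) = C (algebraMap S (FractionRing S) (c * b)) * w ∧
      U.natDegree ≤ w.natDegree := by
  obtain ⟨b, hb, h⟩ := IsLocalization.integerNormalization_spec (nonZeroDivisors S) w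
  refine ⟨b, nonZeroDivisors.ne_zero hb, fun c => ?_⟩
  have h1 : ((C c : S[X]) * IsLocalization.integerNormalization (nonZeroDivisors S) w).map
      (algebraMap S (FractionRing S)) = C (algebraMap S (FractionRing S) (c * b)) * w := by
    rw [Polynomial.map_mul, Polynomial.map_C, h, map_mul, C_mul, mul_assoc]
    congr 1
    rw [← Polynomial.smul_eq_C_mul]
    exact (algebraMap_smul (FractionRing S) b w).symm
  refine ⟨_, h1, ?_⟩
  rw [← Polynomial.natDegree_map_eq_of_injective (IsFractionRing.injective S (FractionRing S)), h1]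
  exact Polynomial.natDegree_C_mul_le _ _

theorem exists_cert_mv {k : Type u} [Field k] {m : ℕ} (P R : (MvPolynomial (Fin m) k)[X])
    (hco : IsCoprime (P.map (algebraMap (MvPolynomial (Fin m) k)
        (FractionRing (MvPolynomial (Fin m) k))))
      (R.map (algebraMap (MvPolynomial (Fin m) k) (FractionRing (MvPolynomial (Fin m) k)))))
    {e : ℕ} (hP : P.natDegree ≤ e + 1) (hR : R.natDegree ≤ e + 1)
    (hd : P.natDegree = e + 1 ∨ R.natDegree = e + 1) :
    ∃ (res : MvPolynomial (Fin m) k) (U V U' V' : (MvPolynomial (Fin m) k)[X]), res ≠ 0 ∧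
      U.natDegree ≤ e ∧ V.natDegree ≤ e ∧ U'.natDegree ≤ e ∧ V'.natDegree ≤ e ∧
      U * P + V * R = C res ∧ U' * P + V' * R = C res * X ^ (2 * e + 1) := by
  have hinj : Function.Injective (algebraMap (MvPolynomial (Fin m) k)
      (FractionRing (MvPolynomial (Fin m) k))) := IsFractionRing.injective _ _
  have hP' : (P.map (algebraMap (MvPolynomial (Fin m) k)
      (FractionRing (MvPolynomial (Fin m) k)))).natDegree = P.natDegree :=
    Polynomial.natDegree_map_eq_of_injective hinj P
  have hR' : (R.map (algebraMap (MvPolynomial (Fin m) k)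
      (FractionRing (MvPolynomial (Fin m) k)))).natDegree = R.natDegree :=
    Polynomial.natDegree_map_eq_of_injective hinj R
  obtain ⟨u, v, u', v', h1, h2, h3, h4, h5, h6⟩ := exists_cert _ _ hco (e := e)
    (by rw [hP']; exact hP) (by rw [hR']; exact hR) (by rw [hP', hR']; exact hd)
  obtain ⟨b1, hb1, H1⟩ := clear_aux u
  obtain ⟨b2, hb2, H2⟩ := clear_aux v
  obtain ⟨b3, hb3, H3⟩ := clear_aux u'
  obtain ⟨b4, hb4, H4⟩ := clear_aux v'
  obtain ⟨U, hU, dU⟩ := H1 (b2 * b3 * b4)
  obtain ⟨V, hV, dV⟩ := H2 (b1 * b3 * b4)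
  obtain ⟨U', hU', dU'⟩ := H3 (b1 * b2 * b4)
  obtain ⟨V', hV', dV'⟩ := H4 (b1 * b2 * b3)
  have e1 : b2 * b3 * b4 * b1 = b1 * b2 * b3 * b4 := by ring
  have e2 : b1 * b3 * b4 * b2 = b1 * b2 * b3 * b4 := by ring
  have e3 : b1 * b2 * b4 * b3 = b1 * b2 * b3 * b4 := by ring
  rw [e1] at hU
  rw [e2] at hV
  rw [e3] at hU'
  refine ⟨b1 * b2 * b3 * b4, U, V, U', V', ?_, dU.trans h1, dV.trans h2, dU'.trans h3,
    dV'.trans h4, ?_, ?_⟩
  · exact mul_ne_zero (mul_ne_zero (mul_ne_zero hb1 hb2) hb3) hb4
  · apply Polynomial.map_injective _ hinj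
    rw [Polynomial.map_add, Polynomial.map_mul, Polynomial.map_mul, hU, hV, Polynomial.map_C]
    linear_combination (C (algebraMap (MvPolynomial (Fin m) k)
      (FractionRing (MvPolynomial (Fin m) k)) (b1 * b2 * b3 * b4))) * h5
  · apply Polynomial.map_injective _ hinj
    rw [Polynomial.map_add, Polynomial.map_mul, Polynomial.map_mul, hU', hV', Polynomial.map_mul,
      Polynomial.map_C, Polynomial.map_pow, Polynomial.map_X]
    linear_combination (C (algebraMap (MvPolynomial (Fin m) k)
      (FractionRing (MvPolynomial (Fin m) k)) (b1 * b2 * b3 * b4))) * h6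

end Pool.Agent.H51.TT
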