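import Pool.Agent.H51.TT.Defs
import Pool.Agent.H71.ZD.HtFib

/-!
# Module LB: growth of heights in the fibre from a prescribed high start point

PROOF.  As in `fibre_growth` of `Pool/Agent/H71/ZD/HtFib.lean`: for each `n` the hypotheses of
`Pool.Agent.H71.ZD.fibre_bound` hold with `z = zc n`, `R = res n`, `w = w n`, `w' = w (n+1)`
(evaluate the two identities with `hv_mul`, `hv_add`, `hv_C`, `hv_C_mul_X_pow`), so `w (n+1) ≠ 0`
and `(e+1) logHeight (w n) ≤ C + logHeight (zc n) + logHeight (w (n+1))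
  ≤ A q^n + logHeight (w (n+1))` with `A = |C| + C₀`, `q ≥ 1`.
Put `B = A / (e + 1 - q) + 1`.  Claim: `logHeight (w n) ≥ (e+1)^n + A q^n / (e + 1 - q)` for all
`n` (induction: `(e+1) ((e+1)^n + A q^n/(e+1-q)) - A q^n = (e+1)^(n+1) + A q^(n+1)/(e+1-q)`).
As `q < e + 1`, `M q^n < (e+1)^n` for `n ≥ N(M)`.
-/

set_option autoImplicit false

open Polynomial Height

namespace Pool.Agent.H51.TT

open Pool.Agent.H71.ZD

universe u

theorem fibre_growth_from {L : Type u} [Field L] [NumberField L] (e : ℕ) (q C₀ : ℝ)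
    (hq : 1 ≤ q) (hqe : q < (e : ℝ) + 1) (P R : ℕ → L[X]) (Z : Fin 4 → ℕ → L[X])
    (hZd : ∀ a n, (Z a n).natDegree ≤ e) (hPd : ∀ n, (P n).natDegree ≤ e + 1)
    (hRd : ∀ n, (R n).natDegree ≤ e + 1) (res : ℕ → L) (hres : ∀ n, res n ≠ 0)
    (h0 : ∀ n, Z 0 n * P n + Z 1 n * R n = C (res n))
    (h1 : ∀ n, Z 2 n * P n + Z 3 n * R n = C (res n) * X ^ (2 * e + 1))
    (hht : ∀ n, logHeight (fun a : Fin 4 × Fin (e + 1) => (Z a.1 n).coeff a.2) ≤ C₀ * q ^ n) :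
    ∃ B : ℝ, ∀ w : ℕ → Fin 2 → L, w 0 ≠ 0 → B < logHeight (w 0) →
      (∀ n, w (n + 1) = ![hv (e + 1) (R n) (w n), hv (e + 1) (P n) (w n)]) →
      (∀ n, w n ≠ 0) ∧ ∀ M : ℝ, ∃ N, ∀ n, N ≤ n → M * q ^ n < logHeight (w n) := by
  obtain ⟨C₁, hC₁⟩ := fibre_bound (K := L) e
  have hA0 : 0 ≤ |C₁| + |C₀| := by positivity
  refine ⟨(|C₁| + |C₀|) * 1 / ((e : ℝ) + 1 - q) + 1, fun w hw0 hB hw1 => ?_⟩
  have hdeg : 2 * e + 1 = e + (e + 1) := by ring
  have hstep : ∀ n, w n ≠ 0 → w (n + 1) ≠ 0 ∧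
      ((e : ℝ) + 1) * logHeight (w n) ≤ (|C₁| + |C₀|) * q ^ n + logHeight (w (n + 1)) := by
    intro n hn
    obtain ⟨h3, h4⟩ := hC₁ (fun a => (Z a.1 n).coeff a.2) (w n) (w (n + 1)) (res n) hn (hres n)
      (by
        have := congrArg (fun p => hv (2 * e + 1) p (w n)) (h0 n)
        rw [hv_add, hv_C] at this
        rw [hdeg, hv_mul (hZd 0 n) (hPd n), hv_mul (hZd 1 n) (hRd n), ← hdeg] at this
        rw [← this, hw1]
        rfl) (by
        have := congrArg (fun p => hv (2 * e + 1) p (w n)) (h1 n)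
        rw [hv_add, hv_C_mul_X_pow] at this
        rw [hdeg, hv_mul (hZd 2 n) (hPd n), hv_mul (hZd 3 n) (hRd n), ← hdeg] at this
        rw [← this, hw1]
        rfl)
    refine ⟨h3, ?_⟩
    have h5 := hht n
    have hqn : 1 ≤ q ^ n := one_le_pow₀ hq
    have e1 := le_abs_self C₁
    have e2 : C₀ * q ^ n ≤ |C₀| * q ^ n :=
      mul_le_mul_of_nonneg_right (le_abs_self C₀) (by linarith)
    have e3 : |C₁| * 1 ≤ |C₁| * q ^ n := mul_le_mul_of_nonneg_left hqn (abs_nonneg _)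
    have e4 : (|C₁| + |C₀|) * q ^ n = |C₁| * q ^ n + |C₀| * q ^ n := by ring
    linarith
  have hwn : ∀ n, w n ≠ 0 := by
    intro n
    induction n with
    | zero => exact hw0
    | succ n ih => exact (hstep n ih).1
  refine ⟨hwn, fun M => ?_⟩
  exact growth_ratio (fun n => q ^ n) (|C₁| + |C₀|) 1 q ((e : ℝ) + 1) hA0 one_pos hq hqe
    (fun n => by positivity) (fun n => by rw [one_mul]) (fun n => logHeight (w n))
    (fun n => by have := (hstep n (hwn n)).2; linarith) hB.le M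

end Pool.Agent.H51.TT
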