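import Pool.Agent.H51.TT.RzA
import Pool.Agent.H71.ZD.HtFib
import Pool.Agent.H71.ZD.Fin

/-!
# Module RzB: heights grow under a rational function of degree at least 2

PROOF.  `exists_cert` gives `u, v, u', v'`; let `z : Fin 4 × Fin (e + 1) → L` be their
coefficients.  For `w ≠ 0` and `w' = ![hv (e+1) R w, hv (e+1) P w]` the two hypotheses of
`Pool.Agent.H71.ZD.fibre_bound` (with `R = 1`) follow from `hv_mul`, `hv_add`, `hv_C`,
`hv_C_mul_X_pow` applied to the two identities, exactly as in the proof of `fibre_growth` in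
`Pool/Agent/H71/ZD/HtFib.lean`.  So `w' ≠ 0` and
`(e + 1) * logHeight w ≤ C + logHeight z + logHeight w'`.  As `e ≥ 1`, for
`logHeight w > C + logHeight z =: B₀` (and `≥ 0`, `logHeight_nonneg`) we get
`logHeight w' ≥ (e+1) logHeight w - B₀ > logHeight w`.  Take `B = max B₀ 0`.
The number field case of Northcott: among `![1, s + t * N]`, `t : ℕ`, the heights are unbounded
(`NumberField.finite_setOfPred_logHeight₁_le`, `logHeight_swap`, see `unbounded_heights` in
`Pool/Agent/H71/ZD/Fin.lean`), as `t ↦ s + t N` is injective.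
-/

set_option autoImplicit false

open Polynomial Height

namespace Pool.Agent.H51.TT

open Pool.Agent.H71.ZD

universe u

theorem height_growth {L : Type u} [Field L] [NumberField L] (P R : L[X]) (hco : IsCoprime P R)
    {e : ℕ} (he : 1 ≤ e) (hP : P.natDegree ≤ e + 1) (hR : R.natDegree ≤ e + 1)
    (hd : P.natDegree = e + 1 ∨ R.natDegree = e + 1) :
    ∃ B : ℝ, ∀ w : Fin 2 → L, w ≠ 0 → B < logHeight w →
      (![hv (e + 1) R w, hv (e + 1) P w] : Fin 2 → L) ≠ 0 ∧
        logHeight w < logHeight (![hv (e + 1) R w, hv (e + 1) P w] : Fin 2 → L) := by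
  obtain ⟨C, hC⟩ := fibre_bound (K := L) e
  obtain ⟨u, v, u', v', hu, hv1, hu', hv', h0, h1⟩ := exists_cert P R hco hP hR hd
  let z : Fin 4 × Fin (e + 1) → L := fun a => (![u, v, u', v'] a.1).coeff a.2
  have hdeg : 2 * e + 1 = e + (e + 1) := by ring
  refine ⟨max (C + logHeight z) 0, fun w hw hB => ?_⟩
  obtain ⟨h3, h4⟩ := hC z w ![hv (e + 1) R w, hv (e + 1) P w] 1 hw one_ne_zero (by
      have := congrArg (fun p => hv (2 * e + 1) p w) h0
      rw [hv_add, ← Polynomial.C_1, hv_C] at this
      rw [hdeg, hv_mul hu hP, hv_mul hv1 hR, ← hdeg] at this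
      rw [← this]
      rfl) (by
      have := congrArg (fun p => hv (2 * e + 1) p w) h1
      rw [← one_mul (X ^ (2 * e + 1) : L[X]), ← Polynomial.C_1, hv_add, hv_C_mul_X_pow] at this
      rw [hdeg, hv_mul hu' hP, hv_mul hv' hR, ← hdeg] at this
      rw [← this]
      rfl)
  refine ⟨h3, ?_⟩
  have h5 := (le_max_left (C + logHeight z) 0).trans_lt hB
  have h6 := (le_max_right (C + logHeight z) 0).trans_lt hB
  have he' : (1 : ℝ) ≤ e := by exact_mod_cast he
  nlinarith

theorem exists_high {L : Type u} [Field L] [NumberField L] (s : L) (N : ℕ) (hN : 0 < N) (B : ℝ) :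
    ∃ t : ℕ, B < logHeight (![1, s + t * N] : Fin 2 → L) := by
  by_contra hcon
  push Not at hcon
  have h1 := NumberField.finite_setOfPred_logHeight₁_le L B
  have hinj : Function.Injective (fun t : ℕ => s + (t : L) * (N : L)) := by
    intro a b hab
    have h2 : (a : L) * (N : L) = (b : L) * (N : L) := add_left_cancel hab
    have h3 : (N : L) ≠ 0 := by exact_mod_cast hN.ne'
    exact_mod_cast mul_right_cancel₀ h3 h2
  refine Set.infinite_range_of_injective hinj (h1.subset ?_)
  rintro _ ⟨t, rfl⟩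
  have h2 := hcon t
  rw [logHeight_swap, ← logHeight₁_eq_logHeight] at h2
  exact h2

end Pool.Agent.H51.TT
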