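import Pool.Agent.H51.TT.LA
import Pool.Agent.H51.TT.LB
import Pool.Agent.H51.TT.RzB
import Pool.Agent.H71.ZD.HtFib

/-!
# Module LStep: density at a level whose degree exceeds the degrees of all previous levels

`k` is algebraic over `ℚ`.

PROOF.  (1) Let `L ⊆ k` be the number field generated by the coefficients of `T.P i`, `T.R i`
(`i ≤ m`), of `U, V, U', V', res`, by `x 0 i` (`i < m`) and `z` (finitely many algebraic numbers:
`IntermediateField.adjoin ℚ`, finite-dimensional).  All `x t i` (`i < m`) lie in `L` (induction on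
`t`, orbit relation), and so does `X t m` once `X 0 m` does.  Transfer `T` (levels `≤ m`), the
certificate and the orbit to `L` (`exists_lift` for the subring `L`, or `pm`).
(2) `tower_height_growth` gives `C`, `logHeight₁ (x n j) ≤ C q^n`, `q = e + 1/2`.  The coefficient
vector of the certificate at `x n` has height `≤ A (1 + ∑ ...) ≤ C₀ q^n` (`values_bound`).
`fibre_growth_from` with `P n = (T.P m).map (mv (x n))` etc. gives `B`.
(3) `exists_high` (RzB) with `s = z`, `N`, `B` gives `s : ℕ` with `B < logHeight ![1, z + s N]`.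
(4) Let `X` be an orbit as in the statement, `w 0 = ![1, z + s N]`,
`w (n+1) = ![hv (e+1) (R n) (w n), hv (e+1) (P n) (w n)]`; induction: `w n 0 ≠ 0` and
`X n m * w n 0 = w n 1` (the value `tv (X n) (T.R m) ≠ 0`), so `w n` is a multiple of
`![1, X n m]`: for every `M`, `M q^n < logHeight ![1, X n m]` for `n ≥ N(M)`.
(5) Suppose `g ≠ 0` vanishes at all `X t`; `F = spl m k g`, `tv (X t) F = 0`.  Apply an `L`-linear
functional `k → L` which is nonzero on some coefficient of `F`: we may assume that `F` has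
coefficients in `L`, `F ≠ 0`.  Let `a = F.leadingCoeff`, `d = natDegree F`.  There are arbitrarily
large `n` with `mv (x n) a ≠ 0`: if `m = 0`, `a` is a nonzero constant; if `m ≥ 1` and it vanished
for all `n ≥ N₀` then `a * ∏_{l < N₀} (X 0 - C (x l 0))` would contradict density.
(6) For such `n`, `root_bound` (`Pool/Agent/H71/ZD/HtBin.lean`, `mono`) with
`c j = mv (x n) (F.coeff j)` gives `logHeight ![1, X n m] ≤ C' + logHeight c ≤ M q^n` with `M`
independent of `n` (`values_bound`, growth of `x`): contradiction with (4) for large `n`.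
-/

set_option autoImplicit false

open Polynomial Height

namespace Pool.Agent.H51.TT

open Pool.Agent.H71.ZD

universe u

private theorem ls_hv_eval {L : Type u} [Field L] {n : ℕ} {p : L[X]} (hp : p.natDegree ≤ n)
    {w : Fin 2 → L} {c : L} (h : w 1 = c * w 0) : hv n p w = w 0 ^ n * p.eval c := by
  unfold hv mono
  rw [Polynomial.eval_eq_sum_range' (Nat.lt_succ_of_le hp), Finset.sum_range, Finset.mul_sum]
  refine Finset.sum_congr rfl fun j _ => ?_
  rw [h, mul_pow]
  have hj : (j : ℕ) ≤ n := Nat.lt_succ_iff.mp j.isLt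
  calc p.coeff j * (w 0 ^ (n - (j : ℕ)) * (c ^ (j : ℕ) * w 0 ^ (j : ℕ)))
      = (w 0 ^ (n - (j : ℕ)) * w 0 ^ (j : ℕ)) * (p.coeff j * c ^ (j : ℕ)) := by ring
    _ = _ := by rw [← pow_add, Nat.sub_add_cancel hj]

/-- The number field case. -/
private theorem lstep_nf {L : Type u} [Field L] [NumberField L] (T : Tow L)
    (m e : ℕ) (he : 1 ≤ e) (hP : (T.P m).natDegree ≤ e + 1) (hR : (T.R m).natDegree ≤ e + 1)
    (hlow : ∀ j < m, (T.P j).natDegree ≤ e ∧ (T.R j).natDegree ≤ e)
    (res : MvPolynomial (Fin m) L) (U V U' V' : (MvPolynomial (Fin m) L)[X])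
    (hU : U.natDegree ≤ e) (hV : V.natDegree ≤ e) (hU' : U'.natDegree ≤ e)
    (hV' : V'.natDegree ≤ e) (h1 : U * T.P m + V * T.R m = C res)
    (h2 : U' * T.P m + V' * T.R m = C res * X ^ (2 * e + 1))
    (x : ℕ → ℕ → L) (hx : T.Orb m x) (hres : ∀ t, mv (x t) res ≠ 0)
    (dense : ∀ g : MvPolynomial (Fin m) L, g ≠ 0 → ∃ t, mv (x t) g ≠ 0)
    (z : L) (N : ℕ) (hN : 0 < N) :
    ∃ s : ℕ, ∀ X : ℕ → ℕ → L, T.Orb (m + 1) X → (∀ t, ∀ i < m, X t i = x t i) →
      X 0 m = z + s * N → ∀ g : MvPolynomial (Fin (m + 1)) L, g ≠ 0 → ∃ t, mv (X t) g ≠ 0 := by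
  classical
  obtain ⟨C, hC0, hC⟩ := tower_height_growth T m x hx e he hlow
  set q : ℝ := (e : ℝ) + 1 / 2 with hq
  have he' : (1 : ℝ) ≤ e := by exact_mod_cast he
  have hq1 : 1 ≤ q := by linarith
  have hqe : q < (e : ℝ) + 1 := by rw [hq]; linarith
  have hqn : ∀ n : ℕ, 1 ≤ q ^ n := fun n => one_le_pow₀ hq1
  have hsum : ∀ n, ∑ l ∈ Finset.range m, logHeight₁ (x n l) ≤ m * C * q ^ n := by
    intro n
    calc ∑ l ∈ Finset.range m, logHeight₁ (x n l) ≤ ∑ l ∈ Finset.range m, C * q ^ n :=
          Finset.sum_le_sum fun l hl => hC n l (Finset.mem_range.1 hl)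
      _ = _ := by rw [Finset.sum_const, Finset.card_range, nsmul_eq_mul]; ring
  have hbd : ∀ (A : ℝ), 0 ≤ A → ∀ n,
      A * (1 + ∑ l ∈ Finset.range m, logHeight₁ (x n l)) ≤ A * (1 + m * C) * q ^ n := by
    intro A hA n
    have e1 := hsum n
    have e2 := hqn n
    have e3 : 1 + ∑ l ∈ Finset.range m, logHeight₁ (x n l) ≤ (1 + m * C) * q ^ n := by
      have : (1 + m * C) * q ^ n = q ^ n + m * C * q ^ n := by ring
      rw [this]; linarith
    calc _ ≤ A * ((1 + m * C) * q ^ n) := by gcongr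
      _ = _ := by ring
  -- the certificate
  set Zp : Fin 4 → (MvPolynomial (Fin m) L)[X] := ![U, V, U', V'] with hZp
  obtain ⟨A, hA0, hA⟩ := values_bound (L := L) (ι := Fin 4 × Fin (e + 1))
    (fun a => (Zp a.1).coeff a.2)
  have hZd : ∀ a n, ((Zp a).map (mv (x n))).natDegree ≤ e := by
    intro a n
    refine Polynomial.natDegree_map_le.trans ?_
    fin_cases a
    · exact hU
    · exact hV
    · exact hU'
    · exact hV'
  obtain ⟨B, hB⟩ := fibre_growth_from (L := L) e q (A * (1 + m * C)) hq1 hqe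
    (fun n => (T.P m).map (mv (x n))) (fun n => (T.R m).map (mv (x n)))
    (fun a n => (Zp a).map (mv (x n))) hZd
    (fun n => Polynomial.natDegree_map_le.trans hP) (fun n => Polynomial.natDegree_map_le.trans hR)
    (fun n => mv (x n) res) hres
    (by
      intro n
      have := congrArg (Polynomial.map (mv (x n))) h1
      rw [Polynomial.map_add, Polynomial.map_mul, Polynomial.map_mul, Polynomial.map_C] at this
      exact this)
    (by
      intro n
      have := congrArg (Polynomial.map (mv (x n))) h2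
      rw [Polynomial.map_add, Polynomial.map_mul, Polynomial.map_mul, Polynomial.map_mul,
        Polynomial.map_C, Polynomial.map_pow, Polynomial.map_X] at this
      exact this)
    (by
      intro n
      refine le_trans (le_of_eq ?_) ((hA (x n)).trans (hbd A hA0 n))
      congr 1
      funext a
      rw [Polynomial.coeff_map])
  obtain ⟨s, hs⟩ := exists_high z N hN B
  refine ⟨s, fun X hX hXx hX0 g hg => ?_⟩
  let w : ℕ → Fin 2 → L := fun n => Nat.rec ![1, z + s * N]
    (fun n v => ![hv (e + 1) ((T.R m).map (mv (x n))) v,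
      hv (e + 1) ((T.P m).map (mv (x n))) v]) n
  have hw0 : w 0 ≠ 0 := by
    intro h
    exact one_ne_zero (congrFun h 0)
  obtain ⟨hwn, hgr⟩ := hB w hw0 hs (fun n => rfl)
  have hmv : ∀ n, (mv (X n) : MvPolynomial (Fin m) L →+* L) = mv (x n) := fun n =>
    RingHom.ext fun g => mv_congr (fun i hi => hXx n i hi) g
  have hev : ∀ n (p : (MvPolynomial (Fin m) L)[X]),
      (p.map (mv (x n))).eval (X n m) = tv (X n) p := by
    intro n p
    rw [tv_eq_eval, hmv]
  have hwX : ∀ n, w n 0 ≠ 0 ∧ w n 1 = X n m * w n 0 := by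
    intro n
    induction n with
    | zero =>
      refine ⟨one_ne_zero, ?_⟩
      rw [hX0]
      show z + s * N = (z + s * N) * 1
      rw [mul_one]
    | succ n ih =>
      have e0 : w (n + 1) 0 = w n 0 ^ (e + 1) * tv (X n) (T.R m) := by
        rw [← hev n]
        exact ls_hv_eval (Polynomial.natDegree_map_le.trans hR) ih.2
      have e1 : w (n + 1) 1 = w n 0 ^ (e + 1) * tv (X n) (T.P m) := by
        rw [← hev n]
        exact ls_hv_eval (Polynomial.natDegree_map_le.trans hP) ih.2
      have hu := (hX.unit n m (Nat.lt_succ_self m)).ne_zero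
      have hst := hX.step n m (Nat.lt_succ_self m)
      refine ⟨?_, ?_⟩
      · rw [e0]
        exact mul_ne_zero (pow_ne_zero _ ih.1) hu
      · rw [e0, e1, ← hst]
        ring
  by_contra hcon
  push Not at hcon
  set F := spl m L g with hF
  have hF0 : F ≠ 0 := by
    rw [hF]
    exact (map_ne_zero_iff _ (spl m L).injective).2 hg
  have htF : ∀ t, tv (X t) F = 0 := by
    intro t
    rw [hF, tv_spl]
    exact hcon t
  have ha : F.leadingCoeff ≠ 0 := Polynomial.leadingCoeff_ne_zero.2 hF0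
  have hinf : ∀ N₀ : ℕ, ∃ n, N₀ ≤ n ∧ mv (x n) F.leadingCoeff ≠ 0 := by
    intro N₀
    rcases Nat.eq_zero_or_pos m with hm | hm
    · subst hm
      refine ⟨N₀, le_rfl, ?_⟩
      have h3 : F.leadingCoeff = MvPolynomial.C (F.leadingCoeff.coeff 0) :=
        MvPolynomial.eq_C_of_isEmpty _
      rw [h3]
      unfold mv
      rw [MvPolynomial.eval_C]
      intro h4
      rw [h4, map_zero] at h3
      exact ha h3
    · by_contra hno
      push Not at hno
      have hne : F.leadingCoeff * ∏ l ∈ Finset.range N₀,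
          ((MvPolynomial.X ⟨0, hm⟩ : MvPolynomial (Fin m) L) - MvPolynomial.C (x l 0)) ≠ 0 := by
        refine mul_ne_zero ha (Finset.prod_ne_zero_iff.2 fun l _ h3 => ?_)
        have h4 := congrArg (MvPolynomial.eval (fun _ : Fin m => x l 0 + 1)) h3
        simp at h4
      obtain ⟨t, ht⟩ := dense _ hne
      rw [map_mul, map_prod] at ht
      rcases Nat.lt_or_ge t N₀ with h3 | h3
      · apply ht
        rw [Finset.prod_eq_zero (Finset.mem_range.2 h3), mul_zero]
        simp [mv]
      · apply ht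
        rw [hno t h3, zero_mul]
  obtain ⟨A1, hA10, hA1⟩ := values_bound (L := L) (ι := Fin (F.natDegree + 1))
    (fun j => F.coeff j)
  obtain ⟨C1, hC1⟩ := root_bound (K := L) F.natDegree
  obtain ⟨N1, hN1⟩ := hgr (|C1| + A1 * (1 + m * C))
  obtain ⟨n, hn, han⟩ := hinf N1
  have h5 := hN1 n hn
  have h6 := hC1 (fun j => mv (x n) (F.coeff j)) (w n) (hwn n) (by
    simpa using han) (by
    have h7 : hv F.natDegree (F.map (mv (x n))) (w n) = 0 := by
      rw [ls_hv_eval Polynomial.natDegree_map_le (hwX n).2, hev, htF, mul_zero]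
    unfold hv at h7
    simpa only [Polynomial.coeff_map] using h7)
  have h8 := (hA1 (x n)).trans (hbd A1 hA10 n)
  have h9 : C1 ≤ |C1| * q ^ n := by
    have e1 := le_abs_self C1
    have e2 := hqn n
    have e3 := abs_nonneg C1
    nlinarith
  have h10 : (|C1| + A1 * (1 + m * C)) * q ^ n = |C1| * q ^ n + A1 * (1 + m * C) * q ^ n := by
    ring
  rw [h10] at h5
  linarith

/-- Lifting the coefficients along a ring homomorphism. -/
private theorem ls_lift {k L : Type u} [CommRing k] [CommRing L] (f : L →+* k) {m : ℕ}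
    (p : (MvPolynomial (Fin m) k)[X]) (h : cf p ⊆ Set.range f) :
    ∃ q : (MvPolynomial (Fin m) L)[X], pm f q = p := by
  classical
  have h0 : ∀ i α, ∃ b : L, f b = (p.coeff i).coeff α := fun i α => h ⟨i, α, rfl⟩
  choose b hb using h0
  refine ⟨∑ i ∈ p.support, Polynomial.monomial i
    (∑ α ∈ (p.coeff i).support, MvPolynomial.monomial α (b i α)), ?_⟩
  rw [map_sum]
  conv_rhs => rw [p.as_sum_support]
  refine Finset.sum_congr rfl fun i _ => ?_
  unfold pm
  rw [coe_mapRingHom, Polynomial.map_monomial, map_sum]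
  congr 1
  conv_rhs => rw [(p.coeff i).as_sum]
  refine Finset.sum_congr rfl fun α _ => ?_
  rw [MvPolynomial.map_monomial, hb]

/-- The coordinates of an orbit stay in the range of `f`. -/
private theorem ls_orbit {k L : Type u} [Field k] [Field L] (f : L →+* k) (T : Tow k) (T' : Tow L)
    (m : ℕ) (hP : ∀ i < m, pm f (T'.P i) = T.P i) (hR : ∀ i < m, pm f (T'.R i) = T.R i)
    (x : ℕ → ℕ → k) (hx : T.Orb m x) (h0 : ∀ i < m, ∃ y, f y = x 0 i) :
    ∃ x' : ℕ → ℕ → L, (∀ t, ∀ i < m, f (x' t i) = x t i) ∧ T'.Orb m x' := by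
  classical
  have htv : ∀ (t i : ℕ) (y : ℕ → L), i < m → (∀ j < m, f (y j) = x t j) →
      f (tv y (T'.P i)) = tv (x t) (T.P i) ∧ f (tv y (T'.R i)) = tv (x t) (T.R i) := by
    intro t i y hi hy
    rw [← hP i hi, ← hR i hi, ← tv_map, ← tv_map]
    exact ⟨tv_congr (fun j hj => hy j (by omega)) _, tv_congr (fun j hj => hy j (by omega)) _⟩
  have key : ∀ t, ∃ y : ℕ → L, ∀ i < m, f (y i) = x t i := by
    intro t
    induction t with
    | zero =>
      refine ⟨fun i => if hi : i < m then (h0 i hi).choose else 0, fun i hi => ?_⟩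
      simp only [dif_pos hi]
      exact (h0 i hi).choose_spec
    | succ t ih =>
      obtain ⟨y, hy⟩ := ih
      refine ⟨fun i => tv y (T'.P i) / tv y (T'.R i), fun i hi => ?_⟩
      obtain ⟨e1, e2⟩ := htv t i y hi hy
      have hu := (hx.unit t i hi).ne_zero
      rw [map_div₀, e1, e2, div_eq_iff hu]
      exact (hx.step t i hi).symm
  choose x' hx' using key
  refine ⟨x', hx', ?_, ?_⟩
  · intro t i hi
    obtain ⟨e1, e2⟩ := htv t i (x' t) hi (hx' t)
    rw [isUnit_iff_ne_zero]
    intro h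
    rw [h, map_zero] at e2
    exact (hx.unit t i hi).ne_zero e2.symm
  · intro t i hi
    obtain ⟨e1, e2⟩ := htv t i (x' t) hi (hx' t)
    apply f.injective
    rw [map_mul, hx' (t + 1) i hi, e1, e2]
    exact hx.step t i hi

/-- Apply an `L`-linear functional to the coefficients. -/
private theorem ls_func {k L : Type u} [Field k] [Field L] [Algebra L k] {n : ℕ}
    (g : MvPolynomial (Fin n) k) (hg : g ≠ 0) :
    ∃ g' : MvPolynomial (Fin n) L, g' ≠ 0 ∧ ∀ (X : ℕ → k) (X' : ℕ → L),
      (∀ i < n, algebraMap L k (X' i) = X i) → mv X g = 0 → mv X' g' = 0 := by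
  classical
  obtain ⟨α, hα⟩ := MvPolynomial.ne_zero_iff.1 hg
  obtain ⟨l, hl⟩ : ∃ l : k →ₗ[L] L, l (g.coeff α) ≠ 0 := by
    by_contra hcon
    push Not at hcon
    exact hα ((Module.forall_dual_apply_eq_zero_iff L (g.coeff α)).1 hcon)
  refine ⟨∑ d ∈ g.support, MvPolynomial.monomial d (l (g.coeff d)), ?_, ?_⟩
  · rw [MvPolynomial.ne_zero_iff]
    refine ⟨α, ?_⟩
    rw [MvPolynomial.coeff_sum, Finset.sum_eq_single α]
    · rw [MvPolynomial.coeff_monomial, if_pos rfl]
      exact hl
    · intro d _ hd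
      rw [MvPolynomial.coeff_monomial, if_neg hd]
    · intro h
      exact absurd (MvPolynomial.mem_support_iff.2 hα) h
  · intro X X' hX h0
    have e1 : mv X g = ∑ d ∈ g.support, (∏ i : Fin n, X' i ^ d i) • g.coeff d := by
      unfold mv
      rw [MvPolynomial.eval_eq']
      refine Finset.sum_congr rfl fun d _ => ?_
      rw [Algebra.smul_def, map_prod, mul_comm]
      congr 1
      refine Finset.prod_congr rfl fun i _ => ?_
      rw [map_pow, hX i i.2]
    have e2 : mv X' (∑ d ∈ g.support, MvPolynomial.monomial d (l (g.coeff d))) =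
        l (mv X g) := by
      rw [e1, map_sum, map_sum]
      refine Finset.sum_congr rfl fun d _ => ?_
      unfold mv
      rw [MvPolynomial.eval_monomial, Finsupp.prod_fintype _ _ (by simp), map_smul, smul_eq_mul,
        mul_comm]
    rw [e2, h0, map_zero]

theorem lstep {k : Type u} [Field k] [CharZero k] [Algebra.IsAlgebraic ℚ k] (T : Tow k)
    (m e : ℕ) (he : 1 ≤ e) (hP : (T.P m).natDegree ≤ e + 1) (hR : (T.R m).natDegree ≤ e + 1)
    (hlow : ∀ j < m, (T.P j).natDegree ≤ e ∧ (T.R j).natDegree ≤ e)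
    (res : MvPolynomial (Fin m) k) (U V U' V' : (MvPolynomial (Fin m) k)[X])
    (hU : U.natDegree ≤ e) (hV : V.natDegree ≤ e) (hU' : U'.natDegree ≤ e)
    (hV' : V'.natDegree ≤ e) (h1 : U * T.P m + V * T.R m = C res)
    (h2 : U' * T.P m + V' * T.R m = C res * X ^ (2 * e + 1))
    (x : ℕ → ℕ → k) (hx : T.Orb m x) (hres : ∀ t, mv (x t) res ≠ 0)
    (dense : ∀ g : MvPolynomial (Fin m) k, g ≠ 0 → ∃ t, mv (x t) g ≠ 0)
    (z : k) (N : ℕ) (hN : 0 < N) :
    ∃ s : ℕ, ∀ X : ℕ → ℕ → k, T.Orb (m + 1) X → (∀ t, ∀ i < m, X t i = x t i) →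
      X 0 m = z + s * N → ∀ g : MvPolynomial (Fin (m + 1)) k, g ≠ 0 → ∃ t, mv (X t) g ≠ 0 := by
  classical
  -- the number field
  set S : Set k := (⋃ i ∈ Finset.range (m + 1), (cf (T.P i) ∪ cf (T.R i))) ∪ (cf U ∪ cf V) ∪
    (cf U' ∪ cf V') ∪ cf (C res) ∪ (x 0 '' (Finset.range m : Set ℕ)) ∪ {z} with hS
  have hSfin : S.Finite := by
    refine Set.Finite.union (Set.Finite.union (Set.Finite.union (Set.Finite.union
      (Set.Finite.union ?_ ?_) ?_) (cf_finite _)) ((Finset.finite_toSet _).image _))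
      (Set.finite_singleton z)
    · exact Set.Finite.biUnion (Finset.finite_toSet _) fun i _ => (cf_finite _).union (cf_finite _)
    · exact (cf_finite _).union (cf_finite _)
    · exact (cf_finite _).union (cf_finite _)
  let L : IntermediateField ℚ k := IntermediateField.adjoin ℚ S
  have : Finite S := hSfin
  have hfd : FiniteDimensional ℚ L := IntermediateField.finiteDimensional_adjoin
    fun y _ => Algebra.IsIntegral.isIntegral y
  have : NumberField L := { }
  set f : L →+* k := algebraMap L k with hf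
  have hrange : ∀ y ∈ S, y ∈ Set.range f := fun y hy =>
    ⟨⟨y, IntermediateField.subset_adjoin ℚ S hy⟩, rfl⟩
  have hPr : ∀ i, i < m + 1 → ∃ q, pm f q = T.P i := fun i hi =>
    ls_lift f _ fun y hy => hrange y (by
      rw [hS]
      refine Or.inl (Or.inl (Or.inl (Or.inl (Or.inl ?_))))
      rw [Set.mem_iUnion₂]
      exact ⟨i, Finset.mem_range.2 hi, Or.inl hy⟩)
  have hRr : ∀ i, i < m + 1 → ∃ q, pm f q = T.R i := fun i hi =>
    ls_lift f _ fun y hy => hrange y (by
      rw [hS]
      refine Or.inl (Or.inl (Or.inl (Or.inl (Or.inl ?_))))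
      rw [Set.mem_iUnion₂]
      exact ⟨i, Finset.mem_range.2 hi, Or.inr hy⟩)
  obtain ⟨U₁, hU₁⟩ := ls_lift f U fun y hy => hrange y (by
    rw [hS]; exact Or.inl (Or.inl (Or.inl (Or.inl (Or.inr (Or.inl hy))))))
  obtain ⟨V₁, hV₁⟩ := ls_lift f V fun y hy => hrange y (by
    rw [hS]; exact Or.inl (Or.inl (Or.inl (Or.inl (Or.inr (Or.inr hy))))))
  obtain ⟨U₂, hU₂⟩ := ls_lift f U' fun y hy => hrange y (by
    rw [hS]; exact Or.inl (Or.inl (Or.inl (Or.inr (Or.inl hy)))))
  obtain ⟨V₂, hV₂⟩ := ls_lift f V' fun y hy => hrange y (by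
    rw [hS]; exact Or.inl (Or.inl (Or.inl (Or.inr (Or.inr hy)))))
  obtain ⟨Q, hQ⟩ := ls_lift f (C res) fun y hy => hrange y (by
    rw [hS]; exact Or.inl (Or.inl (Or.inr hy)))
  obtain ⟨z', hz'⟩ := hrange z (by rw [hS]; exact Or.inr rfl)
  have hx0 : ∀ i < m, ∃ y, f y = x 0 i := fun i hi => hrange (x 0 i) (by
    rw [hS]; exact Or.inl (Or.inr ⟨i, by simpa using hi, rfl⟩))
  have hinj : Function.Injective f := f.injective
  have hminj : ∀ n, Function.Injective (MvPolynomial.map (σ := Fin n) f) := fun n =>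
    MvPolynomial.map_injective f hinj
  have hpinj : ∀ n, Function.Injective (pm (m := n) f) := fun n =>
    Polynomial.map_injective _ (hminj n)
  have hdeg : ∀ {n : ℕ} {q : (MvPolynomial (Fin n) L)[X]} {p : (MvPolynomial (Fin n) k)[X]} {d : ℕ},
      pm f q = p → p.natDegree ≤ d → q.natDegree ≤ d := by
    intro n q p d h3 h4
    rw [← h3] at h4
    unfold pm at h4
    rwa [coe_mapRingHom, Polynomial.natDegree_map_eq_of_injective (hminj n)] at h4
  -- the tower over `L`
  let T' : Tow L :=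
    { P := fun i => if hi : i < m + 1 then (hPr i hi).choose else 0
      R := fun i => if hi : i < m + 1 then (hRr i hi).choose else 0 }
  have hTP : ∀ i < m + 1, pm f (T'.P i) = T.P i := by
    intro i hi
    show pm f (if hi : i < m + 1 then (hPr i hi).choose else 0) = T.P i
    rw [dif_pos hi]
    exact (hPr i hi).choose_spec
  have hTR : ∀ i < m + 1, pm f (T'.R i) = T.R i := by
    intro i hi
    show pm f (if hi : i < m + 1 then (hRr i hi).choose else 0) = T.R i
    rw [dif_pos hi]
    exact (hRr i hi).choose_spec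
  -- the resultant
  set res' : MvPolynomial (Fin m) L := Q.coeff 0 with hres'
  have hmres : MvPolynomial.map f res' = res := by
    have h3 := congrArg (fun p => Polynomial.coeff p 0) hQ
    unfold pm at h3
    simp only [coe_mapRingHom, Polynomial.coeff_map, Polynomial.coeff_C_zero] at h3
    exact h3
  have hpres : pm f (C res') = C res := by
    unfold pm
    rw [coe_mapRingHom, Polynomial.map_C, hmres]
  have hpX : pm (m := m) f (X ^ (2 * e + 1)) = X ^ (2 * e + 1) := by
    unfold pm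
    rw [coe_mapRingHom, Polynomial.map_pow, Polynomial.map_X]
  have h1' : U₁ * T'.P m + V₁ * T'.R m = C res' := by
    apply hpinj m
    rw [map_add, map_mul, map_mul, hU₁, hV₁, hTP m (by omega), hTR m (by omega), hpres]
    exact h1
  have h2' : U₂ * T'.P m + V₂ * T'.R m = C res' * X ^ (2 * e + 1) := by
    apply hpinj m
    rw [map_add, map_mul, map_mul, map_mul, hU₂, hV₂, hTP m (by omega), hTR m (by omega), hpres,
      hpX]
    exact h2
  -- the orbit over `L`
  obtain ⟨x', hx', hOx'⟩ := ls_orbit f T T' m (fun i hi => hTP i (by omega))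
    (fun i hi => hTR i (by omega)) x hx hx0
  have hmvx : ∀ t (g : MvPolynomial (Fin m) L), f (mv (x' t) g) = mv (x t) (MvPolynomial.map f g) := by
    intro t g
    rw [← mv_map]
    exact mv_congr (fun i hi => hx' t i hi) _
  obtain ⟨s, hs⟩ := lstep_nf T' m e he (hdeg (hTP m (by omega)) hP) (hdeg (hTR m (by omega)) hR)
    (fun j hj => ⟨hdeg (hTP j (by omega)) (hlow j hj).1, hdeg (hTR j (by omega)) (hlow j hj).2⟩)
    res' U₁ V₁ U₂ V₂ (hdeg hU₁ hU) (hdeg hV₁ hV) (hdeg hU₂ hU') (hdeg hV₂ hV') h1' h2' x' hOx'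
    (fun t h3 => hres t (by rw [← hmres, ← hmvx, h3, map_zero]))
    (fun g hg => by
      obtain ⟨t, ht⟩ := dense (MvPolynomial.map f g)
        ((map_ne_zero_iff _ (hminj m)).2 hg)
      refine ⟨t, fun h3 => ht ?_⟩
      rw [← hmvx, h3, map_zero])
    z' N hN
  refine ⟨s, fun X hX hXx hX0 g hg => ?_⟩
  obtain ⟨X', hX', hOX'⟩ := ls_orbit f T T' (m + 1) hTP hTR X hX (by
    intro i hi
    rcases Nat.lt_or_ge i m with h3 | h3
    · rw [hXx 0 i h3]
      exact hx0 i h3
    · have h4 : i = m := by omega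
      subst h4
      refine ⟨z' + s * N, ?_⟩
      rw [hX0, map_add, map_mul, map_natCast, map_natCast, hz'])
  obtain ⟨g', hg', hgg⟩ := ls_func (L := L) g hg
  obtain ⟨t, ht⟩ := hs X' hOX' (fun t i hi => hinj (by
    rw [hX' t i (by omega), hx' t i hi, hXx t i hi])) (hinj (by
    rw [hX' 0 m (by omega), hX0, map_add, map_mul, map_natCast, map_natCast, hz'])) g' hg'
  exact ⟨t, fun h3 => ht (hgg (X t) (X' t) (fun i hi => hX' t i hi) h3)⟩

end Pool.Agent.H51.TT
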