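import Pool.Agent.H51.TT.Main2
import Pool.Agent.H51.TT.Gau
import Pool.Agent.H51.TT.LC
import Pool.Agent.H51.TT.LStep

/-!
# Module LvL: levels of larger degree over an algebraic extension of `ℚ`

PROOF.  `coprime_of_relPrime` and `exists_cert_mv` give `res, U, V, U', V'`; `Lvl T m res` is then
`lstep` (its conclusion for the given `x, z, N`).
-/

set_option autoImplicit false

open Polynomial

namespace Pool.Agent.H51.TT

universe u

theorem lvl_large {k : Type u} [Field k] [CharZero k] [Algebra.IsAlgebraic ℚ k] (T : Tow k)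
    (m e : ℕ) (he : 1 ≤ e) (hP : (T.P m).natDegree ≤ e + 1) (hR : (T.R m).natDegree ≤ e + 1)
    (hd : (T.P m).natDegree = e + 1 ∨ (T.R m).natDegree = e + 1)
    (hlow : ∀ j < m, (T.P j).natDegree ≤ e ∧ (T.R j).natDegree ≤ e)
    (hco : IsRelPrime (T.P m) (T.R m)) :
    ∃ res : MvPolynomial (Fin m) k, res ≠ 0 ∧ Lvl T m res := by
  obtain ⟨res, U, V, U', V', h0, h1, h2, h3, h4, h5, h6⟩ :=
    exists_cert_mv (T.P m) (T.R m) (coprime_of_relPrime _ _ hco) hP hR hd
  exact ⟨res, h0, fun x hx hres hdn z N hN =>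
    lstep T m e he hP hR hlow res U V U' V' h1 h2 h3 h4 h5 h6 x hx hres hdn z N hN⟩

end Pool.Agent.H51.TT
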