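import Pool.Agent.H51.TT.Main2
import Pool.Agent.H51.TT.Lv0
import Pool.Agent.H51.TT.LvL
import Pool.Agent.H51.TT.Dom
import Pool.Agent.H51.TT.Dsc
import Pool.Agent.H71.ZD.Trop3

/-!
# Module Fin2: the theorem in the frame of projective varieties

PROOF.  As in `Fin.lean` (which has the same statement without the last two types of levels; copy
its proof if it is finished), with `main_orbit2` in place of `main_orbit`.  With the tower `T` of
`exists_desc` (`emb (T.P i) = P i`, `emb (T.R i) = Q i`, same degrees; `relPrime_of_emb`), the type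
of a level `i`:
* `max (deg P_i) (deg Q_i) ≤ 1`: Moebius;
* `deg Q_i + 2 ≤ deg P_i`: superattracting;
* `i = 0`: if `max ≤ 1` Moebius, otherwise `lvl_zero` with `res = 1`;
* `Algebra.IsAlgebraic ℚ k` and `max (deg P_j) (deg Q_j) < max (deg P_i) (deg Q_i)` for `j < i`: if
  `max ≤ 1` Moebius, otherwise `lvl_large` with `e + 1 = max (deg P_i) (deg Q_i)`.
-/

set_option autoImplicit false

open MvPolynomial

namespace Pool.Agent.H51.TT

open Pool.Agent.H71.ZD

universe u

theorem strong_triangular2 {k : Type u} [Field k] [CharZero k] [IsAlgClosed k] (n : ℕ)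
    (P Q : Fin n → MvPolynomial (Fin n) k) (hQ : ∀ i, Q i ≠ 0)
    (hPi : ∀ i, ∀ α ∈ (P i).support, ∀ j, i < j → α j = 0)
    (hQi : ∀ i, ∀ α ∈ (Q i).support, ∀ j, i < j → α j = 0)
    (hPQ : ∀ i, IsRelPrime (P i) (Q i))
    (hlev : ∀ i, max (degreeOf i (P i)) (degreeOf i (Q i)) ≤ 1 ∨
      degreeOf i (Q i) + 2 ≤ degreeOf i (P i) ∨ (i : ℕ) = 0 ∨
      (Algebra.IsAlgebraic ℚ k ∧ ∀ j, j < i →
        max (degreeOf j (P j)) (degreeOf j (Q j)) < max (degreeOf i (P i)) (degreeOf i (Q i))))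
    (φ : (affPV k (Fin n)).K →ₐ[k] (affPV k (Fin n)).K)
    (hφ : ∀ i, φ (zf k (Fin n) (X i)) * zf k (Fin n) (Q i) = zf k (Fin n) (P i))
    (hno : NoInvariants (affPV k (Fin n)) φ) : StrongZDO (affPV k (Fin n)) φ := by
  classical
  have hP' : ∀ i : Fin n, ∃ q : Polynomial (MvPolynomial (Fin (i : ℕ)) k), emb i.2 q = P i ∧
      q.natDegree = degreeOf i (P i) := fun i => exists_desc i (P i) (hPi i)
  have hR' : ∀ i : Fin n, ∃ q : Polynomial (MvPolynomial (Fin (i : ℕ)) k), emb i.2 q = Q i ∧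
      q.natDegree = degreeOf i (Q i) := fun i => exists_desc i (Q i) (hQi i)
  choose P' hP1 hP2 using hP'
  choose R' hR1 hR2 using hR'
  let T : Tow k :=
    { P := fun i => if hi : i < n then P' ⟨i, hi⟩ else 0
      R := fun i => if hi : i < n then R' ⟨i, hi⟩ else 0 }
  have hTP : ∀ i (hi : i < n), T.P i = P' ⟨i, hi⟩ := fun i hi => dif_pos hi
  have hTR : ∀ i (hi : i < n), T.R i = R' ⟨i, hi⟩ := fun i hi => dif_pos hi
  have htr : ∀ i, n ≤ i → T.P i = 0 ∧ T.R i = 0 := fun i hi =>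
    ⟨dif_neg (by omega), dif_neg (by omega)⟩
  have heP : ∀ i (hi : i < n), emb hi (T.P i) = P ⟨i, hi⟩ := fun i hi => by
    rw [hTP i hi]; exact hP1 ⟨i, hi⟩
  have heR : ∀ i (hi : i < n), emb hi (T.R i) = Q ⟨i, hi⟩ := fun i hi => by
    rw [hTR i hi]; exact hR1 ⟨i, hi⟩
  let z : ℕ → (affPV k (Fin n)).K := fun i =>
    if hi : i < n then zf k (Fin n) (X ⟨i, hi⟩) else 0
  have hzi : ∀ i (hi : i < n), z i = zf k (Fin n) (X ⟨i, hi⟩) := fun i hi => dif_pos hi
  have hmz : ∀ g : MvPolynomial (Fin n) k,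
      mv z (MvPolynomial.map (algebraMap k (affPV k (Fin n)).K) g) = zf k (Fin n) g := by
    intro g
    induction g using MvPolynomial.induction_on with
    | C a =>
      rw [zf_C, MvPolynomial.map_C]
      exact MvPolynomial.eval_C _
    | add p q hp hq =>
      rw [map_add, map_add, hp, hq]
      exact (map_add (algebraMap (MvPolynomial (Fin n) k) (FractionRing (MvPolynomial (Fin n) k)))
        p q).symm
    | mul_X p i hp =>
      rw [zf_mul, map_mul, map_mul, hp, MvPolynomial.map_X]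
      have h1 : mv z (X i : MvPolynomial (Fin n) (affPV k (Fin n)).K) = z i :=
        MvPolynomial.eval_X _
      rw [h1, hzi i i.2]
  have hz : ∀ g : MvPolynomial (Fin n) k,
      mv z (MvPolynomial.map (algebraMap k (affPV k (Fin n)).K) g) = 0 → g = 0 := by
    intro g hg
    rw [hmz] at hg
    exact zf_injective (hg.trans zf_zero.symm)
  have htP : ∀ i (hi : i < n), tv z ((T.map (algebraMap k (affPV k (Fin n)).K)).P i) =
      zf k (Fin n) (P ⟨i, hi⟩) := by
    intro i hi
    rw [← heP i hi, ← hmz, mv_map_emb]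
    rfl
  have htR : ∀ i (hi : i < n), tv z ((T.map (algebraMap k (affPV k (Fin n)).K)).R i) =
      zf k (Fin n) (Q ⟨i, hi⟩) := by
    intro i hi
    rw [← heR i hi, ← hmz, mv_map_emb]
    rfl
  have hφ' : ∀ i < n, φ (z i) * tv z ((T.map (algebraMap k (affPV k (Fin n)).K)).R i) =
      tv z ((T.map (algebraMap k (affPV k (Fin n)).K)).P i) := by
    intro i hi
    rw [htP i hi, htR i hi, hzi i hi]
    exact hφ ⟨i, hi⟩
  have hR0 : ∀ i < n, T.R i ≠ 0 := by
    intro i hi h0
    apply hQ ⟨i, hi⟩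
    rw [← heR i hi, h0, map_zero]
  have hW : ∀ i < n, T.W i ≠ 0 := W_ne_zero T n z hz φ hR0 hφ'
  have hrel : ∀ i (hi : i < n), IsRelPrime (T.P i) (T.R i) := by
    intro i hi
    apply relPrime_of_emb hi
    rw [heP i hi, heR i hi]
    exact hPQ ⟨i, hi⟩
  have hdP : ∀ i (hi : i < n), (T.P i).natDegree = degreeOf ⟨i, hi⟩ (P ⟨i, hi⟩) := fun i hi => by
    rw [hTP i hi]; exact hP2 ⟨i, hi⟩
  have hdR : ∀ i (hi : i < n), (T.R i).natDegree = degreeOf ⟨i, hi⟩ (Q ⟨i, hi⟩) := fun i hi => by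
    rw [hTR i hi]; exact hR2 ⟨i, hi⟩
  have hlev' : ∀ i < n, (T.R i).natDegree + 2 ≤ (T.P i).natDegree ∨
      ((T.P i).natDegree ≤ 1 ∧ (T.R i).natDegree ≤ 1) ∨
        ∃ res : MvPolynomial (Fin i) k, res ≠ 0 ∧ Lvl T i res := by
    intro i hi
    have h1 := hlev ⟨i, hi⟩
    rw [← hdP i hi, ← hdR i hi] at h1
    by_cases hm : max (T.P i).natDegree (T.R i).natDegree ≤ 1
    · right; left
      omega
    rcases h1 with h1 | h1 | h1 | ⟨h1, h2⟩
    · exact absurd h1 hm
    · left
      exact h1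
    · right; right
      have h3 : i = 0 := h1
      subst h3
      exact ⟨1, one_ne_zero, lvl_zero T (hrel 0 hi) (by omega)⟩
    · right; right
      obtain ⟨e, he⟩ : ∃ e, max (T.P i).natDegree (T.R i).natDegree = e + 1 :=
        ⟨max (T.P i).natDegree (T.R i).natDegree - 1, by omega⟩
      refine lvl_large T i e (by omega) (by omega) (by omega) (by omega) ?_ (hrel i hi)
      intro j hj
      have h3 := h2 ⟨j, by omega⟩ hj
      rw [← hdP j (by omega), ← hdR j (by omega)] at h3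
      omega
  intro e g hg hg0
  have hg1 : deh (σ := Fin n) g ≠ 0 := by
    intro h0
    apply hg0
    exact (affPV_ev (σ := Fin n) g).trans (by rw [h0, zf_zero])
  obtain ⟨x, hx, hxg, hxd⟩ := main_orbit2 T n htr hW hlev' z hz φ hφ' hno
    (deh (σ := Fin n) g) hg1
  have hev : ∀ t (q : MvPolynomial (Fin n) k), eval (fun i : Fin n => x t i) q = mv (x t) q :=
    fun t q => rfl
  have hRx : ∀ t (i : Fin n), eval (fun j : Fin n => x t j) (Q i) = tv (x t) (T.R i) := by
    intro t i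
    rw [hev, ← heR i i.2, mv_emb]
  have hPx : ∀ t (i : Fin n), eval (fun j : Fin n => x t j) (P i) = tv (x t) (T.P i) := by
    intro t i
    rw [hev, ← heP i i.2, mv_emb]
  refine ⟨fun t => pt (fun i : Fin n => x t i), ⟨fun t => pt_isPoint _, fun t => ?_⟩, ?_, ?_⟩
  · refine aff_sends P Q hQ φ hφ (fun i => ?_) (fun i => ?_)
    · rw [hRx]
      exact (hx.unit t i i.2).ne_zero
    · rw [hRx, hPx]
      exact hx.step t i i.2
  · intro d q hq hv
    by_contra hne
    have h1 : deh (σ := Fin n) q ≠ 0 := by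
      intro h0
      apply hne
      exact (affPV_ev (σ := Fin n) q).trans (by rw [h0, zf_zero])
    obtain ⟨t, ht⟩ := hxd _ h1
    exact ht ((eval_deh _ _).symm.trans (hv t))
  · intro t h0
    exact hxg t ((eval_deh _ _).symm.trans h0)

end Pool.Agent.H51.TT
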