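import Pool.Agent.H51.TT.Defs

/-!
# Module Fol: the orbit over `k`, and orbits that follow a residue cycle

`step T` is the map `x ↦ (P_i(x)/R_i(x))_i` on sequences (division by `0` gives `0`), `orb T x`
its orbit.

PROOF of `orb_congr`: induction on `t`, `tv_congr`.
PROOF of `follow`.  Induction on `t`: if `X t i = y_i` with `y_i ∈ V.O`, `ρ y_i = c t i` for
`i < m`, then for `i < m`: `tv (X t) (R i) = tv y (T.R i)` (`tv_map` for `V.O.subtype` and
`tv_congr`), an element of `V.O` with residue `tv (c t) ((T.map ρ).R i)` (`tv_map` for `ρ`), which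
is a unit of `κ`, so it is a unit of `V.O` (`Plc.unit`); hence `X (t+1) i = P / R ∈ V.O`, with
residue `c (t+1) i` because of `hc.step`.
-/

set_option autoImplicit false

open Polynomial

namespace Pool.Agent.H51.TT

universe u

section
variable {k : Type u} [Field k]

/-- One step of the triangular map on sequences. -/
noncomputable def step (T : Tow k) (x : ℕ → k) : ℕ → k := fun i =>
  tv x (T.P i) / tv x (T.R i)

/-- The orbit of a sequence. -/
noncomputable def orb (T : Tow k) (x : ℕ → k) (t : ℕ) : ℕ → k := (step T)^[t] x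

theorem orb_congr (T : Tow k) (m : ℕ) (x y : ℕ → k) (h : ∀ i < m, x i = y i) (t : ℕ) :
    ∀ i < m, orb T x t i = orb T y t i := by
  induction t with
  | zero => exact h
  | succ t ih =>
    intro i hi
    unfold orb at ih ⊢
    rw [Function.iterate_succ_apply', Function.iterate_succ_apply']
    unfold step at ih ⊢
    rw [tv_congr (fun j hj => ih j (by omega)) (T.P i), tv_congr (fun j hj => ih j (by omega)) (T.R i)]

theorem follow (V : Plc k) (T : Tow V.O) (m : ℕ) (x₀ : ℕ → k) (c : ℕ → ℕ → V.κ)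
    (hc : (T.map V.ρ).Orb m c) (h₀ : ∀ i < m, ∃ y : V.O, (y : k) = x₀ i ∧ V.ρ y = c 0 i) :
    (T.map V.O.subtype).Orb m (orb (T.map V.O.subtype) x₀) ∧
      ∀ t, ∀ i < m, ∃ y : V.O, (y : k) = orb (T.map V.O.subtype) x₀ t i ∧ V.ρ y = c t i := by
  have key : ∀ t, (∀ i < m, ∃ y : V.O, (y : k) = orb (T.map V.O.subtype) x₀ t i ∧ V.ρ y = c t i) →
      ∀ i < m, ∃ r p : V.O, tv (orb (T.map V.O.subtype) x₀ t) ((T.map V.O.subtype).R i) = r ∧
        tv (orb (T.map V.O.subtype) x₀ t) ((T.map V.O.subtype).P i) = p ∧ IsUnit r ∧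
        V.ρ r = tv (c t) ((T.map V.ρ).R i) ∧ V.ρ p = tv (c t) ((T.map V.ρ).P i) := by
    intro t ht i hi
    classical
    let y : ℕ → V.O := fun i => if h : i < m then (ht i h).choose else 0
    have hy : ∀ i < m, (y i : k) = orb (T.map V.O.subtype) x₀ t i ∧ V.ρ (y i) = c t i := by
      intro i hi
      have h1 := (ht i hi).choose_spec
      have h2 : y i = (ht i hi).choose := dif_pos hi
      rw [h2]
      exact h1
    have e1 : ∀ q : (MvPolynomial (Fin i) V.O)[X],
        tv (orb (T.map V.O.subtype) x₀ t) (pm V.O.subtype q) = (tv y q : V.O) := by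
      intro q
      rw [tv_congr (y := fun j => V.O.subtype (y j)) (fun j hj => ((hy j (by omega)).1).symm),
        tv_map]
      rfl
    have e2 : ∀ q : (MvPolynomial (Fin i) V.O)[X], V.ρ (tv y q) = tv (c t) (pm V.ρ q) := by
      intro q
      rw [← tv_map, tv_congr (fun j hj => (hy j (by omega)).2)]
    refine ⟨tv y (T.R i), tv y (T.P i), e1 _, e1 _, ?_, e2 _, e2 _⟩
    apply V.unit
    rw [e2]
    exact (hc.unit t i hi).ne_zero
  have all : ∀ t, ∀ i < m, ∃ y : V.O, (y : k) = orb (T.map V.O.subtype) x₀ t i ∧ V.ρ y = c t i := by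
    intro t
    induction t with
    | zero => exact h₀
    | succ t ih =>
      intro i hi
      obtain ⟨r, p, h1, h2, h3, h4, h5⟩ := key t ih i hi
      obtain ⟨u, rfl⟩ := h3
      refine ⟨p * (u⁻¹ : V.Oˣ), ?_, ?_⟩
      · have h6 : orb (T.map V.O.subtype) x₀ (t + 1) i =
            tv (orb (T.map V.O.subtype) x₀ t) ((T.map V.O.subtype).P i) /
              tv (orb (T.map V.O.subtype) x₀ t) ((T.map V.O.subtype).R i) := by
          show (step _)^[t + 1] x₀ i = _
          rw [Function.iterate_succ_apply']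
          rfl
        rw [h6, h1, h2]
        have h7 : ((u : V.O) : k) * (((u⁻¹ : V.Oˣ) : V.O) : k) = 1 := by
          rw [← Subring.coe_mul, Units.mul_inv, Subring.coe_one]
        have h8 : ((u : V.O) : k) ≠ 0 := left_ne_zero_of_mul_eq_one h7
        rw [eq_div_iff h8, Subring.coe_mul, mul_assoc, mul_comm (((u⁻¹ : V.Oˣ) : V.O) : k), h7,
          mul_one]
      · have h9 : V.ρ (u : V.O) * V.ρ ((u⁻¹ : V.Oˣ) : V.O) = 1 := by
          rw [← map_mul, Units.mul_inv, map_one]
        have h10 := hc.step t i hi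
        rw [← h4, ← h5] at h10
        rw [map_mul, ← h10, mul_assoc, h9, mul_one]
  refine ⟨⟨?_, ?_⟩, all⟩
  · intro t i hi
    obtain ⟨r, p, h1, h2, h3, h4, h5⟩ := key t (all t) i hi
    rw [h1]
    exact h3.map V.O.subtype
  · intro t i hi
    obtain ⟨r, p, h1, h2, h3, h4, h5⟩ := key t (all t) i hi
    have h6 : orb (T.map V.O.subtype) x₀ (t + 1) i =
        tv (orb (T.map V.O.subtype) x₀ t) ((T.map V.O.subtype).P i) /
          tv (orb (T.map V.O.subtype) x₀ t) ((T.map V.O.subtype).R i) := by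
      show (step _)^[t + 1] x₀ i = _
      rw [Function.iterate_succ_apply']
      rfl
    rw [h6]
    apply div_mul_cancel₀
    rw [h1]
    exact (h3.map V.O.subtype).ne_zero

end

end Pool.Agent.H51.TT
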