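import Pool.Agent.H51.TT.Defs

/-!
# Module Germ: the ring of sequences modulo those supported on a proper closed subset

PROOF.  `J = {a : ℕ → k | ∃ g ≠ 0, ∀ t, mv (x t) g * a t = 0}` is an ideal of `ℕ → k` (for a sum
take the product of the two `g`, `MvPolynomial` over a field is a domain).  `𝓖 = (ℕ → k) ⧸ J`.
Nontrivial: `1 ∉ J` by density.  Reduced: if `g a ^ n = 0` pointwise then `g a = 0` pointwise.
Shift: if `a ∈ J` with `g`, take `g'` from `hshift`: where `mv (x t) g' ≠ 0` we have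
`mv (x (t+1)) g ≠ 0`, so `a (t+1) = 0`; hence `g'` shows that the shifted sequence is in `J`, and
the shift descends to `τ`.  Units: for `g ≠ 0` the inverse of `cl (t ↦ mv (x t) g)` is
`cl (t ↦ (mv (x t) g)⁻¹)`: `g (g g⁻¹ - 1) = 0` pointwise.
-/

set_option autoImplicit false

open Polynomial

namespace Pool.Agent.H51.TT

universe u

/-- The ideal of the sequences supported on a proper closed subset. -/
private noncomputable def germJ {k : Type u} [Field k] (m : ℕ) (x : ℕ → ℕ → k) :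
    Ideal (ℕ → k) where
  carrier := {a | ∃ g : MvPolynomial (Fin m) k, g ≠ 0 ∧ ∀ t, mv (x t) g * a t = 0}
  add_mem' := by
    rintro a b ⟨g, hg, h1⟩ ⟨g', hg', h2⟩
    refine ⟨g * g', mul_ne_zero hg hg', fun t => ?_⟩
    rw [map_mul, Pi.add_apply]
    linear_combination mv (x t) g' * h1 t + mv (x t) g * h2 t
  zero_mem' := ⟨1, one_ne_zero, fun t => by simp⟩
  smul_mem' := by
    rintro c a ⟨g, hg, h1⟩
    refine ⟨g, hg, fun t => ?_⟩
    rw [smul_eq_mul, Pi.mul_apply]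
    linear_combination c t * h1 t

private theorem mem_germJ {k : Type u} [Field k] {m : ℕ} {x : ℕ → ℕ → k} {a : ℕ → k} :
    a ∈ germJ m x ↔ ∃ g : MvPolynomial (Fin m) k, g ≠ 0 ∧ ∀ t, mv (x t) g * a t = 0 := Iff.rfl

/-- The shift of sequences. -/
private def germS (k : Type u) [Field k] : (ℕ → k) →+* (ℕ → k) where
  toFun a t := a (t + 1)
  map_one' := rfl
  map_mul' _ _ := rfl
  map_zero' := rfl
  map_add' _ _ := rfl

theorem exists_germ {k : Type u} [Field k] (m : ℕ) (x : ℕ → ℕ → k)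
    (dense : ∀ g : MvPolynomial (Fin m) k, g ≠ 0 → ∃ t, mv (x t) g ≠ 0)
    (hshift : ∀ g : MvPolynomial (Fin m) k, g ≠ 0 → ∃ g' : MvPolynomial (Fin m) k, g' ≠ 0 ∧
      ∀ t, mv (x t) g' ≠ 0 → mv (x (t + 1)) g ≠ 0) :
    ∃ (𝓖 : Type u) (_ : CommRing 𝓖) (_ : Nontrivial 𝓖) (_ : IsReduced 𝓖)
      (cl : (ℕ → k) →+* 𝓖) (τ : 𝓖 →+* 𝓖),
      (∀ a, cl a = 0 ↔ ∃ g : MvPolynomial (Fin m) k, g ≠ 0 ∧ ∀ t, mv (x t) g * a t = 0) ∧
      (∀ a, τ (cl a) = cl fun t => a (t + 1)) ∧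
      ∀ g : MvPolynomial (Fin m) k, g ≠ 0 → IsUnit (cl fun t => mv (x t) g) := by
  have hcl : ∀ a : ℕ → k, Ideal.Quotient.mk (germJ m x) a = 0 ↔
      ∃ g : MvPolynomial (Fin m) k, g ≠ 0 ∧ ∀ t, mv (x t) g * a t = 0 := fun a =>
    Ideal.Quotient.eq_zero_iff_mem.trans mem_germJ
  have hne : germJ m x ≠ ⊤ := by
    intro h
    have h1 : (1 : ℕ → k) ∈ germJ m x := by rw [h]; exact Submodule.mem_top
    obtain ⟨g, hg, h2⟩ := h1
    obtain ⟨t, ht⟩ := dense g hg
    exact ht (by simpa using h2 t)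
  have hnt : Nontrivial ((ℕ → k) ⧸ germJ m x) := Ideal.Quotient.nontrivial_iff.2 hne
  have hred : IsReduced ((ℕ → k) ⧸ germJ m x) := by
    refine ⟨fun z => ?_⟩
    obtain ⟨a, rfl⟩ := Ideal.Quotient.mk_surjective z
    rintro ⟨n, hn⟩
    rw [← map_pow, hcl] at hn
    obtain ⟨g, hg, h1⟩ := hn
    rw [hcl]
    refine ⟨g, hg, fun t => ?_⟩
    have h2 := h1 t
    rw [Pi.pow_apply] at h2
    rcases mul_eq_zero.1 h2 with h3 | h3
    · rw [h3, zero_mul]
    · rw [eq_zero_of_pow_eq_zero h3, mul_zero]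
  have hS : germJ m x ≤ (germJ m x).comap (germS k) := by
    rintro a ⟨g, hg, h1⟩
    obtain ⟨g', hg', h2⟩ := hshift g hg
    refine ⟨g', hg', fun t => ?_⟩
    by_cases h3 : mv (x t) g' = 0
    · rw [h3, zero_mul]
    · have h4 := h1 (t + 1)
      have h5 : a (t + 1) = 0 := by
        rcases mul_eq_zero.1 h4 with h6 | h6
        · exact absurd h6 (h2 t h3)
        · exact h6
      change mv (x t) g' * a (t + 1) = 0
      rw [h5, mul_zero]
  refine ⟨(ℕ → k) ⧸ germJ m x, inferInstance, hnt, hred, Ideal.Quotient.mk _,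
    Ideal.quotientMap (germJ m x) (germS k) hS, hcl, fun a => ?_, fun g hg => ?_⟩
  · rw [Ideal.quotientMap_mk]
    rfl
  · refine IsUnit.of_mul_eq_one (Ideal.Quotient.mk _ fun t => (mv (x t) g)⁻¹) ?_
    rw [← map_mul, ← sub_eq_zero, ← map_one (Ideal.Quotient.mk (germJ m x)), ← map_sub, hcl]
    refine ⟨g, hg, fun t => ?_⟩
    simp only [Pi.sub_apply, Pi.mul_apply, Pi.one_apply]
    by_cases h : mv (x t) g = 0
    · rw [h, zero_mul]
    · rw [mul_inv_cancel₀ h, sub_self, mul_zero]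

end Pool.Agent.H51.TT
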