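import Pool.Agent.H51.TT.HsD

/-!
# Module HesA: the covariants of a form with a Moebius functional equation

Notation: `N = natDegree G`, `g = G(T)`, `u = c T + d ∈ M`, `Δ = a d - b c`, `U = C c * X + C d`,
`H = hP G`, `W = wP G`.  `T` is transcendental over `L`, so an identity of values at `T` is an
identity of polynomials and conversely.  `l ≠ 0`: otherwise `u^N φ(g) = 0` by `hs_aeval`, so
`g = 0` (`φ` is injective, `u ≠ 0` because `c, d` are not both `0`), so `G = 0`.

PROOF.
[0] `hs N (G.map σ) = C l * G`, so `u^N φ(g) = l g`.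
[1] derivative rule (`hs_derivative`, `derivative (G.map σ) = (derivative G).map σ`):
    `U * C l * G' = C (N c) * C l * G + C Δ * hs (N-1) (G'.map σ)`, so
    `E1 := hs (N-1) (G'.map σ) = C (Δ⁻¹ l) * (U G' - C (N c) G)`; at `T`: `u^(N-1) φ(G'(T))`.
[2] again with `n = N-1`, `F = G'.map σ`:
    `U E1' = C ((N-1) c) E1 + C Δ * hs (N-2) (G''.map σ)`; at `T`: `u^(N-2) φ(G''(T))`.
[3] computation: `Δ² (N E0 E2 - (N-1) E1²) = l² U² H` where `E0 = C l * G`,
    `E2 = hs (N-2) (G''.map σ)`: indeed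
    `Δ E1 = l (U G' - N c G)`, `Δ² E2 = l (U² G'' - 2 (N-1) c U G' + N (N-1) c² G)`.
    So `Δ² u^(2N-2) φ(H(T)) = l² u² H(T)`, i.e. with `μ = l² Δ⁻²`:
    `u^(2N-4) φ(H(T)) = μ H(T)`   (`N ≥ 3`).
[4] `natDegree H ≤ 2 N - 2`; `hs_aeval` with `n = 2N-2` and [3]:
    `hs (2N-2) (H.map σ) = C μ * U² * H` as polynomials; `hs_derivative`:
    `Δ u^(2N-3) φ(H'(T)) = μ u² (u H'(T) - (2N-4) c H(T))`.
[5] `φ(W(T)) = N φ(H') φ(G) - (2N-4) φ(H) φ(G')` gives
    `Δ u^(3N-6) φ(W(T)) = μ l W(T)`.
[6] `(Δ u^(3N-6))² φ(W)² H³ = μ² l² W² H³`, `(Δ u^(3N-6))² W² φ(H)³ = Δ² μ³ W² H³`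
    and `μ² l² = Δ² μ³`; cancel `(Δ u^(3N-6))² ≠ 0`.
-/

set_option autoImplicit false

open Polynomial

namespace Pool.Agent.H51.TT

universe u v

private theorem hess_inv_aux {L : Type u} [Field L] {M : Type v} [Field M] [Algebra L M] (T : M)
    (hT : Transcendental L T) (σ : L →+* L) (φ : M →+* M)
    (hφ : ∀ l, φ (algebraMap L M l) = algebraMap L M (σ l)) (a b c d : L)
    (hΔ : a * d - b * c ≠ 0)
    (hφT : φ T * (algebraMap L M c * T + algebraMap L M d) =
      algebraMap L M a * T + algebraMap L M b) (G : L[X]) (k : ℕ) (hk : G.natDegree = k + 3)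
    (l : L) (hG : hs a b c d (k + 3) (G.map σ) = C l * G) :
    φ (aeval T (wP G)) ^ 2 * aeval T (hP G) ^ 3 = aeval T (wP G) ^ 2 * φ (aeval T (hP G)) ^ 3 := by
  have hinj : Function.Injective (aeval T : L[X] →ₐ[L] M) := transcendental_iff_injective.1 hT
  set U : L[X] := C c * X + C d with hU
  have hUT : aeval T U = algebraMap L M c * T + algebraMap L M d := by
    rw [hU, map_add, map_mul, aeval_C, aeval_C, aeval_X]
  set u : M := algebraMap L M c * T + algebraMap L M d with hu
  have hu0 : u ≠ 0 := by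
    intro h0
    have h1 : U = 0 := hinj (by rw [hUT, h0, map_zero])
    have h2 : c = 0 := by
      have := congrArg (fun p : L[X] => p.coeff 1) h1
      simpa [hU] using this
    have h3 : d = 0 := by
      have := congrArg (fun p : L[X] => p.coeff 0) h1
      simpa [hU] using this
    exact hΔ (by rw [h2, h3]; ring)
  set D : M := algebraMap L M (a * d - b * c) with hD
  have hD0 : D ≠ 0 := fun h0 => hΔ ((map_eq_zero (algebraMap L M)).1 h0)
  have hd1 : (derivative G).natDegree ≤ k + 2 := by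
    have := natDegree_derivative_le G
    omega
  have hd2 : (derivative (derivative G)).natDegree ≤ k + 1 := by
    have := natDegree_derivative_le (derivative G)
    omega
  have hH : (hP G).natDegree ≤ 2 * k + 4 := by
    unfold hP
    refine (natDegree_sub_le _ _).trans (max_le ?_ ?_)
    · refine natDegree_mul_le.trans ?_
      have h1 : (C (G.natDegree : L) * G).natDegree ≤ k + 3 :=
        (natDegree_C_mul_le _ _).trans hk.le
      omega
    · refine (natDegree_C_mul_le _ _).trans (natDegree_pow_le.trans ?_)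
      omega
  have hH1 : (derivative (hP G)).natDegree ≤ 2 * k + 3 := by
    have := natDegree_derivative_le (hP G)
    omega
  have A0 := hs_aeval T (φ T) σ φ hφ a b c d rfl hφT (k + 3) G hk.le
  have A1 := hs_aeval T (φ T) σ φ hφ a b c d rfl hφT (k + 2) (derivative G) hd1
  have A2 := hs_aeval T (φ T) σ φ hφ a b c d rfl hφT (k + 1) (derivative (derivative G)) hd2
  have A3 := hs_aeval T (φ T) σ φ hφ a b c d rfl hφT (2 * k + 4) (hP G) hH
  have A4 := hs_aeval T (φ T) σ φ hφ a b c d rfl hφT (2 * k + 3) (derivative (hP G)) hH1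
  have B1 := hs_derivative a b c d (n := k + 3) (by omega) (G.map σ) (natDegree_map_le.trans hk.le)
  have B2 := hs_derivative a b c d (n := k + 2) (by omega) ((derivative G).map σ)
    (natDegree_map_le.trans hd1)
  have B3 := hs_derivative a b c d (n := 2 * k + 4) (by omega) ((hP G).map σ)
    (natDegree_map_le.trans hH)
  rw [derivative_map, show k + 3 - 1 = k + 2 from rfl, hG] at B1
  rw [derivative_map, show k + 2 - 1 = k + 1 from rfl] at B2
  rw [derivative_map, show 2 * k + 4 - 1 = 2 * k + 3 from rfl] at B3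
  rw [hG] at A0
  rw [← hu] at A0 A1 A2 A3 A4
  rw [← hU] at B1 B2 B3
  have dU : derivative U = C c := by
    rw [hU]
    simp
  have B1d := congrArg derivative B1
  simp only [derivative_mul, derivative_add, derivative_C, dU, zero_mul, zero_add] at B1d
  have e1 := congrArg (aeval T) B1
  have e1d := congrArg (aeval T) B1d
  have e2 := congrArg (aeval T) B2
  have e3 := congrArg (aeval T) B3
  simp only [derivative_mul, derivative_C, zero_mul, zero_add, map_add,
    map_mul, aeval_C, hUT, map_natCast, A1, A2, A3, A4, ← hD] at e1 e1d e2 e3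
  simp only [map_mul, aeval_C] at A0
  have hHT : aeval T (hP G) = ((k : M) + 3) * aeval T G * aeval T (derivative (derivative G)) -
      ((k : M) + 2) * aeval T (derivative G) ^ 2 := by
    unfold hP
    rw [hk]
    simp only [map_sub, map_mul, map_pow, aeval_C, map_natCast, map_one]
    push_cast
    ring
  have hWT : aeval T (wP G) = ((k : M) + 3) * aeval T (derivative (hP G)) * aeval T G -
      (2 * (k : M) + 2) * aeval T (hP G) * aeval T (derivative G) := by
    unfold wP
    rw [hk]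
    simp only [map_sub, map_mul, aeval_C, map_natCast, map_ofNat]
    push_cast
    ring
  have hφH := congrArg φ hHT
  have hφW := congrArg φ hWT
  simp only [map_sub, map_mul, map_add, map_pow, map_natCast, map_ofNat] at hφH hφW
  push_cast at e1 e1d e2 e3
  generalize hc' : algebraMap L M c = c' at *
  generalize hl' : algebraMap L M l = l' at *
  generalize aeval T G = g0 at *
  generalize aeval T (derivative G) = g1 at *
  generalize aeval T (derivative (derivative G)) = g2 at *
  generalize φ g0 = p0 at *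
  generalize φ g1 = p1 at *
  generalize φ g2 = p2 at *
  generalize aeval T (derivative (hs a b c d (k + 2) (map σ (derivative G)))) = Q1 at *
  have f1 : D * (u ^ (k + 2) * p1) = l' * (u * g1 - (k + 3) * c' * g0) := by
    linear_combination -e1
  have f2 : D ^ 2 * (u ^ (k + 1) * p2) =
      l' * (u ^ 2 * g2 - 2 * (k + 2) * c' * u * g1 + (k + 3) * (k + 2) * c' ^ 2 * g0) := by
    linear_combination (-D) * e2 - u * e1d - (k + 2) * c' * f1
  have f3 : D ^ 2 * (u ^ (2 * k + 4) * φ (aeval T (hP G))) =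
      l' ^ 2 * u ^ 2 * aeval T (hP G) := by
    have t1 : u ^ (2 * k + 4) * φ (aeval T (hP G)) = (k + 3) * (u ^ (k + 3) * p0) *
        (u ^ (k + 1) * p2) - (k + 2) * (u ^ (k + 2) * p1) ^ 2 := by
      rw [hφH]
      ring
    rw [t1, ← A0, hHT]
    linear_combination ((k + 3) * l' * g0) * f2 - (k + 2) *
      (D * (u ^ (k + 2) * p1) + l' * (u * g1 - (k + 3) * c' * g0)) * f1
  have f3' : C ((a * d - b * c) ^ 2) * hs a b c d (2 * k + 4) ((hP G).map σ) =
      C (l ^ 2) * U ^ 2 * hP G := by
    apply hinj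
    simp only [map_mul, map_pow, aeval_C, hUT, A3, ← hD, hl']
    exact f3
  have f3d := congrArg derivative f3'
  simp only [derivative_mul, derivative_C, derivative_pow, dU, zero_mul, zero_add] at f3d
  have f3e := congrArg (aeval T) f3d
  simp only [map_add, map_mul, map_pow, aeval_C, hUT, ← hD, hl', hc', Nat.cast_ofNat,
    map_ofNat] at f3e
  generalize aeval T (derivative (hs a b c d (2 * k + 4) (map σ (hP G)))) = Q3 at *
  generalize aeval T (derivative (hP G)) = h1 at *
  generalize aeval T (hP G) = h0 at *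
  have f4 : D ^ 3 * (u ^ (2 * k + 3) * φ h1) =
      l' ^ 2 * u ^ 2 * (u * h1 - (2 * k + 2) * c' * h0) := by
    linear_combination (-D ^ 2) * e3 + u * f3e - (2 * k + 4) * c' * f3
  have f5 : D ^ 3 * u ^ (3 * k + 6) * φ (aeval T (wP G)) = l' ^ 3 * u ^ 3 * aeval T (wP G) := by
    have t1 : D ^ 3 * u ^ (3 * k + 6) * φ (aeval T (wP G)) =
        (k + 3) * (D ^ 3 * (u ^ (2 * k + 3) * φ h1)) * (u ^ (k + 3) * p0) -
        (2 * k + 2) * (D ^ 2 * (u ^ (2 * k + 4) * φ h0)) * (D * (u ^ (k + 2) * p1)) := by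
      rw [hφW]
      ring
    rw [t1, ← A0, f4, f3, f1, hWT]
    ring
  have hne : D ^ 6 * u ^ (6 * k + 12) ≠ 0 := mul_ne_zero (pow_ne_zero _ hD0) (pow_ne_zero _ hu0)
  apply mul_left_cancel₀ hne
  calc D ^ 6 * u ^ (6 * k + 12) * (φ (aeval T (wP G)) ^ 2 * h0 ^ 3)
      = (D ^ 3 * u ^ (3 * k + 6) * φ (aeval T (wP G))) ^ 2 * h0 ^ 3 := by ring
    _ = aeval T (wP G) ^ 2 * (l' ^ 2 * u ^ 2 * h0) ^ 3 := by rw [f5]; ring
    _ = aeval T (wP G) ^ 2 * (D ^ 2 * (u ^ (2 * k + 4) * φ h0)) ^ 3 := by rw [f3]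
    _ = D ^ 6 * u ^ (6 * k + 12) * (aeval T (wP G) ^ 2 * φ h0 ^ 3) := by ring

theorem hess_inv {L : Type u} [Field L] {M : Type v} [Field M] [Algebra L M] (T : M)
    (hT : Transcendental L T) (σ : L →+* L) (φ : M →+* M)
    (hφ : ∀ l, φ (algebraMap L M l) = algebraMap L M (σ l)) (a b c d : L)
    (hΔ : a * d - b * c ≠ 0)
    (hφT : φ T * (algebraMap L M c * T + algebraMap L M d) =
      algebraMap L M a * T + algebraMap L M b) (G : L[X]) (hN : 3 ≤ G.natDegree) (l : L)
    (hG : hs a b c d G.natDegree (G.map σ) = C l * G) :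
    φ (aeval T (wP G)) ^ 2 * aeval T (hP G) ^ 3 = aeval T (wP G) ^ 2 * φ (aeval T (hP G)) ^ 3 := by
  obtain ⟨k, hk⟩ : ∃ k, G.natDegree = k + 3 := ⟨G.natDegree - 3, by omega⟩
  rw [hk] at hG
  exact hess_inv_aux T hT σ φ hφ a b c d hΔ hφT G k hk l hG

end Pool.Agent.H51.TT
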