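import Pool.Agent.H51.TT.Hs

/-!
# Module HesB: the absolute invariant of a squarefree form of degree at least 3 is not constant

PROOF.  Pass to the algebraic closure `F` of `L` (`hP`, `wP` commute with `Polynomial.map`;
`G.map` is still squarefree: `G.Separable` is stable under `map`, `PerfectField`/char 0 gives
separable iff squarefree).  `N = natDegree G ≥ 3`, `H = hP G`, `W = wP G`.
At a root `α` of `G` (exists as `N ≥ 1`): `G'(α) ≠ 0`, `H(α) = -(N-1) G'(α)² ≠ 0`; so `H ≠ 0`, and
`W(α) = -(2N-4) H(α) G'(α) ≠ 0`; so `W ≠ 0`, and in `W² = C κ H³` we have `κ ≠ 0`.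
Let `β` be a root of `H`, of multiplicity `e ≥ 1`.  Then `G(β) ≠ 0` (at roots of `G`, `H ≠ 0`).
`H'` has multiplicity `e - 1` exactly at `β` (`Polynomial.derivative_rootMultiplicity_of_root`,
char 0), so `N H' G` has multiplicity exactly `e - 1` and `(2N-4) H G'` at least `e` (or is `0`):
`W` has multiplicity exactly `e - 1`.  So `2 (e - 1) = 3 e`, impossible.  Hence `H` has no root, is
a nonzero constant, `H' = 0`, `W = -(2N-4) H G'`, and `W² = C κ H³` is constant although
`natDegree G' = N - 1 ≥ 2`: contradiction.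
-/

set_option autoImplicit false

open Polynomial

namespace Pool.Agent.H51.TT

universe u

private theorem hP_map {L F : Type u} [Field L] [Field F] (ι : L →+* F) (G : L[X]) :
    hP (G.map ι) = (hP G).map ι := by
  unfold hP
  simp only [Polynomial.map_sub, Polynomial.map_mul, Polynomial.map_pow, derivative_map,
    natDegree_map, map_natCast, map_sub, map_one, Polynomial.map_natCast, Polynomial.map_one]

private theorem wP_map {L F : Type u} [Field L] [Field F] (ι : L →+* F) (G : L[X]) :
    wP (G.map ι) = (wP G).map ι := by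
  unfold wP
  rw [hP_map]
  simp only [Polynomial.map_sub, Polynomial.map_mul, derivative_map, natDegree_map, map_natCast,
    map_sub, map_mul, map_ofNat, Polynomial.map_natCast, Polynomial.map_ofNat]

private theorem hes_core {F : Type u} [Field F] [IsAlgClosed F] [CharZero F] (G : F[X])
    (hN : 3 ≤ G.natDegree) (hG : G.Separable) :
    hP G ≠ 0 ∧ ∀ κ : F, wP G ^ 2 ≠ C κ * hP G ^ 3 := by
  obtain ⟨N, hNN⟩ : ∃ N, G.natDegree = N := ⟨_, rfl⟩
  have hN0 : (N : F) ≠ 0 := by
    rw [Nat.cast_ne_zero]
    omega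
  have hN1 : (N : F) - 1 ≠ 0 := by
    rw [sub_ne_zero]
    exact_mod_cast (by omega : N ≠ 1)
  have hN2 : 2 * (N : F) - 4 ≠ 0 := by
    rw [sub_ne_zero]
    exact_mod_cast (by omega : 2 * N ≠ 4)
  have hdeg : G.degree ≠ 0 := by
    intro h
    have h1 := natDegree_eq_zero_iff_degree_le_zero.2 h.le
    omega
  -- values at the roots of `G`
  have hder : ∀ α, G.eval α = 0 → (derivative G).eval α ≠ 0 := by
    intro α hα
    have := hG.aeval_derivative_ne_zero (x := α) (by simpa using hα)
    simpa using this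
  have hHα : ∀ α, G.eval α = 0 →
      (hP G).eval α = -((N : F) - 1) * (derivative G).eval α ^ 2 := by
    intro α hα
    unfold hP
    rw [hNN]
    simp only [eval_sub, eval_mul, eval_pow, eval_C, hα]
    ring
  have hH0 : ∀ α, G.eval α = 0 → (hP G).eval α ≠ 0 := by
    intro α hα
    rw [hHα α hα]
    exact mul_ne_zero (neg_ne_zero.2 hN1) (pow_ne_zero _ (hder α hα))
  have hWα : ∀ α, G.eval α = 0 →
      (wP G).eval α = -(2 * (N : F) - 4) * (hP G).eval α * (derivative G).eval α := by
    intro α hα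
    unfold wP
    rw [hNN]
    simp only [eval_sub, eval_mul, eval_C, hα]
    ring
  obtain ⟨α, hα⟩ := IsAlgClosed.exists_root G hdeg
  have hα' : G.eval α = 0 := hα
  have hH : hP G ≠ 0 := by
    intro h
    exact hH0 α hα' (by rw [h, eval_zero])
  refine ⟨hH, fun κ hκ => ?_⟩
  -- `H` has no roots
  have hnr : ∀ β, (hP G).eval β ≠ 0 := by
    intro β hβ
    have hGβ : G.eval β ≠ 0 := fun h => hH0 β h hβ
    obtain ⟨Q, hQ, hQd⟩ := exists_eq_pow_rootMultiplicity_mul_and_not_dvd (hP G) hH β
    have hpos : 0 < rootMultiplicity β (hP G) := (rootMultiplicity_pos hH).2 hβ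
    obtain ⟨k, hk⟩ : ∃ k, rootMultiplicity β (hP G) = k + 1 := ⟨_, (Nat.succ_pred_eq_of_pos hpos).symm⟩
    rw [hk] at hQ
    have hQβ : Q.eval β ≠ 0 := fun h => hQd (dvd_iff_isRoot.2 h)
    have hd : derivative (hP G) = (X - C β) ^ k * (C ((k : F) + 1) * Q + (X - C β) * derivative Q) := by
      rw [hQ, derivative_mul, derivative_pow]
      simp only [derivative_sub, derivative_X, derivative_C, sub_zero, mul_one, Nat.cast_add,
        Nat.cast_one, Nat.add_sub_cancel, C_add, C_1, map_natCast]
      ring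
    have hW : wP G = (X - C β) ^ k * (C (N : F) * (C ((k : F) + 1) * Q + (X - C β) * derivative Q) * G -
        C (2 * (N : F) - 4) * (X - C β) * Q * derivative G) := by
      have h1 : wP G = C (N : F) * derivative (hP G) * G -
          C (2 * (N : F) - 4) * hP G * derivative G := by
        unfold wP
        rw [hNN]
      rw [h1, hd, hQ]
      ring
    have h2 : (X - C β : F[X]) ^ (2 * k) * (C (N : F) * (C ((k : F) + 1) * Q + (X - C β) * derivative Q) * G -
        C (2 * (N : F) - 4) * (X - C β) * Q * derivative G) ^ 2 =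
        (X - C β) ^ (2 * k) * (C κ * (X - C β) ^ (k + 3) * Q ^ 3) := by
      calc _ = wP G ^ 2 := by rw [hW]; ring
        _ = C κ * hP G ^ 3 := hκ
        _ = _ := by rw [hQ]; ring
    have h3 := mul_left_cancel₀ (pow_ne_zero _ (X_sub_C_ne_zero β)) h2
    have h4 := congrArg (eval β) h3
    simp only [eval_pow, eval_sub, eval_mul, eval_add, eval_C, eval_X, sub_self, zero_mul,
      mul_zero, add_zero, sub_zero, zero_pow (Nat.succ_ne_zero _)] at h4
    have h5 : ((k : F) + 1) ≠ 0 := by exact_mod_cast Nat.succ_ne_zero k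
    have h6 := pow_eq_zero_iff (two_ne_zero) |>.1 h4
    exact mul_ne_zero (mul_ne_zero hN0 (mul_ne_zero h5 hQβ)) hGβ h6
  have hdH : (hP G).degree = 0 := by
    by_contra h
    obtain ⟨β, hβ⟩ := IsAlgClosed.exists_root (hP G) h
    exact hnr β hβ
  have hHC := eq_C_of_degree_eq_zero hdH
  set h0 : F := (hP G).coeff 0 with hh0
  have hh : h0 ≠ 0 := by
    intro h
    rw [h, C_0] at hHC
    exact hH hHC
  have hW : wP G = C (-(2 * (N : F) - 4) * h0) * derivative G := by
    unfold wP
    rw [hNN, hHC, derivative_C]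
    simp only [mul_zero, zero_mul, zero_sub, C_mul, C_neg]
    ring
  have hc : -(2 * (N : F) - 4) * h0 ≠ 0 := mul_ne_zero (neg_ne_zero.2 hN2) hh
  have hdG : (derivative G).natDegree = N - 1 := by
    have h1 := degree_derivative (p := G) (by omega)
    rw [hNN] at h1
    exact natDegree_eq_of_degree_eq_some h1
  have h7 : (wP G ^ 2).natDegree = 2 * (N - 1) := by
    rw [natDegree_pow, hW, natDegree_C_mul hc, hdG]
  have h8 : (C κ * hP G ^ 3).natDegree = 0 := by
    rw [hHC, ← C_pow, ← C_mul, natDegree_C]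
  rw [hκ, h8] at h7
  omega

theorem hess_nonconst {L : Type u} [Field L] [CharZero L] (G : L[X]) (hN : 3 ≤ G.natDegree)
    (hG : Squarefree G) : hP G ≠ 0 ∧ ∀ κ : L, wP G ^ 2 ≠ C κ * hP G ^ 3 := by
  have hs : G.Separable := PerfectField.separable_iff_squarefree.2 hG
  obtain ⟨h1, h2⟩ := hes_core (G.map (algebraMap L (AlgebraicClosure L)))
    (by rwa [natDegree_map]) hs.map
  rw [hP_map] at h1 h2
  rw [wP_map] at h2
  refine ⟨fun h => h1 (by rw [h, Polynomial.map_zero]), fun κ hκ => ?_⟩
  refine h2 (algebraMap L (AlgebraicClosure L) κ) ?_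
  rw [← Polynomial.map_pow, hκ, Polynomial.map_mul, Polynomial.map_pow, map_C]

end Pool.Agent.H51.TT
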