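import Pool.Agent.H51.TT.Defs

/-!
# Homogeneous substitution of a Moebius transformation

`hs a b c d n F = ∑_{j ≤ n} F_j (a X + b)^j (c X + d)^{n - j}`.
-/

set_option autoImplicit false

open Polynomial

namespace Pool.Agent.H51.TT

universe u v

variable {L : Type u} [Field L]

/-- `∑_{j ≤ n} F_j (a X + b)^j (c X + d)^{n - j}`. -/
noncomputable def hs (a b c d : L) (n : ℕ) (F : L[X]) : L[X] :=
  ∑ j ∈ Finset.range (n + 1), C (F.coeff j) * (C a * X + C b) ^ j * (C c * X + C d) ^ (n - j)

/-- The Hessian `N G G'' - (N - 1) G'^2`. -/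
noncomputable def hP (G : L[X]) : L[X] :=
  C (G.natDegree : L) * G * derivative (derivative G) -
    C ((G.natDegree : L) - 1) * derivative G ^ 2

/-- The covariant `N H' G - (2 N - 4) H G'`. -/
noncomputable def wP (G : L[X]) : L[X] :=
  C (G.natDegree : L) * derivative (hP G) * G -
    C (2 * (G.natDegree : L) - 4) * hP G * derivative G

end Pool.Agent.H51.TT
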