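import Pool.Agent.H51.TT.Hs

/-!
# Module HsD: rules for the homogeneous substitution

PROOF of `hs_derivative`: termwise, `u = C c * X + C d`, `v = C a * X + C b`, `j ≤ n`:
`u * (v^j u^(n-j))' = j a v^(j-1) u^(n-j+1) + (n-j) c v^j u^(n-j)
 = n c v^j u^(n-j) + j v^(j-1) u^(n-j) (a u - c v)` and `a u - c v = a d - b c` (a constant).  The
coefficients of `derivative F` are `(j+1) F_{j+1}`; reindex.

PROOF of `hs_aeval`: `φ (aeval T F) = ∑ σ(F_j) (φ T)^j`, multiply by `(c T + d)^n` and use
`φ T * (c T + d) = a T + b`.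
-/

set_option autoImplicit false

open Polynomial

namespace Pool.Agent.H51.TT

universe u v

variable {L : Type u} [Field L]

theorem hs_derivative (a b c d : L) {n : ℕ} (hn : 1 ≤ n) (F : L[X]) (hF : F.natDegree ≤ n) :
    (C c * X + C d) * derivative (hs a b c d n F) =
      C (n * c) * hs a b c d n F + C (a * d - b * c) * hs a b c d (n - 1) (derivative F) := by
  have _ := hF
  obtain ⟨n, rfl⟩ : ∃ m, n = m + 1 := ⟨n - 1, by omega⟩
  have e : n + 1 - 1 = n := by omega
  rw [e]
  unfold hs
  set A : L[X] := C a * X + C b with hAdef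
  set B : L[X] := C c * X + C d with hBdef
  have hA : derivative A = C a := by simp [hAdef]
  have hB : derivative B = C c := by simp [hBdef]
  have hd : C a * B - C c * A = C (a * d - b * c) := by
    rw [hAdef, hBdef, C_sub, C_mul, C_mul]; ring
  have main : C (a * d - b * c) * ∑ j ∈ Finset.range (n + 1),
        C ((derivative F).coeff j) * A ^ j * B ^ (n - j) =
      B * derivative (∑ j ∈ Finset.range (n + 1 + 1), C (F.coeff j) * A ^ j * B ^ (n + 1 - j))
        - C (((n + 1 : ℕ) : L) * c) *
          ∑ j ∈ Finset.range (n + 1 + 1), C (F.coeff j) * A ^ j * B ^ (n + 1 - j) := by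
    rw [derivative_sum, Finset.mul_sum, Finset.mul_sum, Finset.mul_sum,
      ← Finset.sum_sub_distrib, Finset.sum_range_succ' _ (n + 1)]
    have h0 : B * derivative (C (F.coeff 0) * A ^ 0 * B ^ (n + 1 - 0)) -
        C (((n + 1 : ℕ) : L) * c) * (C (F.coeff 0) * A ^ 0 * B ^ (n + 1 - 0)) = 0 := by
      simp only [pow_zero, mul_one, Nat.sub_zero, derivative_mul, derivative_C, zero_mul, zero_add,
        derivative_pow, hB, Nat.add_sub_cancel]
      rw [C_mul]
      ring
    rw [h0, add_zero]
    refine Finset.sum_congr rfl ?_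
    intro j hj
    have hj' : j ≤ n := Nat.lt_succ_iff.1 (Finset.mem_range.1 hj)
    obtain ⟨m, rfl⟩ := Nat.exists_eq_add_of_le hj'
    have e1 : j + m + 1 - (j + 1) = m := by omega
    have e2 : j + m - j = m := by omega
    rw [e1, e2, coeff_derivative, ← hd]
    simp only [derivative_mul, derivative_C, zero_mul, zero_add, derivative_pow, hA, hB,
      Nat.add_sub_cancel, map_mul, map_add, map_natCast, map_one]
    rcases m with _ | m
    · simp only [pow_zero, Nat.cast_zero, zero_mul, mul_zero, add_zero, mul_one]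
      push_cast
      ring
    · push_cast
      ring
  rw [main]
  ring

theorem hs_aeval {M : Type v} [CommRing M] [Algebra L M] (T T' : M) (σ : L →+* L) (φ : M →+* M)
    (hφ : ∀ l, φ (algebraMap L M l) = algebraMap L M (σ l)) (a b c d : L) (hT' : φ T = T')
    (hφT : T' * (algebraMap L M c * T + algebraMap L M d) =
      algebraMap L M a * T + algebraMap L M b) (n : ℕ) (F : L[X]) (hF : F.natDegree ≤ n) :
    aeval T (hs a b c d n (F.map σ)) =
      (algebraMap L M c * T + algebraMap L M d) ^ n * φ (aeval T F) := by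
  unfold hs
  rw [map_sum, aeval_eq_sum_range' (Nat.lt_succ_of_le hF), map_sum, Finset.mul_sum]
  refine Finset.sum_congr rfl ?_
  intro i hi
  have hi' : i ≤ n := Nat.lt_succ_iff.1 (Finset.mem_range.1 hi)
  rw [map_mul, map_mul, aeval_C, map_pow, map_pow, Algebra.smul_def, map_mul, map_pow, hφ, hT',
    coeff_map]
  have hA : aeval T (C a * X + C b) = algebraMap L M a * T + algebraMap L M b := by simp
  have hB : aeval T (C c * X + C d) = algebraMap L M c * T + algebraMap L M d := by simp
  rw [hA, hB, ← hφT, mul_pow]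
  have : (algebraMap L M c * T + algebraMap L M d) ^ n =
      (algebraMap L M c * T + algebraMap L M d) ^ i *
        (algebraMap L M c * T + algebraMap L M d) ^ (n - i) := by
    rw [← pow_add]; congr 1; omega
  rw [this]
  ring

theorem hs_natDegree (a b c d : L) (n : ℕ) (F : L[X]) : (hs a b c d n F).natDegree ≤ n := by
  unfold hs
  apply natDegree_sum_le_of_forall_le
  intro j hj
  have hj' : j ≤ n := Nat.lt_succ_iff.1 (Finset.mem_range.1 hj)
  have h1 : (C a * X + C b).natDegree ≤ 1 := natDegree_linear_le
  have h2 : (C c * X + C d).natDegree ≤ 1 := natDegree_linear_le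
  have h3 : ((C a * X + C b) ^ j).natDegree ≤ j := by
    refine natDegree_pow_le.trans ?_
    calc j * (C a * X + C b).natDegree ≤ j * 1 := Nat.mul_le_mul_left _ h1
      _ = j := mul_one j
  have h4 : ((C c * X + C d) ^ (n - j)).natDegree ≤ n - j := by
    refine natDegree_pow_le.trans ?_
    calc (n - j) * (C c * X + C d).natDegree ≤ (n - j) * 1 := Nat.mul_le_mul_left _ h2
      _ = n - j := mul_one _
  have h5 : (C (F.coeff j) * (C a * X + C b) ^ j).natDegree ≤ j :=
    (natDegree_C_mul_le _ _).trans h3
  refine natDegree_mul_le.trans ?_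
  omega

end Pool.Agent.H51.TT
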