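import Pool.Agent.H51.TT.Per

/-!
# Module Kru: almost periodicity over Noetherian local domains

PROOF.  Let `M` be the maximal ideal of `A`.  Fix `N ≥ 1`.  `S = A ⧸ M ^ N` is finite
(`Ideal.finite_quotient_pow`, `M` is finitely generated and `A ⧸ M` is finite: it is
`IsLocalRing.ResidueField A` by definition), nontrivial and local
(`IsLocalRing.of_surjective'`).  The image of `x` in `S` is an orbit of `T.map (mk)`
(`Tow.Orb.map`), with `W` units (`pm_W`, `tv_map`) and differences `x (t + r) i - x t i` in the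
maximal ideal (image of `M` consists of nonunits: nilpotent elements).  `per_finite` gives
`L > 0` with `x (t + L) i - x t i ∈ M ^ N` for all `t` and `i < m`.  Hence
`mv (x (t + L)) g - mv (x t) g ∈ M ^ N` (apply `mv_map` to the quotient map and `mv_congr`), so
`mv (x (t + j L)) g - mv (x t) g ∈ M ^ N` for all `j`.  Choose `j` with `t + j L ≥ t₀(N)`: then
`mv (x t) g ∈ M ^ N`.  This holds for every `N`, so by Krull's intersection theorem
(`Ideal.iInf_pow_eq_bot_of_isLocalRing` or `_of_isDomain`, `M ≠ ⊤`) `mv (x t) g = 0`.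
-/

set_option autoImplicit false

open Polynomial

namespace Pool.Agent.H51.TT

universe u

theorem eq_zero_of_tendsto {A : Type u} [CommRing A] [IsDomain A] [IsLocalRing A]
    [IsNoetherianRing A] [Finite (IsLocalRing.ResidueField A)] (T : Tow A) (m : ℕ)
    (x : ℕ → ℕ → A) (hx : T.Orb m x) (hW : ∀ t, ∀ i < m, IsUnit (tv (x t) (T.W i))) {r : ℕ}
    (hr : 0 < r) (hper : ∀ t, ∀ i < m, x (t + r) i - x t i ∈ IsLocalRing.maximalIdeal A)
    (g : MvPolynomial (Fin m) A)
    (h : ∀ N : ℕ, ∃ t₀, ∀ t ≥ t₀, mv (x t) g ∈ (IsLocalRing.maximalIdeal A) ^ N) :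
    ∀ t, mv (x t) g = 0 := by
  intro t
  have key : ∀ N : ℕ, mv (x t) g ∈ (IsLocalRing.maximalIdeal A) ^ N := by
    intro N
    rcases Nat.eq_zero_or_pos N with h0 | hN
    · rw [h0, pow_zero, Ideal.one_eq_top]; exact Submodule.mem_top
    have hle : (IsLocalRing.maximalIdeal A) ^ N ≤ IsLocalRing.maximalIdeal A :=
      Ideal.pow_le_self hN.ne'
    have hne : (IsLocalRing.maximalIdeal A) ^ N ≠ ⊤ := by
      intro h1
      rw [h1] at hle
      exact (IsLocalRing.maximalIdeal.isMaximal A).ne_top (top_le_iff.1 hle)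
    have hnt : Nontrivial (A ⧸ (IsLocalRing.maximalIdeal A) ^ N) :=
      Ideal.Quotient.nontrivial_iff.2 hne
    have hloc : IsLocalRing (A ⧸ (IsLocalRing.maximalIdeal A) ^ N) :=
      IsLocalRing.of_surjective' (Ideal.Quotient.mk _) Ideal.Quotient.mk_surjective
    have hf0 : Finite (A ⧸ IsLocalRing.maximalIdeal A) :=
      (inferInstance : Finite (IsLocalRing.ResidueField A))
    have hfin : Finite (A ⧸ (IsLocalRing.maximalIdeal A) ^ N) :=
      Ideal.finite_quotient_pow (IsNoetherian.noetherian _) N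
    set f : A →+* A ⧸ (IsLocalRing.maximalIdeal A) ^ N := Ideal.Quotient.mk _ with hf
    have hmax : ∀ y ∈ IsLocalRing.maximalIdeal A,
        f y ∈ IsLocalRing.maximalIdeal (A ⧸ (IsLocalRing.maximalIdeal A) ^ N) := by
      intro y hy
      rw [IsLocalRing.mem_maximalIdeal]
      have h2 : IsNilpotent (f y) := by
        refine ⟨N, ?_⟩
        rw [← map_pow, hf, Ideal.Quotient.eq_zero_iff_mem]
        exact Ideal.pow_mem_pow hy N
      exact fun hu => (h2.not_isUnit) hu
    obtain ⟨L, hL, hper2⟩ := per_finite (T.map f) m (fun t i => f (x t i)) (hx.map f)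
      (fun t i hi => by
        rw [pm_W, tv_map]
        exact (hW t i hi).map f) hr
      (fun t i hi => by
        rw [← map_sub]
        exact hmax _ (hper t i hi))
    have hstep : ∀ s, f (mv (x (s + L)) g) = f (mv (x s) g) := by
      intro s
      rw [← mv_map, ← mv_map]
      exact mv_congr (fun i hi => hper2 s i hi) _
    have hmul : ∀ j s, f (mv (x (s + j * L)) g) = f (mv (x s) g) := by
      intro j
      induction j with
      | zero => intro s; simp
      | succ j ih =>
        intro s
        rw [show s + (j + 1) * L = s + j * L + L by ring, hstep, ih]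
    obtain ⟨t₀, ht₀⟩ := h N
    have h3 := ht₀ (t + t₀ * L) (by nlinarith)
    rw [← Ideal.Quotient.eq_zero_iff_mem] at h3 ⊢
    have h4 := hmul t₀ t
    rw [hf] at h4
    rw [← h4, h3]
  have h5 : mv (x t) g ∈ ⨅ N : ℕ, (IsLocalRing.maximalIdeal A) ^ N := by
    rw [Submodule.mem_iInf]
    exact key
  rw [Ideal.iInf_pow_eq_bot_of_isLocalRing _ (IsLocalRing.maximalIdeal.isMaximal A).ne_top] at h5
  exact (Submodule.mem_bot A).1 h5

end Pool.Agent.H51.TT
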