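import Pool.Agent.H51.TT.Defs
import Pool.Agent.H71.ZD.HtBin

/-!
# Module LA0: heights of vectors of polynomial values

PROOF.  Induction on the polynomials is awkward for vectors; use: let `D` be a bound of all
`totalDegree (p a)`.  Homogenise: with `y : Option (Fin j) → L`, `y none = 1`, `y (some i) = x i`,
`p a (x) = (hmg D (p a))(y)` (`Pool.Agent.H71.ZD.hmg`, `eval_deh`, `deh_hmg`, in
`Pool/Agent/H71/ZD/Trop2.lean`), and `Height.logHeight_eval_le'` gives
`logHeight (values) ≤ C + D * logHeight y`.  Finally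
`logHeight y ≤ ∑ i, logHeight₁ (x i)`: the vector `y` is a subvector (`logHeight_comp_le`) of the
product vector `∏_i (1 or x_i)` indexed by `Fin j → Fin 2` — or by induction on `j` with
`logHeight_fun_mul_eq` for two factors.
-/

set_option autoImplicit false

open Polynomial Height

namespace Pool.Agent.H51.TT

universe u

theorem values_bound {L : Type u} [Field L] [NumberField L] {j : ℕ} {ι : Type} [Fintype ι]
    (p : ι → MvPolynomial (Fin j) L) :
    ∃ A : ℝ, 0 ≤ A ∧ ∀ x : ℕ → L, logHeight (fun a => mv x (p a)) ≤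
      A * (1 + ∑ l ∈ Finset.range j, logHeight₁ (x l)) := by
  classical
  set S : Finset (Fin j →₀ ℕ) := Finset.univ.biUnion fun a : ι => (p a).support with hS
  obtain ⟨D, hD⟩ : ∃ D : ℕ, ∀ s ∈ S, ∀ i, s i ≤ D := by
    refine ⟨S.sup fun s => Finset.univ.sup fun i => s i, fun s hs i => ?_⟩
    have h1 : s i ≤ Finset.univ.sup fun i => s i :=
      Finset.le_sup (f := fun i => s i) (Finset.mem_univ i)
    exact h1.trans (Finset.le_sup (f := fun s : Fin j →₀ ℕ => Finset.univ.sup fun i => s i) hs)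
  obtain ⟨C, hC⟩ := Pool.Agent.H71.ZD.lin_bound (K := L) (ι := S) (ι' := ι)
    (fun x => (p x.1).coeff (x.2 : Fin j →₀ ℕ))
  refine ⟨max C 0 + D, by positivity, fun x => ?_⟩
  set z : S → L := fun s => ∏ i : Fin j, x i ^ (s : Fin j →₀ ℕ) i with hz
  have hval : (fun a => mv x (p a)) = fun a => ∑ s : S, (p a).coeff (s : Fin j →₀ ℕ) * z s := by
    funext a
    unfold mv
    rw [MvPolynomial.eval_eq']
    have h1 : ∑ s : S, (p a).coeff (s : Fin j →₀ ℕ) * z s =
        ∑ s ∈ S, (p a).coeff s * ∏ i : Fin j, x i ^ s i := by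
      rw [← Finset.sum_coe_sort S]
    rw [h1]
    apply Finset.sum_subset
    · intro s hs
      rw [hS, Finset.mem_biUnion]
      exact ⟨a, Finset.mem_univ _, hs⟩
    · intro s _ hs
      rw [MvPolynomial.notMem_support_iff.mp hs, zero_mul]
  have h1 : logHeight (fun a => mv x (p a)) ≤ C + logHeight z := by
    rw [hval]
    exact hC z
  set w : (i : Fin j) → Fin (D + 1) → L := fun i e => x i ^ (e : ℕ) with hw
  have hw0 : ∀ i, w i ≠ 0 := by
    intro i h
    have := congrFun h 0
    simp [hw] at this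
  have hzw : z = (fun I : (i : Fin j) → Fin (D + 1) => ∏ i, w i (I i)) ∘
      (fun s : S => fun i => (⟨(s : Fin j →₀ ℕ) i,
        Nat.lt_succ_of_le (hD s s.2 i)⟩ : Fin (D + 1))) := by
    funext s
    rfl
  have h2 : logHeight z ≤ ∑ i, logHeight (w i) := by
    rw [hzw]
    refine (logHeight_comp_le _ _).trans ?_
    rw [logHeight_fun_prod_eq hw0]
  have h3 : ∀ i, logHeight (w i) ≤ D * logHeight₁ (x i) := by
    intro i
    have h4 : w i = Pool.Agent.H71.ZD.mono D ![1, x i] := by
      funext e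
      simp [hw, Pool.Agent.H71.ZD.mono]
    have h5 : (![1, x i] : Fin 2 → L) ≠ 0 := by
      intro h
      have := congrFun h 0
      simp at this
    rw [h4]
    refine (Pool.Agent.H71.ZD.mono_upper D h5).trans ?_
    rw [logHeight₁_eq_logHeight, logHeight_swap]
  have h6 : ∑ i, logHeight (w i) ≤ D * ∑ l ∈ Finset.range j, logHeight₁ (x l) := by
    rw [Finset.sum_range, Finset.mul_sum]
    exact Finset.sum_le_sum fun i _ => h3 i
  have h7 : 0 ≤ ∑ l ∈ Finset.range j, logHeight₁ (x l) :=
    Finset.sum_nonneg fun l _ => zero_le_logHeight₁ _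
  have h8 : C ≤ max C 0 := le_max_left _ _
  have h9 : 0 ≤ max C 0 := le_max_right _ _
  have h10 : (0 : ℝ) ≤ D := Nat.cast_nonneg _
  nlinarith [mul_nonneg h9 h7]

end Pool.Agent.H51.TT
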