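import Pool.Agent.H51.TT.Defs
import Pool.Agent.H51.TT.LA0

/-!
# Module LA: growth of heights along orbits of triangular maps

`logHeight₁ a = logHeight ![a, 1]` (Mathlib: `Height.logHeight₁`).

PROOF of `step_bound`.  Let `D` bound the degrees in the top variable.  The vector
`![tv x R, tv x P]` is the image under a fixed linear map of the vector of all products
`c_α(x_0..x_{j-1}) * x_j ^ i` (`i ≤ D`), where `c_α` runs over the monomials of the (finitely many)
exponents occurring.  Write it as a bilinear expression in the vector `mono D ![1, x j]`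
(`Pool.Agent.H71.ZD.mono`, `mono_upper`: height `≤ D * logHeight ![1, x j]`) and the vector of the
coefficient values `(mv x (P.coeff i))_i, (mv x (R.coeff i))_i`; by `bilin_bound`
(`Pool/Agent/H71/ZD/HtBin.lean`) or `Height.logHeight_eval_le'` its height is at most
`C + D * logHeight₁ (x j) + (height of the vector of coefficient values)`, and the vector of
coefficient values consists of values of finitely many polynomials at `(x_0, …, x_{j-1})`: its
height is at most `A (1 + ∑_{l < j} logHeight₁ (x l))` by `values_bound` (module LA0).  Finally `logHeight₁ (p / r) = logHeight ![p, r]` for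
`r ≠ 0`.

PROOF of `tower_height_growth`.  `q = e + 1/2`.  Strong induction on `j < m`: with
`a n = logHeight₁ (x n j)`, `a (n+1) ≤ e * a n + A (1 + ∑_{l<j} C q^n) ≤ e * a n + C' q^n`, so
`a n ≤ (a 0 + 2 C') q^n` by induction on `n` (`e (a0 + 2C') + C' ≤ (e + 1/2)(a0 + 2C')`).  Take the
maximum of the finitely many constants.
-/

set_option autoImplicit false

open Polynomial Height

namespace Pool.Agent.H51.TT

open Pool.Agent.H71.ZD

universe u

theorem step_bound {L : Type u} [Field L] [NumberField L] {j : ℕ}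
    (P R : (MvPolynomial (Fin j) L)[X]) (D : ℕ) (hP : P.natDegree ≤ D) (hR : R.natDegree ≤ D) :
    ∃ A : ℝ, 0 ≤ A ∧ ∀ x : ℕ → L, tv x R ≠ 0 →
      logHeight₁ (tv x P / tv x R) ≤ D * logHeight₁ (x j) +
        A * (1 + ∑ l ∈ Finset.range j, logHeight₁ (x l)) := by
  classical
  set Q : Fin 2 → (MvPolynomial (Fin j) L)[X] := ![P, R] with hQ
  obtain ⟨A, hA0, hA⟩ := values_bound (L := L) (j := j) (ι := Fin 2 × Fin (D + 1))
    (fun a => (Q a.1).coeff a.2)
  obtain ⟨C, hC⟩ := bilin_bound (K := L) (ι₁ := Fin (D + 1)) (ι₂ := Fin 2 × Fin (D + 1))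
    (ι' := Fin 2) (fun a => if a.2.1 = a.2.2.2 ∧ a.2.2.1 = a.1 then 1 else 0)
  refine ⟨max C 0 + A, by positivity, fun x hx => ?_⟩
  have hval : ∀ k : Fin 2, ∑ i : Fin (D + 1) × (Fin 2 × Fin (D + 1)),
      (if i.1 = i.2.2 ∧ i.2.1 = k then (1 : L) else 0) *
        (mono D ![1, x j] i.1 * mv x ((Q i.2.1).coeff i.2.2)) = tv x (Q k) := by
    intro k
    have hdeg : (Q k).natDegree ≤ D := by
      fin_cases k
      · exact hP
      · exact hR
    rw [tv_eq_eval, Polynomial.eval_eq_sum_range' (n := D + 1)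
      (Nat.lt_succ_of_le (natDegree_map_le.trans hdeg)), Finset.sum_range,
      Fintype.sum_prod_type]
    refine Finset.sum_congr rfl fun i _ => ?_
    rw [Finset.sum_eq_single (k, i)]
    · simp [mono, coeff_map]
      ring
    · rintro ⟨b, i'⟩ _ hb
      have : ¬ (i = i' ∧ b = k) := by
        rintro ⟨rfl, rfl⟩
        exact hb rfl
      simp only [this, if_false, zero_mul]
    · intro h
      exact absurd (Finset.mem_univ _) h
  have hv0 : (fun a : Fin 2 × Fin (D + 1) => mv x ((Q a.1).coeff a.2)) ≠ 0 := by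
    intro h
    apply hx
    have h1 : tv x (Q 1) = 0 := by
      rw [← hval 1]
      refine Finset.sum_eq_zero fun i _ => ?_
      have := congrFun h i.2
      simp only [Pi.zero_apply] at this
      rw [this, mul_zero, mul_zero]
    exact h1
  have hw : (![1, x j] : Fin 2 → L) ≠ 0 := by
    intro h
    have := congrFun h 0
    simp at this
  have h1 := hC (mono D ![1, x j]) (fun a => mv x ((Q a.1).coeff a.2)) (mono_ne_zero hw) hv0
  have h2 : (fun k : Fin 2 => ∑ i : Fin (D + 1) × (Fin 2 × Fin (D + 1)),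
      (if i.1 = i.2.2 ∧ i.2.1 = k then (1 : L) else 0) *
        (mono D ![1, x j] i.1 * mv x ((Q i.2.1).coeff i.2.2))) = ![tv x P, tv x R] := by
    funext k
    rw [hval k]
    fin_cases k
    · rfl
    · rfl
  rw [h2] at h1
  rw [logHeight₁_div_eq_logHeight]
  have h3 : logHeight (mono D ![1, x j]) ≤ D * logHeight₁ (x j) := by
    refine (mono_upper D hw).trans ?_
    rw [logHeight₁_eq_logHeight, logHeight_swap]
  have h4 := hA x
  have h7 : 0 ≤ ∑ l ∈ Finset.range j, logHeight₁ (x l) :=
    Finset.sum_nonneg fun l _ => zero_le_logHeight₁ _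
  have h8 : C ≤ max C 0 := le_max_left _ _
  have h9 : 0 ≤ max C 0 := le_max_right _ _
  nlinarith [mul_nonneg h9 h7]

theorem growth_aux (a : ℕ → ℝ) (e K : ℝ) (he : 1 ≤ e) (h0 : 0 ≤ a 0)
    (h : ∀ n, a (n + 1) ≤ e * a n + K * (e + 1 / 2) ^ n) (n : ℕ) :
    a n ≤ (a 0 + 2 * K) * (e + 1 / 2) ^ n ∨ K < 0 := by
  by_cases hK : K < 0
  · exact Or.inr hK
  left
  push Not at hK
  induction n with
  | zero => simp; linarith
  | succ n ih =>
    have hq : 0 < (e + 1 / 2) ^ n := by positivity
    refine (h n).trans ?_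
    rw [pow_succ]
    have h1 : e * a n ≤ e * ((a 0 + 2 * K) * (e + 1 / 2) ^ n) :=
      mul_le_mul_of_nonneg_left ih (by linarith)
    nlinarith [mul_nonneg h0 hq.le]

theorem tower_height_growth {L : Type u} [Field L] [NumberField L] (T : Tow L) (m : ℕ)
    (x : ℕ → ℕ → L) (hx : T.Orb m x) (e : ℕ) (he : 1 ≤ e)
    (hd : ∀ j < m, (T.P j).natDegree ≤ e ∧ (T.R j).natDegree ≤ e) :
    ∃ C : ℝ, 0 < C ∧ ∀ n, ∀ j < m, logHeight₁ (x n j) ≤ C * ((e : ℝ) + 1 / 2) ^ n := by
  classical
  have he' : (1 : ℝ) ≤ e := by exact_mod_cast he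
  have key : ∀ j, j < m → ∃ C : ℝ, 0 ≤ C ∧ ∀ n, logHeight₁ (x n j) ≤
      C * ((e : ℝ) + 1 / 2) ^ n := by
    intro j
    induction j using Nat.strong_induction_on with
    | _ j ih =>
      intro hj
      have ih' : ∀ l, ∃ C : ℝ, 0 ≤ C ∧ (l < j → ∀ n, logHeight₁ (x n l) ≤
          C * ((e : ℝ) + 1 / 2) ^ n) := by
        intro l
        by_cases hl : l < j
        · obtain ⟨C, h0, h1⟩ := ih l hl (hl.trans hj)
          exact ⟨C, h0, fun _ => h1⟩
        · exact ⟨0, le_rfl, fun h => absurd h hl⟩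
      choose C hC0 hC using ih'
      obtain ⟨A, hA0, hA⟩ := step_bound (T.P j) (T.R j) e (hd j hj).1 (hd j hj).2
      set S : ℝ := ∑ l ∈ Finset.range j, C l with hS
      have hS0 : 0 ≤ S := Finset.sum_nonneg fun l _ => hC0 l
      have hstep : ∀ n, logHeight₁ (x (n + 1) j) ≤ e * logHeight₁ (x n j) +
          (A * (1 + S)) * ((e : ℝ) + 1 / 2) ^ n := by
        intro n
        have hu := (hx.unit n j hj).ne_zero
        have h1 : x (n + 1) j = tv (x n) (T.P j) / tv (x n) (T.R j) := by
          rw [eq_div_iff hu]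
          exact hx.step n j hj
        have h2 := hA (x n) hu
        rw [← h1] at h2
        refine h2.trans ?_
        have hq : (1 : ℝ) ≤ ((e : ℝ) + 1 / 2) ^ n := one_le_pow₀ (by linarith)
        have h3 : ∑ l ∈ Finset.range j, logHeight₁ (x n l) ≤ S * ((e : ℝ) + 1 / 2) ^ n := by
          rw [hS, Finset.sum_mul]
          exact Finset.sum_le_sum fun l hl => hC l (Finset.mem_range.mp hl) n
        have h4 : 1 + ∑ l ∈ Finset.range j, logHeight₁ (x n l) ≤
            (1 + S) * ((e : ℝ) + 1 / 2) ^ n := by linarith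
        have h5 := mul_le_mul_of_nonneg_left h4 hA0
        linarith
      refine ⟨logHeight₁ (x 0 j) + 2 * (A * (1 + S)), ?_, fun n => ?_⟩
      · have := zero_le_logHeight₁ (x 0 j)
        positivity
      · rcases growth_aux (fun n => logHeight₁ (x n j)) e (A * (1 + S)) he'
          (zero_le_logHeight₁ _) hstep n with h | h
        · exact h
        · exact absurd h (not_lt.mpr (by positivity))
  have key' : ∀ j, ∃ C : ℝ, 0 ≤ C ∧ (j < m → ∀ n, logHeight₁ (x n j) ≤
      C * ((e : ℝ) + 1 / 2) ^ n) := by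
    intro j
    by_cases hj : j < m
    · obtain ⟨C, h0, h1⟩ := key j hj
      exact ⟨C, h0, fun _ => h1⟩
    · exact ⟨0, le_rfl, fun h => absurd h hj⟩
  choose C hC0 hC using key'
  refine ⟨1 + ∑ j ∈ Finset.range m, C j, ?_, fun n j hj => ?_⟩
  · have := Finset.sum_nonneg (s := Finset.range m) fun j _ => hC0 j
    linarith
  · refine (hC j hj n).trans ?_
    have h1 : C j ≤ ∑ j ∈ Finset.range m, C j :=
      Finset.single_le_sum (fun i _ => hC0 i) (Finset.mem_range.mpr hj)
    have h2 : (0 : ℝ) ≤ ((e : ℝ) + 1 / 2) ^ n := by positivity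
    exact mul_le_mul_of_nonneg_right (by linarith) h2

end Pool.Agent.H51.TT
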