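import Pool.Agent.H51.TT.Defs

/-!
# The localisation of a subring of a field at a maximal ideal, inside the field
-/

set_option autoImplicit false

open Polynomial

namespace Pool.Agent.H51.TT

universe u

variable {k : Type u} [Field k]

/-- `{a / b : a, b ∈ B, b ∉ Q}`. -/
def lO (B : Subring k) (Q : Ideal B) [Q.IsPrime] : Subring k where
  carrier := {x | ∃ a b : B, b ∉ Q ∧ x * b = a}
  mul_mem' := by
    rintro x y ⟨a, b, hb, h⟩ ⟨a', b', hb', h'⟩
    refine ⟨a * a', b * b', fun h0 => ?_, ?_⟩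
    · rcases Ideal.IsPrime.mem_or_mem ‹_› h0 with h1 | h1
      · exact hb h1
      · exact hb' h1
    · push_cast
      rw [← h, ← h']; ring
  one_mem' := ⟨1, 1, fun h => (Ideal.IsPrime.ne_top ‹Q.IsPrime›) ((Ideal.eq_top_iff_one _).mpr h),
    by simp⟩
  add_mem' := by
    rintro x y ⟨a, b, hb, h⟩ ⟨a', b', hb', h'⟩
    refine ⟨a * b' + a' * b, b * b', fun h0 => ?_, ?_⟩
    · rcases Ideal.IsPrime.mem_or_mem ‹_› h0 with h1 | h1
      · exact hb h1
      · exact hb' h1
    · push_cast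
      rw [← h, ← h']; ring
  zero_mem' := ⟨0, 1, fun h => (Ideal.IsPrime.ne_top ‹Q.IsPrime›) ((Ideal.eq_top_iff_one _).mpr h),
    by simp⟩
  neg_mem' := by
    rintro x ⟨a, b, hb, h⟩
    exact ⟨-a, b, hb, by push_cast; rw [← h]; ring⟩

theorem mem_lO {B : Subring k} {Q : Ideal B} [Q.IsPrime] {x : k} :
    x ∈ lO B Q ↔ ∃ a b : B, b ∉ Q ∧ x * b = a := Iff.rfl

theorem le_lO (B : Subring k) (Q : Ideal B) [Q.IsPrime] : B ≤ lO B Q := fun x hx =>
  ⟨⟨x, hx⟩, 1, fun h => (Ideal.IsPrime.ne_top ‹Q.IsPrime›) ((Ideal.eq_top_iff_one _).mpr h),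
    by simp⟩

theorem lO_wd {B : Subring k} {Q : Ideal B} [Q.IsMaximal] {x : k} {a b a' b' : B}
    (h : x * b = a) (h' : x * b' = a') : Ideal.Quotient.mk Q a * Ideal.Quotient.mk Q b' =
      Ideal.Quotient.mk Q a' * Ideal.Quotient.mk Q b := by
  rw [← map_mul, ← map_mul]
  congr 1
  apply Subtype.ext
  push_cast
  rw [← h, ← h']; ring

open Classical in
/-- The residue map of the localisation. -/
noncomputable def lρ (B : Subring k) (Q : Ideal B) [hQ : Q.IsMaximal] : lO B Q →+* B ⧸ Q :=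
  letI : Field (B ⧸ Q) := Ideal.Quotient.field Q
  have key : ∀ (x : lO B Q) (a b : B), b ∉ Q → (x : k) * b = a →
      Ideal.Quotient.mk Q (mem_lO.mp x.2).choose /
        Ideal.Quotient.mk Q (mem_lO.mp x.2).choose_spec.choose =
      Ideal.Quotient.mk Q a / Ideal.Quotient.mk Q b := by
    intro x a b hb h
    have hs := (mem_lO.mp x.2).choose_spec.choose_spec
    rw [div_eq_div_iff]
    · exact lO_wd hs.2 h
    · exact fun h0 => hs.1 (Ideal.Quotient.eq_zero_iff_mem.mp h0)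
    · exact fun h0 => hb (Ideal.Quotient.eq_zero_iff_mem.mp h0)
  have h1Q : (1 : B) ∉ Q := fun h => hQ.ne_top ((Ideal.eq_top_iff_one _).mpr h)
  { toFun := fun x => Ideal.Quotient.mk Q (mem_lO.mp x.2).choose /
      Ideal.Quotient.mk Q (mem_lO.mp x.2).choose_spec.choose
    map_one' := by
      rw [key 1 1 1 h1Q (by simp)]; simp
    map_zero' := by
      rw [key 0 0 1 h1Q (by simp)]; simp
    map_mul' := by
      intro x y
      obtain ⟨a, b, hb, h⟩ := mem_lO.mp x.2
      obtain ⟨a', b', hb', h'⟩ := mem_lO.mp y.2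
      have hbb : b * b' ∉ Q := fun h0 => by
        rcases Ideal.IsPrime.mem_or_mem inferInstance h0 with h1 | h1
        · exact hb h1
        · exact hb' h1
      rw [key x a b hb h, key y a' b' hb' h', key (x * y) (a * a') (b * b') hbb
        (by push_cast; rw [← h, ← h']; ring), map_mul, map_mul, div_mul_div_comm]
    map_add' := by
      intro x y
      obtain ⟨a, b, hb, h⟩ := mem_lO.mp x.2
      obtain ⟨a', b', hb', h'⟩ := mem_lO.mp y.2
      have hbb : b * b' ∉ Q := fun h0 => by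
        rcases Ideal.IsPrime.mem_or_mem inferInstance h0 with h1 | h1
        · exact hb h1
        · exact hb' h1
      have e1 : Ideal.Quotient.mk Q b ≠ 0 := fun h0 => hb (Ideal.Quotient.eq_zero_iff_mem.mp h0)
      have e2 : Ideal.Quotient.mk Q b' ≠ 0 := fun h0 => hb' (Ideal.Quotient.eq_zero_iff_mem.mp h0)
      rw [key x a b hb h, key y a' b' hb' h', key (x + y) (a * b' + a' * b) (b * b') hbb
        (by push_cast; rw [← h, ← h']; ring), map_add, map_mul, map_mul, map_mul,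
        div_add_div _ _ e1 e2]
      congr 1
      ring }

theorem lρ_spec (B : Subring k) (Q : Ideal B) [hQ : Q.IsMaximal] (x : lO B Q) (a b : B)
    (h : (x : k) * b = a) : lρ B Q x * Ideal.Quotient.mk Q b = Ideal.Quotient.mk Q a := by
  let _ : Field (B ⧸ Q) := Ideal.Quotient.field Q
  have hs := (mem_lO.mp x.2).choose_spec.choose_spec
  have h0 : Ideal.Quotient.mk Q (mem_lO.mp x.2).choose_spec.choose ≠ 0 :=
    fun h0 => hs.1 (Ideal.Quotient.eq_zero_iff_mem.mp h0)
  change Ideal.Quotient.mk Q (mem_lO.mp x.2).choose /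
    Ideal.Quotient.mk Q (mem_lO.mp x.2).choose_spec.choose * Ideal.Quotient.mk Q b = _
  rw [div_mul_eq_mul_div, div_eq_iff h0]
  exact lO_wd hs.2 h

theorem lρ_coe (B : Subring k) (Q : Ideal B) [hQ : Q.IsMaximal] (b : B) :
    lρ B Q ⟨b, le_lO B Q b.2⟩ = Ideal.Quotient.mk Q b := by
  have h := lρ_spec B Q ⟨b, le_lO B Q b.2⟩ b 1 (by simp)
  rwa [map_one, mul_one] at h

theorem lρ_unit (B : Subring k) (Q : Ideal B) [hQ : Q.IsMaximal] (x : lO B Q)
    (h : lρ B Q x ≠ 0) : IsUnit x := by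
  obtain ⟨a, b, hb, hx⟩ := mem_lO.mp x.2
  have ha : a ∉ Q := by
    intro ha
    have h1 := lρ_spec B Q x a b hx
    rw [Ideal.Quotient.eq_zero_iff_mem.mpr ha] at h1
    rcases mul_eq_zero.mp h1 with h2 | h2
    · exact h h2
    · exact hb (Ideal.Quotient.eq_zero_iff_mem.mp h2)
  have ha0 : (a : k) ≠ 0 := by
    intro h0
    apply ha
    have : a = 0 := Subtype.ext h0
    rw [this]; exact Q.zero_mem
  have hb0 : (b : k) ≠ 0 := by
    intro h0
    apply hb
    have : b = 0 := Subtype.ext h0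
    rw [this]; exact Q.zero_mem
  have hx0 : (x : k) ≠ 0 := by
    intro h0; rw [h0, zero_mul] at hx; exact ha0 hx.symm
  refine ⟨⟨x, ⟨(x : k)⁻¹, mem_lO.mpr ⟨b, a, ha, ?_⟩⟩, ?_, ?_⟩, rfl⟩
  · rw [← hx, inv_mul_cancel_left₀ hx0]
  · exact Subtype.ext (mul_inv_cancel₀ hx0)
  · exact Subtype.ext (inv_mul_cancel₀ hx0)

end Pool.Agent.H51.TT
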