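import Pool.Agent.H51.TT.HsD

/-!
# Module Tri: three algebraic orbits of a Moebius cocycle

PROOF.  `I = {F ∈ L[X] : aeval (y e) F = 0 for e = 0, 1, 2}` is an ideal of the PID `L[X]`; it
contains the product of the three polynomials of `hbad`, so `I ≠ 0`; let `G` be a generator.
(1) `G` is squarefree: if `G = q * q * r` then `aeval (y e) (q * r) ^ 2 = 0`, so `q r ∈ I`
(reduced), `G ∣ q r`, so `q` is a unit (cancel).
(2) `natDegree G ≥ 3`: the image `G₁` of `G` in `𝓖[X]` has the same degree and the three roots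
`y e` whose differences are units, so `(X - C (y 0)) (X - C (y 1)) (X - C (y 2))` divides `G₁`
(divide successively: `G₁ = (X - y 0) Q`, `(y 1 - y 0) Q(y 1) = 0`, ...), and this is a monic
polynomial of degree 3, `G₁ ≠ 0`.
(3) `hs a b c d N (G.map σ) ∈ I` by `hs_aeval` (applied with `M = 𝓖`, `T = y e`, `φ = τ`).  So
`G ∣ hs ...`, and `natDegree (hs ...) ≤ N` (`hs_natDegree`): the quotient is a constant `l`
(possibly `0`).
-/

set_option autoImplicit false

open Polynomial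

namespace Pool.Agent.H51.TT

universe u v

private theorem tri_dvd {R : Type v} [CommRing R] [Nontrivial R] (y : Fin 3 → R)
    (hdiff : ∀ e e', e ≠ e' → IsUnit (y e - y e')) (P : R[X]) (hP : P ≠ 0)
    (h : ∀ e, P.eval (y e) = 0) : 3 ≤ P.natDegree := by
  obtain ⟨Q, hQ⟩ := dvd_iff_isRoot.2 (h 0)
  have h1 := h 1
  rw [hQ, eval_mul, eval_sub, eval_X, eval_C] at h1
  have h1' : Q.eval (y 1) = 0 := (hdiff 1 0 (by decide)).mul_right_eq_zero.1 h1
  obtain ⟨S, hS⟩ := dvd_iff_isRoot.2 h1'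
  have h2 := h 2
  rw [hQ, hS, eval_mul, eval_mul, eval_sub, eval_X, eval_C, eval_sub, eval_X, eval_C] at h2
  have h2' : S.eval (y 2) = 0 :=
    (hdiff 2 1 (by decide)).mul_right_eq_zero.1 ((hdiff 2 0 (by decide)).mul_right_eq_zero.1 h2)
  obtain ⟨Z, hZ⟩ := dvd_iff_isRoot.2 h2'
  have hZ0 : Z ≠ 0 := by
    rintro rfl
    apply hP
    rw [hQ, hS, hZ, mul_zero, mul_zero, mul_zero]
  have hS0 : S ≠ 0 := by
    rintro rfl
    apply hP
    rw [hQ, hS, mul_zero, mul_zero]
  have hQ0 : Q ≠ 0 := by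
    rintro rfl
    apply hP
    rw [hQ, mul_zero]
  rw [hQ, (monic_X_sub_C _).natDegree_mul' hQ0, hS, (monic_X_sub_C _).natDegree_mul' hS0, hZ,
    (monic_X_sub_C _).natDegree_mul' hZ0, natDegree_X_sub_C, natDegree_X_sub_C, natDegree_X_sub_C]
  omega

theorem triple {L : Type u} [Field L] {𝓖 : Type v} [CommRing 𝓖] [Nontrivial 𝓖] [IsReduced 𝓖]
    [Algebra L 𝓖] (σ : L →+* L) (τ : 𝓖 →+* 𝓖)
    (hτ : ∀ l, τ (algebraMap L 𝓖 l) = algebraMap L 𝓖 (σ l)) (a b c d : L) (y : Fin 3 → 𝓖)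
    (hy : ∀ e, τ (y e) * (algebraMap L 𝓖 c * y e + algebraMap L 𝓖 d) =
      algebraMap L 𝓖 a * y e + algebraMap L 𝓖 b)
    (hdiff : ∀ e e', e ≠ e' → IsUnit (y e - y e'))
    (hbad : ∀ e, ∃ F : L[X], F ≠ 0 ∧ aeval (y e) F = 0) :
    ∃ (G : L[X]) (l : L), 3 ≤ G.natDegree ∧ Squarefree G ∧
      hs a b c d G.natDegree (G.map σ) = C l * G := by
  classical
  choose F hF0 hF using hbad
  let I : Ideal L[X] := ⨅ e, RingHom.ker (aeval (R := L) (y e))
  have hI : ∀ P : L[X], P ∈ I ↔ ∀ e, aeval (y e) P = 0 := by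
    intro P
    simp only [I, Submodule.mem_iInf, RingHom.mem_ker]
  have hprod : (∏ e, F e) ∈ I := by
    rw [hI]
    intro e
    rw [map_prod]
    exact Finset.prod_eq_zero (Finset.mem_univ e) (hF e)
  have hprod0 : (∏ e, F e) ≠ 0 := Finset.prod_ne_zero_iff.2 fun e _ => hF0 e
  obtain ⟨G, hGs⟩ : ∃ G : L[X], I = Ideal.span {G} :=
    ⟨_, (Submodule.IsPrincipal.span_singleton_generator I).symm⟩
  have hdvd : ∀ P : L[X], P ∈ I ↔ G ∣ P := by
    intro P
    rw [hGs, Ideal.mem_span_singleton]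
  have hG0 : G ≠ 0 := by
    rintro rfl
    exact hprod0 (zero_dvd_iff.1 ((hdvd _).1 hprod))
  have hGI : ∀ e, aeval (y e) G = 0 := (hI G).1 ((hdvd G).2 dvd_rfl)
  have hsq : Squarefree G := by
    rintro q ⟨r, hr⟩
    have h1 : q * r ∈ I := by
      rw [hI]
      intro e
      have h2 : aeval (y e) (q * r) ^ 2 = 0 := by
        have h3 : (q * r) ^ 2 = G * r := by rw [hr]; ring
        rw [← map_pow, h3, map_mul, hGI e, zero_mul]
      exact pow_eq_zero_iff (two_ne_zero) |>.1 h2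
    obtain ⟨s, hs⟩ := (hdvd _).1 h1
    have hqr : q * r ≠ 0 := by
      intro h0
      apply hG0
      rw [hr, mul_assoc, h0, mul_zero]
    have h4 : q * r * 1 = q * r * (q * s) := by
      rw [mul_one]
      nth_rewrite 1 [hs]
      rw [hr]
      ring
    have h5 := mul_left_cancel₀ hqr h4
    exact IsUnit.of_mul_eq_one _ h5.symm
  have hinj : Function.Injective (algebraMap L 𝓖) := (algebraMap L 𝓖).injective
  have hdeg : 3 ≤ G.natDegree := by
    have h1 := tri_dvd y hdiff (G.map (algebraMap L 𝓖))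
      ((Polynomial.map_ne_zero_iff hinj).2 hG0) fun e => by
        rw [eval_map_algebraMap]
        exact hGI e
    rwa [natDegree_map_eq_of_injective hinj] at h1
  have hmem : hs a b c d G.natDegree (G.map σ) ∈ I := by
    rw [hI]
    intro e
    rw [hs_aeval (y e) (τ (y e)) σ τ hτ a b c d rfl (hy e) G.natDegree G le_rfl, hGI e, map_zero,
      mul_zero]
  obtain ⟨s, hs'⟩ := (hdvd _).1 hmem
  have hsC : ∃ l : L, s = C l := by
    by_cases h0 : s = 0
    · exact ⟨0, by rw [h0, C_0]⟩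
    · have h1 := hs_natDegree a b c d G.natDegree (G.map σ)
      rw [hs', natDegree_mul hG0 h0] at h1
      exact ⟨s.coeff 0, eq_C_of_natDegree_eq_zero (by omega)⟩
  obtain ⟨l, rfl⟩ := hsC
  exact ⟨G, l, hdeg, hsq, by rw [hs', mul_comm]⟩

end Pool.Agent.H51.TT
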