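import Pool.Agent.H51.TT.Sig
import Pool.Agent.H51.TT.Germ
import Pool.Agent.H51.TT.Tri
import Pool.Agent.H51.TT.HesA
import Pool.Agent.H51.TT.HesB

/-!
# Module MStep: density at a Moebius level for one of three start values

PROOF.  Suppose not: for each `e` there is `g_e ≠ 0` in `MvPolynomial (Fin (m+1)) k` with
`mv (X e t) g_e = 0` for all `t`; `F_e = spl m k g_e ≠ 0`, `tv (X e t) F_e = 0`.
`x = X 0`: base orbit, `T.Orb m x`, dense at level `m`.
(1) `hshift` for `exists_germ`: for `g ≠ 0` take `D, g'` from `exists_subst`; with `E = k`,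
`f = RingHom.id k` (or use the `E`-version with `algebraMap k k`): where `mv (x t) g' ≠ 0` we get
`mv (x (t+1)) g ≠ 0`; and `g' ≠ 0`: with `E = 𝕂`, `x = z`, `y i = φ (z i)`: `mv y (map g) =
φ (mv z (map g)) ≠ 0`.  (`hRz`: `tv z (R i) ≠ 0` because `T.R i ≠ 0` and `z` is algebraically
independent: `tv z (pm _ (T.R i)) = mv z (map (emb _ (T.R i)))`, where
`emb` of a nonzero polynomial is nonzero because its values at the `x t` are units.)
(2) `exists_germ` and `exists_sigma` (with `m`) give `𝓖, cl, τ, j, σ, ev`.  `L = FractionRing`;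
algebra structures `ev.toAlgebra` on `𝓖`, `j.toAlgebra` on `𝕂`; `CharZero L`.
(3) `a, b, c, d ∈ L`: images of `(T.P m).coeff 1`, `(T.P m).coeff 0`, `(T.R m).coeff 1`,
`(T.R m).coeff 0`.  `y e = cl (t ↦ X e t m)`.  `τ (y e) (c y + d) = a y + b` from the orbit
relation at level `m` (values at `X e t` of the coefficients are values at `x t` by `hbase`,
`mv_congr`).  Differences: `X e t m ≠ X e' t m` for all `t`: induction on `t`, `hinj` at `t = 0`;
if `y' = (a y + b)/(c y + d)` agrees for two different `y` then `a d - b c = 0` at `x t`, but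
`a d - b c = tv (X e t) (T.W m) ≠ 0`.  So the difference sequence is a unit of `ℕ → k`.
`hbad`: `F_e` with coefficients mapped to `L`; nonzero, and `aeval (y e)` of it is
`cl (t ↦ tv (X e t) F_e) = 0`.
(4) `triple` gives `G, l`.  (5) With `M = 𝕂`, `T = z m`: transcendental over `L` (from `hz` at
level `m + 1` through `spl`), `hφT` from `hφ m`, `hΔ`: `a d - b c ≠ 0` in `L` because its value
`tv (X 0 0) (T.W m) ≠ 0`.  `hess_inv` and `hess_nonconst`: `ψ = W(T)² / H(T)³` satisfies
`φ ψ = ψ` (`H(T) ≠ 0`, `φ (H(T)) ≠ 0`), so `ψ = algebraMap k 𝕂 q = j q'` with `q ∈ k`, hence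
`W(T)² = κ H(T)³`, so `W² = C κ H³` in `L[X]` as `T` is transcendental: contradiction.
-/

set_option autoImplicit false

open Polynomial

namespace Pool.Agent.H51.TT

universe u

section aux

variable {k : Type u} [Field k]

private theorem pm_idM {m : ℕ} (p : (MvPolynomial (Fin m) k)[X]) : pm (RingHom.id k) p = p := by
  unfold pm
  have h1 : (MvPolynomial.map (RingHom.id k) : MvPolynomial (Fin m) k →+* _) = RingHom.id _ :=
    RingHom.ext MvPolynomial.map_id
  rw [h1, coe_mapRingHom, Polynomial.map_id]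

private theorem tv_linM {A : Type u} [CommRing A] {m : ℕ} (x : ℕ → A)
    (p : (MvPolynomial (Fin m) A)[X]) (hp : p.natDegree ≤ 1) :
    tv x p = mv x (p.coeff 1) * x m + mv x (p.coeff 0) := by
  conv_lhs => rw [Polynomial.eq_X_add_C_of_natDegree_le_one hp]
  rw [map_add, map_mul, tv_C, tv_C]
  congr 2
  unfold tv
  simp

private theorem emb_injM (m : ℕ) (p : (MvPolynomial (Fin m) k)[X])
    (h : emb (Nat.lt_succ_self m) p = 0) : p = 0 := by
  have h1 : (spl m k).toRingHom.comp (emb (Nat.lt_succ_self m)) = RingHom.id _ := by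
    apply Polynomial.ringHom_ext
    · intro a
      have h2 : ((spl m k).toRingHom.comp (emb (Nat.lt_succ_self m))).comp Polynomial.C =
          (Polynomial.C : MvPolynomial (Fin m) k →+* _) := by
        apply MvPolynomial.ringHom_ext
        · intro r
          simp [emb, spl]
        · intro j
          have h3 : (Fin.castLE (Nat.lt_succ_self m).le j) = Fin.castSucc j := rfl
          simp [emb, spl, h3]
      exact congrArg (fun q : MvPolynomial (Fin m) k →+* _ => q a) h2
    · have h3 : (⟨m, Nat.lt_succ_self m⟩ : Fin (m + 1)) = Fin.last m := rfl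
      simp [emb, spl, h3]
  have h2 := congrArg (fun q : (MvPolynomial (Fin m) k)[X] →+* _ => q p) h1
  simp only [RingHom.comp_apply, RingHom.id_apply] at h2
  rw [← h2, h, map_zero]

private theorem tv_WM {m : ℕ} (T : Tow k) (x : ℕ → k) (hP : (T.P m).natDegree ≤ 1)
    (hR : (T.R m).natDegree ≤ 1) :
    tv x (T.W m) = mv x ((T.P m).coeff 1) * mv x ((T.R m).coeff 0) -
      mv x ((T.P m).coeff 0) * mv x ((T.R m).coeff 1) := by
  have h : T.W m = C ((T.P m).coeff 1 * (T.R m).coeff 0 - (T.P m).coeff 0 * (T.R m).coeff 1) := by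
    unfold Tow.W
    generalize T.P m = p at hP
    generalize T.R m = r at hR
    rw [Polynomial.eq_X_add_C_of_natDegree_le_one hP, Polynomial.eq_X_add_C_of_natDegree_le_one hR]
    simp
    ring
  rw [h, tv_C]
  simp

end aux

theorem mstep {k : Type u} [Field k] [CharZero k] (T : Tow k) (m : ℕ)
    (hP : (T.P m).natDegree ≤ 1) (hR : (T.R m).natDegree ≤ 1) {𝕂 : Type u} [Field 𝕂]
    [Algebra k 𝕂] (z : ℕ → 𝕂)
    (hz : ∀ g : MvPolynomial (Fin (m + 1)) k,
      mv z (MvPolynomial.map (algebraMap k 𝕂) g) = 0 → g = 0)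
    (φ : 𝕂 →ₐ[k] 𝕂)
    (hφ : ∀ i < m + 1, φ (z i) * tv z ((T.map (algebraMap k 𝕂)).R i) =
      tv z ((T.map (algebraMap k 𝕂)).P i))
    (hno : ∀ a : 𝕂, φ a = a → ∃ q : k, a = algebraMap k 𝕂 q)
    (X : Fin 3 → ℕ → ℕ → k) (hX : ∀ e, T.Orb (m + 1) (X e))
    (hbase : ∀ e t, ∀ i < m, X e t i = X 0 t i)
    (hinj : ∀ e e', e ≠ e' → X e 0 m ≠ X e' 0 m) (hW : ∀ e t, tv (X e t) (T.W m) ≠ 0)
    (dense : ∀ g : MvPolynomial (Fin m) k, g ≠ 0 → ∃ t, mv (X 0 t) g ≠ 0) :
    ∃ e, ∀ g : MvPolynomial (Fin (m + 1)) k, g ≠ 0 → ∃ t, mv (X e t) g ≠ 0 := by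
  classical
  by_contra hcon
  push Not at hcon
  choose g hg0 hg using hcon
  -- level m
  have hz' : ∀ g : MvPolynomial (Fin m) k,
      mv z (MvPolynomial.map (algebraMap k 𝕂) g) = 0 → g = 0 := by
    intro g h
    have h1 : mv z (MvPolynomial.map (algebraMap k 𝕂) (emb (Nat.lt_succ_self m) (C g))) = 0 := by
      rw [mv_map_emb]
      unfold pm
      rw [coe_mapRingHom, Polynomial.map_C, tv_C]
      exact h
    exact Polynomial.C_eq_zero.mp (emb_injM m _ (hz _ h1))
  have hRz : ∀ i < m + 1, tv z ((T.map (algebraMap k 𝕂)).R i) ≠ 0 := by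
    intro i hi h
    have h1 : tv z (pm (algebraMap k 𝕂) (T.R i)) = 0 := h
    rw [← mv_map_emb hi] at h1
    have h2 := hz _ h1
    have h3 := (hX 0).unit 0 i hi
    rw [← mv_emb hi, h2, map_zero] at h3
    exact not_isUnit_zero h3
  have hmvφ : ∀ g : MvPolynomial (Fin m) k,
      mv (fun i => φ (z i)) (MvPolynomial.map (algebraMap k 𝕂) g) =
        φ (mv z (MvPolynomial.map (algebraMap k 𝕂) g)) := by
    intro g
    have h1 := mv_map (φ : 𝕂 →+* 𝕂) z (MvPolynomial.map (algebraMap k 𝕂) g)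
    rw [MvPolynomial.map_map] at h1
    have h2 : (φ : 𝕂 →+* 𝕂).comp (algebraMap k 𝕂) = algebraMap k 𝕂 :=
      RingHom.ext fun r => φ.commutes r
    rw [h2] at h1
    exact h1
  have hshift : ∀ g : MvPolynomial (Fin m) k, g ≠ 0 → ∃ g' : MvPolynomial (Fin m) k, g' ≠ 0 ∧
      ∀ t, mv (X 0 t) g' ≠ 0 → mv (X 0 (t + 1)) g ≠ 0 := by
    intro g hg
    obtain ⟨D, g', hD⟩ := exists_subst T m g
    refine ⟨g', ?_, ?_⟩
    · intro h0
      obtain ⟨h1, h2⟩ := hD 𝕂 (algebraMap k 𝕂) z (fun i => φ (z i))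
        (fun i hi => ⟨hRz i (by omega), hφ i (by omega)⟩)
      rw [h0, map_zero, map_zero, hmvφ] at h2
      rcases mul_eq_zero.mp h2 with h3 | h3
      · exact hg (hz' g ((map_eq_zero_iff φ φ.injective).mp h3))
      · exact h1 h3
    · intro t ht h0
      obtain ⟨h1, h2⟩ := hD k (RingHom.id k) (X 0 t) (X 0 (t + 1)) (by
        intro i hi
        have e1 : (T.map (RingHom.id k)).R i = T.R i := pm_idM _
        have e2 : (T.map (RingHom.id k)).P i = T.P i := pm_idM _
        rw [e1, e2]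
        exact ⟨((hX 0).unit t i (by omega)).ne_zero, (hX 0).step t i (by omega)⟩)
      rw [MvPolynomial.map_id, MvPolynomial.map_id, MvPolynomial.map_id, h0, zero_mul] at h2
      exact ht h2.symm
  obtain ⟨𝓖, iG, iN, iR, cl, τ, hcl0, hτ, hclu⟩ := exists_germ m (X 0) dense hshift
  obtain ⟨j, σ, ev, hj, hev, hφj, hτev⟩ := exists_sigma T m z hz' φ
    (fun i hi => hRz i (by omega)) (fun i hi => hφ i (by omega)) (X 0)
    ((hX 0).mono (Nat.le_succ m)) cl τ hclu hτ
  let a1 : Algebra (FractionRing (MvPolynomial (Fin m) k)) 𝓖 := ev.toAlgebra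
  let a2 : Algebra (FractionRing (MvPolynomial (Fin m) k)) 𝕂 := j.toAlgebra
  have a3 : CharZero (FractionRing (MvPolynomial (Fin m) k)) :=
    charZero_of_injective_ringHom (((algebraMap (MvPolynomial (Fin m) k)
      (FractionRing (MvPolynomial (Fin m) k))).comp MvPolynomial.C).injective)
  have hvals : ∀ e t (g : MvPolynomial (Fin m) k), mv (X e t) g = mv (X 0 t) g :=
    fun e t g => mv_congr (hbase e t) g
  -- differences
  have hne : ∀ e e', e ≠ e' → ∀ t, X e t m ≠ X e' t m := by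
    intro e e' hee t
    induction t with
    | zero => exact hinj e e' hee
    | succ t ih =>
      intro heq
      have s1 := (hX e).step t m (Nat.lt_succ_self m)
      have s2 := (hX e').step t m (Nat.lt_succ_self m)
      have u1 := ((hX e).unit t m (Nat.lt_succ_self m)).ne_zero
      have u2 := ((hX e').unit t m (Nat.lt_succ_self m)).ne_zero
      have w := hW e t
      rw [tv_WM T _ hP hR] at w
      rw [tv_linM _ _ hR] at s1 s2 u1 u2
      rw [tv_linM _ _ hP] at s1 s2
      simp only [hvals e, hvals e'] at s1 s2 u1 u2 w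
      rw [heq] at s1
      apply w
      have h3 : (mv (X 0 t) ((T.P m).coeff 1) * mv (X 0 t) ((T.R m).coeff 0) -
        mv (X 0 t) ((T.P m).coeff 0) * mv (X 0 t) ((T.R m).coeff 1)) *
        (X e t m - X e' t m) = 0 := by
        linear_combination (-(mv (X 0 t) ((T.R m).coeff 1) * X e' t m +
          mv (X 0 t) ((T.R m).coeff 0))) * s1 +
          (mv (X 0 t) ((T.R m).coeff 1) * X e t m + mv (X 0 t) ((T.R m).coeff 0)) * s2
      rcases mul_eq_zero.mp h3 with h4 | h4
      · exact h4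
      · exact absurd (sub_eq_zero.mp h4) ih
  have hdiff : ∀ e e', e ≠ e' → IsUnit ((cl fun t => X e t m) - (cl fun t => X e' t m)) := by
    intro e e' hee
    rw [← map_sub]
    apply IsUnit.map cl
    rw [Pi.isUnit_iff]
    intro t
    exact isUnit_iff_ne_zero.mpr (sub_ne_zero.mpr (hne e e' hee t))
  have hy : ∀ e, τ (cl fun t => X e t m) *
      (algebraMap _ 𝓖 (algebraMap _ (FractionRing (MvPolynomial (Fin m) k)) ((T.R m).coeff 1)) *
        (cl fun t => X e t m) +
        algebraMap _ 𝓖 (algebraMap _ (FractionRing (MvPolynomial (Fin m) k)) ((T.R m).coeff 0))) =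
      algebraMap _ 𝓖 (algebraMap _ (FractionRing (MvPolynomial (Fin m) k)) ((T.P m).coeff 1)) *
        (cl fun t => X e t m) +
        algebraMap _ 𝓖 (algebraMap _ (FractionRing (MvPolynomial (Fin m) k)) ((T.P m).coeff 0)) := by
    intro e
    have e0 : ∀ g : MvPolynomial (Fin m) k,
        algebraMap _ 𝓖 (algebraMap _ (FractionRing (MvPolynomial (Fin m) k)) g) =
          cl fun t => mv (X 0 t) g := hev
    rw [e0, e0, e0, e0, hτ, ← map_mul, ← map_add, ← map_mul, ← map_mul, ← map_add]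
    congr 1
    funext t
    have s1 := (hX e).step t m (Nat.lt_succ_self m)
    rw [tv_linM _ _ hR, tv_linM _ _ hP] at s1
    simp only [hvals e] at s1
    simpa using s1
  have hbad : ∀ e, ∃ F : (FractionRing (MvPolynomial (Fin m) k))[X], F ≠ 0 ∧
      aeval (cl fun t => X e t m) F = 0 := by
    intro e
    refine ⟨(spl m k (g e)).map (algebraMap _ _), ?_, ?_⟩
    · rw [Ne, Polynomial.map_eq_zero_iff (IsFractionRing.injective _ _)]
      intro h
      exact hg0 e ((map_eq_zero_iff (spl m k) (spl m k).injective).mp h)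
    · let ψ : MvPolynomial (Fin m) k →+* (ℕ → k) := RingHom.pi fun t => mv (X e t)
      have h1 : ev.comp (algebraMap (MvPolynomial (Fin m) k) _) = cl.comp ψ := by
        apply RingHom.ext
        intro g
        rw [RingHom.comp_apply, hev, RingHom.comp_apply]
        congr 1
        funext t
        exact (hvals e t g).symm
      have h2 : aeval (cl fun t => X e t m) ((spl m k (g e)).map
          (algebraMap (MvPolynomial (Fin m) k) (FractionRing (MvPolynomial (Fin m) k)))) =
          eval₂ (ev.comp (algebraMap (MvPolynomial (Fin m) k) _)) (cl fun t => X e t m)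
            (spl m k (g e)) := by
        rw [Polynomial.aeval_def, Polynomial.eval₂_map]
        rfl
      rw [h2, h1, ← Polynomial.hom_eval₂]
      have h3 : eval₂ ψ (fun t => X e t m) (spl m k (g e)) = 0 := by
        funext t
        have h4 := Polynomial.hom_eval₂ (spl m k (g e)) ψ (Pi.evalRingHom (fun _ : ℕ => k) t)
          (fun t => X e t m)
        have h5 : (Pi.evalRingHom (fun _ : ℕ => k) t).comp ψ = mv (X e t) := rfl
        rw [h5] at h4
        have h6 : eval₂ (mv (X e t)) ((Pi.evalRingHom (fun _ : ℕ => k) t) fun t => X e t m)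
            (spl m k (g e)) = tv (X e t) (spl m k (g e)) := rfl
        rw [h6, tv_spl, hg e t] at h4
        exact h4
      rw [h3, map_zero]
  obtain ⟨G, l, hN, hsq, hG⟩ := triple σ τ hτev _ _ _ _ (fun e => cl fun t => X e t m)
    hy hdiff hbad
  -- transcendence
  have hT : Transcendental (FractionRing (MvPolynomial (Fin m) k)) (z m) := by
    let a4 : Algebra (MvPolynomial (Fin m) k) 𝕂 :=
      (j.comp (algebraMap (MvPolynomial (Fin m) k) _)).toAlgebra
    have a5 : IsScalarTower (MvPolynomial (Fin m) k)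
      (FractionRing (MvPolynomial (Fin m) k)) 𝕂 := IsScalarTower.of_algebraMap_eq' rfl
    intro halgL
    rw [← IsFractionRing.isAlgebraic_iff (MvPolynomial (Fin m) k)] at halgL
    obtain ⟨F, hF0, hF⟩ := halgL
    apply hF0
    apply emb_injM m F
    apply hz
    rw [mv_map_emb]
    have h1 : (algebraMap (MvPolynomial (Fin m) k) 𝕂) =
        (mv z).comp (MvPolynomial.map (algebraMap k 𝕂)) :=
      RingHom.ext fun g => hj g
    rw [Polynomial.aeval_def, h1, ← Polynomial.eval₂_map] at hF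
    exact hF
  have hjc : ∀ g : MvPolynomial (Fin m) k,
      algebraMap (FractionRing (MvPolynomial (Fin m) k)) 𝕂 (algebraMap _ _ g) =
        mv z (MvPolynomial.map (algebraMap k 𝕂) g) := hj
  have hΔ : algebraMap _ (FractionRing (MvPolynomial (Fin m) k)) ((T.P m).coeff 1) *
      algebraMap _ _ ((T.R m).coeff 0) -
      algebraMap _ _ ((T.P m).coeff 0) * algebraMap _ _ ((T.R m).coeff 1) ≠ 0 := by
    rw [← map_mul, ← map_mul, ← map_sub]
    intro h
    have h1 := (map_eq_zero_iff _ (IsFractionRing.injective (MvPolynomial (Fin m) k)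
      (FractionRing (MvPolynomial (Fin m) k)))).mp h
    apply hW 0 0
    rw [tv_WM T _ hP hR, ← map_mul, ← map_mul, ← map_sub, h1, map_zero]
  have htvz : ∀ p : (MvPolynomial (Fin m) k)[X], p.natDegree ≤ 1 →
      tv z (pm (algebraMap k 𝕂) p) =
        mv z (MvPolynomial.map (algebraMap k 𝕂) (p.coeff 1)) * z m +
        mv z (MvPolynomial.map (algebraMap k 𝕂) (p.coeff 0)) := by
    intro p hp
    have h1 : (pm (algebraMap k 𝕂) p).natDegree ≤ 1 := by
      unfold pm
      rw [coe_mapRingHom]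
      exact le_trans Polynomial.natDegree_map_le hp
    rw [tv_linM z _ h1]
    unfold pm
    rw [coe_mapRingHom, Polynomial.coeff_map, Polynomial.coeff_map]
  have hφT : (φ : 𝕂 →+* 𝕂) (z m) *
      (algebraMap _ 𝕂 (algebraMap _ (FractionRing (MvPolynomial (Fin m) k)) ((T.R m).coeff 1)) *
        z m + algebraMap _ 𝕂 (algebraMap _ (FractionRing (MvPolynomial (Fin m) k))
          ((T.R m).coeff 0))) =
      algebraMap _ 𝕂 (algebraMap _ (FractionRing (MvPolynomial (Fin m) k)) ((T.P m).coeff 1)) *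
        z m + algebraMap _ 𝕂 (algebraMap _ (FractionRing (MvPolynomial (Fin m) k))
          ((T.P m).coeff 0)) := by
    rw [hjc, hjc, hjc, hjc, ← htvz _ hR, ← htvz _ hP]
    exact hφ m (Nat.lt_succ_self m)
  have hinv := hess_inv (z m) hT σ (φ : 𝕂 →+* 𝕂) hφj _ _ _ _ hΔ hφT G hN l hG
  obtain ⟨hH0, hWH⟩ := hess_nonconst G hN hsq
  have hh : aeval (z m) (Pool.Agent.H51.TT.hP G) ≠ 0 := by
    intro h
    exact hT ⟨Pool.Agent.H51.TT.hP G, hH0, h⟩
  have hφh : (φ : 𝕂 →+* 𝕂) (aeval (z m) (Pool.Agent.H51.TT.hP G)) ≠ 0 := by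
    intro h
    exact hh ((map_eq_zero_iff (φ : 𝕂 →+* 𝕂) (φ : 𝕂 →+* 𝕂).injective).mp h)
  obtain ⟨q, hq⟩ := hno (aeval (z m) (wP G) ^ 2 / aeval (z m) (Pool.Agent.H51.TT.hP G) ^ 3) (by
    have h1 : φ (aeval (z m) (wP G) ^ 2 / aeval (z m) (Pool.Agent.H51.TT.hP G) ^ 3) =
      (φ : 𝕂 →+* 𝕂) (aeval (z m) (wP G)) ^ 2 /
        (φ : 𝕂 →+* 𝕂) (aeval (z m) (Pool.Agent.H51.TT.hP G)) ^ 3 := by
      rw [map_div₀, map_pow, map_pow]
      rfl
    rw [h1, div_eq_div_iff (pow_ne_zero _ hφh) (pow_ne_zero _ hh)]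
    exact hinv)
  rw [div_eq_iff (pow_ne_zero _ hh)] at hq
  apply hWH (algebraMap (MvPolynomial (Fin m) k) (FractionRing (MvPolynomial (Fin m) k))
    (MvPolynomial.C q))
  have hq' : algebraMap k 𝕂 q =
      algebraMap (FractionRing (MvPolynomial (Fin m) k)) 𝕂
        (algebraMap (MvPolynomial (Fin m) k) _ (MvPolynomial.C q)) := by
    rw [hjc]
    simp [mv]
  rw [← sub_eq_zero]
  by_contra hne0
  refine hT ⟨_, hne0, ?_⟩
  rw [map_sub, map_mul, map_pow, map_pow, aeval_C, ← hq', hq, sub_self]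

end Pool.Agent.H51.TT
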