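import Pool.Agent.H51.TT.Defs

/-!
# Module Sup: a superattracting top coordinate

Notation: `A` is a local subring of a field `k`, `M` its maximal ideal, `m` the level, `X t` the
points over `k`, `x t i ∈ A` the base coordinates (`i < m`), `y_t = X t m`.

PROOF of `sup_step`.  Induction on `t`.  Claim: there is `w ∈ M ^ (t+1)` with `y_t w = 1`
(so `w ≠ 0`).  Step: write `d = natDegree P`, `e = natDegree R`, `d ≥ e + 2`, `a_j, b_j ∈ A` the
values at `x t` of the coefficients of `P`, `R`.  Multiply by `w ^ d`: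
`w ^ d * tv (X t) P = ∑_{j ≤ d} a_j w ^ (d - j) =: u`, which lies in `a_d + M`, so it is a unit of
`A` (`a_d` is a unit), and `w ^ d * tv (X t) R = ∑_{j ≤ e} b_j w ^ (d - j) =: v`, which lies in
`w ^ 2 * A` because `d - j ≥ 2`, hence in `M ^ (2 (t + 1)) ⊆ M ^ (t + 2)`.
From `y_{t+1} * R-value = P-value` (times `w ^ d`): `y_{t+1} v = u`, so `w' = v u⁻¹ ∈ M ^ (t+2)`
satisfies `y_{t+1} w' = 1`.

PROOF of `lead_mem`.  `N = natDegree F`, `w ^ N * tv X F = ∑_{j ≤ N} F_j w ^ (N - j)` in `k`, all
terms in `A`; it is `0`.  So `F_N = - ∑_{j < N} F_j w ^ (N - j) ∈ w A ⊆ I`; if `N = 0` then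
`F_N = 0`.
-/

set_option autoImplicit false

open Polynomial

namespace Pool.Agent.H51.TT

universe u

private theorem tv_sum {k : Type u} [Field k] (A : Subring k) {m : ℕ}
    (p : (MvPolynomial (Fin m) A)[X]) (x : ℕ → A) (X : ℕ → k) (hX : ∀ i < m, X i = x i)
    {N : ℕ} (hN : p.natDegree < N + 1) :
    tv X (pm A.subtype p) =
      ∑ j ∈ Finset.range (N + 1), ((mv x (p.coeff j) : A) : k) * X m ^ j := by
  have h1 : (mv X).comp (MvPolynomial.map A.subtype) =
      A.subtype.comp (mv x : MvPolynomial (Fin m) A →+* A) := by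
    refine RingHom.ext fun g => ?_
    have h2 := mv_map A.subtype x g
    rw [RingHom.comp_apply, RingHom.comp_apply, ← h2]
    exact mv_congr (fun i hi => hX i hi) _
  rw [tv_eq_eval]
  unfold pm
  rw [coe_mapRingHom, Polynomial.map_map, h1, Polynomial.eval_map,
    Polynomial.eval₂_eq_sum_range' _ hN]
  rfl

private theorem scale {k : Type u} [Field k] (A : Subring k) {m : ℕ}
    (p : (MvPolynomial (Fin m) A)[X]) (x : ℕ → A) (X : ℕ → k) (hX : ∀ i < m, X i = x i)
    {N : ℕ} (hN : p.natDegree < N + 1) (w : A) (hw : X m * w = 1) :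
    (w : k) ^ N * tv X (pm A.subtype p) =
      ((∑ j ∈ Finset.range (N + 1), mv x (p.coeff j) * w ^ (N - j) : A) : k) := by
  rw [tv_sum A p x X hX hN, Finset.mul_sum]
  push_cast
  refine Finset.sum_congr rfl fun j hj => ?_
  have hj' : j ≤ N := by have := Finset.mem_range.1 hj; omega
  have h1 : (w : k) ^ N = (w : k) ^ j * (w : k) ^ (N - j) := by
    rw [← pow_add]; congr 1; omega
  have h2 : X m ^ j * (w : k) ^ j = 1 := by rw [← mul_pow, hw, one_pow]
  calc (w : k) ^ N * (((mv x (p.coeff j) : A) : k) * X m ^ j)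
      = ((mv x (p.coeff j) : A) : k) * (w : k) ^ (N - j) * (X m ^ j * (w : k) ^ j) := by
        rw [h1]; ring
    _ = ((mv x (p.coeff j) : A) : k) * (w : k) ^ (N - j) := by rw [h2, mul_one]

theorem sup_step {k : Type u} [Field k] (A : Subring k) [IsLocalRing A] {m : ℕ}
    (P R : (MvPolynomial (Fin m) A)[X]) (hdeg : R.natDegree + 2 ≤ P.natDegree)
    (x : ℕ → ℕ → A) (X : ℕ → ℕ → k) (hX : ∀ t, ∀ i < m, X t i = x t i)
    (hlP : ∀ t, IsUnit (mv (x t) P.leadingCoeff))
    (hstep : ∀ t, X (t + 1) m * tv (X t) (pm A.subtype R) = tv (X t) (pm A.subtype P))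
    (w₀ : A) (hw₀ : w₀ ∈ IsLocalRing.maximalIdeal A) (h₀ : X 0 m * w₀ = 1) (t : ℕ) :
    ∃ w : A, w ∈ (IsLocalRing.maximalIdeal A) ^ (t + 1) ∧ X t m * w = 1 := by
  induction t with
  | zero => exact ⟨w₀, by simpa using hw₀, h₀⟩
  | succ t ih =>
    obtain ⟨w, hw, hXw⟩ := ih
    have hwM : w ∈ IsLocalRing.maximalIdeal A :=
      Ideal.pow_le_self (by omega) hw
    set d := P.natDegree with hd
    have hu := scale A P (x t) (X t) (hX t) (N := d) (by omega) w hXw
    have hv := scale A R (x t) (X t) (hX t) (N := d) (by omega) w hXw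
    set u : A := ∑ j ∈ Finset.range (d + 1), mv (x t) (P.coeff j) * w ^ (d - j) with hu_def
    set v : A := ∑ j ∈ Finset.range (d + 1), mv (x t) (R.coeff j) * w ^ (d - j) with hv_def
    have huv : X (t + 1) m * (v : k) = u := by
      rw [← hu, ← hv, ← hstep t]
      ring
    have hvM : v ∈ (IsLocalRing.maximalIdeal A) ^ (t + 1 + 1) := by
      refine Ideal.sum_mem _ fun j _ => ?_
      by_cases hj : j ≤ R.natDegree
      · refine Ideal.mul_mem_left _ _ ?_
        have h1 : w ^ (d - j) ∈ ((IsLocalRing.maximalIdeal A) ^ (t + 1)) ^ (d - j) :=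
          Ideal.pow_mem_pow hw _
        rw [← pow_mul] at h1
        refine Ideal.pow_le_pow_right ?_ h1
        have h2 : 2 ≤ d - j := by omega
        calc t + 1 + 1 ≤ (t + 1) * 2 := by omega
          _ ≤ (t + 1) * (d - j) := Nat.mul_le_mul_left _ h2
      · rw [Polynomial.coeff_eq_zero_of_natDegree_lt (by omega), map_zero, zero_mul]
        exact Ideal.zero_mem _
    have hun : IsUnit u := by
      by_contra hnu
      have h1 : u ∈ IsLocalRing.maximalIdeal A := (IsLocalRing.mem_maximalIdeal u).2 hnu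
      rw [hu_def, Finset.sum_range_succ, Nat.sub_self, pow_zero, mul_one] at h1
      have h2 : ∑ j ∈ Finset.range d, mv (x t) (P.coeff j) * w ^ (d - j) ∈
          IsLocalRing.maximalIdeal A := by
        refine Ideal.sum_mem _ fun j hj => ?_
        have hj' : j < d := Finset.mem_range.1 hj
        refine Ideal.mul_mem_left _ _ ?_
        exact Ideal.pow_mem_of_mem _ hwM _ (by omega)
      have h3 : mv (x t) (P.coeff d) ∈ IsLocalRing.maximalIdeal A := by
        have h4 := Ideal.sub_mem _ h1 h2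
        rwa [add_sub_cancel_left] at h4
      exact (IsLocalRing.mem_maximalIdeal _).1 h3 (hlP t)
    obtain ⟨u', hu'⟩ := hun.exists_right_inv
    refine ⟨v * u', Ideal.mul_mem_right _ _ hvM, ?_⟩
    have h5 : (u : k) * (u' : k) = 1 := by
      have := congrArg (fun a : A => (a : k)) hu'
      simpa using this
    push_cast
    rw [← mul_assoc, huv, h5]

theorem lead_mem {k : Type u} [Field k] (A : Subring k) {m : ℕ}
    (F : (MvPolynomial (Fin m) A)[X]) (I : Ideal A) (x : ℕ → A) (X : ℕ → k)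
    (hX : ∀ i < m, X i = x i) (w : A) (hw : w ∈ I) (h₁ : X m * w = 1)
    (hF : tv X (pm A.subtype F) = 0) : mv x F.leadingCoeff ∈ I := by
  have h := scale A F x X hX (N := F.natDegree) (by omega) w h₁
  rw [hF, mul_zero] at h
  have h0 : (∑ j ∈ Finset.range (F.natDegree + 1), mv x (F.coeff j) * w ^ (F.natDegree - j) : A)
      = 0 := by
    apply Subtype.ext
    rw [← h]
    rfl
  rw [Finset.sum_range_succ, Nat.sub_self, pow_zero, mul_one] at h0
  have h2 : ∑ j ∈ Finset.range F.natDegree, mv x (F.coeff j) * w ^ (F.natDegree - j) ∈ I := by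
    refine Ideal.sum_mem _ fun j hj => ?_
    have hj' : j < F.natDegree := Finset.mem_range.1 hj
    refine Ideal.mul_mem_left _ _ ?_
    exact Ideal.pow_mem_of_mem _ hw _ (by omega)
  have h3 : mv x F.leadingCoeff = -∑ j ∈ Finset.range F.natDegree,
      mv x (F.coeff j) * w ^ (F.natDegree - j) := by
    rw [Polynomial.leadingCoeff]
    linear_combination h0
  rw [h3]
  exact I.neg_mem h2

end Pool.Agent.H51.TT
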