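import Pool.Agent.H51.TT.Kru
import Pool.Agent.H51.TT.Sup

/-!
# Module SStep: density at a superattracting level

PROOF.  Suppose `g : MvPolynomial (Fin (m+1)) k`, `g ≠ 0`, and `mv (X t) g = 0` for all `t`.
Let `F = spl m k g ≠ 0`, so `tv (X t) F = 0` for all `t` (`tv_spl`).
(1) Move `F` into `V.O`: apply `V.lin` to the finite set `cf F` (`cf_finite`), which contains a
nonzero element; let `F₁` be `F` with `l` applied to all coefficients, i.e.
`F₁ = ∑_{i ∈ support} monomial i (∑_α monomial α (l (coeff α (F.coeff i))))`; `F₁ ≠ 0`,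
`cf F₁ ⊆ V.O`.  `tv (X t) F₁ = 0`: by `V`-following, `X t i = x t i ∈ V.O` for `i < m`, and
`X t m * w = 1` with `w ∈ V.O` (this follows from `sup_step` below, or apply it with `A`
containing only the data of `T`); multiply `0 = tv (X t) F` by `w ^ N`, `N = natDegree F`: a sum
of terms `coeff * (element of V.O)`, apply `l` (additive, `V.O`-linear) and multiply by
`(X t m) ^ N` again.
(2) Let `S` be the finite set of all coefficients of `T.P i`, `T.R i` (`i ≤ m`), of `F₁`, the
`X 0 i` (`i < m`) and `w₀`; `S ⊆ V.O`.  `V.loc` gives a Noetherian local subring `A ≤ V.O` with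
finite residue field containing `S`, whose maximal ideal is `{ρ = 0}`; so `a ∈ A` is a unit of
`A` iff `ρ a ≠ 0`.
(3) Lift the data to `A` (`exists_lift`): `T_A : Tow A` with `P i`, `R i` for `i ≤ m` lifted (and
`0` for `i > m`), `F_A`.  The points `X t i` (`i < m`) lie in `A` for all `t`: induction on `t`,
`X (t+1) i = P / R` with the value of `T.R i` in `A` and of nonzero residue, hence a unit.
Let `xA t i ∈ A` be these elements (`0` for `i ≥ m`): `T_A.Orb m xA`, `W` units, and
`xA (t + r) i - xA t i` in the maximal ideal as `ρ` is periodic.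
(4) `sup_step` (with `P = T_A.P m`, `R = T_A.R m`) gives `w_t ∈ M ^ (t+1)`, `X t m * w_t = 1`, and
`lead_mem` gives `mv (xA t) F_A.leadingCoeff ∈ M ^ (t+1)`.  By `eq_zero_of_tendsto`
`mv (xA t) F_A.leadingCoeff = 0` for all `t`.  The image of `F_A.leadingCoeff` in
`MvPolynomial (Fin m) k` is nonzero and vanishes at all `X t`: contradiction with `dense`.
(Leading coefficients and degrees are preserved by the injective maps `pm A.subtype` etc.)
-/

set_option autoImplicit false

open Polynomial

namespace Pool.Agent.H51.TT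

universe u

/-- Apply an additive map to all coefficients. -/
private noncomputable def ml {k : Type u} [Field k] (l : k →+ k) {m : ℕ}
    (q : MvPolynomial (Fin m) k) : MvPolynomial (Fin m) k :=
  ∑ α ∈ q.support, MvPolynomial.monomial α (l (q.coeff α))

private theorem coeff_ml {k : Type u} [Field k] (l : k →+ k) {m : ℕ}
    (q : MvPolynomial (Fin m) k) (β : Fin m →₀ ℕ) : (ml l q).coeff β = l (q.coeff β) := by
  classical
  unfold ml
  rw [MvPolynomial.coeff_sum]
  simp only [MvPolynomial.coeff_monomial]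
  rw [Finset.sum_ite_eq' q.support β]
  split_ifs with h
  · rfl
  · rw [MvPolynomial.notMem_support_iff.1 h, map_zero]

private theorem mv_ml {k : Type u} [Field k] (O : Subring k) (l : k →+ k)
    (hl : ∀ (o : O) (a : k), l ((o : k) * a) = o * l a) {m : ℕ} (x : ℕ → O) (X : ℕ → k)
    (hx : ∀ i < m, (x i : k) = X i) (q : MvPolynomial (Fin m) k) :
    mv X (ml l q) = l (mv X q) := by
  unfold mv ml
  rw [map_sum]
  conv_rhs => rw [q.as_sum, map_sum, map_sum]
  refine Finset.sum_congr rfl fun α _ => ?_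
  rw [MvPolynomial.eval_monomial, MvPolynomial.eval_monomial]
  have h1 : (α.prod fun n e => X n ^ e) = ((α.prod fun n e => x n ^ e : O) : k) := by
    rw [Finsupp.prod, Finsupp.prod]
    push_cast
    refine Finset.prod_congr rfl fun j _ => ?_
    rw [hx j j.2]
  rw [h1, mul_comm (q.coeff α), hl, mul_comm]

/-- Apply an additive map to all coefficients. -/
private noncomputable def pl {k : Type u} [Field k] (l : k →+ k) {m : ℕ}
    (F : (MvPolynomial (Fin m) k)[X]) : (MvPolynomial (Fin m) k)[X] :=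
  ∑ i ∈ F.support, Polynomial.monomial i (ml l (F.coeff i))

private theorem coeff_pl {k : Type u} [Field k] (l : k →+ k) {m : ℕ}
    (F : (MvPolynomial (Fin m) k)[X]) (j : ℕ) : (pl l F).coeff j = ml l (F.coeff j) := by
  classical
  unfold pl
  rw [Polynomial.finsetSum_coeff]
  simp only [Polynomial.coeff_monomial]
  rw [Finset.sum_ite_eq' F.support j]
  split_ifs with h
  · rfl
  · rw [Polynomial.notMem_support_iff.1 h]
    unfold ml
    simp

private theorem tv_sum {k : Type u} [Field k] {m : ℕ} (X : ℕ → k)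
    (F : (MvPolynomial (Fin m) k)[X]) (N : ℕ) (hN : F.natDegree < N) :
    tv X F = ∑ j ∈ Finset.range N, mv X (F.coeff j) * X m ^ j := by
  unfold tv
  rw [coe_eval₂RingHom, Polynomial.eval₂_eq_sum_range' _ hN]

private theorem tv_pl {k : Type u} [Field k] (O : Subring k) (l : k →+ k)
    (hl : ∀ (o : O) (a : k), l ((o : k) * a) = o * l a) {m : ℕ} (x : ℕ → O) (X : ℕ → k)
    (hx : ∀ i < m, (x i : k) = X i) (w : O) (hw : X m * w = 1)
    (F : (MvPolynomial (Fin m) k)[X]) (hF : tv X F = 0) : tv X (pl l F) = 0 := by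
  set N := max F.natDegree (pl l F).natDegree with hNdef
  have h1 : tv X F = ∑ j ∈ Finset.range (N + 1), mv X (F.coeff j) * X m ^ j :=
    tv_sum X F (N + 1) (by omega)
  have h2 : tv X (pl l F) = ∑ j ∈ Finset.range (N + 1), mv X ((pl l F).coeff j) * X m ^ j :=
    tv_sum X (pl l F) (N + 1) (by omega)
  have hwk : (w : k) ≠ 0 := by
    intro h0
    rw [h0, mul_zero] at hw
    exact zero_ne_one hw
  have hpow : ∀ j ∈ Finset.range (N + 1), X m ^ j * (w : k) ^ N = (w : k) ^ (N - j) := by
    intro j hj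
    have hj' : j ≤ N := by simpa [Nat.lt_succ_iff] using hj
    obtain ⟨d, hd⟩ := Nat.exists_eq_add_of_le hj'
    rw [hd, Nat.add_sub_cancel_left, pow_add, ← mul_assoc, ← mul_pow, hw, one_pow, one_mul]
  have h3 : tv X (pl l F) * (w : k) ^ N = l (tv X F * (w : k) ^ N) := by
    rw [h1, h2, Finset.sum_mul, Finset.sum_mul, map_sum]
    refine Finset.sum_congr rfl fun j hj => ?_
    rw [coeff_pl, mv_ml O l hl x X hx, mul_assoc, hpow j hj, mul_assoc, hpow j hj]
    have h4 : (w : k) ^ (N - j) = ((w ^ (N - j) : O) : k) := by push_cast; rfl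
    rw [h4, mul_comm (mv X (F.coeff j)), hl, mul_comm]
  rw [hF, zero_mul, map_zero] at h3
  rcases mul_eq_zero.1 h3 with h | h
  · exact h
  · exact absurd h (pow_ne_zero N hwk)

private theorem pm_comp {A B C : Type u} [CommRing A] [CommRing B] [CommRing C] {m : ℕ}
    (f : A →+* B) (g : B →+* C) (p : (MvPolynomial (Fin m) A)[X]) :
    pm g (pm f p) = pm (g.comp f) p := by
  unfold pm
  simp only [coe_mapRingHom]
  rw [Polynomial.map_map]
  congr 1
  exact RingHom.ext fun q => MvPolynomial.map_map f g q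

private theorem pm_injective {A B : Type u} [CommRing A] [CommRing B] {m : ℕ}
    (f : A →+* B) (hf : Function.Injective f) :
    Function.Injective (pm (m := m) f) := by
  unfold pm
  exact Polynomial.map_injective _ (MvPolynomial.map_injective _ hf)

private theorem pm_natDegree {A B : Type u} [CommRing A] [CommRing B] {m : ℕ}
    (f : A →+* B) (hf : Function.Injective f) (p : (MvPolynomial (Fin m) A)[X]) :
    (pm f p).natDegree = p.natDegree := by
  unfold pm
  rw [coe_mapRingHom]
  exact Polynomial.natDegree_map_eq_of_injective (MvPolynomial.map_injective _ hf) p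

private theorem pm_leadingCoeff {A B : Type u} [CommRing A] [CommRing B] {m : ℕ}
    (f : A →+* B) (hf : Function.Injective f) (p : (MvPolynomial (Fin m) A)[X]) :
    (pm f p).leadingCoeff = MvPolynomial.map f p.leadingCoeff := by
  unfold Polynomial.leadingCoeff
  rw [pm_natDegree f hf]
  unfold pm
  rw [coe_mapRingHom, Polynomial.coeff_map]

private theorem mv_map' {A B : Type u} [CommRing A] [CommRing B] {m : ℕ} (f : A →+* B)
    (x : ℕ → A) (y : ℕ → B) (h : ∀ i < m, f (x i) = y i) (g : MvPolynomial (Fin m) A) :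
    mv y (MvPolynomial.map f g) = f (mv x g) := by
  rw [← mv_map f x g]
  exact mv_congr (fun i hi => (h i hi).symm) _

private theorem tv_map' {A B : Type u} [CommRing A] [CommRing B] {m : ℕ} (f : A →+* B)
    (x : ℕ → A) (y : ℕ → B) (h : ∀ i < m + 1, f (x i) = y i) (p : (MvPolynomial (Fin m) A)[X]) :
    tv y (pm f p) = f (tv x p) := by
  rw [← tv_map f x p]
  exact tv_congr (fun i hi => (h i hi).symm) _

private theorem local_O {k : Type u} [Field k] (V : Plc k) : IsLocalRing V.O := by
  refine IsLocalRing.of_isUnit_or_isUnit_one_sub_self fun a => ?_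
  by_cases h : V.ρ a = 0
  · right
    apply V.unit
    rw [map_sub, map_one, h, sub_zero]
    exact one_ne_zero
  · left
    exact V.unit a h

private theorem not_unit_of {k : Type u} [Field k] (V : Plc k) (a : V.O) (h : V.ρ a = 0) :
    ¬ IsUnit a := by
  intro hu
  have := hu.map V.ρ
  rw [h] at this
  exact not_isUnit_zero this

theorem sstep {k : Type u} [Field k] (V : Plc k) (T : Tow V.O) (m : ℕ)
    (hlev : (T.R m).natDegree + 2 ≤ (T.P m).natDegree) (X : ℕ → ℕ → k)
    (hX : (T.map V.O.subtype).Orb (m + 1) X) (x : ℕ → ℕ → V.O)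
    (hx : ∀ t, ∀ i < m, (x t i : k) = X t i)
    (hR : ∀ t, ∀ i < m, V.ρ (tv (x t) (T.R i)) ≠ 0)
    (hW : ∀ t, ∀ i < m, V.ρ (tv (x t) (T.W i)) ≠ 0) {r : ℕ} (hr : 0 < r)
    (hper : ∀ t, ∀ i < m, V.ρ (x (t + r) i) = V.ρ (x t i))
    (hlP : ∀ t, V.ρ (mv (x t) (T.P m).leadingCoeff) ≠ 0)
    (w₀ : V.O) (hw₀ : V.ρ w₀ = 0) (h₀ : X 0 m * w₀ = 1)
    (dense : ∀ g : MvPolynomial (Fin m) k, g ≠ 0 → ∃ t, mv (X t) g ≠ 0) :
    ∀ g : MvPolynomial (Fin (m + 1)) k, g ≠ 0 → ∃ t, mv (X t) g ≠ 0 := by
  intro g hg
  by_contra hcon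
  push Not at hcon
  -- the polynomial over `k`
  have hF0 : spl m k g ≠ 0 := by
    intro h
    exact hg ((map_eq_zero_iff _ (spl m k).injective).1 h)
  have hFt : ∀ t, tv (X t) (spl m k g) = 0 := fun t => by rw [tv_spl, hcon t]
  set F := spl m k g with hFdef
  clear_value F
  -- the map `l`
  obtain ⟨l, hl1, hl2, hl3⟩ := V.lin (cf F) (cf_finite F) (by
    have h1 : F.leadingCoeff ≠ 0 := Polynomial.leadingCoeff_ne_zero.2 hF0
    obtain ⟨α, hα⟩ := MvPolynomial.ne_zero_iff.1 h1
    exact ⟨_, ⟨F.natDegree, α, rfl⟩, hα⟩)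
  have hstepV : ∀ t, X (t + 1) m * tv (X t) (pm V.O.subtype (T.R m)) =
      tv (X t) (pm V.O.subtype (T.P m)) := fun t => hX.step t m (by omega)
  have hwV : ∀ t, ∃ w : V.O, X t m * w = 1 := by
    intro t
    let _ : IsLocalRing V.O := local_O V
    obtain ⟨w, -, hw⟩ := sup_step V.O (T.P m) (T.R m) hlev x X (fun t i hi => (hx t i hi).symm)
      (fun t => V.unit _ (hlP t)) hstepV w₀
      ((IsLocalRing.mem_maximalIdeal _).2 (not_unit_of V w₀ hw₀)) h₀ t
    exact ⟨w, hw⟩
  set F₁ := pl l F with hF₁def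
  have hF₁t : ∀ t, tv (X t) F₁ = 0 := by
    intro t
    obtain ⟨w, hw⟩ := hwV t
    exact tv_pl V.O l hl1 (x t) (X t) (hx t) w hw F (hFt t)
  have hcoef : ∀ i α, (F₁.coeff i).coeff α = l ((F.coeff i).coeff α) := by
    intro i α
    rw [hF₁def, coeff_pl, coeff_ml]
  have hF₁0 : F₁ ≠ 0 := by
    intro h
    obtain ⟨s, ⟨i, α, rfl⟩, hs⟩ := hl3
    apply hs
    rw [← hcoef, h]
    simp
  have hcfF₁ : cf F₁ ⊆ V.O := by
    rintro a ⟨i, α, rfl⟩
    rw [hcoef]
    exact hl2 _ ⟨i, α, rfl⟩
  clear_value F₁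
  -- the Noetherian local subring
  have hcfV : ∀ {n : ℕ} (p : (MvPolynomial (Fin n) V.O)[X]), cf (pm V.O.subtype p) ⊆ V.O := by
    rintro n p a ⟨i, α, rfl⟩
    unfold pm
    rw [coe_mapRingHom, Polynomial.coeff_map, MvPolynomial.coeff_map]
    exact SetLike.coe_mem _
  obtain ⟨A, hA, hloc, hSA, hnoeth, hfin, hmax⟩ := V.loc
    ((⋃ i ∈ Finset.range (m + 1), (cf (pm V.O.subtype (T.P i)) ∪ cf (pm V.O.subtype (T.R i)))) ∪
      cf F₁ ∪ (⋃ i ∈ Finset.range m, {X 0 i}) ∪ {(w₀ : k)})
    (by
      refine Set.Finite.union (Set.Finite.union (Set.Finite.union ?_ (cf_finite _)) ?_)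
        (Set.finite_singleton _)
      · exact Set.Finite.biUnion (Finset.finite_toSet _)
          fun i _ => (cf_finite _).union (cf_finite _)
      · exact Set.Finite.biUnion (Finset.finite_toSet _) fun i _ => Set.finite_singleton _)
    (by
      rintro a (((ha | ha) | ha) | ha)
      · simp only [Set.mem_iUnion] at ha
        obtain ⟨i, -, ha | ha⟩ := ha
        · exact hcfV _ ha
        · exact hcfV _ ha
      · exact hcfF₁ ha
      · simp only [Set.mem_iUnion] at ha
        obtain ⟨i, hi, ha⟩ := ha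
        rw [Set.mem_singleton_iff] at ha
        rw [ha, ← hx 0 i (by simpa using hi)]
        exact SetLike.coe_mem _
      · rw [Set.mem_singleton_iff] at ha
        rw [ha]
        exact SetLike.coe_mem _)
  have hSP : ∀ i ≤ m, cf (pm V.O.subtype (T.P i)) ⊆ A := by
    intro i hi a ha
    apply hSA
    left; left; left
    simp only [Set.mem_iUnion]
    exact ⟨i, by simpa [Nat.lt_succ_iff] using hi, Or.inl ha⟩
  have hSR : ∀ i ≤ m, cf (pm V.O.subtype (T.R i)) ⊆ A := by
    intro i hi a ha
    apply hSA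
    left; left; left
    simp only [Set.mem_iUnion]
    exact ⟨i, by simpa [Nat.lt_succ_iff] using hi, Or.inr ha⟩
  have hSF : cf F₁ ⊆ A := fun a ha => hSA (Or.inl (Or.inl (Or.inr ha)))
  have hSX : ∀ i < m, X 0 i ∈ A := by
    intro i hi
    apply hSA
    left; right
    simp only [Set.mem_iUnion]
    exact ⟨i, by simpa using hi, rfl⟩
  have hSw : (w₀ : k) ∈ A := hSA (Or.inr rfl)
  -- the lifted tower
  let inc : A →+* V.O := Subring.inclusion hA
  have hincinj : Function.Injective inc := Subring.inclusion_injective hA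
  have hcomp : V.O.subtype.comp inc = A.subtype := RingHom.ext fun a => rfl
  have hPA : ∀ i, ∃ q : (MvPolynomial (Fin i) A)[X], i ≤ m → pm inc q = T.P i := by
    intro i
    by_cases hi : i ≤ m
    · obtain ⟨q, hq⟩ := exists_lift A _ (hSP i hi)
      refine ⟨q, fun _ => pm_injective V.O.subtype Subtype.val_injective ?_⟩
      rw [pm_comp, hcomp, hq]
    · exact ⟨0, fun h => absurd h hi⟩
  have hRA : ∀ i, ∃ q : (MvPolynomial (Fin i) A)[X], i ≤ m → pm inc q = T.R i := by
    intro i
    by_cases hi : i ≤ m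
    · obtain ⟨q, hq⟩ := exists_lift A _ (hSR i hi)
      refine ⟨q, fun _ => pm_injective V.O.subtype Subtype.val_injective ?_⟩
      rw [pm_comp, hcomp, hq]
    · exact ⟨0, fun h => absurd h hi⟩
  choose PA hPA using hPA
  choose RA hRA using hRA
  let TA : Tow A := ⟨PA, RA⟩
  obtain ⟨FA, hFA⟩ := exists_lift A F₁ hSF
  -- membership in the maximal ideal
  have hmax' : ∀ a : A, a ∈ IsLocalRing.maximalIdeal A ↔ V.ρ (inc a) = 0 := fun a => hmax a
  have hunit : ∀ a : A, V.ρ (inc a) ≠ 0 → IsUnit a := by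
    intro a ha
    by_contra hu
    exact ha ((hmax' a).1 ((IsLocalRing.mem_maximalIdeal _).2 hu))
  -- the points
  have hpts : ∀ t, ∃ y : ℕ → A, ∀ i < m, (y i : k) = X t i := by
    intro t
    induction t with
    | zero =>
      classical
      refine ⟨fun i => if h : i < m then ⟨X 0 i, hSX i h⟩ else 0, fun i hi => ?_⟩
      simp [hi]
    | succ t ih =>
      obtain ⟨y, hy⟩ := ih
      have hyx : ∀ i < m, inc (y i) = x t i := by
        intro i hi
        apply Subtype.ext
        rw [hx t i hi, ← hy i hi]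
        rfl
      have key : ∀ i < m, X (t + 1) i ∈ A := by
        intro i hi
        have h1 : tv (x t) (T.R i) = inc (tv y (RA i)) := by
          rw [← hRA i hi.le]
          exact tv_map' inc y (x t) (fun j hj => hyx j (by omega)) _
        have hu : IsUnit (tv y (RA i)) := by
          apply hunit
          rw [← h1]
          exact hR t i hi
        obtain ⟨u, hu⟩ := hu
        have h2 := hX.step t i (by omega)
        have h3 : tv (X t) (pm V.O.subtype (T.R i)) = (u : A) := by
          rw [← hRA i hi.le, pm_comp, hcomp, hu]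
          exact tv_map' A.subtype y (X t) (fun j hj => hy j (by omega)) _
        have h4 : tv (X t) (pm V.O.subtype (T.P i)) = (tv y (PA i) : A) := by
          rw [← hPA i hi.le, pm_comp, hcomp]
          exact tv_map' A.subtype y (X t) (fun j hj => hy j (by omega)) _
        have h5 : X (t + 1) i * (u : A) = (tv y (PA i) : A) := by
          rw [← h3, ← h4]
          exact h2
        have h6 : X (t + 1) i = ((tv y (PA i) * ((u⁻¹ : Aˣ) : A) : A) : k) := by
          push_cast
          rw [← h5, mul_assoc]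
          have h7 : ((u : A) : k) * (((u⁻¹ : Aˣ) : A) : k) = 1 := by
            have h8 : (u : A) * ((u⁻¹ : Aˣ) : A) = 1 := Units.mul_inv u
            have h9 := congrArg A.subtype h8
            rw [map_mul, map_one] at h9
            exact h9
          rw [h7, mul_one]
        rw [h6]
        exact SetLike.coe_mem _
      classical
      refine ⟨fun i => if h : i < m then ⟨X (t + 1) i, key i h⟩ else 0, fun i hi => ?_⟩
      simp [hi]
  choose xA hxA using hpts
  have hyx : ∀ t, ∀ i < m, inc (xA t i) = x t i := by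
    intro t i hi
    apply Subtype.ext
    rw [hx t i hi, ← hxA t i hi]
    rfl
  have hvR : ∀ t, ∀ i < m, inc (tv (xA t) (RA i)) = tv (x t) (T.R i) := by
    intro t i hi
    rw [← hRA i hi.le]
    exact (tv_map' inc (xA t) (x t) (fun j hj => hyx t j (by omega)) _).symm
  have hvW : ∀ t, ∀ i < m, inc (tv (xA t) (TA.W i)) = tv (x t) (T.W i) := by
    intro t i hi
    have h1 : T.W i = pm inc (TA.W i) := by
      rw [← pm_W]
      unfold Tow.W Tow.map
      simp only [TA]
      rw [hPA i hi.le, hRA i hi.le]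
    rw [h1]
    exact (tv_map' inc (xA t) (x t) (fun j hj => hyx t j (by omega)) _).symm
  have horb : TA.Orb m xA := by
    refine ⟨fun t i hi => ?_, fun t i hi => ?_⟩
    · apply hunit
      show V.ρ (inc (tv (xA t) (RA i))) ≠ 0
      rw [hvR t i hi]
      exact hR t i hi
    · show xA (t + 1) i * tv (xA t) (RA i) = tv (xA t) (PA i)
      apply Subtype.val_injective
      have h2 := hX.step t i (by omega)
      have h3 : tv (X t) (pm V.O.subtype (T.R i)) = (tv (xA t) (RA i) : A) := by
        rw [← hRA i hi.le, pm_comp, hcomp]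
        exact tv_map' A.subtype (xA t) (X t) (fun j hj => hxA t j (by omega)) _
      have h4 : tv (X t) (pm V.O.subtype (T.P i)) = (tv (xA t) (PA i) : A) := by
        rw [← hPA i hi.le, pm_comp, hcomp]
        exact tv_map' A.subtype (xA t) (X t) (fun j hj => hxA t j (by omega)) _
      push_cast
      rw [hxA (t + 1) i hi, ← h3, ← h4]
      exact h2
  have hWA : ∀ t, ∀ i < m, IsUnit (tv (xA t) (TA.W i)) := by
    intro t i hi
    apply hunit
    rw [hvW t i hi]
    exact hW t i hi
  have hperA : ∀ t, ∀ i < m, xA (t + r) i - xA t i ∈ IsLocalRing.maximalIdeal A := by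
    intro t i hi
    rw [hmax', map_sub, map_sub, hyx _ i hi, hyx _ i hi, hper t i hi, sub_self]
  -- the top level
  have hRm : pm A.subtype (RA m) = pm V.O.subtype (T.R m) := by
    rw [← hRA m le_rfl, pm_comp, hcomp]
  have hPm : pm A.subtype (PA m) = pm V.O.subtype (T.P m) := by
    rw [← hPA m le_rfl, pm_comp, hcomp]
  have hlevA : (RA m).natDegree + 2 ≤ (PA m).natDegree := by
    rw [← pm_natDegree inc hincinj (RA m), ← pm_natDegree inc hincinj (PA m), hRA m le_rfl,
      hPA m le_rfl]
    exact hlev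
  have hlPA : ∀ t, IsUnit (mv (xA t) (PA m).leadingCoeff) := by
    intro t
    apply hunit
    rw [← mv_map' inc (xA t) (x t) (hyx t), ← pm_leadingCoeff inc hincinj, hPA m le_rfl]
    exact hlP t
  have hstepA : ∀ t, X (t + 1) m * tv (X t) (pm A.subtype (RA m)) =
      tv (X t) (pm A.subtype (PA m)) := by
    intro t
    rw [hRm, hPm]
    exact hstepV t
  have hlead : ∀ t, mv (xA t) FA.leadingCoeff ∈ (IsLocalRing.maximalIdeal A) ^ (t + 1) := by
    intro t
    obtain ⟨w, hw1, hw2⟩ := sup_step A (PA m) (RA m) hlevA xA X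
      (fun t i hi => (hxA t i hi).symm) hlPA hstepA ⟨(w₀ : k), hSw⟩
      ((hmax' _).2 (by
        have : inc ⟨(w₀ : k), hSw⟩ = w₀ := Subtype.ext rfl
        rw [this]
        exact hw₀)) h₀ t
    refine lead_mem A FA _ (xA t) (X t) (fun i hi => (hxA t i hi).symm) w hw1 hw2 ?_
    rw [hFA]
    exact hF₁t t
  have hzero := eq_zero_of_tendsto TA m xA horb hWA hr hperA FA.leadingCoeff (fun N =>
    ⟨N, fun t ht => Ideal.pow_le_pow_right (by omega) (hlead t)⟩)
  have hFA0 : FA ≠ 0 := by
    intro h
    apply hF₁0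
    rw [← hFA, h, map_zero]
  have hg0 : MvPolynomial.map A.subtype FA.leadingCoeff ≠ 0 := by
    intro h
    apply Polynomial.leadingCoeff_ne_zero.2 hFA0
    apply MvPolynomial.map_injective A.subtype Subtype.val_injective
    rw [h, map_zero]
  obtain ⟨t, ht⟩ := dense _ hg0
  apply ht
  rw [mv_map' A.subtype (xA t) (X t) (fun i hi => hxA t i hi), hzero t, map_zero]

end Pool.Agent.H51.TT
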