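import Pool.Agent.H51.TT.Red
import Pool.Agent.H51.TT.Apx
import Pool.Agent.H51.TT.Fol
import Pool.Agent.H51.TT.SStep
import Pool.Agent.H51.TT.MStep

/-!
# Module Main: existence of dense orbits in open sets

PROOF.  Take `V, TO, c, r, hO` from `exists_data`.  Claim `H(m)` for `m ≤ n`: there is
`x₀ : ℕ → k` with (a) for `m ≤ j ≤ n` and `i < m` there is `y : (V j).O` with `y = x₀ i` and
`ρ y = c j 0 i`; (b) every nonzero `g : MvPolynomial (Fin m) k` has `mv (orb T x₀ t) g ≠ 0` for
some `t`.
`H(0)`: `x₀ = 0`; a nonzero element of `MvPolynomial (Fin 0) k` is a nonzero constant.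
`H(m) → H(m+1)`, `m < n`.  In both cases the new sequence is `x₁ = Function.update x₀ m a`; it has
the same first `m` coordinates, so the orbits have the same first `m` coordinates (`orb_congr`),
and (b) for `m` holds for `x₁` (`mv_congr`).
(S) `natDegree (R m) + 2 ≤ natDegree (P m)`: `a` from `apx_S` (with `c j 0 m`), with `w₀`.
`follow` at `V n` (`m + 1` coordinates; `Tow.Orb.mono`) gives `T.Orb (m+1) (orb T x₁)`.  `follow`
at `V m` (`m` coordinates) gives `x t i ∈ (V m).O` (choose; `0` for `i ≥ m`) with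
`ρ (x t i) = c m t i`; naturality (`tv_map`, `mv_map`, `tv_congr`, `mv_congr`) gives the
hypotheses `hR`, `hW`, `hper`, `hlP` of `sstep`; the degrees of `(TO m).P m` and `T.P m` agree
(injective coefficient map).  So (b) for `m + 1`.
(M) degrees `≤ 1`: `a e` from `apx_M`, `X e = orb T (update x₀ m (a e))`; `follow` at `V n` gives
`T.Orb (m+1) (X e)` and, as `W m` does not vanish at the residue cycle `c n`,
`tv (X e t) (T.W m) ≠ 0`.  `hz` at level `m + 1` follows from level `n` (rename `Fin.castLE`).
`mstep` gives `e`; take `x₁ = update x₀ m (a e)`.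
End: for `m = n`, `follow` at `V n` gives `T.Orb n X` and residues `c n t i`, so
`mv (X t) h ≠ 0` because its residue is `mv (c n t) (map ρ hO) ≠ 0`.
-/

set_option autoImplicit false

open Polynomial

namespace Pool.Agent.H51.TT

universe u

private theorem mo_tv {k : Type u} [Field k] (V : Plc k) {m i : ℕ} (hi : i < m) {X : ℕ → k}
    {c : ℕ → V.κ} {y : ℕ → V.O} (h1 : ∀ i < m, (y i : k) = X i) (h2 : ∀ i < m, V.ρ (y i) = c i)
    (q : (MvPolynomial (Fin i) V.O)[X]) :
    ((tv y q : V.O) : k) = tv X (pm V.O.subtype q) ∧ V.ρ (tv y q) = tv c (pm V.ρ q) := by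
  constructor
  · rw [← tv_congr (x := fun j => V.O.subtype (y j)) (fun j hj => h1 j (by omega)), tv_map]
    rfl
  · rw [← tv_congr (x := fun j => V.ρ (y j)) (fun j hj => h2 j (by omega)), tv_map]

private theorem mo_mv {k : Type u} [Field k] (V : Plc k) {m : ℕ} {X : ℕ → k}
    {c : ℕ → V.κ} {y : ℕ → V.O} (h1 : ∀ i < m, (y i : k) = X i) (h2 : ∀ i < m, V.ρ (y i) = c i)
    (g : MvPolynomial (Fin m) V.O) :
    ((mv y g : V.O) : k) = mv X (MvPolynomial.map V.O.subtype g) ∧
      V.ρ (mv y g) = mv c (MvPolynomial.map V.ρ g) := by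
  constructor
  · rw [← mv_congr (x := fun j => V.O.subtype (y j)) (fun j hj => h1 j hj), mv_map]
    rfl
  · rw [← mv_congr (x := fun j => V.ρ (y j)) (fun j hj => h2 j hj), mv_map]

private theorem mo_lift {k : Type u} [Field k] (V : Plc k) {m : ℕ} {X : ℕ → ℕ → k}
    {c : ℕ → ℕ → V.κ} (h : ∀ t, ∀ i < m, ∃ y : V.O, (y : k) = X t i ∧ V.ρ y = c t i) :
    ∃ y : ℕ → ℕ → V.O, (∀ t, ∀ i < m, (y t i : k) = X t i) ∧
      ∀ t, ∀ i < m, V.ρ (y t i) = c t i := by
  classical
  refine ⟨fun t i => if hi : i < m then (h t i hi).choose else 0, fun t i hi => ?_,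
    fun t i hi => ?_⟩
  · simp only [dif_pos hi]
    exact (h t i hi).choose_spec.1
  · simp only [dif_pos hi]
    exact (h t i hi).choose_spec.2

theorem main_orbit {k : Type u} [Field k] [CharZero k] [IsAlgClosed k] (T : Tow k) (n : ℕ)
    (htr : ∀ i, n ≤ i → T.P i = 0 ∧ T.R i = 0) (hW : ∀ i < n, T.W i ≠ 0)
    (hlev : ∀ i < n, (T.R i).natDegree + 2 ≤ (T.P i).natDegree ∨
      (T.P i).natDegree ≤ 1 ∧ (T.R i).natDegree ≤ 1)
    {𝕂 : Type u} [Field 𝕂] [Algebra k 𝕂] (z : ℕ → 𝕂)
    (hz : ∀ g : MvPolynomial (Fin n) k, mv z (MvPolynomial.map (algebraMap k 𝕂) g) = 0 → g = 0)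
    (φ : 𝕂 →ₐ[k] 𝕂)
    (hφ : ∀ i < n, φ (z i) * tv z ((T.map (algebraMap k 𝕂)).R i) =
      tv z ((T.map (algebraMap k 𝕂)).P i))
    (hno : ∀ a : 𝕂, φ a = a → ∃ q : k, a = algebraMap k 𝕂 q)
    (h : MvPolynomial (Fin n) k) (hh : h ≠ 0) :
    ∃ X : ℕ → ℕ → k, T.Orb n X ∧ (∀ t, mv (X t) h ≠ 0) ∧
      ∀ g : MvPolynomial (Fin n) k, g ≠ 0 → ∃ t, mv (X t) g ≠ 0 := by
  classical
  obtain ⟨V, TO, c, r, hO, hVp, hTO, hcyc, hlead, hhO, hhr⟩ := exists_data T n htr hW h hh
  -- the orbit follows the cycle at `V n`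
  have hfol : ∀ m ≤ n, ∀ x₁ : ℕ → k,
      (∀ i < m, ∃ y : (V n).O, (y : k) = x₁ i ∧ (V n).ρ y = c n 0 i) →
      T.Orb m (orb T x₁) ∧
        ∀ t, ∀ i < m, ∃ y : (V n).O, (y : k) = orb T x₁ t i ∧ (V n).ρ y = c n t i := by
    intro m hm x₁ h₀
    have h1 := follow (V n) (TO n) m x₁ (c n) ((hcyc n le_rfl).2.1.mono hm) h₀
    rw [hTO n] at h1
    exact h1
  have key : ∀ m ≤ n, ∃ x₀ : ℕ → k,
      (∀ j, m ≤ j → j ≤ n → ∀ i < m, ∃ y : (V j).O, (y : k) = x₀ i ∧ (V j).ρ y = c j 0 i) ∧
      ∀ g : MvPolynomial (Fin m) k, g ≠ 0 → ∃ t, mv (orb T x₀ t) g ≠ 0 := by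
    intro m
    induction m with
    | zero =>
      intro _
      refine ⟨fun _ => 0, fun j _ _ i hi => absurd hi (Nat.not_lt_zero i), fun g hg => ⟨0, ?_⟩⟩
      have h1 : g = MvPolynomial.C (g.coeff 0) := by
        exact (MvPolynomial.eq_C_of_isEmpty g)
      rw [h1]
      unfold mv
      rw [MvPolynomial.eval_C]
      intro h2
      rw [h2, map_zero] at h1
      exact hg h1
    | succ m ih =>
      intro hm
      obtain ⟨x₀, ha, hb⟩ := ih (by omega)
      -- facts for `update x₀ m a`
      have hupd : ∀ a : k, ∀ i < m, Function.update x₀ m a i = x₀ i := fun a i hi =>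
        Function.update_of_ne (by omega) _ _
      have hdense : ∀ a : k, ∀ g : MvPolynomial (Fin m) k, g ≠ 0 →
          ∃ t, mv (orb T (Function.update x₀ m a) t) g ≠ 0 := by
        intro a g hg
        obtain ⟨t, ht⟩ := hb g hg
        refine ⟨t, ?_⟩
        rw [mv_congr (orb_congr T m _ x₀ (hupd a) t)]
        exact ht
      have hA : ∀ a : k, (∀ j, m + 1 ≤ j → j ≤ n → ∃ y : (V j).O, (y : k) = a ∧
          (V j).ρ y = c j 0 m) → ∀ j, m + 1 ≤ j → j ≤ n → ∀ i < m + 1, ∃ y : (V j).O,
          (y : k) = Function.update x₀ m a i ∧ (V j).ρ y = c j 0 i := by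
        intro a h1 j hj1 hj2 i hi
        by_cases him : i = m
        · subst him
          rw [Function.update_self]
          exact h1 j hj1 hj2
        · rw [hupd a i (by omega)]
          exact ha j (by omega) hj2 i (by omega)
      rcases hlev m (by omega) with hS | ⟨hM1, hM2⟩
      · -- superattracting level
        obtain ⟨a, ⟨w₀, hw₀, haw⟩, haj⟩ := apx_S V hVp n m (by omega) (fun j => c j 0 m)
        have ha1 := hA a (fun j hj1 hj2 => haj j hj2 (by omega))
        refine ⟨Function.update x₀ m a, ha1, ?_⟩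
        have hf := hfol (m + 1) hm (Function.update x₀ m a) (ha1 n hm le_rfl)
        have hcm := hcyc m (by omega)
        have hfm := follow (V m) (TO m) m (Function.update x₀ m a) (c m) hcm.2.1 (by
          intro i hi
          rw [hupd a i hi]
          exact ha m le_rfl (by omega) i hi)
        rw [hTO m] at hfm
        obtain ⟨x, hx1, hx2⟩ := mo_lift (V m) hfm.2
        have hTOP : pm (V m).O.subtype ((TO m).P m) = T.P m :=
          congrArg (fun T' : Tow k => T'.P m) (hTO m)
        have hTOR : pm (V m).O.subtype ((TO m).R m) = T.R m :=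
          congrArg (fun T' : Tow k => T'.R m) (hTO m)
        have hinjm : Function.Injective
            (MvPolynomial.map (V m).O.subtype : MvPolynomial (Fin m) (V m).O →+* _) :=
          MvPolynomial.map_injective _ Subtype.val_injective
        have hdP : ((TO m).P m).natDegree = (T.P m).natDegree := by
          rw [← hTOP]
          unfold pm
          rw [coe_mapRingHom, Polynomial.natDegree_map_eq_of_injective hinjm]
        have hdR : ((TO m).R m).natDegree = (T.R m).natDegree := by
          rw [← hTOR]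
          unfold pm
          rw [coe_mapRingHom, Polynomial.natDegree_map_eq_of_injective hinjm]
        have hP0 : T.P m ≠ 0 := by
          intro h0
          rw [h0, Polynomial.natDegree_zero] at hS
          omega
        refine sstep (V m) (TO m) m (by rw [hdP, hdR]; exact hS)
          (orb T (Function.update x₀ m a)) (by rw [hTO m]; exact hf.1) x hx1 ?_ ?_ hcm.1 ?_ ?_
          w₀ hw₀ ?_ (hdense a)
        · intro t i hi
          rw [(mo_tv (V m) hi (hx1 t) (hx2 t) ((TO m).R i)).2]
          exact (hcm.2.1.unit t i hi).ne_zero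
        · intro t i hi
          rw [(mo_tv (V m) hi (hx1 t) (hx2 t) ((TO m).W i)).2, ← pm_W]
          exact hcm.2.2.1 t i hi
        · intro t i hi
          rw [hx2 _ i hi, hx2 _ i hi]
          exact hcm.2.2.2 t i hi
        · intro t
          rw [(mo_mv (V m) (hx1 t) (hx2 t) _).2]
          exact hlead m (by omega) hP0 t
        · show Function.update x₀ m a m * (w₀ : k) = 1
          rw [Function.update_self]
          exact haw
      · -- Moebius level
        obtain ⟨a, hainj, haj⟩ := apx_M V hVp n (fun j => c j 0 m)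
        have ha1 := fun e => hA (a e) (fun j _ hj2 => haj e j hj2)
        have hf := fun e => hfol (m + 1) hm (Function.update x₀ m (a e)) (ha1 e n hm le_rfl)
        have hz' : ∀ g : MvPolynomial (Fin (m + 1)) k,
            mv z (MvPolynomial.map (algebraMap k 𝕂) g) = 0 → g = 0 := by
          intro g hg
          have h1 : MvPolynomial.rename (Fin.castLE hm) g = 0 := by
            apply hz
            rw [MvPolynomial.map_rename]
            unfold mv at hg ⊢
            rw [MvPolynomial.eval_rename]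
            exact hg
          exact (MvPolynomial.rename_injective _ (Fin.castLE_injective hm)) (by
            rw [h1, map_zero])
        obtain ⟨e, he⟩ := mstep T m hM1 hM2 z hz' φ (fun i hi => hφ i (by omega)) hno
          (fun e => orb T (Function.update x₀ m (a e))) (fun e => (hf e).1)
          (fun e t i hi => by
            rw [orb_congr T m _ x₀ (hupd (a e)) t i hi, orb_congr T m _ x₀ (hupd (a 0)) t i hi])
          (fun e e' hee => by
            show Function.update x₀ m (a e) m ≠ Function.update x₀ m (a e') m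
            rw [Function.update_self, Function.update_self]
            exact hainj e e' hee)
          (fun e t => by
            obtain ⟨y, hy1, hy2⟩ := mo_lift (V n) (hf e).2
            have h1 := mo_tv (V n) (Nat.lt_succ_self m) (hy1 t) (hy2 t) ((TO n).W m)
            have h2 : pm (V n).O.subtype ((TO n).W m) = T.W m := by
              rw [← pm_W, hTO n]
            rw [h2, ← pm_W] at h1
            intro h0
            rw [h0] at h1
            have h3 : tv (y t) ((TO n).W m) = 0 := Subtype.ext h1.1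
            have h4 := h1.2
            rw [h3, map_zero] at h4
            exact (hcyc n le_rfl).2.2.1 t m (by omega) h4.symm)
          (hdense (a 0))
        exact ⟨Function.update x₀ m (a e), ha1 e, he⟩
  obtain ⟨x₀, ha, hb⟩ := key n le_rfl
  have hf := hfol n le_rfl x₀ (ha n le_rfl le_rfl)
  refine ⟨orb T x₀, hf.1, fun t => ?_, hb⟩
  obtain ⟨y, hy1, hy2⟩ := mo_lift (V n) hf.2
  have h1 := mo_mv (V n) (hy1 t) (hy2 t) hO
  rw [hhO] at h1
  intro h0
  rw [h0] at h1
  have h3 : mv (y t) hO = 0 := Subtype.ext h1.1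
  have h4 := h1.2
  rw [h3, map_zero] at h4
  exact hhr t h4.symm

end Pool.Agent.H51.TT
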