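import Pool.Agent.H51.TT.Defs

/-!
# Module Per: orbits in residually periodic etale polydiscs over finite local rings

PROOF.  (1) ONE VARIABLE.  Let `P, R ∈ S[X]`, `y, y' ∈ S` with `y' - y ∈ maximalIdeal S`,
`W(y) = P'(y) R(y) - P(y) R'(y)` a unit and `P(y) R(y') = P(y') R(y)`.  Then `y = y'`: put
`φ = C (R(y)) * P - C (P(y)) * R`; `φ(y) = 0 = φ(y')`, `φ'(y) = W(y)`, and by Taylor
(`Polynomial.evalSubFactor`, or `Polynomial.binomExpansion`: `φ(y + h) = φ(y) + φ'(y) h + e h²`)
`0 = h (W(y) + e h)`, where `W(y) + e h` is a unit (unit plus element of the maximal ideal), so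
`h = 0`.
(2) INJECTIVITY.  Let `x, x' : ℕ → S` with `x i - x' i ∈ maximalIdeal S` for `i < m`, such that
`tv x (T.R i)`, `tv x' (T.R i)`, `tv x (T.W i)` are units and `z : ℕ → S` with
`z i * tv x (T.R i) = tv x (T.P i)`, `z i * tv x' (T.R i) = tv x' (T.P i)` for `i < m`.  Then
`x i = x' i` for `i < m`.  Strong induction on `i`: for `j < i` equal, so `mv x = mv x'` on
`MvPolynomial (Fin i) S` (`mv_congr`); apply (1) to `(T.P i).map (mv x)`, `(T.R i).map (mv x)`
(`tv_eq_eval`).
(3) DETERMINISM.  If `x t i = x t' i` for all `i < m` then `x (t+1) i = x (t'+1) i` for `i < m`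
(`tv_congr`, units).  Hence for all `j`: `x (t+j) i = x (t'+j) i`.
(4) The map `a ↦ (x (r * a) i)_{i < m}` from `ℕ` to the finite type `Fin m → S` is not injective:
`a < b` with `x (r a) i = x (r b) i` for `i < m`.  Put `N = r (b - a) > 0`.  `N` is a multiple of
`r`, so `x (t + N) i - x t i ∈ maximalIdeal S` for all `t` (induction from `hper`).  By (3)
`x (t + N) i = x t i` for `t ≥ r a`.  By (2), if it holds for `t + 1` then it holds for `t`
(with `z = x (t + 1) = x (t + 1 + N)`).  So it holds for all `t` by downward induction.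
-/

set_option autoImplicit false

open Polynomial

namespace Pool.Agent.H51.TT

universe u

/-- One variable. -/
theorem per_one {S : Type u} [CommRing S] [IsLocalRing S] (P R : S[X]) {y y' : S}
    (hy : y' - y ∈ IsLocalRing.maximalIdeal S)
    (hW : IsUnit ((derivative P * R - P * derivative R).eval y))
    (h : P.eval y * R.eval y' = P.eval y' * R.eval y) : y = y' := by
  set φ : S[X] := C (R.eval y) * P - C (P.eval y) * R with hφ
  have h0 : φ.eval y = 0 := by
    simp only [hφ, eval_sub, eval_mul, eval_C]; ring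
  have h1 : φ.eval y' = 0 := by
    simp only [hφ, eval_sub, eval_mul, eval_C]
    linear_combination -h
  have h2 : (derivative φ).eval y = (derivative P * R - P * derivative R).eval y := by
    simp only [hφ, derivative_sub, derivative_mul, derivative_C, zero_mul, zero_add, eval_sub,
      eval_mul, eval_C]
    ring
  obtain ⟨k, hk⟩ := Polynomial.binomExpansion φ y (y' - y)
  rw [add_sub_cancel, h1, h0, h2, zero_add] at hk
  have hu : IsUnit ((derivative P * R - P * derivative R).eval y + k * (y' - y)) := by
    by_contra hn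
    have h3 : (derivative P * R - P * derivative R).eval y + k * (y' - y) ∈
        IsLocalRing.maximalIdeal S := (IsLocalRing.mem_maximalIdeal _).2 hn
    have h4 := Ideal.sub_mem _ h3 (Ideal.mul_mem_left _ k hy)
    rw [add_sub_cancel_right] at h4
    exact (IsLocalRing.mem_maximalIdeal _).1 h4 hW
  have h5 : ((derivative P * R - P * derivative R).eval y + k * (y' - y)) * (y' - y) = 0 := by
    linear_combination -hk
  have h6 := (hu.mul_right_eq_zero).1 h5
  exact (sub_eq_zero.1 h6).symm

/-- Injectivity on a residue polydisc. -/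
theorem per_inj {S : Type u} [CommRing S] [IsLocalRing S] (T : Tow S) (m : ℕ) {x x' z : ℕ → S}
    (hd : ∀ i < m, x' i - x i ∈ IsLocalRing.maximalIdeal S)
    (hW : ∀ i < m, IsUnit (tv x (T.W i)))
    (h1 : ∀ i < m, z i * tv x (T.R i) = tv x (T.P i))
    (h2 : ∀ i < m, z i * tv x' (T.R i) = tv x' (T.P i)) : ∀ i < m, x i = x' i := by
  intro i
  induction i using Nat.strong_induction_on with
  | _ i ih =>
    intro hi
    have hm : (mv x : MvPolynomial (Fin i) S →+* S) = mv x' :=
      RingHom.ext fun g => mv_congr (fun j hj => ih j hj (hj.trans hi)) g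
    have e1 := h1 i hi
    have e2 := h2 i hi
    have e3 := hW i hi
    rw [tv_eq_eval, tv_eq_eval] at e1
    rw [tv_eq_eval, tv_eq_eval, ← hm] at e2
    rw [tv_eq_eval] at e3
    refine per_one ((T.P i).map (mv x)) ((T.R i).map (mv x)) (hd i hi) ?_ ?_
    · unfold Tow.W at e3
      rwa [Polynomial.map_sub, Polynomial.map_mul, Polynomial.map_mul, ← derivative_map,
        ← derivative_map] at e3
    · linear_combination
        (-(((T.R i).map (mv x)).eval (x' i))) * e1 + (((T.R i).map (mv x)).eval (x i)) * e2

theorem per_finite {S : Type u} [CommRing S] [IsLocalRing S] [Finite S] (T : Tow S) (m : ℕ)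
    (x : ℕ → ℕ → S) (hx : T.Orb m x) (hW : ∀ t, ∀ i < m, IsUnit (tv (x t) (T.W i))) {r : ℕ}
    (hr : 0 < r) (hper : ∀ t, ∀ i < m, x (t + r) i - x t i ∈ IsLocalRing.maximalIdeal S) :
    ∃ N, 0 < N ∧ ∀ t, ∀ i < m, x (t + N) i = x t i := by
  have hdet : ∀ t t' : ℕ, (∀ i < m, x t i = x t' i) → ∀ j, ∀ i < m, x (t + j) i = x (t' + j) i := by
    intro t t' h j
    induction j with
    | zero => simpa using h
    | succ j ih =>
      intro i hi
      have h1 := hx.step (t + j) i hi
      have h2 := hx.step (t' + j) i hi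
      have h3 : ∀ k < i + 1, x (t + j) k = x (t' + j) k := fun k hk => ih k (by omega)
      rw [tv_congr h3 (T.R i), tv_congr h3 (T.P i)] at h1
      have h4 := hx.unit (t' + j) i hi
      exact h4.mul_right_cancel (h1.trans h2.symm)
  have hper' : ∀ k t : ℕ, ∀ i < m, x (t + r * k) i - x t i ∈ IsLocalRing.maximalIdeal S := by
    intro k
    induction k with
    | zero => intro t i hi; simp
    | succ k ih =>
      intro t i hi
      have h1 := ih t i hi
      have h2 := hper (t + r * k) i hi
      have h3 := Ideal.add_mem _ h2 h1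
      have e : x (t + r * (k + 1)) i - x t i =
          x (t + r * k + r) i - x (t + r * k) i + (x (t + r * k) i - x t i) := by
        rw [show t + r * (k + 1) = t + r * k + r by ring]
        ring
      rw [e]
      exact h3
  obtain ⟨a0, b0, hab0, he0⟩ := Finite.exists_ne_map_eq_of_infinite
    (fun a : ℕ => fun i : Fin m => x (r * a) i)
  obtain ⟨a, b, hab, he⟩ : ∃ a b : ℕ, a < b ∧ ∀ i < m, x (r * a) i = x (r * b) i := by
    rcases lt_or_gt_of_ne hab0 with h | h
    · exact ⟨a0, b0, h, fun i hi => congrFun he0 ⟨i, hi⟩⟩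
    · exact ⟨b0, a0, h, fun i hi => (congrFun he0 ⟨i, hi⟩).symm⟩
  refine ⟨r * (b - a), Nat.mul_pos hr (by omega), ?_⟩
  have hN : r * a + r * (b - a) = r * b := by
    rw [← Nat.mul_add]; congr 1; omega
  have key : ∀ k t : ℕ, r * a ≤ t + k → ∀ i < m, x (t + r * (b - a)) i = x t i := by
    intro k
    induction k with
    | zero =>
      intro t ht i hi
      obtain ⟨j, rfl⟩ := Nat.exists_eq_add_of_le (show r * a ≤ t by omega)
      have h1 := hdet (r * a) (r * b) he j i hi
      rw [show r * a + j + r * (b - a) = r * b + j by omega]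
      exact h1.symm
    | succ k ih =>
      intro t ht
      have h1 := ih (t + 1) (by omega)
      have h2 := per_inj T m (x := x t) (x' := x (t + r * (b - a))) (z := x (t + 1))
        (hper' (b - a) t) (hW t) (hx.step t) (fun i hi => by
          have h3 := hx.step (t + r * (b - a)) i hi
          rw [show t + r * (b - a) + 1 = t + 1 + r * (b - a) by omega, h1 i hi] at h3
          exact h3)
      exact fun i hi => (h2 i hi).symm
  exact fun t i hi => key (r * a) t (by omega) i hi

end Pool.Agent.H51.TT
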