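import Pool.Agent.H51.TT.Loc
import Pool.Agent.H71.ZD.Trop1

/-!
# Module PlA: a finitely generated subring with infinitely many residue characteristics

PROOF.  `R = (Algebra.adjoin ℤ (U ∪ U⁻¹)).toSubring`, finitely generated over `ℤ`.  Given `M`,
apply `Pool.Agent.H71.ZD.exists_nonunit` to the finite set `U ∪ U⁻¹ ∪ {(q : k)⁻¹ : 0 < q ≤ M}`:
there is `a : ℕ`, `a ≠ 0`, which is not a unit in the bigger ring `R'`.  `a` is a product of primes,
so some prime factor `p` of `a` is not a unit in `R'`.  All primes `q ≤ M` are units of `R'`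
(inverse in the set; char 0), so `p > M`.  A unit of `R` is a unit of `R'` (`R ≤ R'`), so `p` is not
a unit in `R`.
-/

set_option autoImplicit false

open Polynomial

namespace Pool.Agent.H51.TT

universe u

private theorem pla_unit {R : Type u} [CommRing R] (a : ℕ) : a ≠ 0 →
    (∀ p : ℕ, p.Prime → p ∣ a → IsUnit (p : R)) → IsUnit (a : R) := by
  induction a using Nat.recOnMul with
  | zero => intro h; exact absurd rfl h
  | one => intro _ _; rw [Nat.cast_one]; exact isUnit_one
  | prime p hp => intro _ h; exact h p hp dvd_rfl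
  | mul a b ha hb =>
    intro h0 h
    have h1 : a ≠ 0 := fun h2 => h0 (by rw [h2, zero_mul])
    have h2 : b ≠ 0 := fun h2 => h0 (by rw [h2, mul_zero])
    rw [Nat.cast_mul]
    exact (ha h1 fun p hp hd => h p hp (dvd_mul_of_dvd_left hd b)).mul
      (hb h2 fun p hp hd => h p hp (dvd_mul_of_dvd_right hd a))

theorem exists_fg {k : Type u} [Field k] [CharZero k] (U : Set k) (hU : U.Finite) :
    ∃ R : Subring k, Algebra.FiniteType ℤ R ∧ (∀ u ∈ U, u ∈ R ∧ u⁻¹ ∈ R) ∧
      ∀ M : ℕ, ∃ p : ℕ, M < p ∧ p.Prime ∧ ¬ IsUnit (p : R) := by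
  classical
  obtain ⟨T0, hT0⟩ : ∃ T0 : Set k, T0 = U ∪ (fun s => s⁻¹) '' U := ⟨_, rfl⟩
  have hT0f : T0.Finite := by
    rw [hT0]
    exact hU.union (hU.image _)
  refine ⟨(Algebra.adjoin ℤ T0).toSubring, ?_, ?_, ?_⟩
  · have hft : Algebra.FiniteType ℤ (Algebra.adjoin ℤ T0) := by
      rw [← Subalgebra.fg_iff_finiteType]
      exact Subalgebra.fg_adjoin_finset hT0f.toFinset |> fun h => by simpa using h
    exact hft
  · intro u hu
    refine ⟨Algebra.subset_adjoin ?_, Algebra.subset_adjoin ?_⟩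
    · rw [hT0]; exact Or.inl hu
    · rw [hT0]; exact Or.inr ⟨u, hu, rfl⟩
  · intro M
    obtain ⟨S, hS⟩ : ∃ S : Set k, S = T0 ∪ (fun q : ℕ => (q : k)⁻¹) '' (Set.Iic M) := ⟨_, rfl⟩
    have hSf : S.Finite := by
      rw [hS]
      exact hT0f.union ((Set.finite_Iic M).image _)
    obtain ⟨a, ha, hau⟩ := Pool.Agent.H71.ZD.exists_nonunit S hSf
    obtain ⟨p, hp, _, hpu⟩ : ∃ p : ℕ, p.Prime ∧ p ∣ a ∧
        ¬ IsUnit (p : (Algebra.adjoin ℤ S).toSubring) := by
      by_contra hcon
      push Not at hcon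
      exact hau (pla_unit a ha hcon)
    have hle : (Algebra.adjoin ℤ T0).toSubring ≤ (Algebra.adjoin ℤ S).toSubring := by
      intro x hx
      have h1 : Algebra.adjoin ℤ T0 ≤ Algebra.adjoin ℤ S := by
        apply Algebra.adjoin_mono
        rw [hS]
        exact Set.subset_union_left
      exact h1 hx
    refine ⟨p, ?_, hp, fun hu => hpu ?_⟩
    · by_contra hpM
      push Not at hpM
      apply hpu
      have hinv : (p : k)⁻¹ ∈ (Algebra.adjoin ℤ S).toSubring := by
        have h1 : (p : k)⁻¹ ∈ S := by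
          rw [hS]
          exact Or.inr ⟨p, hpM, rfl⟩
        exact Algebra.subset_adjoin h1
      have hp0 : (p : k) ≠ 0 := by exact_mod_cast hp.ne_zero
      refine IsUnit.of_mul_eq_one ⟨(p : k)⁻¹, hinv⟩ ?_
      apply Subtype.ext
      push_cast
      exact mul_inv_cancel₀ hp0
    · have h1 := hu.map (Subring.inclusion hle)
      rwa [map_natCast] at h1

end Pool.Agent.H51.TT
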