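import Pool.Agent.H51.TT.Loc
import Pool.Agent.H71.ZD.Trop1

/-!
# Module PlB: the integral closure and a maximal ideal over a prime number

PROOF.  `B = (integralClosure R k).toSubring`-like: the subring of all `x : k` integral over `R`;
`R ≤ B`; an element of `k` integral over `B` is integral over `R` (transitivity,
`isIntegral_trans`), hence in `B`.
`p` is not a unit of `B`: if `y ∈ B`, `p y = 1`, then `y = p⁻¹` is integral over `R`; from a monic
equation `y^n + c_1 y^(n-1) + … + c_n = 0` multiply by `p^(n-1)`: `y = -(c_1 + c_2 p + …) ∈ R`, so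
`p` is a unit of `R`, excluded.  (Mathlib: `IsIntegral.of_inv`-like lemmas, or
`isUnit_of_isIntegral_of_isUnit`-like: for `R ≤ B` integral, `IsUnit` reflects,
`IsIntegral`/`Algebra.IsIntegral.isLocalHom` or `isLocalHom_of_isIntegral`.)
So there is a maximal ideal `Q` of `B` containing `p` (`Ideal.exists_le_maximal` for
`span {p} ≠ ⊤`), and `B ⧸ Q` is a field of characteristic `p`
(`CharP` from `p = 0` and `p` prime).
`Q ∩ R` is maximal in `R` (`Ideal.isMaximal_comap_of_isIntegral_of_isMaximal`), `R ⧸ (Q ∩ R)` is a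
field which is a finitely generated ring, hence module-finite over `ℤ`
(`finite_of_finite_type_of_isJacobsonRing ℤ _` with `Pool.Agent.H71.ZD.int_jacobson`) and killed
by `p`, hence finite.  Every element `c` of `B ⧸ Q` is integral over it, hence algebraic over a
finite field `F` of characteristic `p`, so it lies in a finite field and `c ^ p ^ s = c` for some
`s > 0` (e.g. `FiniteField` : the subfield `F(c)` is finite, `Fintype.card = p ^ s`,
`FiniteField.pow_card`).
-/

set_option autoImplicit false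

open Polynomial

namespace Pool.Agent.H51.TT

universe u

theorem exists_max {k : Type u} [Field k] [CharZero k] (R : Subring k)
    (hR : Algebra.FiniteType ℤ R) (p : ℕ) (hp : p.Prime) (hpu : ¬ IsUnit (p : R)) :
    ∃ (B : Subring k) (Q : Ideal B), Q.IsMaximal ∧ R ≤ B ∧
      (∀ x : k, IsIntegral B x → x ∈ B) ∧ CharP (B ⧸ Q) p ∧
      ∀ c : B ⧸ Q, ∃ s : ℕ, 0 < s ∧ c ^ p ^ s = c := by
  classical
  obtain ⟨B, hmemB⟩ : ∃ B : Subring k, ∀ x : k, x ∈ B ↔ IsIntegral R x :=
    ⟨(integralClosure R k).toSubring, fun x => Iff.rfl⟩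
  have hRB : R ≤ B := fun x hx =>
    (hmemB x).mpr (isIntegral_algebraMap (R := R) (A := k) (x := ⟨x, hx⟩))
  let _ : Algebra R B := (Subring.inclusion hRB).toAlgebra
  have _ : IsScalarTower R B k := IsScalarTower.of_algebraMap_eq fun _ => rfl
  have _ : Algebra.IsIntegral R B :=
    ⟨fun b => (isIntegral_algebraMap_iff (R := R) (A := B) (B := k)
      Subtype.val_injective).mp ((hmemB _).mp b.2)⟩
  have hclosed : ∀ x : k, IsIntegral B x → x ∈ B := fun x hx =>
    (hmemB x).mpr (isIntegral_trans (R := R) (A := B) x hx)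
  obtain ⟨m, hm, hpm⟩ := Ideal.exists_le_maximal (Ideal.span {(p : R)})
    (fun h => hpu (Ideal.span_singleton_eq_top.mp h))
  have hpm' : (p : R) ∈ m := hpm (Ideal.mem_span_singleton_self _)
  have hker : RingHom.ker (algebraMap R B) ≤ m := by
    have h1 : RingHom.ker (algebraMap R B) = ⊥ :=
      (RingHom.injective_iff_ker_eq_bot _).mp (Subring.inclusion_injective hRB)
    rw [h1]
    exact bot_le
  obtain ⟨Q, hQ, hQm⟩ := Ideal.exists_ideal_over_maximal_of_isIntegral (S := B) m hker
  have hpQ : (p : B) ∈ Q := by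
    have h1 : (p : R) ∈ Q.comap (algebraMap R B) := by
      rw [hQm]
      exact hpm'
    rw [Ideal.mem_comap, map_natCast] at h1
    exact h1
  have _ : Nontrivial (B ⧸ Q) := Ideal.Quotient.nontrivial_iff.mpr hQ.ne_top
  have _ : Nontrivial (R ⧸ m) := Ideal.Quotient.nontrivial_iff.mpr hm.ne_top
  have hp0 : ((p : ℕ) : B ⧸ Q) = 0 := by
    rw [← map_natCast (Ideal.Quotient.mk Q)]
    exact Ideal.Quotient.eq_zero_iff_mem.mpr hpQ
  have hp1 : ((p : ℕ) : R ⧸ m) = 0 := by
    rw [← map_natCast (Ideal.Quotient.mk m)]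
    exact Ideal.Quotient.eq_zero_iff_mem.mpr hpm'
  have hchar : CharP (B ⧸ Q) p := ringChar.of_eq (CharP.ringChar_of_prime_eq_zero hp hp0)
  have hcharR : CharP (R ⧸ m) p := ringChar.of_eq (CharP.ringChar_of_prime_eq_zero hp hp1)
  refine ⟨B, Q, hQ, hRB, hclosed, hchar, ?_⟩
  let fQ : Field (B ⧸ Q) := Ideal.Quotient.field Q
  let fm : Field (R ⧸ m) := Ideal.Quotient.field m
  have hJ : IsJacobsonRing ℤ := Pool.Agent.H71.ZD.int_jacobson
  have hft2 : Algebra.FiniteType ℤ (R ⧸ m) :=
    Algebra.FiniteType.of_surjective (Ideal.Quotient.mkₐ ℤ m) Ideal.Quotient.mk_surjective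
  have hfin : Module.Finite ℤ (R ⧸ m) := finite_of_finite_type_of_isJacobsonRing ℤ _
  have hfinR : Finite (R ⧸ m) := by
    refine Module.finite_of_fg_torsion (R ⧸ m) ?_
    intro x
    refine ⟨⟨(p : ℤ), mem_nonZeroDivisors_of_ne_zero (by exact_mod_cast hp.ne_zero)⟩, ?_⟩
    show (p : ℤ) • x = 0
    rw [zsmul_eq_mul, Int.cast_natCast, hp1, zero_mul]
  let _ : Algebra (R ⧸ m) (B ⧸ Q) :=
    (Ideal.quotientMap Q (algebraMap R B) (le_of_eq hQm.symm)).toAlgebra
  intro c
  obtain ⟨b, rfl⟩ := Ideal.Quotient.mk_surjective c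
  have hint : IsIntegral (R ⧸ m) (Ideal.Quotient.mk Q b) := by
    refine IsIntegral.map_of_comp_eq (Ideal.Quotient.mk m) (Ideal.Quotient.mk Q) ?_
      (Algebra.IsIntegral.isIntegral (R := R) b)
    ext x
    rfl
  have hfd : FiniteDimensional (R ⧸ m)
      (IntermediateField.adjoin (R ⧸ m) {Ideal.Quotient.mk Q b}) :=
    IntermediateField.adjoin.finiteDimensional hint
  have hfin2 : Finite (IntermediateField.adjoin (R ⧸ m) {Ideal.Quotient.mk Q b}) :=
    Module.finite_of_finite (R ⧸ m)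
  have hft : Fintype (IntermediateField.adjoin (R ⧸ m) {Ideal.Quotient.mk Q b}) :=
    Fintype.ofFinite _
  have hcK : CharP (IntermediateField.adjoin (R ⧸ m) {Ideal.Quotient.mk Q b}) p :=
    (algebraMap (IntermediateField.adjoin (R ⧸ m) {Ideal.Quotient.mk Q b}) (B ⧸ Q)).charP
      (algebraMap (IntermediateField.adjoin (R ⧸ m) {Ideal.Quotient.mk Q b}) (B ⧸ Q)).injective p
  obtain ⟨n, -, hn⟩ := FiniteField.card
    (IntermediateField.adjoin (R ⧸ m) {Ideal.Quotient.mk Q b}) p
  refine ⟨n, n.pos, ?_⟩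
  have h1 := FiniteField.pow_card
    (⟨Ideal.Quotient.mk Q b, IntermediateField.mem_adjoin_simple_self _ _⟩ :
      IntermediateField.adjoin (R ⧸ m) {Ideal.Quotient.mk Q b})
  rw [hn] at h1
  exact congrArg Subtype.val h1

end Pool.Agent.H51.TT
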