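import Pool.Agent.H51.TT.Loc

/-!
# Module PlC: finite sets lie in Noetherian local subrings with finite residue field

PROOF.  For `s ∈ S` write `s * b_s = a_s` with `a_s, b_s ∈ B`, `b_s ∉ Q`.  Let
`R' = (Algebra.adjoin ℤ {a_s, b_s}).toSubring ≤ B` (as a subring of `k`), a finitely generated
ring, hence Noetherian (`Algebra.FiniteType.isNoetherianRing ℤ _`), `P = Q ∩ R'` (comap of `Q`
under the inclusion `R' → B`), a prime ideal.  Take `A = (LocalSubring.ofPrime R' P).toSubring`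
(Mathlib), or `A = lO R' P`; it is the localisation of `R'` at `P`
(`IsLocalization.AtPrime`), so local and Noetherian (`IsLocalization.isNoetherianRing`).
`S ⊆ A ≤ lO B Q` because elements of `R'` outside `P` are elements of `B` outside `Q`.
For `x = a / b ∈ A` (`a, b ∈ R'`, `b ∉ P`): `x` is a unit of `A` iff `a ∉ P` iff `a ∉ Q` iff
`lρ x ≠ 0` (`lρ_spec`).
Residue field: the map `lρ` restricted to `A` has kernel the maximal ideal; its image is the
field generated by the images of the finitely many generators in `B ⧸ Q`, more precisely the image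
of `R'` in `B ⧸ Q` is a ring generated by finitely many elements `c` with `c ^ p ^ s = c`; so there
is `s > 0` with `c ^ p ^ s = c` for all elements `c` of the image (the set of solutions is a
subring in characteristic `p`), which has at most `p ^ s` elements (roots of a polynomial); the
same equation holds for the quotients `a / b`; so the image of `A` is finite.
-/

set_option autoImplicit false

open Polynomial

namespace Pool.Agent.H51.TT

universe u

/-- the localisation of a subring at a prime ideal is a localisation -/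
private theorem plc_noeth {k : Type u} [Field k] (R : Subring k) (P : Ideal R) [P.IsPrime]
    (hR : IsNoetherianRing R) : IsNoetherianRing (lO R P) := by
  let i : R →+* lO R P := Subring.inclusion (le_lO R P)
  let _ : Algebra R (lO R P) := i.toAlgebra
  have hi : ∀ r : R, ((algebraMap R (lO R P) r : lO R P) : k) = r := fun r => rfl
  have h : IsLocalization.AtPrime (lO R P) P := by
    refine ⟨?_⟩
    refine ⟨?_, ?_, ?_⟩
    · rintro ⟨y, hy⟩
      have hy0 : (y : k) ≠ 0 := by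
        intro h0
        have h1 : y = 0 := Subtype.ext h0
        exact hy (h1 ▸ P.zero_mem)
      refine ⟨⟨algebraMap R (lO R P) y, ⟨(y : k)⁻¹, mem_lO.mpr ⟨1, y, hy, ?_⟩⟩, ?_, ?_⟩, rfl⟩
      · rw [inv_mul_cancel₀ hy0]; rfl
      · exact Subtype.ext (mul_inv_cancel₀ hy0)
      · exact Subtype.ext (inv_mul_cancel₀ hy0)
    · intro z
      obtain ⟨a, b, hb, h⟩ := mem_lO.mp z.2
      exact ⟨(a, ⟨b, hb⟩), Subtype.ext h⟩
    · intro x y hxy
      refine ⟨1, ?_⟩
      have h1 : (x : k) = y := congrArg (fun z : lO R P => (z : k)) hxy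
      rw [Subtype.ext h1]
  exact IsLocalization.isNoetherianRing P.primeCompl _ hR

/-- the solutions of `c ^ p ^ s = c` -/
private noncomputable def plc_E (K : Type u) [Field K] (p : ℕ) [ExpChar K p] (s : ℕ) :
    Subring K :=
  RingHom.eqLocus (iterateFrobenius K p s) (RingHom.id K)

private theorem plc_mem_E {K : Type u} [Field K] {p : ℕ} [ExpChar K p] {s : ℕ} {c : K} :
    c ∈ plc_E K p s ↔ c ^ p ^ s = c := Iff.rfl

private theorem plc_E_mul {K : Type u} [Field K] {p : ℕ} [ExpChar K p] {s : ℕ} (m : ℕ) {c : K}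
    (h : c ∈ plc_E K p s) : c ∈ plc_E K p (s * m) := by
  rw [plc_mem_E] at h ⊢
  induction m with
  | zero => simp
  | succ m ih => rw [Nat.mul_succ, pow_add, pow_mul, ih, h]

private theorem plc_E_finite (K : Type u) [Field K] (p : ℕ) [Fact p.Prime] [ExpChar K p] (s : ℕ)
    (hs : 0 < s) : Set.Finite (plc_E K p s : Set K) := by
  have hp : 1 < p ^ s := Nat.one_lt_pow hs.ne' (Fact.out : p.Prime).one_lt
  have h0 : (Polynomial.X ^ p ^ s - Polynomial.X : K[X]) ≠ 0 := FiniteField.X_pow_card_sub_X_ne_zero K hp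
  refine (Polynomial.finite_setOfPred_isRoot h0).subset ?_
  intro c hc
  have h1 : c ^ p ^ s = c := hc
  simp [Polynomial.IsRoot, h1]

private theorem plc_exp {K : Type u} [Field K] {p : ℕ} [ExpChar K p]
    (hfin : ∀ c : K, ∃ s : ℕ, 0 < s ∧ c ^ p ^ s = c) (T : Set K) (hT : T.Finite) :
    ∃ s : ℕ, 0 < s ∧ T ⊆ plc_E K p s := by
  induction T, hT using Set.Finite.induction_on with
  | empty => exact ⟨1, one_pos, Set.empty_subset _⟩
  | insert _ _ ih =>
    rename_i a T _ _
    obtain ⟨s, hs, h⟩ := ih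
    obtain ⟨s', hs', h'⟩ := hfin a
    refine ⟨s * s', Nat.mul_pos hs hs', ?_⟩
    rintro c (rfl | hc)
    · rw [mul_comm]
      exact plc_E_mul s (plc_mem_E.2 h')
    · exact plc_E_mul s' (h hc)

theorem lO_loc {k : Type u} [Field k] (B : Subring k) (Q : Ideal B) [Q.IsMaximal] {p : ℕ}
    [Fact p.Prime] [CharP (B ⧸ Q) p] (hfin : ∀ c : B ⧸ Q, ∃ s : ℕ, 0 < s ∧ c ^ p ^ s = c)
    (S : Set k) (hS : S.Finite) (hSO : S ⊆ lO B Q) :
    ∃ (A : Subring k) (hA : A ≤ lO B Q) (_ : IsLocalRing A),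
      S ⊆ A ∧ IsNoetherianRing A ∧ Finite (IsLocalRing.ResidueField A) ∧
      ∀ x : A, x ∈ IsLocalRing.maximalIdeal A ↔ lρ B Q ⟨x, hA x.2⟩ = 0 := by
  classical
  let _ : Field (B ⧸ Q) := Ideal.Quotient.field Q
  have _ : ExpChar (B ⧸ Q) p := ExpChar.prime (Fact.out : p.Prime)
  have h1 : ∀ s : S, ∃ a b : B, b ∉ Q ∧ (s : k) * b = a := fun s => mem_lO.mp (hSO s.2)
  choose a b hb hab using h1
  have hSf : Finite S := hS
  let G : Set k := Set.range (fun s : S => (a s : k)) ∪ Set.range (fun s : S => (b s : k))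
  have hG : G.Finite := (Set.finite_range _).union (Set.finite_range _)
  let R : Subring k := Subring.closure G
  have hRB : R ≤ B := by
    refine Subring.closure_le.2 ?_
    rintro _ (⟨s, rfl⟩ | ⟨s, rfl⟩)
    · exact (a s).2
    · exact (b s).2
  have hRn : IsNoetherianRing R := is_noetherian_subring_closure G hG
  let P : Ideal R := Q.comap (Subring.inclusion hRB)
  have hP : P.IsPrime := inferInstance
  have hmemP : ∀ r : R, r ∈ P ↔ (⟨r, hRB r.2⟩ : B) ∈ Q := fun r => Iff.rfl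
  have hA : lO R P ≤ lO B Q := by
    intro x hx
    obtain ⟨u, v, hv, h⟩ := mem_lO.mp hx
    exact mem_lO.mpr ⟨⟨u, hRB u.2⟩, ⟨v, hRB v.2⟩, fun h0 => hv h0, h⟩
  let f : lO R P →+* B ⧸ Q := (lρ B Q).comp (Subring.inclusion hA)
  have hfu : ∀ (x : lO R P) (u v : R), v ∉ P → (x : k) * v = u →
      f x * Ideal.Quotient.mk Q ⟨v, hRB v.2⟩ = Ideal.Quotient.mk Q ⟨u, hRB u.2⟩ ∧
        Ideal.Quotient.mk Q ⟨v, hRB v.2⟩ ≠ 0 := by
    intro x u v hv h
    refine ⟨lρ_spec B Q ⟨x, hA x.2⟩ ⟨u, hRB u.2⟩ ⟨v, hRB v.2⟩ h, fun h0 => hv ?_⟩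
    exact (hmemP v).2 (Ideal.Quotient.eq_zero_iff_mem.mp h0)
  have hunit : ∀ x : lO R P, f x ≠ 0 → IsUnit x := by
    intro x hx
    obtain ⟨u, v, hv, h⟩ := mem_lO.mp x.2
    obtain ⟨h2, h3⟩ := hfu x u v hv h
    have hu : u ∉ P := by
      intro hu
      have h4 : Ideal.Quotient.mk Q (⟨u, hRB u.2⟩ : B) = 0 :=
        Ideal.Quotient.eq_zero_iff_mem.mpr hu
      rw [h4] at h2
      rcases mul_eq_zero.mp h2 with h5 | h5
      · exact hx h5
      · exact h3 h5
    have hu0 : (u : k) ≠ 0 := by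
      intro h0
      have h1 : u = 0 := Subtype.ext h0
      exact hu (h1 ▸ P.zero_mem)
    have hx0 : (x : k) ≠ 0 := by
      intro h0; rw [h0, zero_mul] at h; exact hu0 h.symm
    refine ⟨⟨x, ⟨(x : k)⁻¹, mem_lO.mpr ⟨v, u, hu, ?_⟩⟩, ?_, ?_⟩, rfl⟩
    · rw [← h, inv_mul_cancel_left₀ hx0]
    · exact Subtype.ext (mul_inv_cancel₀ hx0)
    · exact Subtype.ext (inv_mul_cancel₀ hx0)
  have hloc : IsLocalHom f := ⟨fun x hx => hunit x hx.ne_zero⟩
  have hlocal : IsLocalRing (lO R P) := f.domain_isLocalRing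
  have hmax : ∀ x : lO R P, x ∈ IsLocalRing.maximalIdeal (lO R P) ↔ f x = 0 := by
    intro x
    rw [IsLocalRing.mem_maximalIdeal, mem_nonunits_iff]
    constructor
    · intro h
      by_contra h0
      exact h (hunit x h0)
    · intro h h0
      exact (h0.map f).ne_zero h
  refine ⟨lO R P, hA, hlocal, ?_, plc_noeth R P hRn, ?_, hmax⟩
  · intro s hs
    refine mem_lO.mpr ⟨⟨a ⟨s, hs⟩, Subring.subset_closure (Or.inl ⟨⟨s, hs⟩, rfl⟩)⟩,
      ⟨b ⟨s, hs⟩, Subring.subset_closure (Or.inr ⟨⟨s, hs⟩, rfl⟩)⟩, fun h0 => hb ⟨s, hs⟩ h0,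
      hab ⟨s, hs⟩⟩
  · obtain ⟨s, hs, hE⟩ := plc_exp hfin
      (Set.range (fun s : S => Ideal.Quotient.mk Q (a s)) ∪
        Set.range (fun s : S => Ideal.Quotient.mk Q (b s)))
      ((Set.finite_range _).union (Set.finite_range _))
    have hRE : R ≤ ((plc_E (B ⧸ Q) p s).comap (Ideal.Quotient.mk Q)).map B.subtype := by
      refine Subring.closure_le.2 ?_
      rintro _ (⟨t, rfl⟩ | ⟨t, rfl⟩)
      · exact ⟨a t, hE (Or.inl ⟨t, rfl⟩), rfl⟩
      · exact ⟨b t, hE (Or.inr ⟨t, rfl⟩), rfl⟩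
    have hRE' : ∀ r : R, Ideal.Quotient.mk Q ⟨r, hRB r.2⟩ ∈ plc_E (B ⧸ Q) p s := by
      intro r
      obtain ⟨r', hr', h⟩ := hRE r.2
      have h2 : r' = ⟨r, hRB r.2⟩ := Subtype.ext h
      rw [← h2]
      exact hr'
    have hfE : ∀ x : lO R P, f x ∈ plc_E (B ⧸ Q) p s := by
      intro x
      obtain ⟨u, v, hv, h⟩ := mem_lO.mp x.2
      obtain ⟨h2, h3⟩ := hfu x u v hv h
      have hu := plc_mem_E.1 (hRE' u)
      have hv := plc_mem_E.1 (hRE' v)
      rw [plc_mem_E, eq_div_of_mul_eq h3 h2, div_pow, hu, hv]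
    let g : IsLocalRing.ResidueField (lO R P) →+* B ⧸ Q :=
      IsLocalRing.ResidueField.lift f
    have hg : Function.Injective g := g.injective
    have hgE : ∀ x, g x ∈ plc_E (B ⧸ Q) p s := by
      intro x
      obtain ⟨y, rfl⟩ := IsLocalRing.residue_surjective x
      exact hfE y
    have hfinE : Finite (plc_E (B ⧸ Q) p s) := plc_E_finite (B ⧸ Q) p s hs
    exact Finite.of_injective (fun x => (⟨g x, hgE x⟩ : plc_E (B ⧸ Q) p s))
      (fun x y h => hg (congrArg Subtype.val h))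

end Pool.Agent.H51.TT
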