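import Pool.Agent.H51.TT.Loc

/-!
# Module PlD: moving finite subsets of `k` into the local ring linearly

PROOF.  Let `K₀ = {a / b : a, b ∈ B, b ≠ 0}`, a subfield of `k` (`Subfield.closure B`, or define
it).  Let `s₀ ∈ S`, `s₀ ≠ 0`.  `k` is a `K₀`-vector space, so there is a `K₀`-linear
`f : k → K₀` with `f s₀ ≠ 0` (`Module.forall_dual_apply_eq_zero_iff` /
`exists_dual_map_ne_zero`-like).  For `s ∈ S`, `f s = a_s / b_s`; let `b = ∏_{s ∈ S} b_s ∈ B`,
`b ≠ 0`.  Put `l a = b * f a`.  It is additive and `l (o a) = o l a` for `o ∈ lO B Q ⊆ K₀`;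
`l s ∈ B ≤ lO B Q` for `s ∈ S`, and `l s₀ ≠ 0`.
-/

set_option autoImplicit false

open Polynomial

namespace Pool.Agent.H51.TT

universe u

theorem lO_lin {k : Type u} [Field k] (B : Subring k) (Q : Ideal B) [Q.IsMaximal]
    (S : Set k) (hS : S.Finite) (hS0 : ∃ s ∈ S, s ≠ 0) : ∃ l : k →+ k,
    (∀ (o : lO B Q) (a : k), l ((o : k) * a) = o * l a) ∧ (∀ s ∈ S, l s ∈ lO B Q) ∧
      ∃ s ∈ S, l s ≠ 0 := by
  classical
  obtain ⟨s₀, hs₀, hs₀0⟩ := hS0
  let K₀ : Subfield k := Subfield.closure (B : Set k)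
  have hBK : ∀ b : B, (b : k) ∈ K₀ := fun b => Subfield.subset_closure b.2
  have hOK : ∀ x ∈ lO B Q, x ∈ K₀ := by
    intro x hx
    obtain ⟨a, b, hb, h⟩ := mem_lO.mp hx
    have hb0 : (b : k) ≠ 0 := by
      intro h0
      apply hb
      have : b = 0 := Subtype.ext h0
      rw [this]
      exact Q.zero_mem
    have hx2 : x = (a : k) / (b : k) := by
      rw [eq_div_iff hb0, h]
    rw [hx2]
    exact K₀.div_mem (hBK a) (hBK b)
  have hfr : ∀ x : K₀, ∃ b : B, (b : k) ≠ 0 ∧ (b : k) * (x : k) ∈ B := by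
    intro x
    have hx : (x : k) ∈ Subfield.closure (B : Set k) := x.2
    rw [Subfield.mem_closure_iff] at hx
    obtain ⟨y, hy, z, hz, h⟩ := hx
    rw [Subring.closure_eq] at hy hz
    by_cases hz0 : z = 0
    · refine ⟨1, by simp, ?_⟩
      rw [← h, hz0]
      simp
    · refine ⟨⟨z, hz⟩, hz0, ?_⟩
      rw [← h]
      show z * (y / z) ∈ B
      rw [mul_div_cancel₀ _ hz0]
      exact hy
  choose den hden0 hden using hfr
  have hf : ∃ f : Module.Dual K₀ k, f s₀ ≠ 0 := by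
    by_contra hcon
    push Not at hcon
    exact hs₀0 ((Module.forall_dual_apply_eq_zero_iff K₀ s₀).mp hcon)
  obtain ⟨f, hf⟩ := hf
  let b : B := ∏ s ∈ hS.toFinset, den (f s)
  have hb0 : (b : k) ≠ 0 := by
    have : (b : k) = ∏ s ∈ hS.toFinset, (den (f s) : k) := by
      simp [b]
    rw [this, Finset.prod_ne_zero_iff]
    intro s _
    exact hden0 _
  refine ⟨(AddMonoidHom.mulLeft (b : k)).comp
    ((K₀.subtype : K₀ →+* k).toAddMonoidHom.comp f.toAddMonoidHom), ?_, ?_, ?_⟩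
  · intro o a
    show (b : k) * ((f ((o : k) * a) : K₀) : k) = o * ((b : k) * ((f a : K₀) : k))
    have h1 : (o : k) * a = (⟨(o : k), hOK _ o.2⟩ : K₀) • a := rfl
    rw [h1, map_smul, smul_eq_mul]
    show (b : k) * ((o : k) * ((f a : K₀) : k)) = o * ((b : k) * ((f a : K₀) : k))
    ring
  · intro s hs
    apply le_lO B Q
    show (b : k) * ((f s : K₀) : k) ∈ B
    have h1 : b = (∏ s' ∈ hS.toFinset.erase s, den (f s')) * den (f s) := by
      rw [mul_comm]
      exact (Finset.mul_prod_erase _ _ (by simpa using hs)).symm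
    rw [h1, Subring.coe_mul, mul_assoc]
    exact B.mul_mem (Subtype.mem _) (hden _)
  · refine ⟨s₀, hs₀, ?_⟩
    show (b : k) * ((f s₀ : K₀) : k) ≠ 0
    apply mul_ne_zero hb0
    intro h0
    exact hf (Subtype.ext h0)

end Pool.Agent.H51.TT
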