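import Pool.Agent.H51.TT.Loc

/-!
# Module PlE: residue fields of integrally closed subrings of algebraically closed fields

PROOF of `closed_quot`.  `IsAlgClosed.of_exists_root`: a monic (irreducible) polynomial over
`B ⧸ Q` lifts to a monic polynomial over `B` of the same degree (coefficientwise,
`Polynomial.lifts_and_natDegree_eq_and_monic`), which has a root in `k`; the root is integral over
`B`, hence in `B`; its image is a root.

PROOF of `lift_int`.  Let `b₀ ∈ B` be a lift of `c`, `q = p ^ s`, `s > 0`.  The polynomial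
`X ^ q - X` splits over `k`: `∏ (X - ζ)` over its roots `ζ`, which are integral over `ℤ`, so over
`B`, so in `B`.  So `b₀ ^ q - b₀ = ∏ (b₀ - ζ)` in `k`, hence in `B`, and its image in `B ⧸ Q` is
`c ^ q - c = 0`; so some factor `b₀ - ζ` lies in `Q` and `ζ` is the required lift.
-/

set_option autoImplicit false

open Polynomial

namespace Pool.Agent.H51.TT

universe u

private theorem monic_X_pow_sub_X_aux (R : Type*) [CommRing R] {q : ℕ} (hq : 1 < q) :
    (X ^ q - X : R[X]).Monic := by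
  nontriviality R
  refine monic_X_pow_sub ?_
  rw [degree_X]
  exact_mod_cast hq

theorem closed_quot {k : Type u} [Field k] [IsAlgClosed k] (B : Subring k)
    (hB : ∀ x : k, IsIntegral B x → x ∈ B) (Q : Ideal B) [hQ : Q.IsMaximal] :
    @IsAlgClosed (B ⧸ Q) (Ideal.Quotient.field Q) := by
  let _ : Field (B ⧸ Q) := Ideal.Quotient.field Q
  refine IsAlgClosed.of_exists_root _ ?_
  intro p hmon hirr
  have hp : p ∈ Polynomial.lifts (Ideal.Quotient.mk Q) := by
    rw [Polynomial.lifts_iff_coeff_lifts]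
    intro n
    exact Ideal.Quotient.mk_surjective (p.coeff n)
  obtain ⟨q, hq, hdeg, hqm⟩ := Polynomial.lifts_and_natDegree_eq_and_monic hp hmon
  have hd1 : 0 < p.natDegree := hirr.natDegree_pos
  have hd2 : (q.map B.subtype).degree ≠ 0 := by
    have h1 : (q.map B.subtype).natDegree = q.natDegree := hqm.natDegree_map _
    intro h0
    have h2 := natDegree_eq_of_degree_eq_some (n := 0) h0
    omega
  obtain ⟨x, hx⟩ := IsAlgClosed.exists_root (q.map B.subtype) hd2
  have hx' : q.eval₂ B.subtype x = 0 := by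
    rw [← eval_map]
    exact hx
  have hxB : x ∈ B := hB x ⟨q, hqm, hx'⟩
  refine ⟨Ideal.Quotient.mk Q ⟨x, hxB⟩, ?_⟩
  have h3 : q.eval (⟨x, hxB⟩ : B) = 0 := by
    apply Subtype.ext
    have h4 := Polynomial.eval₂_at_apply (p := q) B.subtype (⟨x, hxB⟩ : B)
    rw [ZeroMemClass.coe_zero, ← hx']
    exact h4.symm
  rw [← hq, eval_map, Polynomial.eval₂_at_apply, h3, map_zero]

theorem lift_int {k : Type u} [Field k] [IsAlgClosed k] (B : Subring k)
    (hB : ∀ x : k, IsIntegral B x → x ∈ B) (Q : Ideal B) [hQ : Q.IsMaximal] (c : B ⧸ Q)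
    {q : ℕ} (hq : 1 < q) (hc : c ^ q = c) :
    ∃ b : B, IsIntegral ℤ (b : k) ∧ Ideal.Quotient.mk Q b = c := by
  classical
  obtain ⟨b₀, rfl⟩ := Ideal.Quotient.mk_surjective c
  have hmon : (X ^ q - X : k[X]).Monic := monic_X_pow_sub_X_aux k hq
  have hmonZ : (X ^ q - X : ℤ[X]).Monic := monic_X_pow_sub_X_aux ℤ hq
  have hint : ∀ ζ ∈ (X ^ q - X : k[X]).roots, IsIntegral ℤ ζ := by
    intro ζ hζ
    have h1 := isRoot_of_mem_roots hζ
    rw [IsRoot.def, eval_sub, eval_pow, eval_X] at h1
    refine ⟨X ^ q - X, hmonZ, ?_⟩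
    rw [eval₂_sub, eval₂_pow, eval₂_X]
    exact h1
  have hmem : ∀ ζ ∈ (X ^ q - X : k[X]).roots, ζ ∈ B := fun ζ hζ =>
    hB ζ ((hint ζ hζ).tower_top)
  let g : k → B := fun ζ => if h : ζ ∈ B then ⟨ζ, h⟩ else 0
  have hg : ∀ ζ ∈ (X ^ q - X : k[X]).roots, (g ζ : k) = ζ := by
    intro ζ hζ
    have := hmem ζ hζ
    simp only [g, dif_pos this]
  have hsp := (IsAlgClosed.splits (X ^ q - X : k[X])).eval_eq_prod_roots_of_monic hmon (b₀ : k)
  rw [eval_sub, eval_pow, eval_X] at hsp
  have hprod : (((X ^ q - X : k[X]).roots.map (fun ζ => b₀ - g ζ)).prod : B) = b₀ ^ q - b₀ := by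
    apply Subtype.ext
    have h1 : ((((X ^ q - X : k[X]).roots.map (fun ζ => b₀ - g ζ)).prod : B) : k) =
        ((X ^ q - X : k[X]).roots.map (fun ζ => (b₀ : k) - ζ)).prod := by
      have h2 := map_multiset_prod B.subtype ((X ^ q - X : k[X]).roots.map (fun ζ => b₀ - g ζ))
      rw [Multiset.map_map] at h2
      refine h2.trans (congrArg Multiset.prod (Multiset.map_congr rfl ?_))
      intro ζ hζ
      have h3 := hg ζ hζ
      simp only [Function.comp_apply, map_sub, Subring.subtype_apply, h3]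
    rw [h1, ← hsp]
    push_cast
    rfl
  have hzero : ((X ^ q - X : k[X]).roots.map
      (fun ζ => Ideal.Quotient.mk Q b₀ - Ideal.Quotient.mk Q (g ζ))).prod = 0 := by
    have h1 := congrArg (Ideal.Quotient.mk Q) hprod
    rw [map_sub, map_pow, hc, sub_self, map_multiset_prod, Multiset.map_map] at h1
    refine (congrArg Multiset.prod (Multiset.map_congr rfl ?_)).trans h1
    intro ζ _
    simp only [Function.comp_apply, map_sub]
  rw [Multiset.prod_eq_zero_iff, Multiset.mem_map] at hzero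
  obtain ⟨ζ, hζ, h0⟩ := hzero
  refine ⟨g ζ, ?_, (sub_eq_zero.mp h0).symm⟩
  rw [hg ζ hζ]
  exact hint ζ hζ

end Pool.Agent.H51.TT
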