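import Pool.Agent.H51.TT.PlA
import Pool.Agent.H51.TT.PlB
import Pool.Agent.H51.TT.PlC
import Pool.Agent.H51.TT.PlD
import Pool.Agent.H51.TT.PlE

/-!
# Module Places: existence of places

PROOF of `exists_plc_of`.  `B, Q` from `exists_max`; `O = lO B Q`, `κ = B ⧸ Q` with
`Ideal.Quotient.field Q`, `ρ = lρ B Q`; `closed` = `closed_quot`, `unit` = `lρ_unit`, `lift` from
`lift_int` and `lρ_coe`, `int`: an algebraic integer is integral over `B`, hence in `B ≤ lO B Q`,
`fin` from `exists_max`, `loc` = `lO_loc`, `lin` = `lO_lin`.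

PROOF of `exists_places`.  `R` from `exists_fg`; choose distinct primes `p_0 < p_1 < … < p_n` which
are nonunits of `R` (choose recursively with `M = p_{j-1}`; e.g. a function `ℕ → ℕ` by
`Nat.rec`, strictly increasing), and apply `exists_plc_of` to each.
-/

set_option autoImplicit false

open Polynomial

namespace Pool.Agent.H51.TT

universe u

theorem exists_plc_of {k : Type u} [Field k] [CharZero k] [IsAlgClosed k] (R : Subring k)
    (hR : Algebra.FiniteType ℤ R) (p : ℕ) (hp : p.Prime) (hpu : ¬ IsUnit (p : R)) :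
    ∃ V : Plc k, V.p = p ∧ R ≤ V.O := by
  obtain ⟨B, Q, hQ, hRB, hint, hchar, hfin⟩ := exists_max R hR p hp hpu
  have : Fact p.Prime := ⟨hp⟩
  refine ⟨{ O := lO B Q
            κ := B ⧸ Q
            fieldκ := Ideal.Quotient.field Q
            closed := closed_quot B hint Q
            p := p
            prime := ⟨hp⟩
            char := hchar
            ρ := lρ B Q
            unit := fun x hx => lρ_unit B Q x hx
            lift := fun c => ?_
            int := fun x hx => le_lO B Q (hint x hx.tower_top)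
            fin := hfin
            loc := fun S hS hSO => lO_loc B Q hfin S hS hSO
            lin := fun S hS hS0 => lO_lin B Q S hS hS0 }, rfl, hRB.trans (le_lO B Q)⟩
  obtain ⟨s, hs, hc⟩ := hfin c
  obtain ⟨b, hb, hbc⟩ := lift_int B hint Q c (q := p ^ s) (Nat.one_lt_pow hs.ne' hp.one_lt) hc
  exact ⟨⟨b, le_lO B Q b.2⟩, hb, (lρ_coe B Q b).trans hbc⟩

/-- For every finite set `U` there are places with different residue characteristics such that
all elements of `U` and their inverses are regular. -/
theorem exists_places {k : Type u} [Field k] [CharZero k] [IsAlgClosed k] (U : Set k)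
    (hU : U.Finite) : ∃ V : ℕ → Plc k, (∀ i j, i ≠ j → (V i).p ≠ (V j).p) ∧
      ∀ j, ∀ u ∈ U, u ∈ (V j).O ∧ u⁻¹ ∈ (V j).O := by
  obtain ⟨R, hR, hU1, hp⟩ := exists_fg U hU
  choose g hg hgp hgu using hp
  let P : ℕ → ℕ := fun n => Nat.rec (g 0) (fun _ m => g m) n
  have hPs : ∀ n, P (n + 1) = g (P n) := fun n => rfl
  have hmono : StrictMono P := strictMono_nat_of_lt_succ fun n => by
    rw [hPs]
    exact hg _
  have hP : ∀ n, (P n).Prime ∧ ¬ IsUnit (Nat.cast (P n) : R) := by
    intro n
    cases n with
    | zero => exact ⟨hgp 0, hgu 0⟩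
    | succ n =>
      rw [hPs]
      exact ⟨hgp _, hgu _⟩
  choose V hV hVR using fun n => exists_plc_of R hR (P n) (hP n).1 (hP n).2
  refine ⟨V, fun i j hij h => hij ?_, fun j u hu => ?_⟩
  · rw [hV, hV] at h
    exact hmono.injective h
  · exact ⟨hVR j (hU1 u hu).1, hVR j (hU1 u hu).2⟩

end Pool.Agent.H51.TT
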