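import Pool.Agent.H51.TT.CycB
import Pool.Agent.H51.TT.Places

/-!
# Module Red: places, reductions and residue cycles

PROOF.  Let `U` be the union of the sets of coefficients `cf` of `T.P i`, `T.R i`, `T.W i`
(`i < n`) and the set of coefficients of `h`: a finite set.  `exists_places` gives `V : ℕ → Plc k`.
Lift: for each `j`, `T.P i`, `T.R i` (all `i`; they are `0` for `i ≥ n`) lift to `(V j).O` by
`exists_lift`; this defines `TO j` with `(TO j).map subtype = T` (prove equality of structures by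
`Tow` `ext`/`congr` on both fields).  For `j = n`, `h` lifts to `hO` (apply `exists_lift` to `C h`
and take the coefficient `0`, or directly).
Nonvanishing: if `q` is a nonzero polynomial over `(V j).O` whose image over `k` has all
coefficients in `U`, then its image under `(V j).ρ` is nonzero, because a nonzero coefficient
`u ∈ U` satisfies `u, u⁻¹ ∈ (V j).O`, so `ρ u ≠ 0`.  Apply this to `(TO j).W i` (`pm_W`, `i < n`),
to `hO`, and to the leading coefficient of `(TO j).P j` (its image is the leading coefficient of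
`T.P j`, because `pm subtype` is injective, and its coefficients belong to `cf (T.P j)`); it is
nonzero since `T.P j ≠ 0`.
For `j ≤ n` apply `exists_cycle` to `(TO j).map (V j).ρ`, `m = j`, and
`g = MvPolynomial.map (V j).ρ ((TO j).P j).leadingCoeff` if `j < n` (with `g = 1` if `T.P j = 0`),
`g = MvPolynomial.map (V n).ρ hO` if `j = n`; `hfin` is `(V j).fin`.  For `j > n` take
`c j = 0`, `r j = 1` (no condition).
-/

set_option autoImplicit false

open Polynomial

namespace Pool.Agent.H51.TT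

universe u

private theorem nvq {k : Type u} [Field k] (V : Plc k) {m : ℕ} (U : Set k)
    (hU : ∀ u ∈ U, u ∈ V.O ∧ u⁻¹ ∈ V.O) (g : MvPolynomial (Fin m) V.O) (h0 : g ≠ 0)
    (hg : ∀ α, ((g.coeff α : V.O) : k) ∈ U) : MvPolynomial.map V.ρ g ≠ 0 := by
  obtain ⟨α, hα⟩ := MvPolynomial.ne_zero_iff.mp h0
  intro hc
  have h1 : V.ρ (g.coeff α) = 0 := by
    rw [← MvPolynomial.coeff_map, hc, MvPolynomial.coeff_zero]
  have hne : ((g.coeff α : V.O) : k) ≠ 0 := by
    intro h; exact hα (Subtype.ext h)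
  have h2 := (hU _ (hg α)).2
  have h3 : g.coeff α * (⟨((g.coeff α : V.O) : k)⁻¹, h2⟩ : V.O) = 1 :=
    Subtype.ext (mul_inv_cancel₀ hne)
  have h4 : V.ρ (g.coeff α) * V.ρ (⟨((g.coeff α : V.O) : k)⁻¹, h2⟩ : V.O) = 1 := by
    rw [← map_mul, h3, map_one]
  rw [h1, zero_mul] at h4
  exact zero_ne_one h4

private theorem nvp {k : Type u} [Field k] (V : Plc k) {m : ℕ} (U : Set k)
    (hU : ∀ u ∈ U, u ∈ V.O ∧ u⁻¹ ∈ V.O) (q : (MvPolynomial (Fin m) V.O)[X]) (i : ℕ)
    (h0 : q.coeff i ≠ 0) (hq : cf (pm V.O.subtype q) ⊆ U) :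
    MvPolynomial.map V.ρ (q.coeff i) ≠ 0 := by
  refine nvq V U hU (q.coeff i) h0 fun α => hq ⟨i, α, ?_⟩
  unfold pm
  rw [coe_mapRingHom, Polynomial.coeff_map, MvPolynomial.coeff_map]
  rfl

private theorem nvr {k : Type u} [Field k] (V : Plc k) {m : ℕ} (U : Set k)
    (hU : ∀ u ∈ U, u ∈ V.O ∧ u⁻¹ ∈ V.O) (q : (MvPolynomial (Fin m) V.O)[X])
    (h0 : q ≠ 0) (hq : cf (pm V.O.subtype q) ⊆ U) : pm V.ρ q ≠ 0 := by
  intro hc
  have h1 : q.coeff q.natDegree ≠ 0 := by
    have := Polynomial.leadingCoeff_ne_zero.mpr h0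
    exact this
  refine nvp V U hU q q.natDegree h1 hq ?_
  have h2 : (pm V.ρ q).coeff q.natDegree = 0 := by rw [hc, Polynomial.coeff_zero]
  unfold pm at h2
  rw [coe_mapRingHom, Polynomial.coeff_map] at h2
  exact h2

theorem exists_data {k : Type u} [Field k] [CharZero k] [IsAlgClosed k] (T : Tow k) (n : ℕ)
    (htr : ∀ i, n ≤ i → T.P i = 0 ∧ T.R i = 0) (hW : ∀ i < n, T.W i ≠ 0)
    (h : MvPolynomial (Fin n) k) (hh : h ≠ 0) :
    ∃ (V : ℕ → Plc k) (TO : (j : ℕ) → Tow (V j).O) (c : (j : ℕ) → ℕ → ℕ → (V j).κ) (r : ℕ → ℕ)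
      (hO : MvPolynomial (Fin n) (V n).O),
      (∀ i j, i ≠ j → (V i).p ≠ (V j).p) ∧
      (∀ j, (TO j).map (V j).O.subtype = T) ∧
      (∀ j ≤ n, 0 < r j ∧ ((TO j).map (V j).ρ).Orb j (c j) ∧
        (∀ t, ∀ i < j, tv (c j t) (((TO j).map (V j).ρ).W i) ≠ 0) ∧
        ∀ t, ∀ i < j, c j (t + r j) i = c j t i) ∧
      (∀ j < n, T.P j ≠ 0 →
        ∀ t, mv (c j t) (MvPolynomial.map (V j).ρ ((TO j).P j).leadingCoeff) ≠ 0) ∧
      MvPolynomial.map (V n).O.subtype hO = h ∧
      ∀ t, mv (c n t) (MvPolynomial.map (V n).ρ hO) ≠ 0 := by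
  classical
  obtain ⟨V, hVp, hVU⟩ := exists_places
    ((⋃ i ∈ Finset.range n, (cf (T.P i) ∪ cf (T.R i) ∪ cf (T.W i))) ∪ cf (C h))
    (Set.Finite.union (Set.Finite.biUnion (Finset.finite_toSet _) fun i _ =>
      ((cf_finite _).union (cf_finite _)).union (cf_finite _)) (cf_finite _))
  set U : Set k := (⋃ i ∈ Finset.range n, (cf (T.P i) ∪ cf (T.R i) ∪ cf (T.W i))) ∪ cf (C h)
    with hUdef
  have hP : ∀ i < n, cf (T.P i) ⊆ U := fun i hi a ha => Or.inl (by
    simp only [Set.mem_iUnion]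
    exact ⟨i, Finset.mem_range.mpr hi, Or.inl (Or.inl ha)⟩)
  have hR : ∀ i < n, cf (T.R i) ⊆ U := fun i hi a ha => Or.inl (by
    simp only [Set.mem_iUnion]
    exact ⟨i, Finset.mem_range.mpr hi, Or.inl (Or.inr ha)⟩)
  have hWU : ∀ i < n, cf (T.W i) ⊆ U := fun i hi a ha => Or.inl (by
    simp only [Set.mem_iUnion]
    exact ⟨i, Finset.mem_range.mpr hi, Or.inr ha⟩)
  have hUO : ∀ j, U ⊆ (V j).O := fun j u hu => (hVU j u hu).1
  have hlP : ∀ j i, ∃ q : (MvPolynomial (Fin i) (V j).O)[X], pm (V j).O.subtype q = T.P i := by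
    intro j i
    by_cases hi : i < n
    · exact exists_lift _ _ ((hP i hi).trans (hUO j))
    · exact ⟨0, by rw [map_zero, (htr i (by omega)).1]⟩
  have hlR : ∀ j i, ∃ q : (MvPolynomial (Fin i) (V j).O)[X], pm (V j).O.subtype q = T.R i := by
    intro j i
    by_cases hi : i < n
    · exact exists_lift _ _ ((hR i hi).trans (hUO j))
    · exact ⟨0, by rw [map_zero, (htr i (by omega)).2]⟩
  choose P' hP' using hlP
  choose R' hR' using hlR
  let TO : (j : ℕ) → Tow (V j).O := fun j => ⟨P' j, R' j⟩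
  have hTO : ∀ j, (TO j).map (V j).O.subtype = T := by
    intro j
    obtain ⟨P, R⟩ := T
    simp only [Tow.map, TO, Tow.mk.injEq]
    exact ⟨funext fun i => hP' j i, funext fun i => hR' j i⟩
  have hlh : ∀ j, ∃ g : MvPolynomial (Fin n) (V j).O, MvPolynomial.map (V j).O.subtype g = h := by
    intro j
    obtain ⟨q, hq⟩ := exists_lift (V j).O (C h : (MvPolynomial (Fin n) k)[X])
      (fun a ha => hUO j (Or.inr ha))
    refine ⟨q.coeff 0, ?_⟩
    have := congrArg (fun r : (MvPolynomial (Fin n) k)[X] => r.coeff 0) hq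
    unfold pm at this
    simpa using this
  choose hO hhO using hlh
  have hhO' : ∀ j, MvPolynomial.map (V j).ρ (hO j) ≠ 0 := by
    intro j
    refine nvq (V j) U (hVU j) (hO j) ?_ ?_
    · intro h0
      apply hh
      rw [← hhO j, h0, map_zero]
    · intro α
      refine Or.inr ⟨0, α, ?_⟩
      rw [Polynomial.coeff_C_zero, ← hhO j, MvPolynomial.coeff_map]
      rfl
  have hWO : ∀ j, ∀ i < n, ((TO j).map (V j).ρ).W i ≠ 0 := by
    intro j i hi
    have h1 : pm (V j).O.subtype ((TO j).W i) = T.W i := by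
      rw [← pm_W, hTO j]
    rw [pm_W]
    refine nvr (V j) U (hVU j) _ ?_ ?_
    · intro h0
      apply hW i hi
      rw [← h1, h0, map_zero]
    · rw [h1]; exact hWU i hi
  have hlead : ∀ j < n, T.P j ≠ 0 →
      MvPolynomial.map (V j).ρ ((TO j).P j).leadingCoeff ≠ 0 := by
    intro j hj hne
    have h1 : pm (V j).O.subtype ((TO j).P j) = T.P j := hP' j j
    refine nvp (V j) U (hVU j) ((TO j).P j) _ ?_ ?_
    · have : (TO j).P j ≠ 0 := by
        intro h0
        apply hne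
        rw [← h1, h0, map_zero]
      exact Polynomial.leadingCoeff_ne_zero.mpr this
    · rw [h1]; exact hP j hj
  have key : ∀ j, ∃ (c : ℕ → ℕ → (V j).κ) (r : ℕ),
      (j ≤ n → 0 < r ∧ ((TO j).map (V j).ρ).Orb j c ∧
        (∀ t, ∀ i < j, tv (c t) (((TO j).map (V j).ρ).W i) ≠ 0) ∧
        ∀ t, ∀ i < j, c (t + r) i = c t i) ∧
      (j < n → T.P j ≠ 0 →
        ∀ t, mv (c t) (MvPolynomial.map (V j).ρ ((TO j).P j).leadingCoeff) ≠ 0) ∧
      (j = n → ∀ t, mv (c t) (MvPolynomial.map (V j).ρ (hO j)) ≠ 0) := by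
    intro j
    rcases lt_trichotomy j n with hj | hj | hj
    · by_cases hne : T.P j = 0
      · obtain ⟨c, r, h1, h2, h3, -, h5⟩ := exists_cycle (V j).fin ((TO j).map (V j).ρ) j
          (fun i hi => hWO j i (by omega)) 1 one_ne_zero
        exact ⟨c, r, fun _ => ⟨h1, h2, h3, h5⟩, fun _ h => absurd hne h, fun h => absurd h hj.ne⟩
      · obtain ⟨c, r, h1, h2, h3, h4, h5⟩ := exists_cycle (V j).fin ((TO j).map (V j).ρ) j
          (fun i hi => hWO j i (by omega)) _ (hlead j hj hne)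
        exact ⟨c, r, fun _ => ⟨h1, h2, h3, h5⟩, fun _ _ => h4, fun h => absurd h hj.ne⟩
    · have hcyc : ∃ (c : ℕ → ℕ → (V j).κ) (r : ℕ), 0 < r ∧ ((TO j).map (V j).ρ).Orb j c ∧
          (∀ t, ∀ i < j, tv (c t) (((TO j).map (V j).ρ).W i) ≠ 0) ∧
          (∀ t, mv (c t) (MvPolynomial.map (V j).ρ (hO j)) ≠ 0) ∧
          ∀ t, ∀ i < j, c (t + r) i = c t i := by
        clear_value TO
        subst hj
        exact exists_cycle (V j).fin ((TO j).map (V j).ρ) j
          (fun i hi => hWO j i (by omega)) _ (hhO' j)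
      obtain ⟨c, r, h1, h2, h3, h4, h5⟩ := hcyc
      exact ⟨c, r, fun _ => ⟨h1, h2, h3, h5⟩, fun h => absurd hj h.ne, fun _ => h4⟩
    · exact ⟨0, 1, fun h => absurd h (by omega), fun h => absurd h (by omega),
        fun h => absurd h (by omega)⟩
  choose c r hc1 hc2 hc3 using key
  exact ⟨V, TO, c, r, hO n, hVp, hTO, hc1, hc2, hhO n, hc3 n rfl⟩

end Pool.Agent.H51.TT
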