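import Pool.Agent.H51.TT.Defs

/-!
# Module Root: the Frobenius trick in one variable

PROOF.  Put `q = p ^ s`, `H = P - X ^ q * R`.  As `derivative (X ^ q) = 0` (`CharP κ p`, `s > 0`:
the bound forces `p ^ s ≥ 1`; if `s = 0` then `1 > natDegrees` forces all three polynomials
constant and `W = 0`, excluded), we get `H' = P' - X ^ q R'` and
`H' R - H R' = P' R - P R' =: W ≠ 0`.  In particular `H ≠ 0`, and `H` splits.  For a root `α` of
`H` of multiplicity `e`, `(X - α) ^ (e - 1)` divides `H` and `H'`, hence `W`.  So
`D = ∏_{α ∈ roots.toFinset} (X - α) ^ (e_α - 1)` divides `W` (`Finset.prod_dvd_of_coprime` or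
`Multiset` version; or: `H.roots - H.roots.dedup ≤ W.roots` by counting), and
`natDegree H - #(distinct roots) = natDegree D ≤ natDegree W ≤ natDegree P + natDegree R`.
Now `natDegree H = q + natDegree R` because `q + natDegree R > natDegree P`.  So the number of
distinct roots is at least `q + natDegree R - (natDegree P + natDegree R) > natDegree G`, hence
some root `α` of `H` is not a root of `G`.
-/

set_option autoImplicit false

open Polynomial

namespace Pool.Agent.H51.TT

universe u

theorem exists_root_frob {κ : Type u} [Field κ] [IsAlgClosed κ] {p : ℕ} [Fact p.Prime] [CharP κ p]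
    (P R G : κ[X]) (hW : derivative P * R - P * derivative R ≠ 0) (hG : G ≠ 0) {s : ℕ}
    (hs : P.natDegree + R.natDegree + G.natDegree < p ^ s) :
    ∃ x : κ, x ^ p ^ s * R.eval x = P.eval x ∧ G.eval x ≠ 0 := by
  classical
  set q := p ^ s with hq
  have hR : R ≠ 0 := by
    rintro rfl
    apply hW
    simp
  have hs0 : s ≠ 0 := by
    rintro rfl
    rw [pow_zero] at hq
    have hP0 : P.natDegree = 0 := by omega
    have hR0 : R.natDegree = 0 := by omega
    apply hW
    rw [derivative_of_natDegree_zero hP0, derivative_of_natDegree_zero hR0]
    simp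
  have hqz : (q : κ) = 0 := by
    rw [hq, Nat.cast_pow, CharP.cast_eq_zero, zero_pow hs0]
  by_contra hcon
  have hcon2 : ∀ x : κ, x ^ q * R.eval x = P.eval x → G.eval x = 0 := by
    intro x hx
    by_contra hg
    exact hcon ⟨x, hx, hg⟩
  set H : κ[X] := P - X ^ q * R with hH
  set W : κ[X] := derivative P * R - P * derivative R with hWd
  have hqpos : 0 < q := by omega
  have hdX : (X ^ q * R : κ[X]).natDegree = q + R.natDegree := by
    rw [natDegree_mul (pow_ne_zero _ X_ne_zero) hR, natDegree_X_pow]
  have hdH : H.natDegree = q + R.natDegree := by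
    rw [hH, natDegree_sub_eq_right_of_natDegree_lt, hdX]
    rw [hdX]
    omega
  have hH0 : H ≠ 0 := by
    intro h0
    rw [h0, natDegree_zero] at hdH
    omega
  have hder : derivative H = derivative P - X ^ q * derivative R := by
    rw [hH, derivative_sub, derivative_mul, derivative_X_pow]
    rw [hqz]
    simp
  have hWH : W = derivative H * R - H * derivative R := by
    rw [hder, hWd, hH]
    ring
  have hdW : W.natDegree ≤ P.natDegree + R.natDegree := by
    rw [hWd]
    refine (natDegree_sub_le _ _).trans (max_le ?_ ?_)
    · refine (natDegree_mul_le).trans ?_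
      have := natDegree_derivative_le P
      omega
    · refine (natDegree_mul_le).trans ?_
      have := natDegree_derivative_le R
      omega
  have hle : H.roots ≤ H.roots.dedup + W.roots := by
    rw [Multiset.le_iff_count]
    intro a
    rw [Multiset.count_add, count_roots, count_roots]
    by_cases ha : a ∈ H.roots
    · have h1 : Multiset.count a H.roots.dedup = 1 := by
        rw [Multiset.count_dedup, if_pos ha]
      rw [h1]
      have h2 : (X - C a) ^ (rootMultiplicity a H - 1) ∣ W := by
        rw [hWH]
        have h3 : (X - C a) ^ rootMultiplicity a H ∣ H := pow_rootMultiplicity_dvd H a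
        have h4 : (X - C a) ^ (rootMultiplicity a H - 1) ∣ derivative H :=
          pow_sub_one_dvd_derivative_of_pow_dvd h3
        have h5 : (X - C a) ^ (rootMultiplicity a H - 1) ∣ H :=
          (pow_dvd_pow _ (Nat.sub_le _ _)).trans h3
        exact dvd_sub (h4.mul_right _) (h5.mul_right _)
      have h6 : rootMultiplicity a H - 1 ≤ rootMultiplicity a W :=
        (le_rootMultiplicity_iff hW).mpr h2
      omega
    · have h1 : rootMultiplicity a H = 0 := by
        rw [← count_roots]
        exact Multiset.count_eq_zero_of_notMem ha
      rw [h1]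
      exact Nat.zero_le _
  have hcard := Multiset.card_le_card hle
  rw [Multiset.card_add] at hcard
  have hsplit : Multiset.card H.roots = H.natDegree :=
    (IsAlgClosed.splits H).natDegree_eq_card_roots.symm
  have hWc : Multiset.card W.roots ≤ W.natDegree := card_roots' W
  have hGc : Multiset.card H.roots.dedup ≤ G.natDegree := by
    have h1 : H.roots.dedup ≤ G.roots := by
      rw [Multiset.le_iff_subset (Multiset.nodup_dedup _)]
      intro a ha
      rw [Multiset.mem_dedup, mem_roots hH0] at ha
      rw [mem_roots hG]
      apply hcon2
      have h2 : H.eval a = 0 := ha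
      rw [hH, eval_sub, eval_mul, eval_pow, eval_X, sub_eq_zero] at h2
      exact h2.symm
    exact (Multiset.card_le_card h1).trans (card_roots' G)
  omega

end Pool.Agent.H51.TT
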