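import Pool.Agent.H51.TT.Sub

/-!
# Module Sig: the base field, its endomorphism and the evaluation at a dense orbit

`S = MvPolynomial (Fin m) k`, `L = FractionRing S`, `E = 𝕂`.

PROOF.  `j : L →+* 𝕂` is `IsFractionRing.lift` of `g ↦ mv z (map g)` (injective by `hz`).
`ev : L →+* 𝓖` is `IsLocalization.lift` (`nonZeroDivisors S`) of `g ↦ cl (t ↦ mv (x t) g)`, a ring
homomorphism, with `hcl`.
`σ`: the homomorphism `s : S → L`, `s = MvPolynomial.eval₂Hom` with
`X i ↦ algebraMap (emb _ (T.P i)) / algebraMap (emb _ (T.R i))` (`T.R i ≠ 0`, so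
`emb _ (T.R i) ≠ 0`: its value at `z` is `tv z (R i)`, which is `≠ 0` by `hRz`).
`j (s g) = φ (j (algebraMap g))`: both sides are ring homomorphisms `S → 𝕂`; compare on constants
(`φ` fixes `k`) and on `X i` (`hφ`, `mv_map_emb`).  So `s` is injective (`φ`, `j` are), and extends
to `σ : L →+* L` (`IsFractionRing.lift`); `φ ∘ j = j ∘ σ` because both are ring homomorphisms on
the fraction field which agree on `S`.
`τ ∘ ev = ev ∘ σ`: agree on `S` is enough (`IsLocalization.ringHom_ext`), so on constants (clear)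
and on `X i`: `τ (ev X_i) = cl (t ↦ x (t+1) i)`, `ev (σ X_i) * ev (emb R_i) = ev (emb P_i)`, and
`x (t+1) i * tv (x t) (T.R i) = tv (x t) (T.P i)`, `cl (t ↦ tv (x t) (T.R i))` is a unit of `𝓖`
(image of a unit of `ℕ → k`).
-/

set_option autoImplicit false

open Polynomial

namespace Pool.Agent.H51.TT

universe u

theorem exists_sigma {k : Type u} [Field k] (T : Tow k) (m : ℕ) {𝕂 : Type u} [Field 𝕂]
    [Algebra k 𝕂] (z : ℕ → 𝕂)
    (hz : ∀ g : MvPolynomial (Fin m) k, mv z (MvPolynomial.map (algebraMap k 𝕂) g) = 0 → g = 0)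
    (φ : 𝕂 →ₐ[k] 𝕂) (hRz : ∀ i < m, tv z ((T.map (algebraMap k 𝕂)).R i) ≠ 0)
    (hφ : ∀ i < m, φ (z i) * tv z ((T.map (algebraMap k 𝕂)).R i) =
      tv z ((T.map (algebraMap k 𝕂)).P i))
    {𝓖 : Type u} [CommRing 𝓖] (x : ℕ → ℕ → k) (hx : T.Orb m x) (cl : (ℕ → k) →+* 𝓖)
    (τ : 𝓖 →+* 𝓖)
    (hcl : ∀ g : MvPolynomial (Fin m) k, g ≠ 0 → IsUnit (cl fun t => mv (x t) g))
    (hτ : ∀ a, τ (cl a) = cl fun t => a (t + 1)) :
    ∃ (j : FractionRing (MvPolynomial (Fin m) k) →+* 𝕂)
      (σ : FractionRing (MvPolynomial (Fin m) k) →+* FractionRing (MvPolynomial (Fin m) k))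
      (ev : FractionRing (MvPolynomial (Fin m) k) →+* 𝓖),
      (∀ g, j (algebraMap (MvPolynomial (Fin m) k) _ g) =
        mv z (MvPolynomial.map (algebraMap k 𝕂) g)) ∧
      (∀ g, ev (algebraMap (MvPolynomial (Fin m) k) _ g) = cl fun t => mv (x t) g) ∧
      (∀ l, φ (j l) = j (σ l)) ∧ ∀ l, τ (ev l) = ev (σ l) := by
  classical
  let S := MvPolynomial (Fin m) k
  let L := FractionRing S
  -- the embedding into `𝕂`
  let jS : S →+* 𝕂 := (mv z).comp (MvPolynomial.map (algebraMap k 𝕂))
  have hjS : Function.Injective jS := by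
    rw [injective_iff_map_eq_zero]
    intro g hg
    exact hz g hg
  let j : L →+* 𝕂 := IsFractionRing.lift hjS
  have hj : ∀ g : S, j (algebraMap S L g) = jS g := fun g => IsFractionRing.lift_algebraMap hjS g
  -- the evaluation at the orbit
  let evS : S →+* 𝓖 := cl.comp (RingHom.pi fun t => (mv (x t) : S →+* k))
  have hevS : ∀ g : S, evS g = cl fun t => mv (x t) g := fun g => rfl
  have hunit : ∀ y : nonZeroDivisors S, IsUnit (evS y) := fun y =>
    hcl y (nonZeroDivisors.coe_ne_zero y)
  let ev : L →+* 𝓖 := IsLocalization.lift (M := nonZeroDivisors S) hunit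
  have hev : ∀ g : S, ev (algebraMap S L g) = evS g := fun g => IsLocalization.lift_eq hunit g
  -- the endomorphism
  have hR : ∀ i : Fin m, emb i.2 (T.R i) ≠ 0 := by
    intro i h0
    apply hRz i i.2
    have h1 := mv_map_emb i.2 (algebraMap k 𝕂) z (T.R i)
    rw [h0, map_zero, map_zero] at h1
    exact h1.symm
  let s : S →+* L := MvPolynomial.eval₂Hom ((algebraMap S L).comp MvPolynomial.C)
    (fun i : Fin m => algebraMap S L (emb i.2 (T.P i)) / algebraMap S L (emb i.2 (T.R i)))
  have hsC : ∀ r : k, s (MvPolynomial.C r) = algebraMap S L (MvPolynomial.C r) := fun r =>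
    MvPolynomial.eval₂Hom_C _ _ r
  have hsX : ∀ i : Fin m, s (MvPolynomial.X i) =
      algebraMap S L (emb i.2 (T.P i)) / algebraMap S L (emb i.2 (T.R i)) := fun i =>
    MvPolynomial.eval₂Hom_X' _ _ i
  have hinj : Function.Injective (algebraMap S L) := IsFractionRing.injective S L
  have hRL : ∀ i : Fin m, algebraMap S L (emb i.2 (T.R i)) ≠ 0 := fun i h =>
    hR i (hinj (h.trans (map_zero _).symm))
  have hjs : j.comp s = (φ : 𝕂 →+* 𝕂).comp jS := by
    apply MvPolynomial.ringHom_ext
    · intro r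
      rw [RingHom.comp_apply, RingHom.comp_apply, hsC, hj]
      have h1 : jS (MvPolynomial.C r) = algebraMap k 𝕂 r := by
        change (MvPolynomial.eval fun j : Fin m => z j)
          (MvPolynomial.map (algebraMap k 𝕂) (MvPolynomial.C r)) = _
        rw [MvPolynomial.map_C, MvPolynomial.eval_C]
      rw [h1]
      exact (φ.commutes r).symm
    · intro i
      rw [RingHom.comp_apply, RingHom.comp_apply, hsX, map_div₀, hj, hj]
      have h1 : jS (emb i.2 (T.P i)) = tv z ((T.map (algebraMap k 𝕂)).P i) :=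
        mv_map_emb i.2 (algebraMap k 𝕂) z (T.P i)
      have h2 : jS (emb i.2 (T.R i)) = tv z ((T.map (algebraMap k 𝕂)).R i) :=
        mv_map_emb i.2 (algebraMap k 𝕂) z (T.R i)
      have h3 : jS (MvPolynomial.X i) = z i := by
        change (MvPolynomial.eval fun j : Fin m => z j)
          (MvPolynomial.map (algebraMap k 𝕂) (MvPolynomial.X i)) = _
        rw [MvPolynomial.map_X, MvPolynomial.eval_X]
      rw [h1, h2, h3, div_eq_iff (hRz i i.2)]
      exact (hφ i i.2).symm
  have hs : Function.Injective s := by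
    have h1 : Function.Injective (j.comp s) := by
      rw [hjs]
      exact (RingHom.injective (φ : 𝕂 →+* 𝕂)).comp hjS
    intro a b hab
    apply h1
    change j (s a) = j (s b)
    rw [hab]
  let σ : L →+* L := IsFractionRing.lift hs
  have hσ : ∀ g : S, σ (algebraMap S L g) = s g := fun g => IsFractionRing.lift_algebraMap hs g
  have hfin1 : (φ : 𝕂 →+* 𝕂).comp j = j.comp σ := by
    apply IsLocalization.ringHom_ext (nonZeroDivisors S)
    refine RingHom.ext fun g => ?_
    rw [RingHom.comp_apply, RingHom.comp_apply, RingHom.comp_apply, RingHom.comp_apply, hj, hσ]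
    exact (congrArg (fun q : S →+* 𝕂 => q g) hjs).symm
  have hfin2 : τ.comp ev = ev.comp σ := by
    apply IsLocalization.ringHom_ext (nonZeroDivisors S)
    apply MvPolynomial.ringHom_ext
    · intro r
      rw [RingHom.comp_apply, RingHom.comp_apply, RingHom.comp_apply, RingHom.comp_apply, hσ, hsC,
        hev, hevS, hτ]
      simp [mv]
    · intro i
      rw [RingHom.comp_apply, RingHom.comp_apply, RingHom.comp_apply, RingHom.comp_apply, hσ, hsX,
        hev, hevS, hτ]
      have hu : IsUnit (ev (algebraMap S L (emb i.2 (T.R i)))) := by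
        rw [hev]
        exact hcl _ (hR i)
      apply hu.mul_right_cancel
      rw [← map_mul, div_mul_cancel₀ _ (hRL i), hev, hev, hevS, hevS, ← map_mul]
      congr 1
      funext t
      have h1 := mv_emb i.2 (x t) (T.P i)
      have h2 := mv_emb i.2 (x t) (T.R i)
      rw [h1]
      simp only [Pi.mul_apply]
      rw [h2]
      have h3 : (mv (x (t + 1)) : S →+* k) (MvPolynomial.X i) = x (t + 1) i := by
        simp [mv]
      rw [h3]
      exact hx.step t i i.2
  exact ⟨j, σ, ev, hj, fun g => (hev g).trans (hevS g),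
    fun l => congrArg (fun q : L →+* 𝕂 => q l) hfin1,
    fun l => congrArg (fun q : L →+* 𝓖 => q l) hfin2⟩

end Pool.Agent.H51.TT
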