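import Pool.Agent.H51.TT.Defs

/-!
# Module Sub: substitution of the map into a polynomial, with denominators

PROOF.  `MvPolynomial.induction_on g`.  Constants: `D = 1`, `g' = C a`.  Sum: `D = D₁ D₂`,
`g' = g₁' D₂ + g₂' D₁`.  Multiplication by `X i` (`i : Fin m`): `D = D₁ * emb i.2 (T.R i)`,
`g' = g₁' * emb i.2 (T.P i)`; `mv_map_emb` gives the values of `emb`.
-/

set_option autoImplicit false

open Polynomial

namespace Pool.Agent.H51.TT

universe u

theorem exists_subst {k : Type u} [Field k] (T : Tow k) (m : ℕ) (g : MvPolynomial (Fin m) k) :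
    ∃ D g' : MvPolynomial (Fin m) k, ∀ (E : Type u) [Field E] (f : k →+* E) (x y : ℕ → E),
      (∀ i < m, tv x ((T.map f).R i) ≠ 0 ∧ y i * tv x ((T.map f).R i) = tv x ((T.map f).P i)) →
      mv x (MvPolynomial.map f D) ≠ 0 ∧
      mv y (MvPolynomial.map f g) * mv x (MvPolynomial.map f D) = mv x (MvPolynomial.map f g') := by
  induction g using MvPolynomial.induction_on with
  | C a =>
    refine ⟨1, MvPolynomial.C a, fun E _ f x y _ => ⟨?_, ?_⟩⟩
    · rw [map_one, map_one]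
      exact one_ne_zero
    · rw [map_one, map_one, mul_one, MvPolynomial.map_C]
      unfold mv
      rw [MvPolynomial.eval_C, MvPolynomial.eval_C]
  | add g₁ g₂ h₁ h₂ =>
    obtain ⟨D₁, g₁', h₁⟩ := h₁
    obtain ⟨D₂, g₂', h₂⟩ := h₂
    refine ⟨D₁ * D₂, g₁' * D₂ + g₂' * D₁, fun E _ f x y h => ?_⟩
    obtain ⟨a1, a2⟩ := h₁ E f x y h
    obtain ⟨b1, b2⟩ := h₂ E f x y h
    refine ⟨?_, ?_⟩
    · rw [map_mul, map_mul]
      exact mul_ne_zero a1 b1
    · simp only [map_add, map_mul]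
      rw [← a2, ← b2]
      ring
  | mul_X g i hg =>
    obtain ⟨D₁, g₁', h₁⟩ := hg
    refine ⟨D₁ * emb i.2 (T.R i), g₁' * emb i.2 (T.P i), fun E _ f x y h => ?_⟩
    obtain ⟨a1, a2⟩ := h₁ E f x y h
    obtain ⟨c1, c2⟩ := h i i.2
    have e1 : mv x (MvPolynomial.map f (emb i.2 (T.R i))) = tv x ((T.map f).R i) :=
      mv_map_emb i.2 f x (T.R i)
    have e2 : mv x (MvPolynomial.map f (emb i.2 (T.P i))) = tv x ((T.map f).P i) :=
      mv_map_emb i.2 f x (T.P i)
    have e3 : mv y (MvPolynomial.map f (MvPolynomial.X i)) = y i := by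
      rw [MvPolynomial.map_X]
      unfold mv
      rw [MvPolynomial.eval_X]
    refine ⟨?_, ?_⟩
    · rw [map_mul, map_mul, e1]
      exact mul_ne_zero a1 c1
    · rw [map_mul, map_mul, map_mul, map_mul, map_mul, map_mul, e1, e2, e3, ← a2, ← c2]
      ring

end Pool.Agent.H51.TT
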